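import Mathlib

set_option autoImplicit false

/-!
# MP_8b8716_co, project HN: definitions

The chromatic number of `F ^ 2` for the fields `F` which contain the constructible numbers.
-/

noncomputable section

namespace Pool.Agent.MP_8b8716_co_HN

open Complex MeasureTheory Filter Topology Set
open scoped ENNReal

instance instMeasurableSpaceCircle : MeasurableSpace Circle := borel Circle

instance instBorelSpaceCircle : BorelSpace Circle := ⟨rfl⟩

/-- the character `w ↦ exp (2 π i Re (ξ w))` of the plane -/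
def el (ξ w : ℂ) : Circle := Circle.exp (2 * Real.pi * (ξ * w).re)

/-- additive characters, as functions -/
def IsChar {S : Type*} [Add S] (x : S → Circle) : Prop := ∀ a b, x (a + b) = x a * x b

/-- the action of the multiplications on functions -/
def mulAct {S : Type*} [Mul S] (c : S) (x : S → Circle) : S → Circle := fun w => x (c * w)

/-- `σ` is invariant under the elements of modulus one of `E` -/
def Inv (E : Subfield ℂ) (σ : Measure (E → Circle)) : Prop :=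
  ∀ c : E, ‖(c : ℂ)‖ = 1 → MeasurePreserving (mulAct c) σ σ

/-! ### The Gaussian numbers -/

/-- the Gaussian rational numbers -/
def KG : Subfield ℂ where
  carrier := {z | ∃ a b : ℚ, z = (a : ℂ) + b * I}
  mul_mem' := by
    rintro _ _ ⟨a, b, rfl⟩ ⟨c, d, rfl⟩
    refine ⟨a * c - b * d, a * d + b * c, ?_⟩
    push_cast
    linear_combination (b : ℂ) * d * I_mul_I
  one_mem' := ⟨1, 0, by simp⟩
  add_mem' := by
    rintro _ _ ⟨a, b, rfl⟩ ⟨c, d, rfl⟩
    exact ⟨a + c, b + d, by push_cast; ring⟩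
  zero_mem' := ⟨0, 0, by simp⟩
  neg_mem' := by
    rintro _ ⟨a, b, rfl⟩
    exact ⟨-a, -b, by push_cast; ring⟩
  inv_mem' := by
    rintro _ ⟨a, b, rfl⟩
    refine ⟨a / (a ^ 2 + b ^ 2), -b / (a ^ 2 + b ^ 2), ?_⟩
    by_cases h : a ^ 2 + b ^ 2 = 0
    · have ha : a = 0 := by nlinarith [sq_nonneg a, sq_nonneg b]
      have hb : b = 0 := by nlinarith [sq_nonneg a, sq_nonneg b]
      simp [ha, hb]
    · have h2 : ((a : ℂ) ^ 2 + (b : ℂ) ^ 2) ≠ 0 := by exact_mod_cast h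
      have h3 : ((a : ℂ) + b * I) * (a - b * I) = (a : ℂ) ^ 2 + (b : ℂ) ^ 2 := by
        linear_combination (-(b : ℂ) ^ 2) * I_mul_I
      push_cast
      have h7 : ((a : ℂ) / (a ^ 2 + b ^ 2) + -b / (a ^ 2 + b ^ 2) * I) =
          (a - b * I) / (a ^ 2 + b ^ 2) := by ring
      rw [h7]
      apply inv_eq_of_mul_eq_one_right
      rw [mul_div_assoc', h3, div_self h2]

/-- the prime `2 + i` -/
def pp : KG := ⟨2 + I, 2, 1, by push_cast; ring⟩

/-- the prime `2 - i` -/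
def pb : KG := ⟨2 - I, 2, -1, by push_cast; ring⟩

/-- `(2 + i) / (2 - i)`, of modulus one -/
def th : KG := pp / pb

/-- the Gaussian integers -/
def Zi : Subring KG where
  carrier := {w | ∃ a b : ℤ, (w : ℂ) = (a : ℂ) + b * I}
  mul_mem' := by
    rintro x y ⟨a, b, h⟩ ⟨c, d, h'⟩
    refine ⟨a * c - b * d, a * d + b * c, ?_⟩
    push_cast
    rw [h, h']
    linear_combination (b : ℂ) * d * I_mul_I
  one_mem' := ⟨1, 0, by simp⟩
  add_mem' := by
    rintro x y ⟨a, b, h⟩ ⟨c, d, h'⟩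
    exact ⟨a + c, b + d, by push_cast; rw [h, h']; ring⟩
  zero_mem' := ⟨0, 0, by simp⟩
  neg_mem' := by
    rintro x ⟨a, b, h⟩
    exact ⟨-a, -b, by push_cast; rw [h]; ring⟩

/-- Gaussian integers which are not divisible by `2 - i` -/
def Ndiv (d : KG) : Prop := d ∈ Zi ∧ ∀ e ∈ Zi, d ≠ pb * e

/-- the numbers integral at `2 - i` -/
def K0 : Set KG := {w | ∃ g ∈ Zi, ∃ d, Ndiv d ∧ w = g / d}

/-- the numbers of valuation at least `n` at `2 - i` -/
def Kn (n : ℤ) : Set KG := {w | th ^ n * w ∈ K0}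

/-- the lattice `D⁻¹ (2 - i) ^ (-k) ℤ[i]` -/
def Lt (D : KG) (k : ℤ) : Set KG := {w | ∃ g ∈ Zi, w = g / (D * pb ^ k)}

/-- `u` is, on `L`, the character `el ξ` for a small `ξ` -/
def Near (ρ : ℝ) (L : Set KG) (u : KG → Circle) : Prop := ∃ ξ : ℂ, ‖ξ‖ ≤ ρ ∧ ∀ w ∈ L, u w = el ξ w

/-- the `σ`-algebra generated by the coordinates in `S` -/
@[reducible] def FS (S : Set KG) : MeasurableSpace (KG → Circle) :=
  ⨆ w ∈ S, MeasurableSpace.comap (fun y : KG → Circle => y w) inferInstance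

/-- the characters which are (continuous) + (torsion) on all `D⁻¹ ℤ[i][1 / (2 - i)]` -/
def AA : Set (KG → Circle) := {y | ∀ D, Ndiv D → ∃ m : ℕ, 0 < m ∧ ∃ ξ : ℂ, ∀ k : ℕ,
  ∀ w ∈ Lt D k, y (m * w) = el (m * ξ) w}

/-- the elements of `AA` with `‖ξ‖ ≤ R` -/
def AAR (R : ℝ) : Set (KG → Circle) := {y | ∀ D, Ndiv D → ∃ m : ℕ, 0 < m ∧ ∃ ξ : ℂ, ‖ξ‖ ≤ R ∧
  ∀ k : ℕ, ∀ w ∈ Lt D k, y (m * w) = el (m * ξ) w}

/-- trigonometric polynomials -/
def trig (β : KG →₀ ℂ) (y : KG → Circle) : ℂ := β.sum fun z b => b * (y z : ℂ)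

/-- the part of `β` with frequencies in `S` -/
def cut (S : Set KG) (β : KG →₀ ℂ) : KG →₀ ℂ := by
  classical exact β.filter (· ∈ S)

/-- `D y` is the conditional probability of `y 1`, given the values of `y` on `Kn 1` -/
structure Digit (ν : Measure (KG → Circle)) (D : (KG → Circle) → ℝ≥0∞) : Prop where
  meas : Measurable[FS K0] D
  le_one : ∀ y, D y ≤ 1
  step : ∀ (β : KG →₀ ℂ) (G : (KG → Circle) → ℝ≥0∞), (∀ z ∈ β.support, z ∈ K0) →
    (∀ y, IsChar y → ∃ r : ℝ, 0 ≤ r ∧ trig β y = r) → Measurable[FS (Kn 1)] G →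
    ∫⁻ y, ENNReal.ofReal (trig β y).re * (D y)⁻¹ * G y ∂ν ≤
      ∫⁻ y, ENNReal.ofReal (5 * (trig (cut (Kn 1) β) y).re) * G y ∂ν
  det : ∃ Θ : (KG → Circle) → Circle, Measurable[FS (Kn 1)] Θ ∧
    ∀ᵐ y ∂ν, D y = 1 → y 1 = Θ y

/-- the number of `k < n` such that `θ ^ k y` is not in `G` -/
def bad (G : Set (KG → Circle)) (n : ℕ) (y : KG → Circle) : ℕ := by
  classical exact ((Finset.range n).filter fun k => mulAct (th ^ k) y ∉ G).card

/-- on `G` the next digit is determined by the previous ones -/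
def Good (D : KG) (ρ : ℝ) (G : Set (KG → Circle)) : Prop :=
  ∀ y ∈ G, ∀ y' ∈ G, IsChar y → IsChar y' → Near ρ (Lt D (-1)) (y / y') → Near ρ (Lt D 0) (y / y')

/-- the ball of radius `ρ` with respect to the lattice `Lt D n` -/
def Ball (D : KG) (n : ℕ) (ρ : ℝ) (y : KG → Circle) : Set (KG → Circle) :=
  {y' | IsChar y' ∧ Near ρ (Lt D n) (y' / y)}

/-! ### Euclidean fields -/

/-- `E = F(i)` for a field `F` of real algebraic numbers -/
structure Euc (E : Subfield ℂ) : Prop where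
  i_mem : I ∈ E
  re_mem : ∀ z ∈ E, ((z.re : ℝ) : ℂ) ∈ E
  alg : ∀ z ∈ E, IsAlgebraic ℚ z
  ctb : Countable E

/-- the unit circle has a point `(q, y)`, `q` rational, `y ∈ E`, such that `l` divides the
denominator of `2 q` -/
def PtAt (E : Subfield ℂ) (l : ℕ) : Prop :=
  ∃ (q : ℚ) (y : ℝ), (y : ℂ) ∈ E ∧ (q : ℝ) ^ 2 + y ^ 2 = 1 ∧ padicValRat l (2 * q) < 0

/-- the restriction of `x` to the line `z KG` -/
def line {E : Subfield ℂ} (hE : KG ≤ E) (z : E) (x : E → Circle) : KG → Circle :=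
  fun w => x (z * ⟨w, hE w.2⟩)

/-- the functions which are continuous at `0` in the topology of the plane -/
def Leaf (E : Subfield ℂ) : Set (E → Circle) :=
  {x | Tendsto x (comap (fun z : E => (z : ℂ)) (𝓝 0)) (𝓝 1)}

/-! ### Random colourings -/

/-- an invariant random proper colouring -/
structure RandCol (E : Subfield ℂ) (k : ℕ) (μ : Measure (E → Fin k)) : Prop where
  prob : IsProbabilityMeasure μ
  proper : ∀ z w : E, ‖(z : ℂ) - w‖ = 1 → μ {ω | ω z = ω w} = 0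
  inv : ∀ c b : E, ‖(c : ℂ)‖ = 1 →
    MeasurePreserving (fun (ω : E → Fin k) (z : E) => ω (c * z + b)) μ μ

/-- the translation of colourings -/
def shift {E : Subfield ℂ} {k : ℕ} (b : E) (ω : E → Fin k) : E → Fin k := fun z => ω (z + b)

/-- the indicator function of the event that the colour of `0` is `i` -/
def ind {E : Subfield ℂ} {k : ℕ} (i : Fin k) (ω : E → Fin k) : ℝ := if ω 0 = i then 1 else 0

/-- `ψ : E → ℝ` is uniformly continuous for the topology of the plane -/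
def UC {E : Subfield ℂ} (ψ : E → ℝ) : Prop :=
  ∀ ε > 0, ∃ δ > 0, ∀ u v : E, ‖(u : ℂ) - v‖ < δ → |ψ u - ψ v| < ε

/-- a soft colouring -/
structure Soft (E : Subfield ℂ) (k : ℕ) (μ : Measure (E → Fin k))
    (g : Fin k → (E → Fin k) → ℝ) : Prop where
  meas : ∀ i, Measurable (g i)
  nonneg : ∀ i ω, 0 ≤ g i ω
  le_one : ∀ i ω, g i ω ≤ 1
  sum : ∀ᵐ ω ∂μ, ∑ i, g i ω = 1
  cont : ∀ i, ∀ ε > 0, ∃ δ > 0, ∀ z : E, ‖(z : ℂ)‖ < δ → ∫ ω, (g i (shift z ω) - g i ω) ^ 2 ∂μ < ε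
  orth : ∀ i (c : E), ‖(c : ℂ)‖ = 1 → ∫ ω, g i (shift c ω) * g i ω ∂μ = 0

/-- the constructible real numbers: the least subfield of `ℝ` closed under square roots of
nonnegative elements -/
def Constr : Subfield ℝ := sInf {F : Subfield ℝ | ∀ x ∈ F, 0 ≤ x → Real.sqrt x ∈ F}

/-- admissible fields `F`: for every prime number `l` which is not `1` modulo `4` the unit circle
has a point `(q, y)` with `q` rational, `y ∈ F`, such that `l` divides the denominator of `2 q` -/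
def Adm (F : Subfield ℝ) : Prop :=
  ∀ l : ℕ, l.Prime → l % 4 ≠ 1 → ∃ q : ℚ, ∃ y ∈ F, (q : ℝ) ^ 2 + y ^ 2 = 1 ∧
    padicValRat l (2 * q) < 0

end Pool.Agent.MP_8b8716_co_HN
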