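import Mathlib
import Pool.Agent.Lib.MP_8b8716_co_HN.Defs

set_option autoImplicit false

/-!
# MP_8b8716_co, project HN: first facts
-/

noncomputable section

namespace Pool.Agent.MP_8b8716_co_HN

open Complex MeasureTheory Filter Topology Set
open scoped ENNReal

/-! ### The characters `el ξ` -/

theorem el_zero_left (w : ℂ) : el 0 w = 1 := by simp [el]

theorem el_zero_right (ξ : ℂ) : el ξ 0 = 1 := by simp [el]

theorem el_add_left (ξ ξ' w : ℂ) : el (ξ + ξ') w = el ξ w * el ξ' w := by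
  unfold el
  rw [← Circle.exp_add, add_mul, add_re, mul_add]

theorem el_add_right (ξ w w' : ℂ) : el ξ (w + w') = el ξ w * el ξ w' := by
  unfold el
  rw [← Circle.exp_add, mul_add ξ, add_re, mul_add (2 * Real.pi)]

theorem el_neg_left (ξ w : ℂ) : el (-ξ) w = (el ξ w)⁻¹ := by
  unfold el
  rw [← Circle.exp_neg, neg_mul, neg_re, mul_neg]

theorem el_neg_right (ξ w : ℂ) : el ξ (-w) = (el ξ w)⁻¹ := by
  unfold el
  rw [← Circle.exp_neg, mul_neg ξ, neg_re, mul_neg]

theorem el_sub_left (ξ ξ' w : ℂ) : el (ξ - ξ') w = el ξ w / el ξ' w := by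
  rw [sub_eq_add_neg, el_add_left, el_neg_left, div_eq_mul_inv]

theorem el_mul (ξ c w : ℂ) : el ξ (c * w) = el (ξ * c) w := by
  unfold el
  rw [mul_assoc ξ c w]

theorem el_natMul (ξ w : ℂ) (m : ℕ) : el (m * ξ) w = el ξ w ^ m := by
  induction m with
  | zero => simp [el_zero_left]
  | succ m ih =>
    rw [pow_succ, ← ih, ← el_add_left]
    congr 1
    push_cast
    ring

theorem continuous_el : Continuous fun p : ℂ × ℂ => el p.1 p.2 := by
  unfold el
  exact Circle.exp.continuous.comp (by fun_prop)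

theorem continuous_el_left (w : ℂ) : Continuous fun ξ : ℂ => el ξ w :=
  continuous_el.comp (by fun_prop : Continuous fun ξ : ℂ => (ξ, w))

theorem continuous_el_right (ξ : ℂ) : Continuous fun w : ℂ => el ξ w :=
  continuous_el.comp (by fun_prop : Continuous fun w : ℂ => (ξ, w))

theorem norm_el_sub_one_le (ξ w : ℂ) : ‖(el ξ w : ℂ) - 1‖ ≤ 2 * Real.pi * ‖ξ‖ * ‖w‖ := by
  unfold el
  rw [Circle.coe_exp]
  have h1 : ‖Complex.exp (((2 * Real.pi * (ξ * w).re : ℝ) : ℂ) * I) - 1‖ ≤
      ‖2 * Real.pi * (ξ * w).re‖ := by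
    have := Real.norm_exp_I_mul_ofReal_sub_one_le (x := 2 * Real.pi * (ξ * w).re)
    rwa [mul_comm I] at this
  refine h1.trans ?_
  rw [norm_mul, Real.norm_of_nonneg (by positivity : (0:ℝ) ≤ 2 * Real.pi)]
  have h2 : ‖(ξ * w).re‖ ≤ ‖ξ‖ * ‖w‖ := by
    rw [← norm_mul]
    exact abs_re_le_norm _
  calc 2 * Real.pi * ‖(ξ * w).re‖ ≤ 2 * Real.pi * (‖ξ‖ * ‖w‖) := by gcongr
    _ = _ := by ring

/-- if `el ξ w = 1` and `‖ξ w‖ < 1` then `Re (ξ w) = 0` -/
theorem re_eq_zero_of_el {ξ w : ℂ} (h : el ξ w = 1) (h1 : ‖ξ * w‖ < 1) : (ξ * w).re = 0 := by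
  unfold el at h
  rw [Circle.exp_eq_one] at h
  obtain ⟨n, hn⟩ := h
  have h2 : (ξ * w).re = n := by
    have h3 : (2 * Real.pi : ℝ) ≠ 0 := by positivity
    have h4 : 2 * Real.pi * ((ξ * w).re - n) = 0 := by
      rw [mul_sub, hn]
      ring
    rcases mul_eq_zero.1 h4 with h5 | h5
    · exact absurd h5 h3
    · linarith
  have h3 : |(n : ℝ)| < 1 := by
    rw [← h2]
    exact (abs_re_le_norm _).trans_lt h1
  have h4 : n = 0 := by
    have h5 : |n| < 1 := by exact_mod_cast h3
    exact Int.abs_lt_one_iff.1 h5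
  rw [h2, h4]
  simp

theorem isChar_el (E : Subfield ℂ) (ξ : ℂ) : IsChar fun w : E => el ξ w := by
  intro a b
  simp only [Subfield.coe_add, el_add_right]

/-! ### Characters -/

section
variable {S : Type*}

theorem IsChar.map_zero [AddGroup S] {x : S → Circle} (h : IsChar x) : x 0 = 1 := by
  have h1 := h 0 0
  rw [add_zero] at h1
  exact (mul_eq_left.1 h1.symm)

theorem IsChar.map_neg [AddGroup S] {x : S → Circle} (h : IsChar x) (a : S) : x (-a) = (x a)⁻¹ := by
  have h1 := h a (-a)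
  rw [add_neg_cancel, h.map_zero] at h1
  exact (inv_eq_of_mul_eq_one_right h1.symm).symm

theorem IsChar.map_sub [AddGroup S] {x : S → Circle} (h : IsChar x) (a b : S) :
    x (a - b) = x a / x b := by
  rw [sub_eq_add_neg, h, h.map_neg, div_eq_mul_inv]

theorem IsChar.map_natMul [Ring S] {x : S → Circle} (h : IsChar x) (m : ℕ) (w : S) :
    x (m * w) = x w ^ m := by
  induction m with
  | zero => simp [h.map_zero]
  | succ m ih =>
    rw [Nat.cast_add, Nat.cast_one, add_mul, one_mul, h, ih, pow_succ]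

theorem IsChar.map_intMul [Ring S] {x : S → Circle} (h : IsChar x) (m : ℤ) (w : S) :
    x (m * w) = x w ^ m := by
  obtain ⟨n, rfl | rfl⟩ := m.eq_nat_or_neg
  · simp only [Int.cast_natCast, zpow_natCast]
    exact h.map_natMul n w
  · simp only [Int.cast_neg, Int.cast_natCast, neg_mul, zpow_neg, zpow_natCast]
    rw [h.map_neg, h.map_natMul]

theorem IsChar.mul [Add S] {x y : S → Circle} (h : IsChar x) (h' : IsChar y) :
    IsChar (x * y) := by
  intro a b
  simp only [Pi.mul_apply, h a b, h' a b]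
  exact mul_mul_mul_comm _ _ _ _

theorem IsChar.inv [Add S] {x : S → Circle} (h : IsChar x) : IsChar x⁻¹ := by
  intro a b
  simp only [Pi.inv_apply, h a b, mul_inv]

theorem IsChar.div [Add S] {x y : S → Circle} (h : IsChar x) (h' : IsChar y) :
    IsChar (x / y) := by
  rw [div_eq_mul_inv]
  exact h.mul h'.inv

theorem IsChar.mulAct [Ring S] {x : S → Circle} (h : IsChar x) (c : S) : IsChar (mulAct c x) := by
  intro a b
  simp only [Pool.Agent.MP_8b8716_co_HN.mulAct, mul_add]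
  exact h _ _

theorem mulAct_mulAct [CommRing S] (a b : S) (x : S → Circle) :
    mulAct a (mulAct b x) = mulAct (a * b) x := by
  funext w
  simp only [mulAct]
  congr 1
  ring

theorem mulAct_one [CommRing S] (x : S → Circle) : mulAct 1 x = x := by
  funext w
  simp [mulAct]

theorem mulAct_div_apply [CommRing S] (c : S) (x y : S → Circle) :
    mulAct c (x / y) = mulAct c x / mulAct c y := rfl

theorem measurable_mulAct [Mul S] (c : S) : Measurable (mulAct c : (S → Circle) → S → Circle) :=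
  measurable_pi_lambda _ fun _ => measurable_pi_apply _

theorem continuous_mulAct [Mul S] (c : S) : Continuous (mulAct c : (S → Circle) → S → Circle) :=
  continuous_pi fun _ => continuous_apply _

theorem isClosed_isChar [Add S] : IsClosed {x : S → Circle | IsChar x} := by
  have h : {x : S → Circle | IsChar x} = ⋂ a, ⋂ b, {x : S → Circle | x (a + b) = x a * x b} := by
    ext x
    simp [IsChar]
  rw [h]
  refine isClosed_iInter fun a => isClosed_iInter fun b => isClosed_eq ?_ ?_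
  · exact continuous_apply _
  · exact (continuous_apply _).mul (continuous_apply _)

instance instCountableKG : Countable KG := by
  have h : Function.Surjective fun p : ℚ × ℚ => (⟨(p.1 : ℂ) + p.2 * I, p.1, p.2, rfl⟩ : KG) := by
    rintro ⟨z, a, b, h⟩
    exact ⟨(a, b), Subtype.ext h.symm⟩
  exact h.countable

theorem measurableSet_isChar [Add S] [Countable S] :
    MeasurableSet {x : S → Circle | IsChar x} := by
  have h : {x : S → Circle | IsChar x} = ⋂ a, ⋂ b, {x : S → Circle | x (a + b) = x a * x b} := by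
    ext x
    simp [IsChar]
  rw [h]
  refine MeasurableSet.iInter fun a => MeasurableSet.iInter fun b => measurableSet_eq_fun ?_ ?_
  · exact measurable_pi_apply _
  · exact (measurable_pi_apply _).mul (measurable_pi_apply _)

end

/-! ### Near -/

theorem Near.mono {ρ ρ' : ℝ} {L L' : Set KG} {u : KG → Circle} (h : Near ρ L u) (hρ : ρ ≤ ρ')
    (hL : L' ⊆ L) : Near ρ' L' u := by
  obtain ⟨ξ, h1, h2⟩ := h
  exact ⟨ξ, h1.trans hρ, fun w hw => h2 w (hL hw)⟩

theorem Near.inv {ρ : ℝ} {L : Set KG} {u : KG → Circle} (h : Near ρ L u) : Near ρ L u⁻¹ := by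
  obtain ⟨ξ, h1, h2⟩ := h
  refine ⟨-ξ, by rwa [norm_neg], fun w hw => ?_⟩
  rw [el_neg_left, ← h2 w hw, Pi.inv_apply]

theorem Near.mul {ρ ρ' : ℝ} {L : Set KG} {u v : KG → Circle} (h : Near ρ L u)
    (h' : Near ρ' L v) : Near (ρ + ρ') L (u * v) := by
  obtain ⟨ξ, h1, h2⟩ := h
  obtain ⟨ξ', h1', h2'⟩ := h'
  refine ⟨ξ + ξ', (norm_add_le _ _).trans (add_le_add h1 h1'), fun w hw => ?_⟩
  rw [el_add_left, ← h2 w hw, ← h2' w hw, Pi.mul_apply]

theorem Near.symm {ρ : ℝ} {L : Set KG} {y y' : KG → Circle} (h : Near ρ L (y / y')) :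
    Near ρ L (y' / y) := by
  have := h.inv
  rwa [inv_div] at this

theorem near_self {ρ : ℝ} (hρ : 0 ≤ ρ) {L : Set KG} (y : KG → Circle) : Near ρ L (y / y) := by
  refine ⟨0, by simpa using hρ, fun w _ => ?_⟩
  rw [el_zero_left]
  simp

/-- `θ` has modulus one -/
theorem norm_th : ‖(th : ℂ)‖ = 1 := by
  have h : (th : ℂ) = (2 + I) / (2 - I) := rfl
  have h1 : ‖(2 + I : ℂ)‖ = ‖(2 - I : ℂ)‖ := by
    rw [← Complex.norm_conj (2 + I)]
    congr 1
    apply Complex.ext <;> simp
  have h2 : ‖(2 - I : ℂ)‖ ≠ 0 := by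
    rw [norm_ne_zero_iff]
    intro h3
    have := congrArg Complex.re h3
    simp at this
  rw [h, norm_div, h1, div_self h2]

theorem th_ne_zero : th ≠ 0 := by
  intro h
  have h1 := norm_th
  rw [h] at h1
  simp at h1

theorem norm_th_zpow (n : ℤ) : ‖((th ^ n : KG) : ℂ)‖ = 1 := by
  have h : ((th ^ n : KG) : ℂ) = (th : ℂ) ^ n := map_zpow₀ KG.subtype th n
  rw [h, norm_zpow, norm_th, one_zpow]

theorem Near.of_mulAct {ρ : ℝ} {L : Set KG} {u : KG → Circle} {c : KG} (hc : ‖(c : ℂ)‖ = 1)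
    (h : Near ρ L (Pool.Agent.MP_8b8716_co_HN.mulAct c u)) : Near ρ ((fun w => c * w) '' L) u := by
  obtain ⟨ξ, h1, h2⟩ := h
  have hc0 : (c : ℂ) ≠ 0 := by
    intro h3
    rw [h3] at hc
    simp at hc
  refine ⟨ξ * (c : ℂ)⁻¹, by rw [norm_mul, norm_inv, hc]; simpa using h1, ?_⟩
  rintro _ ⟨w, hw, rfl⟩
  have h3 := h2 w hw
  simp only [Pool.Agent.MP_8b8716_co_HN.mulAct] at h3
  simp only [h3, Subfield.coe_mul, el_mul]
  congr 1
  rw [inv_mul_cancel_right₀ hc0]

theorem Near.mulAct {ρ : ℝ} {L : Set KG} {u : KG → Circle} {c : KG} (hc : ‖(c : ℂ)‖ = 1)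
    (h : Near ρ ((fun w => c * w) '' L) u) :
    Near ρ L (Pool.Agent.MP_8b8716_co_HN.mulAct c u) := by
  obtain ⟨ξ, h1, h2⟩ := h
  refine ⟨ξ * c, by rw [norm_mul, hc, mul_one]; exact h1, fun w hw => ?_⟩
  have h3 := h2 _ ⟨w, hw, rfl⟩
  simp only [Pool.Agent.MP_8b8716_co_HN.mulAct]
  rw [h3, Subfield.coe_mul, el_mul]

/-! ### Euclidean fields -/

theorem Euc.KG_le {E : Subfield ℂ} (hE : Euc E) : KG ≤ E := by
  rintro _ ⟨a, b, rfl⟩
  exact E.add_mem (SubfieldClass.ratCast_mem E a)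
    (E.mul_mem (SubfieldClass.ratCast_mem E b) hE.i_mem)

theorem line_mulAct {E : Subfield ℂ} (hE : KG ≤ E) (z c : E) (x : E → Circle) :
    line hE z (Pool.Agent.MP_8b8716_co_HN.mulAct c x) = line hE (c * z) x := by
  funext w
  simp only [line, Pool.Agent.MP_8b8716_co_HN.mulAct]
  congr 1
  ring

theorem line_KG_mul {E : Subfield ℂ} (hE : KG ≤ E) (z : E) (c : KG) (x : E → Circle) :
    line hE (z * ⟨c, hE c.2⟩) x = Pool.Agent.MP_8b8716_co_HN.mulAct c (line hE z x) := by
  funext w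
  simp only [line, Pool.Agent.MP_8b8716_co_HN.mulAct]
  congr 1
  apply Subtype.ext
  simp only [Subfield.coe_mul]
  ring

theorem isChar_line {E : Subfield ℂ} (hE : KG ≤ E) (z : E) {x : E → Circle} (hx : IsChar x) :
    IsChar (line hE z x) := by
  intro a b
  simp only [line]
  rw [← hx]
  congr 1
  apply Subtype.ext
  simp only [Subfield.coe_mul, Subfield.coe_add]
  ring

theorem line_add {E : Subfield ℂ} (hE : KG ≤ E) (z z' : E) {x : E → Circle} (hx : IsChar x) :
    line hE (z + z') x = line hE z x * line hE z' x := by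
  funext w
  simp only [line, Pi.mul_apply]
  rw [← hx, add_mul]

theorem measurable_line {E : Subfield ℂ} (hE : KG ≤ E) (z : E) :
    Measurable (line hE z) :=
  measurable_pi_lambda _ fun _ => measurable_pi_apply _

end Pool.Agent.MP_8b8716_co_HN
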