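import Mathlib
import Pool.Agent.Lib.MP_8b8716_co_HN.Basic

set_option autoImplicit false

/-!
# MP_8b8716_co, project HN: the lattices `Lt D k` and characters
-/

noncomputable section

namespace Pool.Agent.MP_8b8716_co_HN

open Complex MeasureTheory Filter Topology Set
open scoped ENNReal

namespace NumC

theorem norm_pb : ‖(pb : ℂ)‖ = Real.sqrt 5 := by
  have h : (pb : ℂ) = 2 - I := rfl
  rw [h, Complex.norm_eq_sqrt_sq_add_sq]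
  congr 1
  simp
  norm_num

theorem pb_ne_zero : pb ≠ 0 := by
  intro h
  have h1 := norm_pb
  rw [h] at h1
  have h2 : (0:ℝ) < Real.sqrt 5 := by positivity
  simp at h1
  linarith

theorem ne_zero_of_Ndiv {D : KG} (hD : Ndiv D) : D ≠ 0 := by
  intro h
  exact hD.2 0 Zi.zero_mem (by rw [h, mul_zero])

/-- the imaginary unit of `KG` -/
def II : KG := ⟨I, 0, 1, by simp⟩

theorem coe_II : (II : ℂ) = I := rfl

theorem II_mem_Zi : II ∈ Zi := ⟨0, 1, by simp [coe_II]⟩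

theorem basis_ne {D : KG} (hD : D ≠ 0) (n : ℤ) : (D * pb ^ n)⁻¹ ≠ 0 :=
  inv_ne_zero (mul_ne_zero hD (zpow_ne_zero n pb_ne_zero))

theorem basis_mem (D : KG) (n : ℤ) : (D * pb ^ n)⁻¹ ∈ Lt D n :=
  ⟨1, Zi.one_mem, (one_div _).symm⟩

theorem basis_mem' (D : KG) (n : ℤ) : II * (D * pb ^ n)⁻¹ ∈ Lt D n :=
  ⟨II, II_mem_Zi, (div_eq_mul_inv _ _).symm⟩

theorem mem_Lt_iff (D : KG) (n : ℤ) (w : KG) : w ∈ Lt D n ↔
    ∃ a b : ℤ, w = a * (D * pb ^ n)⁻¹ + b * (II * (D * pb ^ n)⁻¹) := by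
  constructor
  · rintro ⟨g, ⟨a, b, hg⟩, rfl⟩
    refine ⟨a, b, ?_⟩
    have h1 : g = a + b * II := by
      apply Subtype.ext
      rw [hg]
      push_cast
      rw [coe_II]
    rw [div_eq_mul_inv, h1]
    ring
  · rintro ⟨a, b, rfl⟩
    refine ⟨a + b * II, ⟨a, b, ?_⟩, ?_⟩
    · push_cast
      rw [coe_II]
    · rw [div_eq_mul_inv]
      ring

end NumC

theorem norm_pb_zpow (n : ℤ) : ‖((pb ^ n : KG) : ℂ)‖ = Real.sqrt 5 ^ n := by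
  have h : ((pb ^ n : KG) : ℂ) = (pb : ℂ) ^ n := map_zpow₀ KG.subtype pb n
  rw [h, norm_zpow, NumC.norm_pb]

theorem NumC.norm_basis (D : KG) (n : ℤ) :
    ‖(((D * pb ^ n)⁻¹ : KG) : ℂ)‖ = (‖(D : ℂ)‖ * Real.sqrt 5 ^ n)⁻¹ := by
  have h : (((D * pb ^ n)⁻¹ : KG) : ℂ) = ((D : ℂ) * ((pb ^ n : KG) : ℂ))⁻¹ := rfl
  rw [h, norm_inv, norm_mul, norm_pb_zpow]

theorem NumC.Lt_unique' {D : KG} (hD : D ≠ 0) {n : ℤ} {ξ : ℂ} (h : ∀ w ∈ Lt D n, el ξ w = 1)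
    (hs : ‖ξ‖ < ‖(D : ℂ)‖ * Real.sqrt 5 ^ n) : ξ = 0 := by
  have hw0 := NumC.basis_ne hD n
  have hw0' : (((D * pb ^ n)⁻¹ : KG) : ℂ) ≠ 0 := by
    intro h1
    exact hw0 (Subtype.ext h1)
  have hpos : 0 < ‖(D : ℂ)‖ * Real.sqrt 5 ^ n := lt_of_le_of_lt (norm_nonneg _) hs
  have hn1 : ‖ξ * (((D * pb ^ n)⁻¹ : KG) : ℂ)‖ < 1 := by
    rw [norm_mul, NumC.norm_basis, ← div_eq_mul_inv, div_lt_one hpos]
    exact hs
  have h1 := re_eq_zero_of_el (h _ (NumC.basis_mem D n)) hn1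
  have hn2 : ‖ξ * ((NumC.II * (D * pb ^ n)⁻¹ : KG) : ℂ)‖ < 1 := by
    have h3 : ((NumC.II * (D * pb ^ n)⁻¹ : KG) : ℂ) = I * (((D * pb ^ n)⁻¹ : KG) : ℂ) := rfl
    rw [h3, norm_mul, norm_mul, norm_I, one_mul, ← norm_mul]
    exact hn1
  have h2 := re_eq_zero_of_el (h _ (NumC.basis_mem' D n)) hn2
  have h3 : ξ * ((NumC.II * (D * pb ^ n)⁻¹ : KG) : ℂ) =
      I * (ξ * (((D * pb ^ n)⁻¹ : KG) : ℂ)) := by
    have h3 : ((NumC.II * (D * pb ^ n)⁻¹ : KG) : ℂ) = I * (((D * pb ^ n)⁻¹ : KG) : ℂ) := rfl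
    rw [h3]
    ring
  rw [h3] at h2
  have h4 : (ξ * (((D * pb ^ n)⁻¹ : KG) : ℂ)).im = 0 := by
    rw [Complex.mul_re, I_re, I_im, zero_mul, one_mul, zero_sub, neg_eq_zero] at h2
    exact h2
  have h5 : ξ * (((D * pb ^ n)⁻¹ : KG) : ℂ) = 0 := Complex.ext h1 h4
  rcases mul_eq_zero.1 h5 with h6 | h6
  · exact h6
  · exact absurd h6 hw0'

/-- uniqueness of the frequency -/
theorem Lt_unique {D : KG} (hD : Ndiv D) {n : ℤ} {ξ : ℂ} (h : ∀ w ∈ Lt D n, el ξ w = 1)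
    (hs : ‖ξ‖ < ‖(D : ℂ)‖ * Real.sqrt 5 ^ n) : ξ = 0 :=
  NumC.Lt_unique' (NumC.ne_zero_of_Ndiv hD) h hs

theorem eq_zero_of_el {ξ : ℂ} (h : ∀ k : ℕ, ∀ w ∈ Lt 1 k, el ξ w = 1) : ξ = 0 := by
  have h5 : (1 : ℝ) < Real.sqrt 5 := by
    rw [Real.lt_sqrt] <;> norm_num
  obtain ⟨k, hk⟩ := pow_unbounded_of_one_lt ‖ξ‖ h5
  refine NumC.Lt_unique' one_ne_zero (h k) ?_
  have h1 : ((1 : KG) : ℂ) = 1 := rfl
  rw [h1, norm_one, one_mul, zpow_natCast]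
  exact hk

theorem near_of_basis {D : KG} (hD : Ndiv D) (n : ℤ) {ρ : ℝ} (hρ : 0 < ρ) :
    ∃ δ > 0, ∀ u : KG → Circle, IsChar u → ‖(u (D * pb ^ n)⁻¹ : ℂ) - 1‖ ≤ δ →
      ‖(u (⟨I, 0, 1, by simp⟩ * (D * pb ^ n)⁻¹) : ℂ) - 1‖ ≤ δ → Near ρ (Lt D n) u := by
  have hD0 := NumC.ne_zero_of_Ndiv hD
  have hw0' : (((D * pb ^ n)⁻¹ : KG) : ℂ) ≠ 0 := by
    intro h1
    exact NumC.basis_ne hD0 n (Subtype.ext h1)
  have hwn : 0 < ‖(((D * pb ^ n)⁻¹ : KG) : ℂ)‖ := norm_pos_iff.2 hw0'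
  have hcont : ContinuousAt arg (1 : ℂ) := continuousAt_arg (by simp)
  have hε : 0 < Real.pi * (ρ * ‖(((D * pb ^ n)⁻¹ : KG) : ℂ)‖) := by positivity
  obtain ⟨δ, hδ, hδ'⟩ := Metric.continuousAt_iff.1 hcont _ hε
  have key : ∀ z : Circle, ‖(z : ℂ) - 1‖ ≤ δ / 2 →
      |arg (z : ℂ)| ≤ Real.pi * (ρ * ‖(((D * pb ^ n)⁻¹ : KG) : ℂ)‖) := by
    intro z hz
    have h1 : dist (z : ℂ) 1 < δ := by
      rw [dist_eq_norm]
      linarith
    have h2 := hδ' h1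
    rw [arg_one, dist_zero_right, Real.norm_eq_abs] at h2
    exact h2.le
  refine ⟨δ / 2, by positivity, fun u hu h1 h2 => ?_⟩
  have h1' := key _ h1
  have h2' := key _ h2
  have hI : (⟨I, 0, 1, by simp⟩ : KG) = NumC.II := rfl
  rw [hI] at h2'
  set w : KG := (D * pb ^ n)⁻¹ with hw
  set t1 : ℝ := arg (u w : ℂ) / (2 * Real.pi) with ht1
  set t2 : ℝ := arg (u (NumC.II * w) : ℂ) / (2 * Real.pi) with ht2
  have hpi : (0:ℝ) < 2 * Real.pi := by positivity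
  have b1 : |t1| ≤ ρ * ‖(w : ℂ)‖ / 2 := by
    rw [ht1, abs_div, abs_of_pos hpi, div_le_iff₀ hpi]
    refine h1'.trans (le_of_eq ?_)
    ring
  have b2 : |t2| ≤ ρ * ‖(w : ℂ)‖ / 2 := by
    rw [ht2, abs_div, abs_of_pos hpi, div_le_iff₀ hpi]
    refine h2'.trans (le_of_eq ?_)
    ring
  have e1 : 2 * Real.pi * t1 = arg (u w : ℂ) := by
    rw [ht1]; field_simp
  have e2 : 2 * Real.pi * t2 = arg (u (NumC.II * w) : ℂ) := by
    rw [ht2]; field_simp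
  have hξw : ((t1 : ℂ) - I * t2) / (w : ℂ) * (w : ℂ) = (t1 : ℂ) - I * t2 :=
    div_mul_cancel₀ _ hw0'
  have c1 : el (((t1 : ℂ) - I * t2) / (w : ℂ)) w = u w := by
    unfold el
    rw [hξw]
    have : ((t1 : ℂ) - I * t2).re = t1 := by simp
    rw [this, e1, Circle.exp_arg]
  have c2 : el (((t1 : ℂ) - I * t2) / (w : ℂ)) ((NumC.II * w : KG) : ℂ) = u (NumC.II * w) := by
    unfold el
    have h3 : ((NumC.II * w : KG) : ℂ) = I * (w : ℂ) := rfl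
    have h4 : ((t1 : ℂ) - I * t2) / (w : ℂ) * (I * (w : ℂ)) = I * ((t1 : ℂ) - I * t2) := by
      calc ((t1 : ℂ) - I * t2) / (w : ℂ) * (I * (w : ℂ)) =
          I * (((t1 : ℂ) - I * t2) / (w : ℂ) * (w : ℂ)) := by ring
        _ = _ := by rw [hξw]
    have h5 : (I * ((t1 : ℂ) - I * t2)).re = t2 := by simp
    rw [h3, h4, h5, e2, Circle.exp_arg]
  refine ⟨((t1 : ℂ) - I * t2) / (w : ℂ), ?_, ?_⟩
  · rw [norm_div, div_le_iff₀ hwn]
    calc ‖(t1 : ℂ) - I * t2‖ ≤ ‖(t1 : ℂ)‖ + ‖I * (t2 : ℂ)‖ := norm_sub_le _ _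
      _ = |t1| + |t2| := by
        rw [norm_mul, norm_I, one_mul, Complex.norm_real, Complex.norm_real, Real.norm_eq_abs,
          Real.norm_eq_abs]
      _ ≤ ρ * ‖(w : ℂ)‖ := by linarith
  · intro w' hw'
    obtain ⟨a, b, hab⟩ := (NumC.mem_Lt_iff D n w').1 hw'
    rw [← hw] at hab
    have hc := isChar_el KG (((t1 : ℂ) - I * t2) / (w : ℂ))
    have d1 : u w' = u w ^ a * u (NumC.II * w) ^ b := by
      rw [hab, hu, hu.map_intMul, hu.map_intMul]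
    have d2 : el (((t1 : ℂ) - I * t2) / (w : ℂ)) (w' : ℂ) =
        el (((t1 : ℂ) - I * t2) / (w : ℂ)) w ^ a *
          el (((t1 : ℂ) - I * t2) / (w : ℂ)) ((NumC.II * w : KG) : ℂ) ^ b := by
      have h6 := hc (a * w) (b * (NumC.II * w))
      have h7 := hc.map_intMul a w
      have h8 := hc.map_intMul b (NumC.II * w)
      simp only at h6 h7 h8
      rw [hab, h6, h7, h8]
    rw [d1, d2, c1, c2]

theorem NumC.isClosed_proj {X : Type*} [TopologicalSpace X] (ρ : ℝ) (P : X → ℂ → Prop)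
    (hP : IsClosed {p : X × ℂ | P p.1 p.2}) : IsClosed {x | ∃ ξ, ‖ξ‖ ≤ ρ ∧ P x ξ} := by
  have : CompactSpace (Metric.closedBall (0 : ℂ) ρ) :=
    isCompact_iff_compactSpace.1 (isCompact_closedBall _ _)
  have h1 : {x | ∃ ξ, ‖ξ‖ ≤ ρ ∧ P x ξ} =
      Prod.fst '' {p : X × Metric.closedBall (0 : ℂ) ρ | P p.1 p.2} := by
    ext x
    constructor
    · rintro ⟨ξ, h1, h2⟩
      exact ⟨(x, ⟨ξ, by simpa using h1⟩), h2, rfl⟩
    · rintro ⟨⟨x', ξ, hξ⟩, h2, rfl⟩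
      exact ⟨ξ, by simpa using hξ, h2⟩
  rw [h1]
  refine isClosedMap_fst_of_compactSpace _ ?_
  exact hP.preimage (f := fun p : X × Metric.closedBall (0 : ℂ) ρ => ((p.1, (p.2 : ℂ)) : X × ℂ))
    (by fun_prop)

theorem isClosed_Ball (D : KG) (n : ℕ) (ρ : ℝ) (y : KG → Circle) : IsClosed (Ball D n ρ y) := by
  have h1 : Ball D n ρ y = {y' | IsChar y'} ∩
      {y' | ∃ ξ : ℂ, ‖ξ‖ ≤ ρ ∧ ∀ w ∈ Lt D n, (y' / y) w = el ξ w} := rfl
  rw [h1]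
  refine isClosed_isChar.inter (NumC.isClosed_proj ρ _ ?_)
  have h2 : {p : (KG → Circle) × ℂ | ∀ w ∈ Lt D n, (p.1 / y) w = el p.2 w} =
      ⋂ w ∈ Lt D n, {p : (KG → Circle) × ℂ | p.1 w / y w = el p.2 w} := by
    ext p
    simp
  rw [h2]
  refine isClosed_biInter fun w _ => isClosed_eq ?_ ?_
  · exact ((continuous_apply w).comp continuous_fst).div' continuous_const
  · exact (continuous_el_left w).comp continuous_snd

theorem measurableSet_AAR (R : ℝ) : MeasurableSet (AAR R) := by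
  have h1 : AAR R = ⋂ D : KG, ⋂ _ : Ndiv D, ⋃ m : ℕ, ⋃ _ : 0 < m,
      {y : KG → Circle | ∃ ξ : ℂ, ‖ξ‖ ≤ R ∧ ∀ k : ℕ, ∀ w ∈ Lt D k, y (m * w) = el (m * ξ) w} := by
    ext y
    simp [AAR]
  rw [h1]
  refine MeasurableSet.iInter fun D => MeasurableSet.iInter fun _ => MeasurableSet.iUnion fun m =>
    MeasurableSet.iUnion fun _ => IsClosed.measurableSet (NumC.isClosed_proj R _ ?_)
  have h2 : {p : (KG → Circle) × ℂ | ∀ k : ℕ, ∀ w ∈ Lt D k, p.1 (m * w) = el (m * p.2) w} =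
      ⋂ k : ℕ, ⋂ w ∈ Lt D k, {p : (KG → Circle) × ℂ | p.1 (m * w) = el (m * p.2) w} := by
    ext p
    simp
  rw [h2]
  refine isClosed_iInter fun k => isClosed_biInter fun w _ => isClosed_eq ?_ ?_
  · exact (continuous_apply _).comp continuous_fst
  · exact (continuous_el_left w).comp (continuous_const.mul continuous_snd)

end Pool.Agent.MP_8b8716_co_HN
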