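import Pool.Agent.Lib.MP_8b8716_co_HN.NumB
import Pool.Agent.Lib.MP_8b8716_co_HN.NumC

set_option autoImplicit false

/-!
# MP_8b8716_co, project HN: facts on `AA`
-/

noncomputable section

namespace Pool.Agent.MP_8b8716_co_HN

open Complex MeasureTheory Filter Topology Set
open scoped ENNReal

private theorem natCast_mem_Zi' (m : ℕ) : (m : KG) ∈ Zi := natCast_mem Zi m

private theorem coe_natCast_mul' (m : ℕ) (w : KG) : ((((m : KG) * w : KG)) : ℂ) = (m : ℂ) * (w : ℂ) := by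
  push_cast
  rfl

theorem AA_unique {y : KG → Circle} {m m' : ℕ} {ξ ξ' : ℂ} (h0 : 0 < m) (h0' : 0 < m')
    (h : ∀ k : ℕ, ∀ w ∈ Lt 1 k, y (m * w) = el (m * ξ) w)
    (h' : ∀ k : ℕ, ∀ w ∈ Lt 1 k, y (m' * w) = el (m' * ξ') w) : ξ = ξ' := by
  have key : (m : ℂ) * ξ * m' - (m' : ℂ) * ξ' * m = 0 := by
    refine eq_zero_of_el fun k w hw => ?_
    have h1 := h k ((m' : KG) * w) (Lt_smul (natCast_mem_Zi' m') hw)
    have h2 := h' k ((m : KG) * w) (Lt_smul (natCast_mem_Zi' m) hw)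
    have h3 : (m : KG) * ((m' : KG) * w) = (m' : KG) * ((m : KG) * w) := by ring
    rw [h3, h2] at h1
    rw [coe_natCast_mul', coe_natCast_mul', el_mul, el_mul] at h1
    rw [el_sub_left, h1, div_self']
  have hm : (m : ℂ) ≠ 0 := by exact_mod_cast h0.ne'
  have hm' : (m' : ℂ) ≠ 0 := by exact_mod_cast h0'.ne'
  have h4 : (m : ℂ) * m' * (ξ - ξ') = 0 := by linear_combination key
  rcases mul_eq_zero.1 h4 with h5 | h5
  · exact absurd h5 (mul_ne_zero hm hm')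
  · exact sub_eq_zero.1 h5

theorem AA_iff (y : KG → Circle) : y ∈ AA ↔ ∃ ξ : ℂ, ∀ D, Ndiv D → ∃ m : ℕ, 0 < m ∧
    ∀ k : ℕ, ∀ w ∈ Lt D k, y (m * w) = el (m * ξ) w := by
  constructor
  · intro hy
    obtain ⟨m, hm, ξ, h⟩ := hy 1 Ndiv_one
    refine ⟨ξ, fun D hD => ?_⟩
    obtain ⟨m', hm', ξ', h'⟩ := hy D hD
    have hD1 : Ndiv (1 * D) := by rwa [one_mul]
    have hsub : ∀ k : ℤ, Lt 1 k ⊆ Lt D k := by
      intro k
      have := Lt_dvd hD1 hD.1 k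
      rwa [one_mul] at this
    have h'' : ∀ k : ℕ, ∀ w ∈ Lt 1 k, y (m' * w) = el (m' * ξ') w :=
      fun k w hw => h' k w (hsub k hw)
    have hξ := AA_unique hm hm' h h''
    subst hξ
    exact ⟨m', hm', h'⟩
  · rintro ⟨ξ, h⟩ D hD
    obtain ⟨m, hm, hk⟩ := h D hD
    exact ⟨m, hm, ξ, hk⟩

theorem AA_eq_iUnion : AA = ⋃ R : ℕ, AAR R := by
  ext y
  rw [mem_iUnion]
  constructor
  · intro hy
    obtain ⟨ξ, h⟩ := (AA_iff y).1 hy
    obtain ⟨R, hR⟩ := exists_nat_ge ‖ξ‖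
    refine ⟨R, fun D hD => ?_⟩
    obtain ⟨m, hm, hk⟩ := h D hD
    exact ⟨m, hm, ξ, hR, hk⟩
  · rintro ⟨R, hy⟩ D hD
    obtain ⟨m, hm, ξ, -, hk⟩ := hy D hD
    exact ⟨m, hm, ξ, hk⟩

theorem measurableSet_AA : MeasurableSet AA := by
  rw [AA_eq_iUnion]
  exact MeasurableSet.iUnion fun R => measurableSet_AAR R

theorem one_mem_AA : (1 : KG → Circle) ∈ AA := by
  intro D _
  refine ⟨1, one_pos, 0, fun k w _ => ?_⟩
  rw [mul_zero, el_zero_left, Pi.one_apply]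

theorem AAR_mul {R R' : ℝ} {y y' : KG → Circle} (h : y ∈ AAR R) (h' : y' ∈ AAR R') :
    y * y' ∈ AAR (R + R') := by
  intro D hD
  obtain ⟨m, hm, ξ, hR, hk⟩ := h D hD
  obtain ⟨m', hm', ξ', hR', hk'⟩ := h' D hD
  refine ⟨m * m', Nat.mul_pos hm hm', ξ + ξ', (norm_add_le _ _).trans (add_le_add hR hR'),
    fun k w hw => ?_⟩
  have h1 := hk k ((m' : KG) * w) (Lt_smul (natCast_mem_Zi' m') hw)
  have h2 := hk' k ((m : KG) * w) (Lt_smul (natCast_mem_Zi' m) hw)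
  rw [coe_natCast_mul', el_mul] at h1 h2
  have e1 : ((m * m' : ℕ) : KG) * w = (m : KG) * ((m' : KG) * w) := by push_cast; ring
  have e2 : ((m * m' : ℕ) : KG) * w = (m' : KG) * ((m : KG) * w) := by push_cast; ring
  rw [Pi.mul_apply]
  nth_rewrite 1 [e1]
  rw [e2, h1, h2, ← el_add_left]
  congr 1
  push_cast
  ring

theorem AA_mul {y y' : KG → Circle} (h : y ∈ AA) (h' : y' ∈ AA) : y * y' ∈ AA := by
  rw [AA_eq_iUnion, mem_iUnion] at h h' ⊢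
  obtain ⟨R, hR⟩ := h
  obtain ⟨R', hR'⟩ := h'
  refine ⟨R + R', ?_⟩
  have := AAR_mul hR hR'
  rwa [← Nat.cast_add] at this

theorem AA_mulAct {y : KG → Circle} (h : y ∈ AA) (c : KG) : mulAct c y ∈ AA := by
  obtain ⟨D', hD', j, hc⟩ := exists_mem_Lt c
  intro D hD
  obtain ⟨m, hm, ξ, hk⟩ := h (D * D') (Ndiv_mul hD hD')
  refine ⟨m, hm, ξ * c, fun k w hw => ?_⟩
  have h1 : w * c ∈ Lt (D * D') ((k + j : ℕ) : ℤ) := by
    have := Lt_mul hw hc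
    rwa [← Nat.cast_add] at this
  have h2 := hk (k + j) (w * c) h1
  have h3 : c * ((m : KG) * w) = (m : KG) * (w * c) := by ring
  rw [mulAct, h3, h2, Subfield.coe_mul, mul_comm (w : ℂ) (c : ℂ), el_mul, mul_assoc]

end Pool.Agent.MP_8b8716_co_HN
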