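import Mathlib
import Pool.Agent.Lib.MP_8b8716_co_HN.Basic

set_option autoImplicit false

/-!
# MP_8b8716_co, project HN: the soft colouring by averaging
-/

noncomputable section

namespace Pool.Agent.MP_8b8716_co_HN

open Complex MeasureTheory Filter Topology Set
open scoped ENNReal

namespace AvgPf

section
variable {E : Subfield ℂ} {k : ℕ} {μ : Measure (E → Fin k)}

theorem measurable_shift (b : E) : Measurable (shift b : (E → Fin k) → E → Fin k) :=
  measurable_pi_lambda _ fun _ => measurable_pi_apply _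

theorem mp_shift (hμ : RandCol E k μ) (b : E) : MeasurePreserving (shift b) μ μ := by
  have h := hμ.inv 1 b (by simp)
  simp only [one_mul] at h
  exact h

theorem shift_zero (ω : E → Fin k) : shift (0 : E) ω = ω := by
  funext z
  simp [shift]

theorem shift_shift (a b : E) (ω : E → Fin k) : shift a (shift b ω) = shift (a + b) ω := by
  funext z
  simp [shift, add_assoc]

theorem measurable_ind (i : Fin k) : Measurable (ind i : (E → Fin k) → ℝ) := by
  unfold ind
  have h : MeasurableSet {ω : E → Fin k | ω 0 = i} := by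
    have h1 : Measurable fun ω : E → Fin k => ω 0 := measurable_pi_apply 0
    exact h1 (measurableSet_singleton i)
  exact Measurable.ite h measurable_const measurable_const

theorem ind_nonneg (i : Fin k) (ω : E → Fin k) : 0 ≤ ind i ω := by
  unfold ind
  split_ifs <;> norm_num

theorem ind_le_one (i : Fin k) (ω : E → Fin k) : ind i ω ≤ 1 := by
  unfold ind
  split_ifs <;> norm_num

theorem sum_ind (ω : E → Fin k) : ∑ i, ind i ω = 1 := by
  simp [ind]

theorem integral_shift (hμ : RandCol E k μ) (v : E) {F : (E → Fin k) → ℝ} (hF : Measurable F) :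
    ∫ ω, F (shift v ω) ∂μ = ∫ ω, F ω ∂μ := by
  have h := mp_shift hμ v
  have h1 := integral_map (μ := μ) (f := F) h.measurable.aemeasurable
    (by rw [h.map_eq]; exact hF.aestronglyMeasurable)
  rw [← h1, h.map_eq]

/-- bounded measurable functions are integrable -/
theorem integrable_bdd (hμ : RandCol E k μ) {F : (E → Fin k) → ℝ} (hF : Measurable F) (C : ℝ)
    (hC : ∀ ω, |F ω| ≤ C) : Integrable F μ := by
  have := hμ.prob
  exact Integrable.of_bound hF.aestronglyMeasurable C (Eventually.of_forall hC)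

/-- the correlation function -/
def cor (μ : Measure (E → Fin k)) (i : Fin k) (u : E) : ℝ := ∫ ω, ind i (shift u ω) * ind i ω ∂μ

theorem cor_sub (hμ : RandCol E k μ) (i : Fin k) (u v : E) :
    ∫ ω, ind i (shift u ω) * ind i (shift v ω) ∂μ = cor μ i (u - v) := by
  have hm : Measurable fun ω : E → Fin k => ind i (shift (u - v) ω) * ind i ω :=
    ((measurable_ind i).comp (measurable_shift _)).mul (measurable_ind i)
  have h := integral_shift hμ v hm
  unfold cor
  rw [← h]
  refine integral_congr_ae (Eventually.of_forall fun ω => ?_)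
  simp only [shift_shift, sub_add_cancel]

/-- the points of the averages -/
def pt (E : Subfield ℂ) (n j : ℕ) : E := ((n + 1 + j : ℕ) : E)⁻¹

theorem coe_pt (n j : ℕ) : ((pt E n j : E) : ℂ) = ((n + 1 + j : ℕ) : ℂ)⁻¹ := by
  unfold pt
  rw [Subfield.coe_inv]
  simp

theorem norm_pt (n j : ℕ) : ‖((pt E n j : E) : ℂ)‖ ≤ 1 / ((n : ℝ) + 1) := by
  rw [coe_pt, norm_inv, Complex.norm_natCast, ← one_div]
  apply one_div_le_one_div_of_le (by positivity)
  push_cast
  linarith [(Nat.cast_nonneg j : (0:ℝ) ≤ j)]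

theorem pt_inj (n j l : ℕ) (h : pt E n j = pt E n l) : j = l := by
  have h1 := congrArg (fun z : E => (z : ℂ)) h
  simp only [coe_pt] at h1
  have h2 := Nat.cast_injective (R := ℂ) (inv_injective h1)
  omega

/-- the averages -/
def av (n : ℕ) (i : Fin k) (ω : E → Fin k) : ℝ :=
  (∑ j ∈ Finset.range (n + 1), ind i (shift (pt E n j) ω)) / ((n : ℝ) + 1)

theorem measurable_av (n : ℕ) (i : Fin k) : Measurable (av (E := E) n i) := by
  unfold av
  exact (Finset.measurable_fun_sum _ fun j _ =>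
    (measurable_ind i).comp (measurable_shift (pt E n j))).div_const _

theorem av_nonneg (n : ℕ) (i : Fin k) (ω : E → Fin k) : 0 ≤ av n i ω :=
  div_nonneg (Finset.sum_nonneg fun j _ => ind_nonneg i _) (by positivity)

theorem av_le_one (n : ℕ) (i : Fin k) (ω : E → Fin k) : av n i ω ≤ 1 := by
  unfold av
  rw [div_le_one (by positivity)]
  refine (Finset.sum_le_sum fun j _ => ind_le_one i _).trans ?_
  simp

theorem sum_av (n : ℕ) (ω : E → Fin k) : ∑ i, av n i ω = 1 := by
  unfold av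
  rw [← Finset.sum_div, Finset.sum_comm]
  simp only [sum_ind]
  simp only [Finset.sum_const, Finset.card_range, nsmul_eq_mul, mul_one]
  push_cast
  exact div_self (by positivity)

theorem integral_av (hμ : RandCol E k μ) (i : Fin k) (z : E) (n m : ℕ) :
    ∫ ω, av n i (shift z ω) * av m i ω ∂μ =
      (∑ j ∈ Finset.range (n + 1), ∑ l ∈ Finset.range (m + 1),
        cor μ i (pt E n j + z - pt E m l)) / (((n : ℝ) + 1) * ((m : ℝ) + 1)) := by
  have h1 : ∀ ω : E → Fin k, av n i (shift z ω) * av m i ω =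
      (∑ j ∈ Finset.range (n + 1), ∑ l ∈ Finset.range (m + 1),
        ind i (shift (pt E n j + z) ω) * ind i (shift (pt E m l) ω)) /
          (((n : ℝ) + 1) * ((m : ℝ) + 1)) := by
    intro ω
    unfold av
    rw [div_mul_div_comm, Finset.sum_mul_sum]
    simp only [shift_shift]
  simp only [h1]
  rw [integral_div]
  congr 1
  have hi : ∀ u v : E, Integrable
      (fun ω : E → Fin k => ind i (shift u ω) * ind i (shift v ω)) μ := by
    intro u v
    refine integrable_bdd hμ (((measurable_ind i).comp (measurable_shift _)).mul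
      ((measurable_ind i).comp (measurable_shift _))) 1 fun ω => ?_
    rw [abs_mul, abs_of_nonneg (ind_nonneg i _), abs_of_nonneg (ind_nonneg i _)]
    exact mul_le_one₀ (ind_le_one i _) (ind_nonneg i _) (ind_le_one i _)
  rw [integral_finsetSum _ fun j _ => integrable_finsetSum _ fun l _ => hi _ _]
  refine Finset.sum_congr rfl fun j _ => ?_
  rw [integral_finsetSum _ fun l _ => hi _ _]
  refine Finset.sum_congr rfl fun l _ => ?_
  exact cor_sub hμ i _ _

theorem est (hμ : RandCol E k μ) (i : Fin k) {ψ : E → ℝ} (hψ : UC ψ)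
    (h : ∀ u : E, u ≠ 0 → cor μ i u = ψ u) (z : E) {ε : ℝ} (hε : 0 < ε) :
    ∃ N : ℕ, ∀ n m : ℕ, N ≤ n → N ≤ m →
      |∫ ω, av n i (shift z ω) * av m i ω ∂μ - ψ z| ≤ ε := by
  classical
  obtain ⟨δ, hδ, hδ'⟩ := hψ (ε / 2) (by positivity)
  set C : ℝ := |cor μ i 0 - ψ 0| with hC
  have hC0 : 0 ≤ C := abs_nonneg _
  obtain ⟨N, hN⟩ := exists_nat_gt (2 / δ + 2 * C / ε)
  refine ⟨N, fun n m hn hm => ?_⟩
  have hN1 : 2 / δ < N := lt_of_le_of_lt (by
    have : 0 ≤ 2 * C / ε := by positivity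
    linarith) hN
  have hN2 : 2 * C / ε < N := lt_of_le_of_lt (by
    have : 0 ≤ 2 / δ := by positivity
    linarith) hN
  have hn' : (N : ℝ) ≤ n := by exact_mod_cast hn
  have hm' : (N : ℝ) ≤ m := by exact_mod_cast hm
  have hn0 : (0 : ℝ) < (n : ℝ) + 1 := by positivity
  have hm0 : (0 : ℝ) < (m : ℝ) + 1 := by positivity
  have hd : 1 / ((n : ℝ) + 1) + 1 / ((m : ℝ) + 1) < δ := by
    have h1 : 1 / ((n : ℝ) + 1) < δ / 2 := by
      rw [div_lt_iff₀ hn0]
      rw [div_lt_iff₀ hδ] at hN1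
      nlinarith
    have h2 : 1 / ((m : ℝ) + 1) < δ / 2 := by
      rw [div_lt_iff₀ hm0]
      rw [div_lt_iff₀ hδ] at hN1
      nlinarith
    linarith
  have hterm : ∀ j l : ℕ, |cor μ i (pt E n j + z - pt E m l) - ψ z| ≤
      ε / 2 + if pt E n j + z = pt E m l then C else 0 := by
    intro j l
    have h1 : |ψ (pt E n j + z - pt E m l) - ψ z| ≤ ε / 2 := by
      refine (hδ' _ _ ?_).le
      have h2 : ((pt E n j + z - pt E m l : E) : ℂ) - (z : ℂ) =
          ((pt E n j : E) : ℂ) - ((pt E m l : E) : ℂ) := by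
        push_cast
        ring
      rw [h2]
      exact ((norm_sub_le _ _).trans (add_le_add (norm_pt n j) (norm_pt m l))).trans_lt hd
    by_cases h3 : pt E n j + z = pt E m l
    · rw [if_pos h3]
      have h4 : pt E n j + z - pt E m l = 0 := sub_eq_zero.mpr h3
      rw [h4] at h1 ⊢
      calc |cor μ i 0 - ψ z| = |(cor μ i 0 - ψ 0) + (ψ 0 - ψ z)| := by
            congr 1
            ring
        _ ≤ |cor μ i 0 - ψ 0| + |ψ 0 - ψ z| := abs_add_le _ _
        _ ≤ ε / 2 + C := by linarith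
    · rw [if_neg h3, add_zero, h _ (sub_ne_zero.mpr h3)]
      exact h1
  have hinner : ∀ j : ℕ, ∑ l ∈ Finset.range (m + 1),
      (if pt E n j + z = pt E m l then C else 0) ≤ C := by
    intro j
    rw [← Finset.sum_filter, Finset.sum_const, nsmul_eq_mul]
    have h1 : (Finset.filter (fun l => pt E n j + z = pt E m l) (Finset.range (m + 1))).card ≤ 1 := by
      rw [Finset.card_le_one]
      intro a ha b hb
      rw [Finset.mem_filter] at ha hb
      exact pt_inj m a b (ha.2.symm.trans hb.2)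
    have h2 : ((Finset.filter (fun l => pt E n j + z = pt E m l)
        (Finset.range (m + 1))).card : ℝ) ≤ 1 := by exact_mod_cast h1
    nlinarith
  rw [integral_av hμ i z n m]
  have hsub : (∑ j ∈ Finset.range (n + 1), ∑ l ∈ Finset.range (m + 1),
        cor μ i (pt E n j + z - pt E m l)) / (((n : ℝ) + 1) * ((m : ℝ) + 1)) - ψ z =
      (∑ j ∈ Finset.range (n + 1), ∑ l ∈ Finset.range (m + 1),
        (cor μ i (pt E n j + z - pt E m l) - ψ z)) / (((n : ℝ) + 1) * ((m : ℝ) + 1)) := by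
    simp only [Finset.sum_sub_distrib, Finset.sum_const, Finset.card_range, nsmul_eq_mul]
    push_cast
    field_simp
  rw [hsub, abs_div, abs_of_pos (mul_pos hn0 hm0), div_le_iff₀ (mul_pos hn0 hm0)]
  calc |∑ j ∈ Finset.range (n + 1), ∑ l ∈ Finset.range (m + 1),
        (cor μ i (pt E n j + z - pt E m l) - ψ z)|
      ≤ ∑ j ∈ Finset.range (n + 1), ∑ l ∈ Finset.range (m + 1),
        |cor μ i (pt E n j + z - pt E m l) - ψ z| :=
        (Finset.abs_sum_le_sum_abs _ _).trans
          (Finset.sum_le_sum fun j _ => Finset.abs_sum_le_sum_abs _ _)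
    _ ≤ ∑ j ∈ Finset.range (n + 1), ∑ l ∈ Finset.range (m + 1),
        (ε / 2 + if pt E n j + z = pt E m l then C else 0) :=
        Finset.sum_le_sum fun j _ => Finset.sum_le_sum fun l _ => hterm j l
    _ ≤ ∑ _j ∈ Finset.range (n + 1), (((m : ℝ) + 1) * (ε / 2) + C) := by
        refine Finset.sum_le_sum fun j _ => ?_
        rw [Finset.sum_add_distrib]
        refine add_le_add ?_ (hinner j)
        simp
    _ = ((n : ℝ) + 1) * (((m : ℝ) + 1) * (ε / 2) + C) := by
        rw [Finset.sum_const, Finset.card_range, nsmul_eq_mul]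
        push_cast
        ring
    _ ≤ ε * (((n : ℝ) + 1) * ((m : ℝ) + 1)) := by
        have h5 : C ≤ ((m : ℝ) + 1) * (ε / 2) := by
          rw [div_lt_iff₀ hε] at hN2
          nlinarith
        nlinarith

theorem sq_expand (hμ : RandCol E k μ) {F G : (E → Fin k) → ℝ} (hF : Measurable F)
    (hG : Measurable G) (hF1 : ∀ ω, |F ω| ≤ 1) (hG1 : ∀ ω, |G ω| ≤ 1) :
    ∫ ω, (F ω - G ω) ^ 2 ∂μ =
      ∫ ω, F ω * F ω ∂μ - 2 * ∫ ω, F ω * G ω ∂μ + ∫ ω, G ω * G ω ∂μ := by
  have hi : ∀ {A B : (E → Fin k) → ℝ}, Measurable A → Measurable B → (∀ ω, |A ω| ≤ 1) →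
      (∀ ω, |B ω| ≤ 1) → Integrable (fun ω => A ω * B ω) μ := by
    intro A B hA hB hA1 hB1
    refine integrable_bdd hμ (hA.mul hB) 1 fun ω => ?_
    rw [abs_mul]
    exact mul_le_one₀ (hA1 ω) (abs_nonneg _) (hB1 ω)
  have h1 : ∀ ω, (F ω - G ω) ^ 2 = F ω * F ω - 2 * (F ω * G ω) + G ω * G ω := by
    intro ω
    ring
  simp only [h1]
  have h2 : ∫ ω, (F ω * F ω - 2 * (F ω * G ω) + G ω * G ω) ∂μ =
      ∫ ω, (F ω * F ω - 2 * (F ω * G ω)) ∂μ + ∫ ω, G ω * G ω ∂μ :=
    integral_add ((hi hF hF hF1 hF1).sub ((hi hF hG hF1 hG1).const_mul 2)) (hi hG hG hG1 hG1)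
  have h3 : ∫ ω, (F ω * F ω - 2 * (F ω * G ω)) ∂μ =
      ∫ ω, F ω * F ω ∂μ - ∫ ω, 2 * (F ω * G ω) ∂μ :=
    integral_sub (hi hF hF hF1 hF1) ((hi hF hG hF1 hG1).const_mul 2)
  rw [h2, h3, integral_const_mul]

theorem cauchy (hμ : RandCol E k μ) (i : Fin k) {ψ : E → ℝ} (hψ : UC ψ)
    (h : ∀ u : E, u ≠ 0 → cor μ i u = ψ u) {ε : ℝ} (hε : 0 < ε) :
    ∃ N : ℕ, ∀ n m : ℕ, N ≤ n → N ≤ m → ∫ ω, (av n i ω - av m i ω) ^ 2 ∂μ < ε := by
  obtain ⟨N, hN⟩ := est hμ i hψ h 0 (ε := ε / 8) (by positivity)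
  refine ⟨N, fun n m hn hm => ?_⟩
  have habs : ∀ (n : ℕ) (ω : E → Fin k), |av n i ω| ≤ 1 := fun n ω => by
    rw [abs_of_nonneg (av_nonneg n i ω)]
    exact av_le_one n i ω
  rw [sq_expand hμ (measurable_av n i) (measurable_av m i) (habs n) (habs m)]
  have h1 := hN n n hn hn
  have h2 := hN n m hn hm
  have h3 := hN m m hm hm
  simp only [shift_zero] at h1 h2 h3
  rw [abs_le] at h1 h2 h3
  linarith [h1.1, h1.2, h2.1, h2.2, h3.1, h3.2]

theorem eLp_lt (hμ : RandCol E k μ) {F : (E → Fin k) → ℝ} (hF : Measurable F)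
    (hF1 : ∀ ω, |F ω| ≤ 1) {c : ℝ} (hc : 0 < c) (h : ∫ ω, (F ω) ^ 2 ∂μ < c ^ 2) :
    eLpNorm F 1 μ < ENNReal.ofReal c := by
  have := hμ.prob
  have hi : Integrable F μ := integrable_bdd hμ hF 1 hF1
  have hi2 : Integrable (fun ω => (F ω) ^ 2) μ := by
    refine integrable_bdd hμ (hF.pow_const 2) 1 fun ω => ?_
    rw [abs_pow]
    exact pow_le_one₀ (abs_nonneg _) (hF1 ω)
  rw [eLpNorm_one_eq_lintegral_enorm, ← ofReal_integral_norm_eq_lintegral_enorm hi,
    ENNReal.ofReal_lt_ofReal_iff hc]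
  have h1 : ∫ ω, ‖F ω‖ ∂μ ≤ ∫ ω, (c / 2 + (F ω) ^ 2 / (2 * c)) ∂μ := by
    refine integral_mono hi.norm ((integrable_const _).add (hi2.div_const _)) fun ω => ?_
    simp only [Real.norm_eq_abs]
    have h2 : 0 ≤ (|F ω| - c) ^ 2 / (2 * c) := by positivity
    have h3 : (|F ω| - c) ^ 2 / (2 * c) = c / 2 + (F ω) ^ 2 / (2 * c) - |F ω| := by
      rw [sub_sq, sq_abs]
      field_simp
      ring
    linarith
  refine h1.trans_lt ?_
  have h5 : ∫ ω, (c / 2 + (F ω) ^ 2 / (2 * c)) ∂μ =
      c / 2 + (∫ ω, (F ω) ^ 2 ∂μ) / (2 * c) := by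
    rw [integral_add (integrable_const _) (hi2.div_const _)]
    congr 1
    · simp
    · exact integral_div _ _
  rw [h5]
  have h4 : (∫ ω, (F ω) ^ 2 ∂μ) / (2 * c) < c / 2 := by
    rw [div_lt_iff₀ (by positivity)]
    calc ∫ ω, (F ω) ^ 2 ∂μ < c ^ 2 := h
      _ = c / 2 * (2 * c) := by ring
  linarith

end

end AvgPf

open AvgPf in
/-- the soft colouring -/
theorem exists_soft {E : Subfield ℂ} (hE : KG ≤ E) {k : ℕ} {μ : Measure (E → Fin k)}
    (hμ : RandCol E k μ) (h : ∀ i : Fin k, ∃ ψ : E → ℝ, UC ψ ∧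
      ∀ u : E, u ≠ 0 → ∫ ω, ind i (shift u ω) * ind i ω ∂μ = ψ u) : ∃ g, Soft E k μ g := by
  have := hμ.prob
  choose ψ hψ hφ using h
  have hφ' : ∀ (i : Fin k) (u : E), u ≠ 0 → cor μ i u = ψ i u := hφ
  have habs : ∀ (n : ℕ) (i : Fin k) (ω : E → Fin k), |av n i ω| ≤ 1 := fun n i ω => by
    rw [abs_of_nonneg (av_nonneg n i ω)]
    exact av_le_one n i ω
  -- the modulus of the Cauchy property
  have hc : ∀ s : ℕ, ∃ N : ℕ, ∀ i, ∀ n m : ℕ, N ≤ n → N ≤ m →
      ∫ ω, (av n i ω - av m i ω) ^ 2 ∂μ < ((1 / 2 : ℝ) ^ s) ^ 2 := by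
    intro s
    have h1 : ∀ i : Fin k, ∃ N : ℕ, ∀ n m : ℕ, N ≤ n → N ≤ m →
        ∫ ω, (av n i ω - av m i ω) ^ 2 ∂μ < ((1 / 2 : ℝ) ^ s) ^ 2 := fun i =>
      cauchy hμ i (hψ i) (hφ' i) (by positivity)
    choose N hN using h1
    refine ⟨∑ i, N i, fun i n m hn hm => hN i n m ?_ ?_⟩
    · exact (Finset.single_le_sum (f := N) (fun _ _ => Nat.zero_le _) (Finset.mem_univ i)).trans hn
    · exact (Finset.single_le_sum (f := N) (fun _ _ => Nat.zero_le _) (Finset.mem_univ i)).trans hm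
  choose N hN using hc
  -- the subsequence
  let K : ℕ → ℕ := fun s => ∑ t ∈ Finset.range (s + 1), (N t + 1)
  have hK1 : ∀ {s t : ℕ}, s ≤ t → N s ≤ K t := by
    intro s t hst
    have := Finset.single_le_sum (f := fun t => N t + 1) (s := Finset.range (t + 1))
      (fun _ _ => Nat.zero_le _) (Finset.mem_range.mpr (Nat.lt_succ_of_le hst))
    exact (Nat.le_succ _).trans this
  have hK2 : ∀ s : ℕ, s ≤ K s := by
    intro s
    have h1 : ∑ _t ∈ Finset.range (s + 1), 1 ≤ K s :=
      Finset.sum_le_sum fun t _ => Nat.le_add_left 1 (N t)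
    simp only [Finset.sum_const, Finset.card_range, smul_eq_mul, mul_one] at h1
    omega
  have hKt : Tendsto K atTop atTop := tendsto_atTop_mono hK2 tendsto_id
  -- almost everywhere convergence
  have hae : ∀ i : Fin k, ∀ᵐ ω ∂μ, ∃ l : ℝ, Tendsto (fun s => av (K s) i ω) atTop (𝓝 l) := by
    intro i
    refine Lp.ae_tendsto_of_cauchy_eLpNorm (f := fun s => av (K s) i) (p := 1)
      (B := fun s => ENNReal.ofReal ((1 / 2 : ℝ) ^ s))
      (fun s => (measurable_av _ i).aestronglyMeasurable) le_rfl ?_ ?_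
    · exact summable_geometric_two.tsum_ofReal_ne_top
    · intro s n m hn hm
      refine eLp_lt hμ ((measurable_av _ i).sub (measurable_av _ i)) (fun ω => ?_) (by positivity)
        ?_
      · rw [Pi.sub_apply, abs_le]
        constructor <;> linarith [av_nonneg (K n) i ω, av_nonneg (K m) i ω, av_le_one (K n) i ω,
          av_le_one (K m) i ω]
      · exact hN s i (K n) (K m) (hK1 hn) (hK1 hm)
  have hlim : ∀ i : Fin k, ∃ f : (E → Fin k) → ℝ, Measurable f ∧
      ∀ᵐ ω ∂μ, Tendsto (fun s => av (K s) i ω) atTop (𝓝 (f ω)) := fun i =>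
    measurable_limit_of_tendsto_metrizable_ae (fun s => (measurable_av _ i).aemeasurable) (hae i)
  choose f hfm hft using hlim
  -- clip
  let g : Fin k → (E → Fin k) → ℝ := fun i ω => max 0 (min 1 (f i ω))
  have hgm : ∀ i, Measurable (g i) := fun i =>
    measurable_const.max (measurable_const.min (hfm i))
  have hg0 : ∀ i ω, 0 ≤ g i ω := fun i ω => le_max_left _ _
  have hg1 : ∀ i ω, g i ω ≤ 1 := fun i ω => max_le zero_le_one (min_le_left _ _)
  have hgabs : ∀ i ω, |g i ω| ≤ 1 := fun i ω => by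
    rw [abs_of_nonneg (hg0 i ω)]
    exact hg1 i ω
  have hgt : ∀ i, ∀ᵐ ω ∂μ, Tendsto (fun s => av (K s) i ω) atTop (𝓝 (g i ω)) := by
    intro i
    filter_upwards [hft i] with ω hω
    have h1 : Tendsto (fun s => max 0 (min 1 (av (K s) i ω))) atTop (𝓝 (g i ω)) :=
      tendsto_const_nhds.max (tendsto_const_nhds.min hω)
    refine h1.congr fun s => ?_
    rw [min_eq_right (av_le_one _ i ω), max_eq_right (av_nonneg _ i ω)]
  -- the correlations of the limit
  have hcorr : ∀ (i : Fin k) (z : E), ∫ ω, g i (shift z ω) * g i ω ∂μ = ψ i z := by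
    intro i z
    have h1 : Tendsto (fun s => ∫ ω, av (K s) i (shift z ω) * av (K s) i ω ∂μ) atTop
        (𝓝 (∫ ω, g i (shift z ω) * g i ω ∂μ)) := by
      refine tendsto_integral_of_dominated_convergence (fun _ => 1) (fun s => ?_)
        (integrable_const _) (fun s => ?_) ?_
      · exact (((measurable_av _ i).comp (measurable_shift z)).mul
          (measurable_av _ i)).aestronglyMeasurable
      · refine Eventually.of_forall fun ω => ?_
        rw [Real.norm_eq_abs, abs_mul]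
        exact mul_le_one₀ (habs _ i _) (abs_nonneg _) (habs _ i _)
      · filter_upwards [hgt i, (mp_shift hμ z).quasiMeasurePreserving.ae (hgt i)] with ω h2 h3
        exact h3.mul h2
    have h2 : Tendsto (fun s => ∫ ω, av (K s) i (shift z ω) * av (K s) i ω ∂μ) atTop
        (𝓝 (ψ i z)) := by
      rw [Metric.tendsto_atTop]
      intro ε hε
      obtain ⟨M, hM⟩ := est hμ i (hψ i) (hφ' i) z (ε := ε / 2) (by positivity)
      obtain ⟨S, hS⟩ := (tendsto_atTop.mp hKt M).exists_forall_of_atTop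
      refine ⟨S, fun s hs => ?_⟩
      rw [Real.dist_eq]
      exact (hM _ _ (hS s hs) (hS s hs)).trans_lt (half_lt_self hε)
    exact tendsto_nhds_unique h1 h2
  refine ⟨g, hgm, hg0, hg1, ?_, ?_, ?_⟩
  · -- the sum
    have h1 : ∀ᵐ ω ∂μ, ∀ i, Tendsto (fun s => av (K s) i ω) atTop (𝓝 (g i ω)) :=
      ae_all_iff.mpr hgt
    filter_upwards [h1] with ω hω
    have h2 : Tendsto (fun s => ∑ i, av (K s) i ω) atTop (𝓝 (∑ i, g i ω)) :=
      tendsto_finsetSum _ fun i _ => hω i
    simp only [sum_av] at h2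
    exact (tendsto_nhds_unique h2 tendsto_const_nhds)
  · -- continuity
    intro i ε hε
    obtain ⟨δ, hδ, hδ'⟩ := hψ i (ε / 2) (by positivity)
    refine ⟨δ, hδ, fun z hz => ?_⟩
    rw [sq_expand (F := fun ω => g i (shift z ω)) hμ ((hgm i).comp (measurable_shift z)) (hgm i)
      (fun ω => hgabs i _) (hgabs i), hcorr i z]
    have h0 : ∫ ω, g i ω * g i ω ∂μ = ψ i 0 := by
      have := hcorr i 0
      simpa only [shift_zero] using this
    have h1 : ∫ ω, g i (shift z ω) * g i (shift z ω) ∂μ = ψ i 0 := by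
      rw [← h0]
      exact integral_shift hμ z ((hgm i).mul (hgm i))
    have h2 := hδ' z 0 (by simpa using hz)
    rw [h0, h1]
    rw [abs_lt] at h2
    linarith [h2.1, h2.2]
  · -- orthogonality
    intro i c hc
    rw [hcorr i c]
    have hc0 : c ≠ 0 := by
      rintro rfl
      simp at hc
    rw [← hφ i c hc0]
    have h1 : ∀ᵐ ω ∂μ, ind i (shift c ω) * ind i ω = 0 := by
      have h2 : μ {ω | ω c = ω 0} = 0 := hμ.proper c 0 (by simpa using hc)
      have h3 : ∀ᵐ ω ∂μ, ¬ (ω c = ω 0) := by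
        rw [ae_iff]
        simpa only [not_not] using h2
      filter_upwards [h3] with ω hω
      unfold ind shift
      rw [zero_add]
      split_ifs with h4 h5
      · exact absurd (h4.trans h5.symm) hω
      all_goals simp
    rw [integral_congr_ae h1]
    simp

end Pool.Agent.MP_8b8716_co_HN
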