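import Mathlib
import Pool.Agent.Lib.MP_8b8716_co_HN.Defs
import Pool.Agent.Lib.MP_8b8716_co_HN.Basic

set_option autoImplicit false

/-!
# MP_8b8716_co, project HN: the lattices `Lt D k`, algebra
-/

noncomputable section

namespace Pool.Agent.MP_8b8716_co_HN

open Complex MeasureTheory Filter Topology Set
open scoped ENNReal

/-- the number `i` -/
private def ib : KG := ⟨I, 0, 1, by simp⟩

private theorem ib_sq : ib * ib = -1 := by
  apply Subtype.ext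
  push_cast
  exact I_mul_I

private theorem pp_eq : pp = 2 + ib := by
  apply Subtype.ext
  push_cast
  rfl

private theorem pb_eq : pb = 2 - ib := by
  apply Subtype.ext
  push_cast
  rfl

private theorem pp_mul_pb : pp * pb = 5 := by
  rw [pp_eq, pb_eq]
  linear_combination (-1 : KG) * ib_sq

private theorem pp_ne : pp ≠ 0 := by
  intro h
  have := pp_mul_pb
  rw [h, zero_mul] at this
  norm_num at this

private theorem pb_ne : pb ≠ 0 := by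
  intro h
  have := pp_mul_pb
  rw [h, mul_zero] at this
  norm_num at this

private theorem mem_Zi {w : KG} : w ∈ Zi ↔ ∃ a b : ℤ, w = (a : KG) + b * ib := by
  constructor
  · rintro ⟨a, b, h⟩
    refine ⟨a, b, Subtype.ext ?_⟩
    rw [h]
    push_cast
    rfl
  · rintro ⟨a, b, h⟩
    refine ⟨a, b, ?_⟩
    rw [h]
    push_cast
    rfl

private theorem coe_gi (a b : ℤ) : (((a : KG) + b * ib : KG) : ℂ) = (a : ℂ) + b * I := by
  push_cast
  rfl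

private theorem gi_inj {a b c d : ℤ} (h : (a : KG) + b * ib = (c : KG) + d * ib) :
    a = c ∧ b = d := by
  have h1 := congrArg (fun z : KG => (z : ℂ)) h
  simp only [coe_gi] at h1
  have h2 := congrArg Complex.re h1
  have h3 := congrArg Complex.im h1
  simp at h2 h3
  exact ⟨by exact_mod_cast h2, by exact_mod_cast h3⟩

private theorem gi_mem (a b : ℤ) : (a : KG) + b * ib ∈ Zi := mem_Zi.2 ⟨a, b, rfl⟩

private theorem int_mem (a : ℤ) : (a : KG) ∈ Zi := mem_Zi.2 ⟨a, 0, by simp⟩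

private theorem nat_mem (a : ℕ) : (a : KG) ∈ Zi := mem_Zi.2 ⟨a, 0, by simp⟩

private theorem ib_mem : ib ∈ Zi := mem_Zi.2 ⟨0, 1, by simp⟩

private theorem pp_mem : pp ∈ Zi := by
  rw [pp_eq]
  exact Zi.add_mem (by exact_mod_cast int_mem 2) ib_mem

private theorem pb_mem : pb ∈ Zi := by
  rw [pb_eq]
  exact Zi.sub_mem (by exact_mod_cast int_mem 2) ib_mem

/-- `pb` divides `a + b i` iff `5` divides `a + 2 b` -/
private theorem dvd_iff (a b : ℤ) :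
    (∃ e ∈ Zi, (a : KG) + b * ib = pb * e) ↔ (5 : ℤ) ∣ a + 2 * b := by
  constructor
  · rintro ⟨e, he, h⟩
    obtain ⟨c, d, rfl⟩ := mem_Zi.1 he
    have h1 : (a : KG) + b * ib = ((2 * c + d : ℤ) : KG) + ((2 * d - c : ℤ) : KG) * ib := by
      rw [h, pb_eq]
      push_cast
      linear_combination (-(d : KG)) * ib_sq
    obtain ⟨h2, h3⟩ := gi_inj h1
    exact ⟨d, by rw [h2, h3]; ring⟩
  · rintro ⟨k, hk⟩
    refine ⟨_, gi_mem (2 * k - b) k, ?_⟩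
    have h1 : a = 2 * (2 * k - b) + k := by linarith
    have h2 : (a : KG) = 2 * (2 * k - b) + k := by
      rw [h1]
      push_cast
      ring
    rw [h2, pb_eq]
    push_cast
    linear_combination (k : KG) * ib_sq

private theorem ndiv_iff (a b : ℤ) : Ndiv ((a : KG) + b * ib) ↔ ¬ (5 : ℤ) ∣ a + 2 * b := by
  rw [← dvd_iff]
  constructor
  · rintro ⟨_, h⟩ ⟨e, he, h1⟩
    exact h e he h1
  · intro h
    exact ⟨gi_mem a b, fun e he h1 => h ⟨e, he, h1⟩⟩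

theorem Ndiv_one : Ndiv 1 := by
  have h := ndiv_iff 1 0
  simp only [Int.cast_one, Int.cast_zero, zero_mul, add_zero, mul_zero] at h
  rw [h]
  norm_num

theorem Ndiv_mul {D D' : KG} (h : Ndiv D) (h' : Ndiv D') : Ndiv (D * D') := by
  obtain ⟨a, b, rfl⟩ := mem_Zi.1 h.1
  obtain ⟨c, d, rfl⟩ := mem_Zi.1 h'.1
  have e : ((a : KG) + b * ib) * (c + d * ib) =
      ((a * c - b * d : ℤ) : KG) + ((a * d + b * c : ℤ) : KG) * ib := by
    push_cast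
    linear_combination ((b : KG) * d) * ib_sq
  rw [ndiv_iff] at h h'
  rw [e, ndiv_iff]
  intro h1
  have h2 : (5 : ℤ) ∣ (a + 2 * b) * (c + 2 * d) := by
    have : (a + 2 * b) * (c + 2 * d) = (a * c - b * d + 2 * (a * d + b * c)) + 5 * (b * d) := by
      ring
    rw [this]
    exact dvd_add h1 (Dvd.intro _ rfl)
  have h5 : Prime (5 : ℤ) := by norm_num
  rcases h5.dvd_or_dvd h2 with h3 | h3
  · exact h h3
  · exact h' h3

theorem Ndiv_ne_zero {D : KG} (h : Ndiv D) : D ≠ 0 := by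
  rintro rfl
  exact h.2 0 Zi.zero_mem (by simp)

theorem Ndiv_norm {D : KG} (h : Ndiv D) : 1 ≤ ‖(D : ℂ)‖ := by
  have h0 := Ndiv_ne_zero h
  obtain ⟨a, b, rfl⟩ := mem_Zi.1 h.1
  rw [coe_gi]
  have h1 : ‖((a : ℂ) + b * I)‖ ^ 2 = ((a ^ 2 + b ^ 2 : ℤ) : ℝ) := by
    rw [Complex.sq_norm, Complex.normSq_apply]
    simp
    ring
  have h2 : (1 : ℤ) ≤ a ^ 2 + b ^ 2 := by
    by_contra hc
    have ha : a = 0 := by nlinarith [sq_nonneg a, sq_nonneg b]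
    have hb : b = 0 := by nlinarith [sq_nonneg a, sq_nonneg b]
    exact h0 (by simp [ha, hb])
  have h3 : (1 : ℝ) ≤ ‖((a : ℂ) + b * I)‖ ^ 2 := by
    rw [h1]
    exact_mod_cast h2
  by_contra hc
  push Not at hc
  have h4 : ‖((a : ℂ) + b * I)‖ ^ 2 < 1 := by
    have := norm_nonneg ((a : ℂ) + b * I)
    nlinarith
  linarith

private theorem Ndiv_pp : Ndiv pp := by
  have h := ndiv_iff 2 1
  have e : ((2 : ℤ) : KG) + ((1 : ℤ) : KG) * ib = pp := by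
    rw [pp_eq]
    push_cast
    ring
  rw [e] at h
  rw [h]
  norm_num

private theorem Ndiv_pp_pow (k : ℕ) : Ndiv (pp ^ k) := by
  induction k with
  | zero => rw [pow_zero]; exact Ndiv_one
  | succ k ih => rw [pow_succ]; exact Ndiv_mul ih Ndiv_pp

/-- the digit of `g` with respect to `D` -/
private theorem digit {D g : KG} (hD : Ndiv D) (hg : g ∈ Zi) :
    ∃ j : ℕ, j < 5 ∧ ∃ e ∈ Zi, g - j * D = pb * e := by
  obtain ⟨c, d, rfl⟩ := mem_Zi.1 hD.1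
  obtain ⟨a, b, rfl⟩ := mem_Zi.1 hg
  rw [ndiv_iff] at hD
  obtain ⟨j, hj, h⟩ : ∃ j : ℕ, j < 5 ∧ (5 : ℤ) ∣ (a + 2 * b) - j * (c + 2 * d) := by
    generalize a + 2 * b = x
    generalize c + 2 * d = y at hD
    have h1 : y % 5 = 1 ∨ y % 5 = 2 ∨ y % 5 = 3 ∨ y % 5 = 4 := by omega
    have h2 : x % 5 = 0 ∨ x % 5 = 1 ∨ x % 5 = 2 ∨ x % 5 = 3 ∨ x % 5 = 4 := by omega
    rcases h1 with h1 | h1 | h1 | h1 <;> rcases h2 with h2 | h2 | h2 | h2 | h2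
    all_goals
      first
      | exact ⟨0, by norm_num, by push_cast; omega⟩
      | exact ⟨1, by norm_num, by push_cast; omega⟩
      | exact ⟨2, by norm_num, by push_cast; omega⟩
      | exact ⟨3, by norm_num, by push_cast; omega⟩
      | exact ⟨4, by norm_num, by push_cast; omega⟩
  refine ⟨j, hj, ?_⟩
  have h1 : (5 : ℤ) ∣ (a - j * c) + 2 * (b - j * d) := by
    have : (a - j * c) + 2 * (b - j * d) = (a + 2 * b) - j * (c + 2 * d) := by ring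
    rw [this]
    exact h
  obtain ⟨e, he, h2⟩ := (dvd_iff _ _).2 h1
  refine ⟨e, he, ?_⟩
  rw [← h2]
  push_cast
  ring

/-- every nonzero Gaussian integer is `D * pb ^ k` with `Ndiv D` -/
private theorem factor : ∀ n : ℕ, ∀ a b : ℤ, (a ^ 2 + b ^ 2).toNat = n → (a, b) ≠ (0, 0) →
    ∃ D, Ndiv D ∧ ∃ k : ℕ, (a : KG) + b * ib = D * pb ^ k := by
  intro n
  induction n using Nat.strong_induction_on with
  | _ n ih =>
    intro a b hn h0
    by_cases h : (5 : ℤ) ∣ a + 2 * b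
    · obtain ⟨e, he, h1⟩ := (dvd_iff a b).2 h
      obtain ⟨c, d, rfl⟩ := mem_Zi.1 he
      have h2 : (a : KG) + b * ib = ((2 * c + d : ℤ) : KG) + ((2 * d - c : ℤ) : KG) * ib := by
        rw [h1, pb_eq]
        push_cast
        linear_combination (-(d : KG)) * ib_sq
      obtain ⟨h3, h4⟩ := gi_inj h2
      have h5 : a ^ 2 + b ^ 2 = 5 * (c ^ 2 + d ^ 2) := by rw [h3, h4]; ring
      have h6 : (c, d) ≠ (0, 0) := by
        intro h7
        rw [Prod.mk.injEq] at h7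
        obtain ⟨rfl, rfl⟩ := h7
        apply h0
        rw [h3, h4]
        simp
      have h7 : 0 < c ^ 2 + d ^ 2 := by
        by_contra hc
        have hc1 : c = 0 := by nlinarith [sq_nonneg c, sq_nonneg d]
        have hd1 : d = 0 := by nlinarith [sq_nonneg c, sq_nonneg d]
        exact h6 (by rw [hc1, hd1])
      obtain ⟨D, hD, k, hk⟩ := ih ((c ^ 2 + d ^ 2).toNat) (by omega) c d rfl h6
      refine ⟨D, hD, k + 1, ?_⟩
      rw [h1, hk, pow_succ]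
      ring
    · exact ⟨_, (ndiv_iff a b).2 h, 0, by simp⟩

theorem exists_mem_Lt (w : KG) : ∃ D, Ndiv D ∧ ∃ k : ℕ, w ∈ Lt D k := by
  obtain ⟨z, p, q, hz⟩ := w
  -- a common denominator
  set N : ℤ := p.den * q.den with hN
  have hN0 : N ≠ 0 := by
    rw [hN]
    exact mul_ne_zero (by exact_mod_cast p.den_ne_zero) (by exact_mod_cast q.den_ne_zero)
  obtain ⟨D, hD, k, hk⟩ := factor ((N ^ 2 + 0 ^ 2).toNat) N 0 rfl (by simpa using hN0)
  refine ⟨D, hD, k, ((p.num * q.den : ℤ) : KG) + ((q.num * p.den : ℤ) : KG) * ib,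
    gi_mem _ _, ?_⟩
  simp only [Int.cast_zero, zero_mul, add_zero] at hk
  rw [zpow_natCast, ← hk]
  have hp : (p : ℂ) * p.den = p.num := by
    exact_mod_cast congrArg (fun x : ℚ => (x : ℂ)) (Rat.mul_den_eq_num p)
  have hq : (q : ℂ) * q.den = q.num := by
    exact_mod_cast congrArg (fun x : ℚ => (x : ℂ)) (Rat.mul_den_eq_num q)
  have hN1 : ((N : ℤ) : KG) ≠ 0 := by exact_mod_cast hN0
  rw [eq_div_iff hN1]
  apply Subtype.ext
  have e1 : ((((p.num * q.den : ℤ) : KG) + ((q.num * p.den : ℤ) : KG) * ib : KG) : ℂ) =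
    ((p.num * q.den : ℤ) : ℂ) + ((q.num * p.den : ℤ) : ℂ) * I := coe_gi _ _
  rw [e1]
  push_cast
  rw [hz, hN, ← hp, ← hq]
  push_cast
  ring

theorem zero_mem_Lt (D : KG) (k : ℤ) : (0 : KG) ∈ Lt D k := ⟨0, Zi.zero_mem, by simp⟩

theorem Lt_add {D : KG} {k : ℤ} {a b : KG} (ha : a ∈ Lt D k) (hb : b ∈ Lt D k) :
    a + b ∈ Lt D k := by
  obtain ⟨g, hg, rfl⟩ := ha
  obtain ⟨g', hg', rfl⟩ := hb
  exact ⟨g + g', Zi.add_mem hg hg', by rw [add_div]⟩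

theorem Lt_neg {D : KG} {k : ℤ} {a : KG} (ha : a ∈ Lt D k) : -a ∈ Lt D k := by
  obtain ⟨g, hg, rfl⟩ := ha
  exact ⟨-g, Zi.neg_mem hg, by rw [neg_div]⟩

theorem Lt_smul {D : KG} {k : ℤ} {a g : KG} (hg : g ∈ Zi) (ha : a ∈ Lt D k) :
    g * a ∈ Lt D k := by
  obtain ⟨g', hg', rfl⟩ := ha
  exact ⟨g * g', Zi.mul_mem hg hg', by rw [mul_div_assoc]⟩

theorem Lt_mono {D : KG} {k l : ℤ} (h : k ≤ l) : Lt D k ⊆ Lt D l := by
  rintro _ ⟨g, hg, rfl⟩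
  obtain ⟨m, rfl⟩ := Int.le.dest h
  refine ⟨g * pb ^ m, Zi.mul_mem hg (Zi.pow_mem pb_mem m), ?_⟩
  rw [zpow_add₀ pb_ne, zpow_natCast, ← mul_assoc, mul_div_mul_right _ _ (pow_ne_zero m pb_ne)]

theorem Lt_dvd {D e : KG} (hD : Ndiv (D * e)) (he : e ∈ Zi) (k : ℤ) :
    Lt D k ⊆ Lt (D * e) k := by
  rintro _ ⟨g, hg, rfl⟩
  have he0 : e ≠ 0 := by
    rintro rfl
    exact Ndiv_ne_zero hD (by simp)
  refine ⟨g * e, Zi.mul_mem hg he, ?_⟩
  rw [mul_right_comm, mul_div_mul_right _ _ he0]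

theorem Lt_mul {D D' : KG} {k l : ℤ} {a b : KG} (ha : a ∈ Lt D k) (hb : b ∈ Lt D' l) :
    a * b ∈ Lt (D * D') (k + l) := by
  obtain ⟨g, hg, rfl⟩ := ha
  obtain ⟨g', hg', rfl⟩ := hb
  refine ⟨g * g', Zi.mul_mem hg hg', ?_⟩
  rw [div_mul_div_comm, zpow_add₀ pb_ne]
  congr 1
  ring

theorem th_pow_mul_mem_Lt {D : KG} (k : ℤ) (n : ℕ) {w : KG} (hw : w ∈ Lt D k) :
    th ^ n * w ∈ Lt D (k + n) := by
  obtain ⟨g, hg, rfl⟩ := hw
  refine ⟨pp ^ n * g, Zi.mul_mem (Zi.pow_mem pp_mem n) hg, ?_⟩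
  rw [th, div_pow, div_mul_div_comm, zpow_add₀ pb_ne, zpow_natCast]
  congr 1
  ring

private theorem digit_div {D g : KG} (hD : Ndiv D) (hg : g ∈ Zi) :
    ∃ j : ℕ, j < 5 ∧ ∃ e ∈ Zi, g = j * D + pb * e := by
  obtain ⟨j, hj, e, he, h⟩ := digit hD hg
  exact ⟨j, hj, e, he, by rw [← h]; ring⟩

theorem Lt_decomp {D : KG} (hD : Ndiv D) (n : ℕ) {w : KG} (hw : w ∈ Lt D n) :
    ∃ w1 ∈ Lt D ((n : ℤ) - 1), ∃ w2 ∈ Lt D 0, w = w1 + th ^ n * w2 := by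
  obtain ⟨g, hg, rfl⟩ := hw
  obtain ⟨j, -, e, he, rfl⟩ := digit_div (Ndiv_pp_pow n) hg
  refine ⟨_, ⟨e, he, rfl⟩, _, ⟨(j : KG), nat_mem j, rfl⟩, ?_⟩
  have hD0 := Ndiv_ne_zero hD
  have hpb := pb_ne
  have hpbn : pb ^ n ≠ 0 := pow_ne_zero n hpb
  rw [th, div_pow, zpow_natCast, zpow_sub₀ hpb, zpow_natCast, zpow_one, zpow_zero]
  field_simp
  ring

theorem Lt_digit {D : KG} (hD : Ndiv D) (n : ℤ) {w : KG} (hw : w ∈ Lt D n) :
    ∃ j : ℕ, j < 5 ∧ w - j * (D * pb ^ n)⁻¹ ∈ Lt D (n - 1) := by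
  obtain ⟨g, hg, rfl⟩ := hw
  obtain ⟨j, hj, e, he, rfl⟩ := digit_div Ndiv_one hg
  refine ⟨j, hj, e, he, ?_⟩
  have hD0 := Ndiv_ne_zero hD
  have hpb := pb_ne
  have hpbn : pb ^ n ≠ 0 := zpow_ne_zero n hpb
  rw [zpow_sub₀ hpb, zpow_one]
  field_simp
  ring

theorem Lt_zero_digit {D : KG} (hD : Ndiv D) {w : KG} (hw : w ∈ Lt D 0) :
    ∃ j : ℕ, j < 5 ∧ w - j ∈ Lt D (-1) := by
  obtain ⟨g, hg, rfl⟩ := hw
  obtain ⟨j, hj, e, he, rfl⟩ := digit_div hD hg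
  refine ⟨j, hj, e, he, ?_⟩
  have hD0 := Ndiv_ne_zero hD
  have hpb := pb_ne
  rw [zpow_neg, zpow_one, zpow_zero]
  field_simp
  ring

theorem five_mul_mem_Lt {D : KG} (hD : Ndiv D) (n : ℤ) {w : KG} (hw : w ∈ Lt D n) :
    5 * w ∈ Lt D (n - 1) := by
  obtain ⟨g, hg, rfl⟩ := hw
  refine ⟨pp * g, Zi.mul_mem pp_mem hg, ?_⟩
  have hD0 := Ndiv_ne_zero hD
  have hpb := pb_ne
  have hpbn : pb ^ n ≠ 0 := zpow_ne_zero n hpb
  rw [← pp_mul_pb, zpow_sub₀ hpb, zpow_one]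
  field_simp

theorem Lt_pow_decomp {D : KG} (hD : Ndiv D) (n : ℤ) (k : ℕ) {w : KG} (hw : w ∈ Lt D (n + 1)) :
    ∃ w1 ∈ Lt D (n + 1 + k), ∃ w2 ∈ Lt D n, w = 5 ^ k * w1 + w2 := by
  obtain ⟨g, hg, rfl⟩ := hw
  obtain ⟨j, -, e, he, rfl⟩ := digit_div (Ndiv_pp_pow k) hg
  refine ⟨_, ⟨(j : KG), nat_mem j, rfl⟩, _, ⟨e, he, rfl⟩, ?_⟩
  have hD0 := Ndiv_ne_zero hD
  have hpb := pb_ne
  have hpbn : pb ^ n ≠ 0 := zpow_ne_zero n hpb
  have hpbk : pb ^ k ≠ 0 := pow_ne_zero k hpb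
  have e1 : pb ^ (n + 1) = pb ^ n * pb := by rw [zpow_add₀ hpb, zpow_one]
  have e2 : pb ^ (n + 1 + (k : ℤ)) = pb ^ n * pb * pb ^ k := by
    rw [zpow_add₀ hpb, e1, zpow_natCast]
  rw [e1, e2, ← pp_mul_pb, mul_pow]
  field_simp

theorem mem_Kn_one_iff (w : KG) : w ∈ Kn 1 ↔ ∃ D, Ndiv D ∧ w ∈ Lt D (-1) := by
  have hpb := pb_ne
  have hpp := pp_ne
  constructor
  · rintro ⟨g, hg, d, hd, h⟩
    refine ⟨pp * d, Ndiv_mul Ndiv_pp hd, g, hg, ?_⟩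
    have hd0 := Ndiv_ne_zero hd
    rw [zpow_one, th] at h
    rw [zpow_neg, zpow_one]
    field_simp at h ⊢
    linear_combination h
  · rintro ⟨D, hD, g, hg, rfl⟩
    refine ⟨pp * g, Zi.mul_mem pp_mem hg, D, hD, ?_⟩
    have hd0 := Ndiv_ne_zero hD
    rw [zpow_one, th, zpow_neg, zpow_one]
    field_simp

theorem mem_K0_iff (w : KG) : w ∈ K0 ↔ ∃ D, Ndiv D ∧ w ∈ Lt D 0 := by
  constructor
  · rintro ⟨g, hg, d, hd, h⟩
    exact ⟨d, hd, g, hg, by rw [h, zpow_zero, mul_one]⟩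
  · rintro ⟨D, hD, g, hg, h⟩
    exact ⟨g, hg, D, hD, by rw [h, zpow_zero, mul_one]⟩

end Pool.Agent.MP_8b8716_co_HN
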