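import Mathlib
import Pool.Agent.Lib.MP_8b8716_co_HN.Basic
import Pool.Agent.Lib.MP_8b8716_co_HN.NumB
import Pool.Agent.Lib.MP_8b8716_co_HN.NumC

set_option autoImplicit false

/-!
# MP_8b8716_co, project HN, module Cover: covering by digit trees
-/

noncomputable section

namespace Pool.Agent.MP_8b8716_co_HN

open Complex MeasureTheory Filter Topology Set
open scoped ENNReal

namespace CoverAux

/-- `S` is covered by at most `N` sets on which `P` holds for all pairs -/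
def Cov (S : Set (KG → Circle)) (P : (KG → Circle) → (KG → Circle) → Prop) (N : ℕ) : Prop :=
  ∃ (ι : Type) (_ : Fintype ι), Fintype.card ι ≤ N ∧ ∃ Q : ι → Set (KG → Circle),
    S ⊆ ⋃ i, Q i ∧ ∀ i, ∀ y ∈ Q i, ∀ y' ∈ Q i, P y y'

theorem Cov.mono {S S' : Set (KG → Circle)} {P : (KG → Circle) → (KG → Circle) → Prop} {N N' : ℕ}
    (h : Cov S P N) (hS : S' ⊆ S) (hN : N ≤ N') : Cov S' P N' := by
  obtain ⟨ι, hι, h1, Q, h2, h3⟩ := h
  exact ⟨ι, hι, h1.trans hN, Q, hS.trans h2, h3⟩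

theorem Cov.empty {P : (KG → Circle) → (KG → Circle) → Prop} : Cov ∅ P 0 :=
  ⟨Empty, inferInstance, by simp, fun _ => ∅, by simp, fun i => i.elim⟩

theorem Cov.union {S S' : Set (KG → Circle)} {P : (KG → Circle) → (KG → Circle) → Prop} {N N' : ℕ}
    (h : Cov S P N) (h' : Cov S' P N') : Cov (S ∪ S') P (N + N') := by
  obtain ⟨ι, hι, h1, Q, h2, h3⟩ := h
  obtain ⟨κ, hκ, h1', Q', h2', h3'⟩ := h'
  refine ⟨ι ⊕ κ, inferInstance, by rw [Fintype.card_sum]; omega, Sum.elim Q Q', ?_, ?_⟩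
  · rintro y (hy | hy)
    · obtain ⟨i, hi⟩ := mem_iUnion.1 (h2 hy)
      exact mem_iUnion.2 ⟨Sum.inl i, hi⟩
    · obtain ⟨i, hi⟩ := mem_iUnion.1 (h2' hy)
      exact mem_iUnion.2 ⟨Sum.inr i, hi⟩
  · rintro (i | i) y hy y' hy'
    · exact h3 i y hy y' hy'
    · exact h3' i y hy y' hy'

/-- keep only a part of each set -/
theorem Cov.restrict {S S' : Set (KG → Circle)} {P P' : (KG → Circle) → (KG → Circle) → Prop}
    {N : ℕ} (h : Cov S P N) (hS : S' ⊆ S) (hP : ∀ y ∈ S', ∀ y' ∈ S', P y y' → P' y y') :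
    Cov S' P' N := by
  obtain ⟨ι, hι, h1, Q, h2, h3⟩ := h
  refine ⟨ι, hι, h1, fun i => Q i ∩ S', ?_, ?_⟩
  · intro y hy
    obtain ⟨i, hi⟩ := mem_iUnion.1 (h2 (hS hy))
    exact mem_iUnion.2 ⟨i, hi, hy⟩
  · rintro i y ⟨hy, hy1⟩ y' ⟨hy', hy1'⟩
    exact hP y hy1 y' hy1' (h3 i y hy y' hy')

/-- split each set into five parts -/
theorem Cov.split {S : Set (KG → Circle)} {P P' : (KG → Circle) → (KG → Circle) → Prop}
    {N : ℕ} (h : Cov S P N) (hP : ∀ Q : Set (KG → Circle), (∀ y ∈ Q, ∀ y' ∈ Q, P y y') →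
      ∃ j : (KG → Circle) → Fin 5, ∀ y ∈ Q, ∀ y' ∈ Q, j y = j y' → P' y y') :
    Cov S P' (5 * N) := by
  obtain ⟨ι, hι, h1, Q, h2, h3⟩ := h
  choose j hj using fun i => hP (Q i) (h3 i)
  refine ⟨ι × Fin 5, inferInstance, ?_, fun p => {y | y ∈ Q p.1 ∧ j p.1 y = p.2}, ?_, ?_⟩
  · rw [Fintype.card_prod, Fintype.card_fin, mul_comm]
    exact Nat.mul_le_mul_left 5 h1
  · intro y hy
    obtain ⟨i, hi⟩ := mem_iUnion.1 (h2 hy)
    exact mem_iUnion.2 ⟨(i, j i y), hi, rfl⟩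
  · rintro p y ⟨hy, hy1⟩ y' ⟨hy', hy1'⟩
    exact hj p.1 y hy y' hy' (hy1.trans hy1'.symm)

theorem sqrt_five_lt : Real.sqrt 5 < 10 / 3 := by
  rw [Real.sqrt_lt' (by norm_num)]
  norm_num

theorem small_lt {D : KG} (hD : Ndiv D) {x : ℝ} (hx : x ≤ 3 / 10) :
    x < ‖(D : ℂ)‖ * Real.sqrt 5 ^ (-1 : ℤ) := by
  have h1 := Ndiv_norm hD
  have h2 : 0 < Real.sqrt 5 := Real.sqrt_pos.2 (by norm_num)
  have h3 : 3 / 10 < Real.sqrt 5 ^ (-1 : ℤ) := by
    rw [zpow_neg_one]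
    rw [lt_inv_comm₀ (by norm_num) h2]
    have := sqrt_five_lt
    linarith
  have h4 : 0 < Real.sqrt 5 ^ (-1 : ℤ) := by positivity
  calc x ≤ 3 / 10 := hx
    _ < Real.sqrt 5 ^ (-1 : ℤ) := h3
    _ = 1 * Real.sqrt 5 ^ (-1 : ℤ) := (one_mul _).symm
    _ ≤ _ := by gcongr

/-- two small frequencies which agree on `Lt D (-1)` are equal -/
theorem unique_aux {D : KG} (hD : Ndiv D) {ξ ξ' : ℂ} (hs : ‖ξ - ξ'‖ ≤ 3 / 10)
    (h : ∀ w ∈ Lt D (-1), el ξ w = el ξ' w) : ξ = ξ' := by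
  refine sub_eq_zero.1 (Lt_unique hD (n := -1) ?_ (small_lt hD hs))
  intro w hw
  rw [el_sub_left, h w hw, div_self']

theorem pi_div_char {y y' : KG → Circle} (hy : IsChar y) (hy' : IsChar y') (a b : KG) :
    (y / y') (a + b) = (y / y') a * (y / y') b := (hy.div hy') a b

theorem stepA {D : KG} (hD : Ndiv D) {ρ : ℝ} (h1 : ρ ≤ 1 / 10)
    {G : Set (KG → Circle)} (hG : Good D ρ G) (n : ℕ) {y y' : KG → Circle} (hy : IsChar y)
    (hy' : IsChar y') (hN : Near ρ (Lt D ((n : ℤ) - 1)) (y / y')) (hg : mulAct (th ^ n) y ∈ G)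
    (hg' : mulAct (th ^ n) y' ∈ G) : Near ρ (Lt D n) (y / y') := by
  obtain ⟨ξ, hξ, h2⟩ := hN
  have hn : ‖((th ^ n : KG) : ℂ)‖ = 1 := by
    have := norm_th_zpow n
    rwa [zpow_natCast] at this
  have hnear : Near ρ (Lt D (-1)) (mulAct (th ^ n) y / mulAct (th ^ n) y') := by
    refine ⟨ξ * ((th ^ n : KG) : ℂ), by rw [norm_mul, hn, mul_one]; exact hξ, fun w hw => ?_⟩
    have h3 : th ^ n * w ∈ Lt D ((n : ℤ) - 1) := by
      have := th_pow_mul_mem_Lt (-1) n hw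
      rwa [show (-1 : ℤ) + n = n - 1 by ring] at this
    have h4 := h2 _ h3
    rw [Subfield.coe_mul, el_mul] at h4
    exact h4
  obtain ⟨ξ', hξ', h3⟩ := hG _ hg _ hg' (hy.mulAct _) (hy'.mulAct _) hnear
  have he : ξ * ((th ^ n : KG) : ℂ) = ξ' := by
    refine unique_aux hD ?_ ?_
    · calc ‖ξ * ((th ^ n : KG) : ℂ) - ξ'‖ ≤ ‖ξ * ((th ^ n : KG) : ℂ)‖ + ‖ξ'‖ := norm_sub_le _ _
        _ ≤ ρ + ρ := by
          rw [norm_mul, hn, mul_one]
          exact add_le_add hξ hξ'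
        _ ≤ 3 / 10 := by linarith
    · intro w hw
      have h4 : th ^ n * w ∈ Lt D ((n : ℤ) - 1) := by
        have := th_pow_mul_mem_Lt (-1) n hw
        rwa [show (-1 : ℤ) + n = n - 1 by ring] at this
      have h5 := h2 _ h4
      rw [Subfield.coe_mul, el_mul] at h5
      rw [← h5, ← h3 w (Lt_mono (by norm_num) hw)]
      rfl
  refine ⟨ξ, hξ, fun w hw => ?_⟩
  obtain ⟨w1, hw1, w2, hw2, rfl⟩ := Lt_decomp hD n hw
  rw [pi_div_char hy hy', h2 w1 hw1, Subfield.coe_add, el_add_right, Subfield.coe_mul, el_mul, he,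
    ← h3 w2 hw2]
  rfl

theorem exists_root {z : Circle} (hz : z ^ 5 = 1) :
    ∃ j : Fin 5, (z : ℂ) = Complex.exp (2 * Real.pi * I / (5 : ℕ)) ^ (j : ℕ) := by
  have h1 := Complex.isPrimitiveRoot_exp 5 (by norm_num)
  have h2 : (z : ℂ) ^ 5 = 1 := by
    rw [← Circle.coe_pow, hz, Circle.coe_one]
  obtain ⟨i, hi, h3⟩ := h1.eq_pow_of_pow_eq_one h2
  exact ⟨⟨i, hi⟩, h3.symm⟩

theorem stepB {D : KG} (hD : Ndiv D) {ρ : ℝ} (h1 : ρ ≤ 1 / 10) (n : ℕ)
    {Q : Set (KG → Circle)} (hQ : ∀ y ∈ Q, ∀ y' ∈ Q, IsChar y ∧ IsChar y' ∧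
      Near ρ (Lt D ((n : ℤ) - 1)) (y / y')) :
    ∃ j : (KG → Circle) → Fin 5, ∀ y ∈ Q, ∀ y' ∈ Q, j y = j y' → Near ρ (Lt D n) (y / y') := by
  rcases Q.eq_empty_or_nonempty with rfl | ⟨y0, hy0⟩
  · exact ⟨fun _ => 0, fun y hy => hy.elim⟩
  have hx : ∀ y : KG → Circle, ∃ ξ : ℂ, y ∈ Q → ‖ξ‖ ≤ ρ ∧
      ∀ w ∈ Lt D ((n : ℤ) - 1), (y / y0) w = el ξ w := by
    intro y
    by_cases hy : y ∈ Q
    · obtain ⟨-, -, ξ, h2, h3⟩ := hQ y hy y0 hy0
      exact ⟨ξ, fun _ => ⟨h2, h3⟩⟩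
    · exact ⟨0, fun h => absurd h hy⟩
  choose ξ hξ using hx
  have hc0 : IsChar y0 := (hQ y0 hy0 y0 hy0).1
  set wn : KG := (D * pb ^ (n : ℤ))⁻¹ with hwn
  have hwm : wn ∈ Lt D n := ⟨1, Zi.one_mem, by rw [hwn, one_div]⟩
  -- the values
  set u : (KG → Circle) → KG → Circle := fun y w => (y / y0) w / el (ξ y) w with hu
  have huc : ∀ y ∈ Q, IsChar (u y) := by
    intro y hy a b
    have h2 := (hQ y hy y0 hy0).1
    simp only [hu]
    rw [pi_div_char h2 hc0, Subfield.coe_add, el_add_right, mul_div_mul_comm]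
  have hu1 : ∀ y ∈ Q, ∀ w ∈ Lt D ((n : ℤ) - 1), u y w = 1 := by
    intro y hy w hw
    simp only [hu]
    rw [(hξ y hy).2 w hw, div_self']
  have hu5 : ∀ y ∈ Q, (u y wn) ^ 5 = 1 := by
    intro y hy
    have h2 := (huc y hy).map_natMul 5 wn
    rw [← h2]
    have h3 := five_mul_mem_Lt hD n hwm
    exact_mod_cast hu1 y hy _ h3
  have hjx : ∀ y : KG → Circle, ∃ j : Fin 5, y ∈ Q →
      (u y wn : ℂ) = Complex.exp (2 * Real.pi * I / (5 : ℕ)) ^ (j : ℕ) := by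
    intro y
    by_cases hy : y ∈ Q
    · obtain ⟨j, hj⟩ := exists_root (hu5 y hy)
      exact ⟨j, fun _ => hj⟩
    · exact ⟨0, fun h => absurd h hy⟩
  choose j hj using hjx
  refine ⟨j, fun y hy y' hy' hjj => ?_⟩
  have heq : u y wn = u y' wn := by
    apply Subtype.ext
    rw [hj y hy, hj y' hy', hjj]
  have heq2 : ∀ w ∈ Lt D n, u y w = u y' w := by
    intro w hw
    obtain ⟨i, -, hi⟩ := Lt_digit hD n hw
    have key : ∀ z ∈ Q, u z w = u z wn ^ i := by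
      intro z hz
      have h3 : w = (w - i * wn) + i * wn := by ring
      rw [h3, huc z hz, hu1 z hz _ hi, one_mul, (huc z hz).map_natMul]
    rw [key y hy, key y' hy', heq]
  have heq3 : ∀ w ∈ Lt D n, (y / y') w = el (ξ y - ξ y') w := by
    intro w hw
    have h3 := heq2 w hw
    simp only [hu, Pi.div_apply] at h3
    rw [Pi.div_apply, el_sub_left]
    rw [div_eq_div_iff_mul_eq_mul] at h3 ⊢
    have h4 : y w / y0 w * el (ξ y') w = y' w / y0 w * el (ξ y) w := h3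
    rw [div_mul_eq_mul_div, div_mul_eq_mul_div, div_eq_div_iff_mul_eq_mul] at h4
    have h5 := mul_right_cancel h4
    rw [h5, mul_comm]
  obtain ⟨-, -, ξ1, hξ1, h3⟩ := hQ y hy y' hy'
  have he : ξ1 = ξ y - ξ y' := by
    refine unique_aux hD ?_ ?_
    · calc ‖ξ1 - (ξ y - ξ y')‖ ≤ ‖ξ1‖ + ‖ξ y - ξ y'‖ := norm_sub_le _ _
        _ ≤ ‖ξ1‖ + (‖ξ y‖ + ‖ξ y'‖) := by
          gcongr
          exact norm_sub_le _ _
        _ ≤ ρ + (ρ + ρ) := add_le_add hξ1 (add_le_add (hξ y hy).1 (hξ y' hy').1)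
        _ ≤ 3 / 10 := by linarith
    · intro w hw
      have hw1 : w ∈ Lt D ((n : ℤ) - 1) := Lt_mono (by omega) hw
      have hw2 : w ∈ Lt D n := Lt_mono (by omega) hw
      rw [← h3 w hw1, heq3 w hw2]
  exact ⟨ξ1, hξ1, fun w hw => by rw [heq3 w hw, he]⟩

theorem bad_succ (G : Set (KG → Circle)) (n : ℕ) (y : KG → Circle) :
    (mulAct (th ^ n) y ∈ G → bad G (n + 1) y = bad G n y) ∧
    (mulAct (th ^ n) y ∉ G → bad G (n + 1) y = bad G n y + 1) := by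
  classical
  unfold bad
  constructor
  · intro h
    rw [Finset.range_add_one, Finset.filter_insert, if_neg (not_not.2 h)]
  · intro h
    rw [Finset.range_add_one, Finset.filter_insert, if_pos h, Finset.card_insert_of_notMem]
    simp

theorem pascal (n b : ℕ) :
    ∑ j ∈ Finset.range (b + 1 + 1), (n + 1).choose j * 5 ^ j =
      ∑ j ∈ Finset.range (b + 1 + 1), n.choose j * 5 ^ j +
        5 * ∑ j ∈ Finset.range (b + 1), n.choose j * 5 ^ j := by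
  rw [Finset.sum_range_succ' (fun j => (n + 1).choose j * 5 ^ j),
    Finset.sum_range_succ' (fun j => n.choose j * 5 ^ j), Finset.mul_sum]
  simp only [Nat.choose_succ_succ', Nat.choose_zero_right]
  have h : ∀ j ∈ Finset.range (b + 1), (n.choose j + n.choose (j + 1)) * 5 ^ (j + 1) =
      n.choose (j + 1) * 5 ^ (j + 1) + 5 * (n.choose j * 5 ^ j) := by
    intro j _
    ring
  rw [Finset.sum_congr rfl h, Finset.sum_add_distrib]
  ring

theorem norm_div_sub_one (a b : Circle) : ‖((a / b : Circle) : ℂ) - 1‖ = dist a b := by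
  rw [Circle.coe_div, div_sub_one (Circle.coe_ne_zero b), norm_div, Circle.norm_coe, div_one]
  rw [← dist_eq_norm]
  rfl

theorem base {D : KG} (hD : Ndiv D) {ρ : ℝ} (h0 : 0 < ρ) :
    ∃ C0 : ℕ, Cov {y | IsChar y} (fun y y' => IsChar y ∧ IsChar y' ∧
      Near ρ (Lt D (-1)) (y / y')) C0 := by
  obtain ⟨δ, hδ, h⟩ := near_of_basis hD (-1) h0
  obtain ⟨t, -, htf, ht⟩ := finite_cover_balls_of_compact
    (isCompact_univ : IsCompact (univ : Set (Circle × Circle))) (half_pos hδ)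
  have := htf.fintype
  set b1 : KG := (D * pb ^ (-1 : ℤ))⁻¹
  set b2 : KG := (⟨I, 0, 1, by simp⟩ * (D * pb ^ (-1 : ℤ))⁻¹ : KG)
  refine ⟨Fintype.card t, t, inferInstance, le_rfl,
    fun x => {y | IsChar y ∧ (y b1, y b2) ∈ Metric.ball (x : Circle × Circle) (δ / 2)}, ?_, ?_⟩
  · intro y hy
    obtain ⟨x, hx, hx1⟩ := mem_iUnion₂.1 (ht (mem_univ (y b1, y b2)))
    exact mem_iUnion.2 ⟨⟨x, hx⟩, hy, hx1⟩
  · rintro x y ⟨hy, hy1⟩ y' ⟨hy', hy1'⟩
    refine ⟨hy, hy', h _ (hy.div hy') ?_ ?_⟩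
    · have h2 : dist (y b1, y b2) (y' b1, y' b2) ≤ δ := by
        refine (dist_triangle_right _ _ (x : Circle × Circle)).trans ?_
        rw [Metric.mem_ball] at hy1 hy1'
        linarith
      rw [Prod.dist_eq] at h2
      rw [Pi.div_apply, norm_div_sub_one]
      exact (le_max_left _ _).trans h2
    · have h2 : dist (y b1, y b2) (y' b1, y' b2) ≤ δ := by
        refine (dist_triangle_right _ _ (x : Circle × Circle)).trans ?_
        rw [Metric.mem_ball] at hy1 hy1'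
        linarith
      rw [Prod.dist_eq] at h2
      rw [Pi.div_apply, norm_div_sub_one]
      exact (le_max_right _ _).trans h2

theorem cov_all {D : KG} (hD : Ndiv D) {ρ : ℝ} (h1 : ρ ≤ 1 / 10)
    {G : Set (KG → Circle)} (hG : Good D ρ G) {C0 : ℕ}
    (hC : Cov {y | IsChar y} (fun y y' => IsChar y ∧ IsChar y' ∧
      Near ρ (Lt D (-1)) (y / y')) C0) (n : ℕ) : ∀ b : ℕ,
    Cov {y | IsChar y ∧ bad G n y ≤ b} (fun y y' => IsChar y ∧ IsChar y' ∧
      Near ρ (Lt D ((n : ℤ) - 1)) (y / y'))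
      (C0 * ∑ j ∈ Finset.range (b + 1), n.choose j * 5 ^ j) := by
  induction n with
  | zero =>
    intro b
    have h2 : Cov {y | IsChar y} (fun y y' => IsChar y ∧ IsChar y' ∧
        Near ρ (Lt D (((0:ℕ) : ℤ) - 1)) (y / y')) C0 := by
      simpa using hC
    refine h2.mono (fun y hy => hy.1) ?_
    have h3 : 1 ≤ ∑ j ∈ Finset.range (b + 1), (0:ℕ).choose j * 5 ^ j := by
      have := Finset.single_le_sum (f := fun j => (0:ℕ).choose j * 5 ^ j)
        (fun j _ => Nat.zero_le _) (Finset.mem_range.2 (Nat.succ_pos b))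
      simpa using this
    calc C0 = C0 * 1 := (mul_one _).symm
      _ ≤ _ := Nat.mul_le_mul_left _ h3
  | succ n ih =>
    have hA : ∀ b : ℕ, Cov {y | IsChar y ∧ bad G n y ≤ b ∧ mulAct (th ^ n) y ∈ G}
        (fun y y' => IsChar y ∧ IsChar y' ∧ Near ρ (Lt D (((n + 1 : ℕ) : ℤ) - 1)) (y / y'))
        (C0 * ∑ j ∈ Finset.range (b + 1), n.choose j * 5 ^ j) := by
      intro b
      refine (ih b).restrict (fun y hy => ⟨hy.1, hy.2.1⟩) ?_
      rintro y ⟨-, -, hy⟩ y' ⟨-, -, hy'⟩ ⟨h2, h3, h4⟩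
      refine ⟨h2, h3, ?_⟩
      rw [show (((n + 1 : ℕ) : ℤ) - 1) = n by push_cast; ring]
      exact stepA hD h1 hG n h2 h3 h4 hy hy'
    have hB : ∀ b : ℕ, Cov {y | IsChar y ∧ bad G n y ≤ b}
        (fun y y' => IsChar y ∧ IsChar y' ∧ Near ρ (Lt D (((n + 1 : ℕ) : ℤ) - 1)) (y / y'))
        (5 * (C0 * ∑ j ∈ Finset.range (b + 1), n.choose j * 5 ^ j)) := by
      intro b
      refine (ih b).split ?_
      intro Q hQ
      obtain ⟨j, hj⟩ := stepB hD h1 n hQ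
      refine ⟨j, fun y hy y' hy' hjj => ?_⟩
      obtain ⟨h2, h3, -⟩ := hQ y hy y' hy'
      refine ⟨h2, h3, ?_⟩
      rw [show (((n + 1 : ℕ) : ℤ) - 1) = n by push_cast; ring]
      exact hj y hy y' hy' hjj
    intro b
    rcases b with _ | b
    · refine (hA 0).mono ?_ (le_of_eq (by simp))
      rintro y ⟨hy, hy1⟩
      by_cases hg : mulAct (th ^ n) y ∈ G
      · rw [(bad_succ G n y).1 hg] at hy1
        exact ⟨hy, hy1, hg⟩
      · rw [(bad_succ G n y).2 hg] at hy1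
        omega
    · refine ((hA (b + 1)).union (hB b)).mono ?_ ?_
      · rintro y ⟨hy, hy1⟩
        by_cases hg : mulAct (th ^ n) y ∈ G
        · rw [(bad_succ G n y).1 hg] at hy1
          exact Or.inl ⟨hy, hy1, hg⟩
        · rw [(bad_succ G n y).2 hg] at hy1
          exact Or.inr ⟨hy, by omega⟩
      · rw [pascal]
        apply le_of_eq
        ring

end CoverAux

theorem cover {D : KG} (hD : Ndiv D) {ρ : ℝ} (h0 : 0 < ρ) (h1 : ρ ≤ 1 / 10)
    {G : Set (KG → Circle)} (hG : Good D ρ G) :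
    ∃ C0 : ℕ, ∀ n b : ℕ, ∃ N : ℕ, N ≤ C0 * ∑ j ∈ Finset.range (b + 1), n.choose j * 5 ^ j ∧
      ∃ Q : Fin N → Set (KG → Circle), {y | IsChar y ∧ bad G n y ≤ b} ⊆ ⋃ i, Q i ∧
        ∀ i, ∀ y ∈ Q i, ∀ y' ∈ Q i, IsChar y ∧ IsChar y' ∧
          Near ρ (Lt D ((n : ℤ) - 1)) (y / y') := by
  obtain ⟨C0, hC⟩ := CoverAux.base hD h0
  refine ⟨C0, fun n b => ?_⟩
  obtain ⟨ι, hι, hN, Q, h2, h3⟩ := CoverAux.cov_all hD h1 hG hC n b
  refine ⟨Fintype.card ι, hN, fun i => Q ((Fintype.equivFin ι).symm i), ?_, fun i => h3 _⟩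
  intro y hy
  obtain ⟨i, hi⟩ := mem_iUnion.1 (h2 hy)
  refine mem_iUnion.2 ⟨Fintype.equivFin ι i, ?_⟩
  rw [Equiv.symm_apply_apply]
  exact hi

end Pool.Agent.MP_8b8716_co_HN
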