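import Mathlib
import Pool.Agent.Lib.MP_8b8716_co_HN.Basic
import Pool.Agent.Lib.MP_8b8716_co_HN.Cover

set_option autoImplicit false

/-!
# MP_8b8716_co, project HN: lower bound for the measure of balls
-/

noncomputable section

namespace Pool.Agent.MP_8b8716_co_HN

open Complex MeasureTheory Filter Topology Set
open scoped ENNReal

/-! ### numbers -/

private theorem balllow_num {η : ℝ} (hη : 0 < η) : ∃ α : ℝ, 0 < α ∧ α ≤ 1 ∧ ∀ m : ℕ,
    ((∑ j ∈ Finset.range (⌊α * m⌋₊ + 1), m.choose j * 5 ^ j : ℕ) : ℝ) ≤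
      Real.exp (η * m / 2) := by
  obtain ⟨x, hx0, hx1, hx2⟩ : ∃ x : ℝ, 0 < x ∧ x ≤ 1 ∧ 1 + 5 * x ≤ Real.exp (η / 4) := by
    refine ⟨min 1 ((Real.exp (η / 4) - 1) / 5), ?_, min_le_left _ _, ?_⟩
    · have h1 : 1 < Real.exp (η / 4) := Real.one_lt_exp_iff.2 (by positivity)
      exact lt_min one_pos (by linarith)
    · have := min_le_right (1 : ℝ) ((Real.exp (η / 4) - 1) / 5)
      linarith
  have hL : 0 ≤ -Real.log x := by
    have := Real.log_nonpos hx0.le hx1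
    linarith
  refine ⟨min 1 (η / 4 / (-Real.log x + 1)), lt_min one_pos (by positivity), min_le_left _ _, ?_⟩
  intro m
  set α := min 1 (η / 4 / (-Real.log x + 1)) with hα
  have hα0 : 0 < α := lt_min one_pos (by positivity)
  have hα1 : α ≤ 1 := min_le_left _ _
  have hαL : α * (-Real.log x) ≤ η / 4 := by
    have h1 : α ≤ η / 4 / (-Real.log x + 1) := min_le_right _ _
    have h2 : α * (-Real.log x + 1) ≤ η / 4 := by
      rwa [le_div_iff₀ (by positivity)] at h1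
    nlinarith
  have hfl : ((⌊α * m⌋₊ : ℕ) : ℝ) ≤ α * m := Nat.floor_le (by positivity)
  have hb : ⌊α * m⌋₊ ≤ m := by
    have h1 : ((⌊α * m⌋₊ : ℕ) : ℝ) ≤ m := hfl.trans (by
      have : (0 : ℝ) ≤ m := Nat.cast_nonneg m
      nlinarith)
    exact_mod_cast h1
  push_cast
  have hterm : ∀ j ∈ Finset.range (⌊α * m⌋₊ + 1), ((m.choose j : ℝ) * 5 ^ j) ≤
      Real.exp (η / 4 * m) * ((5 * x) ^ j * 1 ^ (m - j) * (m.choose j : ℝ)) := by
    intro j hj
    have hj1 : j ≤ ⌊α * m⌋₊ := Nat.lt_succ_iff.1 (Finset.mem_range.1 hj)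
    have hj2 : (j : ℝ) ≤ α * m := le_trans (by exact_mod_cast hj1) hfl
    have hxj : 1 ≤ Real.exp (η / 4 * m) * x ^ j := by
      have h1 : x ^ j = Real.exp (j * Real.log x) := by
        rw [Real.exp_nat_mul, Real.exp_log hx0]
      rw [h1, ← Real.exp_add]
      apply Real.one_le_exp
      have h2 : (j : ℝ) * (-Real.log x) ≤ α * m * (-Real.log x) :=
        mul_le_mul_of_nonneg_right hj2 hL
      have h3 : α * (-Real.log x) * m ≤ η / 4 * m :=
        mul_le_mul_of_nonneg_right hαL (Nat.cast_nonneg m)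
      nlinarith
    rw [one_pow, mul_one, mul_pow]
    have h4 : (0 : ℝ) ≤ (m.choose j : ℝ) * 5 ^ j := by positivity
    calc (m.choose j : ℝ) * 5 ^ j = (m.choose j : ℝ) * 5 ^ j * 1 := by ring
      _ ≤ (m.choose j : ℝ) * 5 ^ j * (Real.exp (η / 4 * m) * x ^ j) :=
          mul_le_mul_of_nonneg_left hxj h4
      _ = _ := by ring
  calc (∑ j ∈ Finset.range (⌊α * m⌋₊ + 1), (m.choose j : ℝ) * 5 ^ j)
      ≤ ∑ j ∈ Finset.range (⌊α * m⌋₊ + 1),
          Real.exp (η / 4 * m) * ((5 * x) ^ j * 1 ^ (m - j) * (m.choose j : ℝ)) :=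
        Finset.sum_le_sum hterm
    _ ≤ ∑ j ∈ Finset.range (m + 1),
          Real.exp (η / 4 * m) * ((5 * x) ^ j * 1 ^ (m - j) * (m.choose j : ℝ)) := by
        apply Finset.sum_le_sum_of_subset_of_nonneg
        · exact Finset.range_mono (by omega)
        · intro j _ _
          positivity
    _ = Real.exp (η / 4 * m) * (5 * x + 1) ^ m := by
        rw [← Finset.mul_sum, add_pow]
    _ ≤ Real.exp (η / 4 * m) * Real.exp (η / 4) ^ m := by
        gcongr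
        linarith
    _ = Real.exp (η * m / 2) := by
        rw [← Real.exp_nat_mul, ← Real.exp_add]
        congr 1
        ring

/-! ### balls -/

private theorem balllow_step {ν : Measure (KG → Circle)} {D : KG} {ρ : ℝ}
    {G : Set (KG → Circle)} {C0 n b : ℕ} {r : ℝ≥0∞} {S : ℕ}
    (hc : ∃ N : ℕ, N ≤ C0 * S ∧
      ∃ Q : Fin N → Set (KG → Circle), {y | IsChar y ∧ bad G (n + 1) y ≤ b} ⊆ ⋃ i, Q i ∧
        ∀ i, ∀ y ∈ Q i, ∀ y' ∈ Q i, IsChar y ∧ IsChar y' ∧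
          Near ρ (Lt D (((n + 1 : ℕ) : ℤ) - 1)) (y / y')) :
    ν {y | IsChar y ∧ bad G (n + 1) y ≤ b ∧ ν (Ball D n ρ y) < r} ≤ (C0 * S : ℕ) * r := by
  obtain ⟨N, hN, Q, hQ, hQ2⟩ := hc
  set Y : Set (KG → Circle) := {y | IsChar y ∧ bad G (n + 1) y ≤ b ∧ ν (Ball D n ρ y) < r} with hY
  have h1 : Y ⊆ ⋃ i, (Q i ∩ Y) := by
    intro y hy
    obtain ⟨i, hi⟩ := mem_iUnion.1 (hQ ⟨hy.1, hy.2.1⟩)
    exact mem_iUnion.2 ⟨i, hi, hy⟩
  have h2 : ∀ i, ν (Q i ∩ Y) ≤ r := by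
    intro i
    rcases (Q i ∩ Y).eq_empty_or_nonempty with h | ⟨y0, h0, h0'⟩
    · rw [h]
      simp
    · have h3 : Q i ⊆ Ball D n ρ y0 := by
        intro y hy
        obtain ⟨h4, _, h5⟩ := hQ2 i y hy y0 h0
        refine ⟨h4, ?_⟩
        have h6 : (((n + 1 : ℕ) : ℤ) - 1) = (n : ℤ) := by push_cast; ring
        rwa [h6] at h5
      exact (measure_mono (inter_subset_left.trans h3)).trans h0'.2.2.le
  calc ν Y ≤ ν (⋃ i, (Q i ∩ Y)) := measure_mono h1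
    _ ≤ ∑ i, ν (Q i ∩ Y) := measure_iUnion_fintype_le _ _
    _ ≤ ∑ _i : Fin N, r := Finset.sum_le_sum fun i _ => h2 i
    _ = N * r := by simp
    _ ≤ (C0 * S : ℕ) * r := by
        gcongr

theorem ball_low {η : ℝ} (hη : 0 < η) : ∃ α : ℝ, 0 < α ∧ ∀ (ν : Measure (KG → Circle)),
    IsFiniteMeasure ν → (∀ᵐ y ∂ν, IsChar y) → ∀ (D : KG), Ndiv D → ∀ ρ : ℝ, 0 < ρ → ρ ≤ 1 / 10 →
    ∀ G : Set (KG → Circle), Good D ρ G →
    ∀ᵐ y ∂ν, (∀ n : ℕ, 0 < n → (bad G n y : ℝ) ≤ α * n) →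
      ∀ᶠ n : ℕ in atTop, ENNReal.ofReal (Real.exp (-(η * n))) ≤ ν (Ball D n ρ y) := by
  obtain ⟨α, hα0, hα1, hα⟩ := balllow_num hη
  refine ⟨α, hα0, ?_⟩
  intro ν hν hch D hD ρ hρ0 hρ1 G hG
  obtain ⟨C0, hC⟩ := cover hD hρ0 hρ1 hG
  let Y : ℕ → Set (KG → Circle) := fun n => {y | IsChar y ∧
    bad G (n + 1) y ≤ ⌊α * ((n + 1 : ℕ) : ℝ)⌋₊ ∧
      ν (Ball D n ρ y) < ENNReal.ofReal (Real.exp (-(η * n)))}
  have hY : ∀ n, ν (Y n) ≤ ENNReal.ofReal (C0 * Real.exp (η / 2) * Real.exp (-(η / 2)) ^ n) := by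
    intro n
    have h1 := balllow_step (ν := ν) (r := ENNReal.ofReal (Real.exp (-(η * n))))
      (hC (n + 1) ⌊α * ((n + 1 : ℕ) : ℝ)⌋₊)
    refine h1.trans ?_
    have h2 := hα (n + 1)
    rw [← ENNReal.ofReal_natCast, ← ENNReal.ofReal_mul (Nat.cast_nonneg _)]
    apply ENNReal.ofReal_le_ofReal
    rw [Nat.cast_mul]
    calc (C0 : ℝ) * ((∑ j ∈ Finset.range (⌊α * ((n + 1 : ℕ) : ℝ)⌋₊ + 1),
            (n + 1).choose j * 5 ^ j : ℕ) : ℝ) * Real.exp (-(η * n))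
        ≤ C0 * Real.exp (η * ((n + 1 : ℕ) : ℝ) / 2) * Real.exp (-(η * n)) := by
          gcongr
      _ = C0 * Real.exp (η / 2) * Real.exp (-(η / 2)) ^ n := by
          rw [← Real.exp_nat_mul, mul_assoc, mul_assoc, ← Real.exp_add, ← Real.exp_add]
          congr 2
          push_cast
          ring
  have hsum : ∑' n, ν (Y n) ≠ ∞ := by
    have hs : Summable fun n : ℕ => (C0 : ℝ) * Real.exp (η / 2) * Real.exp (-(η / 2)) ^ n := by
      apply Summable.mul_left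
      apply summable_geometric_of_lt_one (Real.exp_pos _).le
      rw [← Real.exp_zero]
      exact Real.exp_lt_exp.2 (by linarith)
    refine ne_top_of_le_ne_top ?_ (ENNReal.tsum_le_tsum hY)
    exact hs.tsum_ofReal_ne_top
  filter_upwards [hch, ae_eventually_notMem hsum] with y hy1 hy2 hy3
  filter_upwards [hy2] with n hn
  by_contra hlt
  apply hn
  refine ⟨hy1, ?_, not_le.1 hlt⟩
  apply Nat.le_floor
  exact hy3 (n + 1) (Nat.succ_pos n)

end Pool.Agent.MP_8b8716_co_HN
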