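import Mathlib
import Pool.Agent.Lib.MP_8b8716_co_HN.Defs

set_option autoImplicit false

/-!
# MP_8b8716_co, project HN: module FourU

A finite measure on the compact group of characters of a countable group is determined by its
Fourier coefficients.
-/

noncomputable section

namespace Pool.Agent.MP_8b8716_co_HN

open Complex MeasureTheory Filter Topology Set
open scoped ENNReal BoundedContinuousFunction

/-- the coordinate functions, as bounded continuous functions -/
private def crd {E : Type*} (z : E) : (E → Circle) →ᵇ ℂ :=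
  BoundedContinuousFunction.mkOfBound
    ⟨fun x => (x z : ℂ), (continuous_induced_dom : Continuous fun y : Circle => (y : ℂ)).comp (continuous_apply z)⟩ 2 (by
      intro x y
      refine (dist_le_norm_add_norm _ _).trans ?_
      simp only [ContinuousMap.coe_mk, Circle.norm_coe]
      norm_num)

private theorem crd_apply {E : Type*} (z : E) (x : E → Circle) : crd z x = (x z : ℂ) := rfl

private theorem isChar_zero {E : Type*} [AddCommGroup E] {x : E → Circle} (hx : IsChar x) :
    x 0 = 1 := by
  have h := hx 0 0
  rw [add_zero] at h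
  exact (mul_eq_left.mp h.symm)

private theorem isChar_neg {E : Type*} [AddCommGroup E] {x : E → Circle} (hx : IsChar x) (z : E) :
    x (-z) = (x z)⁻¹ := by
  have h := hx z (-z)
  rw [add_neg_cancel, isChar_zero hx] at h
  exact (inv_eq_of_mul_eq_one_right h.symm).symm

/-- the functions in the algebra generated by the coordinates are trigonometric polynomials on the
set of characters -/
private theorem trig_of_mem {E : Type*} [AddCommGroup E] (g : (E → Circle) →ᵇ ℂ)
    (hg : g ∈ StarAlgebra.adjoin ℂ (Set.range (crd : E → (E → Circle) →ᵇ ℂ))) :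
    ∃ β : E →₀ ℂ, ∀ x : E → Circle, IsChar x → g x = β.sum fun z b => b * (x z : ℂ) := by
  induction hg using StarAlgebra.adjoin_induction with
  | mem g hg =>
    obtain ⟨z, rfl⟩ := hg
    refine ⟨Finsupp.single z 1, fun x hx => ?_⟩
    rw [crd_apply, Finsupp.sum_single_index (by simp), one_mul]
  | algebraMap r =>
    refine ⟨Finsupp.single 0 r, fun x hx => ?_⟩
    rw [Finsupp.sum_single_index (by simp), isChar_zero hx]
    simp
  | add f g _ _ hf hg =>
    obtain ⟨β, hβ⟩ := hf
    obtain ⟨γ, hγ⟩ := hg
    classical
    refine ⟨β + γ, fun x hx => ?_⟩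
    rw [Finsupp.sum_add_index' (by simp) (by intros; ring), BoundedContinuousFunction.add_apply,
      hβ x hx, hγ x hx]
  | mul f g _ _ hf hg =>
    obtain ⟨β, hβ⟩ := hf
    obtain ⟨γ, hγ⟩ := hg
    classical
    refine ⟨β.sum fun z b => γ.sum fun w c => Finsupp.single (z + w) (b * c), fun x hx => ?_⟩
    rw [BoundedContinuousFunction.mul_apply, hβ x hx, hγ x hx]
    rw [Finsupp.sum_sum_index (by simp) (by intros; ring)]
    simp only [Finsupp.sum]
    rw [Finset.sum_mul]
    refine Finset.sum_congr rfl fun z _ => ?_
    rw [Finset.mul_sum]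
    have := Finsupp.sum_sum_index (f := γ) (g := fun w c => Finsupp.single (z + w) (β z * c))
      (h := fun a b => b * (x a : ℂ)) (by simp) (by intros; ring)
    simp only [Finsupp.sum] at this
    rw [this]
    refine Finset.sum_congr rfl fun w _ => ?_
    have h2 := Finsupp.sum_single_index (a := z + w) (b := β z * γ w)
      (h := fun a b => b * (x a : ℂ)) (by simp)
    simp only [Finsupp.sum] at h2
    rw [h2, hx z w]
    push_cast
    ring
  | star f _ hf =>
    obtain ⟨β, hβ⟩ := hf
    classical
    refine ⟨β.sum fun z b => Finsupp.single (-z) (star b), fun x hx => ?_⟩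
    rw [BoundedContinuousFunction.star_apply, hβ x hx]
    rw [Finsupp.sum_sum_index (by simp) (by intros; ring)]
    simp only [Finsupp.sum]
    rw [star_sum]
    refine Finset.sum_congr rfl fun z _ => ?_
    have h2 := Finsupp.sum_single_index (a := -z) (b := star (β z))
      (h := fun a b => b * (x a : ℂ)) (by simp)
    simp only [Finsupp.sum] at h2
    rw [h2, isChar_neg hx z, star_mul, mul_comm]
    congr 1
    rw [Circle.coe_inv_eq_conj]
    rfl

theorem four_unique {E : Type*} [AddCommGroup E] [Countable E] (σ σ' : Measure (E → Circle))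
    [IsFiniteMeasure σ] [IsFiniteMeasure σ'] (hc : ∀ᵐ x ∂σ, IsChar x) (hc' : ∀ᵐ x ∂σ', IsChar x)
    (h : ∀ z, ∫ x, (x z : ℂ) ∂σ = ∫ x, (x z : ℂ) ∂σ') : σ = σ' := by
  have : TopologicalSpace.SeparableSpace (E → Circle) := inferInstance
  have : TopologicalSpace.IsCompletelyMetrizableSpace (E → Circle) := inferInstance
  have : PolishSpace (E → Circle) := inferInstance
  have : BorelSpace (E → Circle) := inferInstance
  apply ext_of_forall_mem_subalgebra_integral_eq_of_polish (𝕜 := ℂ)
    (A := StarAlgebra.adjoin ℂ (Set.range (crd : E → (E → Circle) →ᵇ ℂ)))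
  · intro x y hxy
    obtain ⟨z, hz⟩ := Function.ne_iff.mp hxy
    refine ⟨crd z, ⟨BoundedContinuousFunction.toContinuousMapStarₐ ℂ (crd z), ⟨crd z,
      StarAlgebra.subset_adjoin ℂ _ ⟨z, rfl⟩, rfl⟩, rfl⟩, ?_⟩
    rw [crd_apply, crd_apply]
    exact fun h' => hz (Circle.ext h')
  · intro g hg
    obtain ⟨β, hβ⟩ := trig_of_mem g hg
    have key : ∀ (ρ : Measure (E → Circle)) [IsFiniteMeasure ρ], (∀ᵐ x ∂ρ, IsChar x) →
        ∫ x, g x ∂ρ = β.sum fun z b => b * ∫ x, (x z : ℂ) ∂ρ := by
      intro ρ _ hρ
      rw [integral_congr_ae (hρ.mono fun x hx => hβ x hx)]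
      simp only [Finsupp.sum]
      rw [integral_finsetSum]
      · refine Finset.sum_congr rfl fun z _ => ?_
        rw [integral_const_mul]
      · intro z _
        exact ((crd z).integrable ρ).const_mul _
    rw [key σ hc, key σ' hc']
    simp only [h]

end Pool.Agent.MP_8b8716_co_HN
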