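import Mathlib
import Pool.Agent.Lib.MP_8b8716_co_HN.Basic

set_option autoImplicit false

/-!
# MP_8b8716_co, project HN: facts on `Leaf`
-/

noncomputable section

namespace Pool.Agent.MP_8b8716_co_HN

open Complex MeasureTheory Filter Topology Set
open scoped ENNReal

private theorem leafF_dist (a : Circle) : dist a 1 = ‖(a : ℂ) - 1‖ := by
  have h : dist a 1 = dist (a : ℂ) ((1 : Circle) : ℂ) := rfl
  rw [h, dist_eq_norm, Circle.coe_one]

private theorem leafF_basis (E : Subfield ℂ) :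
    (comap (fun z : E => (z : ℂ)) (𝓝 0)).HasBasis (fun _ : ℕ => True)
      fun m : ℕ => {z : E | ‖(z : ℂ)‖ < 1 / ((m : ℝ) + 1)} := by
  have h := (Metric.nhds_basis_ball_inv_nat_succ (x := (0 : ℂ))).comap (fun z : E => (z : ℂ))
  refine h.congr (fun _ => Iff.rfl) fun m _ => ?_
  ext z
  simp

private theorem leafF_iff {E : Subfield ℂ} (x : E → Circle) : x ∈ Leaf E ↔
    ∀ n : ℕ, ∃ m : ℕ, ∀ z : E, ‖(z : ℂ)‖ < 1 / ((m : ℝ) + 1) →
      ‖(x z : ℂ) - 1‖ < 1 / ((n : ℝ) + 1) := by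
  unfold Leaf
  rw [mem_ofPred_eq, (leafF_basis E).tendsto_iff Metric.nhds_basis_ball_inv_nat_succ]
  simp only [true_and, forall_true_left, mem_ofPred_eq, Metric.mem_ball, leafF_dist]

theorem measurableSet_Leaf {E : Subfield ℂ} (hE : Countable E) : MeasurableSet (Leaf E) := by
  have h : Leaf E = ⋂ n : ℕ, ⋃ m : ℕ, ⋂ z : E, {x : E → Circle | ‖(z : ℂ)‖ < 1 / ((m : ℝ) + 1) →
      ‖(x z : ℂ) - 1‖ < 1 / ((n : ℝ) + 1)} := by
    ext x
    rw [leafF_iff]
    simp
  rw [h]
  refine MeasurableSet.iInter fun n => MeasurableSet.iUnion fun m => MeasurableSet.iInter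
    fun z => ?_
  by_cases hz : ‖(z : ℂ)‖ < 1 / ((m : ℝ) + 1)
  · have h1 : Measurable fun x : E → Circle => ‖(x z : ℂ) - 1‖ := by
      have h2 : Continuous fun a : Circle => ‖(a : ℂ) - 1‖ := by fun_prop
      exact h2.measurable.comp (measurable_pi_apply z)
    have h3 : {x : E → Circle | ‖(z : ℂ)‖ < 1 / ((m : ℝ) + 1) →
        ‖(x z : ℂ) - 1‖ < 1 / ((n : ℝ) + 1)} = {x | ‖(x z : ℂ) - 1‖ < 1 / ((n : ℝ) + 1)} := by
      ext x
      exact ⟨fun h => h hz, fun h _ => h⟩
    rw [h3]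
    exact measurableSet_lt h1 measurable_const
  · have h3 : {x : E → Circle | ‖(z : ℂ)‖ < 1 / ((m : ℝ) + 1) →
        ‖(x z : ℂ) - 1‖ < 1 / ((n : ℝ) + 1)} = univ := by
      ext x
      exact ⟨fun _ => mem_univ _, fun _ h => absurd h hz⟩
    rw [h3]
    exact MeasurableSet.univ

private theorem leafF_mulAct {E : Subfield ℂ} (c : E) {x : E → Circle} (hx : x ∈ Leaf E) :
    mulAct c x ∈ Leaf E := by
  have h : Tendsto (fun w : E => c * w) (comap (fun z : E => (z : ℂ)) (𝓝 0))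
      (comap (fun z : E => (z : ℂ)) (𝓝 0)) := by
    rw [tendsto_comap_iff]
    have h1 : Tendsto (fun w : E => (c : ℂ) * (w : ℂ)) (comap (fun z : E => (z : ℂ)) (𝓝 0))
        (𝓝 ((c : ℂ) * 0)) := tendsto_comap.const_mul (c : ℂ)
    rw [mul_zero] at h1
    exact h1
  exact Tendsto.comp hx h

theorem mulAct_mem_Leaf {E : Subfield ℂ} {c : E} (hc : c ≠ 0) (x : E → Circle) :
    mulAct c x ∈ Leaf E ↔ x ∈ Leaf E := by
  refine ⟨fun h => ?_, leafF_mulAct c⟩
  have h1 := leafF_mulAct c⁻¹ h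
  rwa [mulAct_mulAct, inv_mul_cancel₀ hc, mulAct_one] at h1

theorem el_mem_Leaf {E : Subfield ℂ} (ξ : ℂ) : (fun z : E => el ξ z) ∈ Leaf E := by
  have h := ((continuous_el_right ξ).tendsto 0).comp
    (tendsto_comap : Tendsto (fun z : E => (z : ℂ)) (comap (fun z : E => (z : ℂ)) (𝓝 0)) (𝓝 0))
  rw [el_zero_right] at h
  exact h

private theorem leafF_int {E : Subfield ℂ} (σ : Measure (E → Circle)) [IsFiniteMeasure σ]
    (s : Set (E → Circle)) (u : E) : Integrable (fun x : E → Circle => (x u : ℂ)) (σ.restrict s) := by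
  have h2 : Continuous fun a : Circle => (a : ℂ) := by fun_prop
  refine Integrable.of_bound (h2.measurable.comp (measurable_pi_apply u)).aestronglyMeasurable 1
    (Eventually.of_forall fun x => ?_)
  simp

theorem leaf_cont {E : Subfield ℂ} (hE : Countable E) (σ : Measure (E → Circle))
    [IsFiniteMeasure σ] (hc : ∀ᵐ x ∂σ, IsChar x) :
    UC fun u : E => (∫ x in Leaf E, (x u : ℂ) ∂σ).re := by
  have hL : Tendsto (fun z : E => ∫ x in Leaf E, ‖(x z : ℂ) - 1‖ ∂σ)
      (comap (fun z : E => (z : ℂ)) (𝓝 0)) (𝓝 (∫ x in Leaf E, (0 : ℝ) ∂σ)) := by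
    refine tendsto_integral_filter_of_dominated_convergence (fun _ => (2 : ℝ)) ?_ ?_ ?_ ?_
    · refine Eventually.of_forall fun z => ?_
      have h2 : Continuous fun a : Circle => ‖(a : ℂ) - 1‖ := by fun_prop
      exact (h2.measurable.comp (measurable_pi_apply z)).aestronglyMeasurable
    · refine Eventually.of_forall fun z => Eventually.of_forall fun x => ?_
      rw [norm_norm]
      refine (norm_sub_le _ _).trans ?_
      rw [Circle.norm_coe, norm_one]
      norm_num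
    · exact integrable_const _
    · refine (ae_restrict_mem (measurableSet_Leaf hE)).mono fun x hx => ?_
      have h1 : Tendsto x (comap (fun z : E => (z : ℂ)) (𝓝 0)) (𝓝 1) := hx
      have h2 : Continuous fun a : Circle => ‖(a : ℂ) - 1‖ := by fun_prop
      have h3 := (h2.tendsto 1).comp h1
      have h4 : ‖((1 : Circle) : ℂ) - 1‖ = 0 := by simp
      rw [h4] at h3
      exact h3
  rw [integral_zero] at hL
  intro ε hε
  have h1 : ∀ᶠ z in comap (fun z : E => (z : ℂ)) (𝓝 0),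
      ∫ x in Leaf E, ‖(x z : ℂ) - 1‖ ∂σ < ε := hL.eventually_lt_const hε
  rw [(leafF_basis E).eventually_iff] at h1
  obtain ⟨m, -, hm⟩ := h1
  refine ⟨1 / ((m : ℝ) + 1), by positivity, fun u v huv => ?_⟩
  have h2 : ∫ x in Leaf E, ‖(x (u - v) : ℂ) - 1‖ ∂σ < ε := by
    apply hm
    simpa using huv
  refine lt_of_le_of_lt ?_ h2
  rw [← sub_re, ← integral_sub (leafF_int σ _ u) (leafF_int σ _ v)]
  refine (abs_re_le_norm _).trans ((norm_integral_le_integral_norm _).trans (le_of_eq ?_))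
  refine integral_congr_ae ((ae_restrict_of_ae hc).mono fun x hx => ?_)
  have h3 : x u = x (u - v) * x v := by rw [← hx, sub_add_cancel]
  simp only
  rw [h3, Circle.coe_mul, ← sub_one_mul, norm_mul, Circle.norm_coe, mul_one]

end Pool.Agent.MP_8b8716_co_HN
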