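import Mathlib
import Pool.Agent.Lib.MP_8b8716_co_HN.Defs
import Pool.Agent.Lib.MP_8b8716_co_HN.Basic

set_option autoImplicit false

/-!
# MP_8b8716_co, project HN, module NumA: the local ring `K0` and its ideals `Kn n`

The Gaussian integers are treated by the ring `GaussianInt` of Mathlib: `NumA.io` embeds it in
`KG` with image `Zi`, and `NumA.fi : GaussianInt →+* ZMod 5`, `a + b i ↦ a + 2 b`, has the kernel
`(2 - i)`.
-/

noncomputable section

namespace Pool.Agent.MP_8b8716_co_HN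

open Complex MeasureTheory Filter Topology Set
open scoped ENNReal

namespace NumA

instance fact5 : Fact (Nat.Prime 5) := ⟨by norm_num⟩

theorem toC_mem (x : GaussianInt) : GaussianInt.toComplex x ∈ KG :=
  ⟨x.re, x.im, by rw [GaussianInt.toComplex_def]; push_cast; rfl⟩

/-- the embedding of the Gaussian integers -/
def io : GaussianInt →+* KG := GaussianInt.toComplex.codRestrict KG toC_mem

theorem coe_io (x : GaussianInt) : ((io x : KG) : ℂ) = GaussianInt.toComplex x := rfl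

theorem io_inj {x y : GaussianInt} : io x = io y ↔ x = y := by
  rw [Subtype.ext_iff, coe_io, coe_io, GaussianInt.toComplex_inj]

theorem io_eq_zero {x : GaussianInt} : io x = 0 ↔ x = 0 := by
  rw [← map_zero io, io_inj]

theorem mem_Zi {w : KG} : w ∈ Zi ↔ ∃ g : GaussianInt, io g = w := by
  constructor
  · rintro ⟨a, b, h⟩
    refine ⟨⟨a, b⟩, Subtype.ext ?_⟩
    rw [coe_io, h, GaussianInt.toComplex_def']
  · rintro ⟨g, rfl⟩
    exact ⟨g.re, g.im, by rw [coe_io, GaussianInt.toComplex_def]⟩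

/-- the prime `2 + i` of the Gaussian integers -/
def pg : GaussianInt := ⟨2, 1⟩

/-- the prime `2 - i` of the Gaussian integers -/
def bg : GaussianInt := ⟨2, -1⟩

theorem io_pg : io pg = pp := by
  apply Subtype.ext
  rw [coe_io]
  unfold pg pp
  rw [GaussianInt.toComplex_def']
  push_cast
  ring

theorem io_bg : io bg = pb := by
  apply Subtype.ext
  rw [coe_io]
  unfold bg pb
  rw [GaussianInt.toComplex_def']
  push_cast
  ring

theorem star_pg : star pg = bg := by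
  ext <;> simp [pg, bg]

theorem star_bg : star bg = pg := by
  ext <;> simp [pg, bg]

theorem bg_mul_pg : bg * pg = 5 := by
  ext <;> simp [pg, bg]

/-- the residue map -/
def fi : GaussianInt →+* ZMod 5 := Zsqrtd.lift ⟨2, by decide⟩

theorem fi_apply (x : GaussianInt) : fi x = (x.re : ZMod 5) + x.im * 2 := rfl

theorem fi_bg : fi bg = 0 := by
  rw [fi_apply]
  decide

theorem fi_pg : fi pg ≠ 0 := by
  rw [fi_apply]
  decide

theorem fi_eq_zero {x : GaussianInt} : fi x = 0 ↔ bg ∣ x := by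
  constructor
  · intro h
    rw [fi_apply] at h
    have h1 : (5 : ℤ) ∣ x.re + x.im * 2 := by
      have h2 : ((x.re + x.im * 2 : ℤ) : ZMod 5) = 0 := by
        push_cast
        exact h
      exact (ZMod.intCast_zmod_eq_zero_iff_dvd _ 5).1 h2
    obtain ⟨k, hk⟩ := h1
    refine ⟨⟨2 * k - x.im, k⟩, ?_⟩
    ext
    · simp [bg]
      linarith
    · simp [bg]
  · rintro ⟨y, rfl⟩
    rw [map_mul, fi_bg, zero_mul]

theorem bg_ne_zero : bg ≠ 0 := by
  intro h
  have := congrArg Zsqrtd.re h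
  simp [bg] at this

theorem pg_ne_zero : pg ≠ 0 := by
  intro h
  have := congrArg Zsqrtd.re h
  simp [pg] at this

theorem prime_bg : Prime bg := by
  refine ⟨bg_ne_zero, ?_, ?_⟩
  · intro h
    have h1 := h.map fi
    rw [fi_bg] at h1
    exact not_isUnit_zero h1
  · intro a b h
    rw [← fi_eq_zero, map_mul, mul_eq_zero] at h
    rwa [← fi_eq_zero, ← fi_eq_zero]

theorem pb_ne : (pb : KG) ≠ 0 := by
  rw [← io_bg, Ne, io_eq_zero]
  exact bg_ne_zero

theorem pp_ne : (pp : KG) ≠ 0 := by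
  rw [← io_pg, Ne, io_eq_zero]
  exact pg_ne_zero

theorem th_ne : (th : KG) ≠ 0 := div_ne_zero pp_ne pb_ne

theorem Ndiv_io {d : GaussianInt} : Ndiv (io d) ↔ fi d ≠ 0 := by
  constructor
  · rintro ⟨_, h⟩ h0
    obtain ⟨e, he⟩ := fi_eq_zero.1 h0
    exact h (io e) (mem_Zi.2 ⟨e, rfl⟩) (by rw [he, map_mul, io_bg])
  · intro h
    refine ⟨mem_Zi.2 ⟨d, rfl⟩, ?_⟩
    intro e he h1
    obtain ⟨e, rfl⟩ := mem_Zi.1 he
    rw [← io_bg, ← map_mul, io_inj] at h1
    exact h (fi_eq_zero.2 ⟨e, h1⟩)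

theorem Ndiv_iff {w : KG} : Ndiv w ↔ ∃ d : GaussianInt, fi d ≠ 0 ∧ io d = w := by
  constructor
  · intro h
    obtain ⟨d, rfl⟩ := mem_Zi.1 h.1
    exact ⟨d, Ndiv_io.1 h, rfl⟩
  · rintro ⟨d, h, rfl⟩
    exact Ndiv_io.2 h

theorem ne_of_fi {d : GaussianInt} (h : fi d ≠ 0) : io d ≠ 0 := by
  rw [Ne, io_eq_zero]
  rintro rfl
  exact h (map_zero _)

theorem mem_K0 {w : KG} : w ∈ K0 ↔ ∃ g d : GaussianInt, fi d ≠ 0 ∧ w = io g / io d := by
  constructor
  · rintro ⟨g, hg, d, hd, rfl⟩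
    obtain ⟨g, rfl⟩ := mem_Zi.1 hg
    obtain ⟨d, hd', rfl⟩ := Ndiv_iff.1 hd
    exact ⟨g, d, hd', rfl⟩
  · rintro ⟨g, d, hd, rfl⟩
    exact ⟨io g, mem_Zi.2 ⟨g, rfl⟩, io d, Ndiv_io.2 hd, rfl⟩

theorem isCoprime_bg_pg : IsCoprime bg pg := by
  refine ⟨pg - 1, -1, ?_⟩
  ext <;> simp [pg, bg]

end NumA

open NumA

theorem K0_add {a b : KG} (ha : a ∈ K0) (hb : b ∈ K0) : a + b ∈ K0 := by
  obtain ⟨g, d, hd, rfl⟩ := mem_K0.1 ha
  obtain ⟨g', d', hd', rfl⟩ := mem_K0.1 hb
  refine mem_K0.2 ⟨g * d' + d * g', d * d', ?_, ?_⟩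
  · rw [map_mul]
    exact mul_ne_zero hd hd'
  · rw [div_add_div _ _ (ne_of_fi hd) (ne_of_fi hd')]
    simp only [map_add, map_mul]

theorem K0_mul {a b : KG} (ha : a ∈ K0) (hb : b ∈ K0) : a * b ∈ K0 := by
  obtain ⟨g, d, hd, rfl⟩ := mem_K0.1 ha
  obtain ⟨g', d', hd', rfl⟩ := mem_K0.1 hb
  refine mem_K0.2 ⟨g * g', d * d', ?_, ?_⟩
  · rw [map_mul]
    exact mul_ne_zero hd hd'
  · rw [div_mul_div_comm]
    simp only [map_mul]

theorem K0_neg {a : KG} (ha : a ∈ K0) : -a ∈ K0 := by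
  obtain ⟨g, d, hd, rfl⟩ := mem_K0.1 ha
  refine mem_K0.2 ⟨-g, d, hd, ?_⟩
  rw [map_neg, neg_div]

theorem K0_of_Zi {a : KG} (ha : a ∈ Zi) : a ∈ K0 := by
  obtain ⟨g, rfl⟩ := mem_Zi.1 ha
  exact mem_K0.2 ⟨g, 1, by rw [map_one]; exact one_ne_zero, by rw [map_one, div_one]⟩

theorem Kn_zero : Kn 0 = K0 := by
  ext w
  simp [Kn]

theorem zero_mem_Kn (n : ℤ) : (0 : KG) ∈ Kn n := by
  change th ^ n * 0 ∈ K0
  rw [mul_zero]
  exact K0_of_Zi Zi.zero_mem

theorem Kn_add {n : ℤ} {a b : KG} (ha : a ∈ Kn n) (hb : b ∈ Kn n) : a + b ∈ Kn n := by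
  change th ^ n * (a + b) ∈ K0
  rw [mul_add]
  exact K0_add ha hb

theorem Kn_neg {n : ℤ} {a : KG} (ha : a ∈ Kn n) : -a ∈ Kn n := by
  change th ^ n * (-a) ∈ K0
  rw [mul_neg]
  exact K0_neg ha

theorem Kn_mul {m n : ℤ} {a b : KG} (ha : a ∈ Kn m) (hb : b ∈ Kn n) : a * b ∈ Kn (m + n) := by
  change th ^ (m + n) * (a * b) ∈ K0
  rw [zpow_add₀ th_ne, mul_mul_mul_comm]
  exact K0_mul ha hb

theorem NumA.inv_th_mem : th⁻¹ ∈ K0 := by
  refine mem_K0.2 ⟨bg, pg, fi_pg, ?_⟩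
  rw [io_bg, io_pg]
  unfold th
  rw [inv_div]

theorem NumA.inv_th_pow_mem (k : ℕ) : (th⁻¹) ^ k ∈ K0 := by
  induction k with
  | zero =>
    rw [pow_zero]
    exact K0_of_Zi Zi.one_mem
  | succ k ih =>
    rw [pow_succ]
    exact K0_mul ih inv_th_mem

theorem Kn_anti {m n : ℤ} (h : m ≤ n) : Kn n ⊆ Kn m := by
  intro w hw
  change th ^ m * w ∈ K0
  obtain ⟨k, rfl⟩ := Int.le.dest h
  have h1 : th ^ m * w = (th⁻¹) ^ k * (th ^ (m + k) * w) := by
    rw [zpow_add₀ th_ne, inv_pow, zpow_natCast]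
    have : (th : KG) ^ k ≠ 0 := pow_ne_zero _ th_ne
    field_simp
  rw [h1]
  exact K0_mul (inv_th_pow_mem k) hw

theorem th_zpow_mul_mem (n k : ℤ) (w : KG) : th ^ k * w ∈ Kn n ↔ w ∈ Kn (n + k) := by
  change th ^ n * (th ^ k * w) ∈ K0 ↔ th ^ (n + k) * w ∈ K0
  rw [zpow_add₀ th_ne, mul_assoc]

theorem NumA.io_mem_Kn_iff (n : ℕ) (x : GaussianInt) : io x ∈ Kn n ↔ bg ^ n ∣ x := by
  constructor
  · intro h
    obtain ⟨g, d, hd, h1⟩ := mem_K0.1 h
    have h2 : pg ^ n * x * d = g * bg ^ n := by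
      rw [← io_inj]
      simp only [map_mul, map_pow, io_pg, io_bg]
      have h3 := ne_of_fi hd
      have h4 : (pb : KG) ^ n ≠ 0 := pow_ne_zero _ pb_ne
      unfold th at h1
      rw [zpow_natCast, div_pow] at h1
      field_simp at h1
      linear_combination h1
    have h3 : bg ^ n ∣ (pg ^ n * d) * x := ⟨g, by linear_combination h2⟩
    refine prime_bg.pow_dvd_of_dvd_mul_left n ?_ h3
    rw [← fi_eq_zero, map_mul, map_pow]
    exact mul_ne_zero (pow_ne_zero _ fi_pg) hd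
  · rintro ⟨y, rfl⟩
    change th ^ (n : ℤ) * _ ∈ K0
    have h1 : th ^ (n : ℤ) * io (bg ^ n * y) = io (pg ^ n * y) := by
      simp only [map_mul, map_pow, io_pg, io_bg]
      unfold th
      rw [zpow_natCast, div_pow]
      have h4 : (pb : KG) ^ n ≠ 0 := pow_ne_zero _ pb_ne
      field_simp
    rw [h1]
    exact K0_of_Zi (mem_Zi.2 ⟨_, rfl⟩)

theorem intCast_mem_Kn (n : ℕ) (j : ℤ) : (j : KG) ∈ Kn n ↔ (5 : ℤ) ^ n ∣ j := by
  have h0 : (j : KG) = io (j : GaussianInt) := by rw [map_intCast]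
  rw [h0, io_mem_Kn_iff]
  constructor
  · intro h
    have h1 : pg ^ n ∣ (j : GaussianInt) := by
      obtain ⟨y, hy⟩ := h
      refine ⟨star y, ?_⟩
      have h2 := congrArg star hy
      rw [star_mul, star_pow, star_bg, star_intCast] at h2
      rw [h2, mul_comm]
    have h2 : (bg ^ n * pg ^ n) ∣ (j : GaussianInt) :=
      (isCoprime_bg_pg.pow (m := n) (n := n)).mul_dvd h h1
    rw [← mul_pow, bg_mul_pg] at h2
    have h3 : (((5 : ℤ) ^ n : ℤ) : GaussianInt) ∣ (j : GaussianInt) := by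
      push_cast
      exact h2
    exact (Zsqrtd.intCast_dvd_intCast _ _).1 h3
  · rintro ⟨y, rfl⟩
    refine ⟨pg ^ n * (y : GaussianInt), ?_⟩
    rw [← mul_assoc, ← mul_pow, bg_mul_pg]
    push_cast
    ring

theorem exists_digit {z : KG} (hz : z ∈ K0) : ∃ j : ℕ, j < 5 ∧ z - j ∈ Kn 1 := by
  obtain ⟨g, d, hd, rfl⟩ := mem_K0.1 hz
  refine ⟨(fi g / fi d).val, ZMod.val_lt _, ?_⟩
  set j : ℕ := (fi g / fi d).val with hj
  have h1 : fi (g - j * d) = 0 := by
    rw [map_sub, map_mul, map_natCast, hj, ZMod.natCast_val, ZMod.cast_id, div_mul_cancel₀ _ hd,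
      sub_self]
  obtain ⟨e, he⟩ := fi_eq_zero.1 h1
  change th ^ (1 : ℤ) * (io g / io d - j) ∈ K0
  refine mem_K0.2 ⟨pg * e, d, hd, ?_⟩
  have h2 : io g - j * io d = pb * io e := by
    have := congrArg io he
    rwa [map_sub, map_mul, map_natCast, map_mul, io_bg] at this
  have h3 := ne_of_fi hd
  have h4 := pb_ne
  rw [zpow_one, map_mul, io_pg]
  unfold th
  field_simp
  linear_combination (pp : KG) * h2

theorem exists_unit (n s : ℕ) (hs : Nat.Coprime s 5) :
    ∃ c : KG, ‖(c : ℂ)‖ = 1 ∧ c - s ∈ Kn n := by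
  obtain ⟨u, v, huv⟩ := isCoprime_bg_pg.pow (m := n) (n := n)
  rcases Nat.eq_zero_or_pos n with rfl | hn
  · refine ⟨1, by simp, ?_⟩
    rw [Nat.cast_zero, Kn_zero]
    exact K0_of_Zi (Zi.sub_mem Zi.one_mem (natCast_mem Zi s))
  set w : GaussianInt := s * v * pg ^ n + u * bg ^ n with hw
  have h1 : w - s = bg ^ n * (u * (1 - s)) := by
    rw [hw]
    linear_combination (s : GaussianInt) * huv
  have h2 : star w - 1 = bg ^ n * ((s - 1) * star v) := by
    have h3 : w - 1 = pg ^ n * ((s - 1) * v) := by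
      rw [hw]
      linear_combination huv
    have h4 := congrArg star h3
    rw [star_sub, star_one, star_mul, star_mul, star_sub, star_one, star_natCast, star_pow,
      star_pg] at h4
    rw [h4]
    ring
  have h3 : fi (star w) = 1 := by
    have : star w = 1 + bg ^ n * ((s - 1) * star v) := by linear_combination h2
    rw [this, map_add, map_one, map_mul, map_pow, fi_bg, zero_pow hn.ne', zero_mul, add_zero]
  have h4 : io (star w) ≠ 0 := ne_of_fi (by rw [h3]; exact one_ne_zero)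
  refine ⟨io w / io (star w), ?_, ?_⟩
  · have h5 : ((io (star w) : KG) : ℂ) = (starRingEnd ℂ) (io w : ℂ) := by
      rw [coe_io, coe_io, GaussianInt.toComplex_star]
    have h6 : ((io w : KG) : ℂ) ≠ 0 := by
      intro h
      apply h4
      apply Subtype.ext
      rw [h5, h]
      simp
    rw [Subfield.coe_div, h5, norm_div, RCLike.norm_conj, div_self (norm_ne_zero_iff.2 h6)]
  · change th ^ (n : ℤ) * _ ∈ K0
    refine mem_K0.2 ⟨pg ^ n * (u * (1 - s) - s * ((s - 1) * star v)), star w,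
      by rw [h3]; exact one_ne_zero, ?_⟩
    have e1 : io w - s = pb ^ n * (io u * (1 - s)) := by
      have := congrArg io h1
      simpa only [map_sub, map_mul, map_pow, map_one, map_natCast, io_bg] using this
    have e2 : io (star w) - 1 = pb ^ n * ((s - 1) * io (star v)) := by
      have := congrArg io h2
      simpa only [map_sub, map_mul, map_pow, map_one, map_natCast, io_bg] using this
    simp only [map_sub, map_mul, map_pow, map_one, map_natCast, io_pg]
    unfold th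
    have h7 : (pb : KG) ^ n ≠ 0 := pow_ne_zero _ pb_ne
    rw [zpow_natCast, div_pow]
    field_simp
    linear_combination (pp : KG) ^ n * (e1 - (s : KG) * e2)

end Pool.Agent.MP_8b8716_co_HN
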