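import Mathlib
import Pool.Agent.Lib.MP_8b8716_co_HN.NumA

set_option autoImplicit false

/-!
# MP_8b8716_co, project HN: a character trivial on `Kn 1`
-/

noncomputable section

namespace Pool.Agent.MP_8b8716_co_HN

open Complex MeasureTheory Filter Topology Set
open scoped ENNReal

private def psiSub : AddSubgroup KG where
  carrier := Kn 1
  add_mem' := fun ha hb => Kn_add ha hb
  zero_mem' := zero_mem_Kn 1
  neg_mem' := fun ha => Kn_neg ha

private theorem psi_one_not_mem : (1 : KG) ∉ Kn 1 := by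
  have h := intCast_mem_Kn 1 1
  intro h1
  have h2 : ((1 : ℤ) : KG) ∈ Kn ((1 : ℕ) : ℤ) := by simpa using h1
  have h3 := h.1 h2
  norm_num at h3

private def psiF : ℚ →+ Additive Circle :=
  AddMonoidHom.mk' (fun q => Additive.ofMul (Circle.exp (2 * Real.pi * (q : ℝ)))) (by
    intro a b
    rw [← ofMul_mul, ← Circle.exp_add]
    congr 2
    push_cast
    ring)

private theorem psiF_apply (q : ℚ) : psiF q = Additive.ofMul (Circle.exp (2 * Real.pi * (q : ℝ))) :=
  rfl

private theorem psiF_ker (q : ℚ) (hq : q ∈ AddSubgroup.zmultiples (1 : ℚ)) : psiF q = 0 := by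
  obtain ⟨n, rfl⟩ := AddSubgroup.mem_zmultiples_iff.1 hq
  rw [psiF_apply, ← ofMul_one]
  congr 1
  rw [Circle.exp_eq_one]
  exact ⟨n, by push_cast [zsmul_eq_mul]; ring⟩

private def psiG : AddCircle (1 : ℚ) →+ Additive Circle :=
  QuotientAddGroup.lift (AddSubgroup.zmultiples (1 : ℚ)) psiF psiF_ker

private theorem psiG_ne (x : AddCircle (1 : ℚ)) (hx : x ≠ 0) : psiG x ≠ 0 := by
  obtain ⟨q, rfl⟩ := QuotientAddGroup.mk_surjective x
  intro h
  apply hx
  have h1 : psiF q = 0 := h
  rw [psiF_apply, ← ofMul_one] at h1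
  have h2 : Circle.exp (2 * Real.pi * (q : ℝ)) = 1 := Additive.ofMul.injective h1
  rw [Circle.exp_eq_one] at h2
  obtain ⟨n, hn⟩ := h2
  rw [QuotientAddGroup.eq_zero_iff, AddSubgroup.mem_zmultiples_iff]
  refine ⟨n, ?_⟩
  have h3 : (q : ℝ) = n := by
    have h4 : (2 * Real.pi : ℝ) ≠ 0 := by positivity
    apply mul_left_cancel₀ h4
    rw [hn]; ring
  have h5 : q = n := by exact_mod_cast h3
  rw [h5]; simp

theorem exists_psi : ∃ ψ : KG → Circle, IsChar ψ ∧ (∀ w ∈ Kn 1, ψ w = 1) ∧ ψ 1 ≠ 1 := by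
  have h0 : (QuotientAddGroup.mk (1 : KG) : KG ⧸ psiSub) ≠ 0 := by
    rw [Ne, QuotientAddGroup.eq_zero_iff]
    exact psi_one_not_mem
  obtain ⟨c, hc⟩ := CharacterModule.exists_character_apply_ne_zero_of_ne_zero h0
  refine ⟨fun w => Additive.toMul (psiG (c (QuotientAddGroup.mk w))), ?_, ?_, ?_⟩
  · intro a b
    have h1 : (QuotientAddGroup.mk (a + b) : KG ⧸ psiSub) =
        QuotientAddGroup.mk a + QuotientAddGroup.mk b := rfl
    simp only [h1, map_add, toMul_add]
  · intro w hw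
    have h1 : (QuotientAddGroup.mk w : KG ⧸ psiSub) = 0 := by
      rw [QuotientAddGroup.eq_zero_iff]
      exact hw
    simp only [h1, map_zero, toMul_zero]
  · intro h
    apply psiG_ne _ hc
    apply Additive.toMul.injective
    rw [toMul_zero]
    exact h

end Pool.Agent.MP_8b8716_co_HN
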