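import Mathlib
import Pool.Agent.Lib.MP_8b8716_co_HN.Basic
import Pool.Agent.Lib.MP_8b8716_co_HN.NumA
import Pool.Agent.Lib.MP_8b8716_co_HN.Psi

set_option autoImplicit false

/-!
# MP_8b8716_co, project HN: digit probabilities
-/

noncomputable section

namespace Pool.Agent.MP_8b8716_co_HN

open Complex MeasureTheory Filter Topology Set
open scoped ENNReal

/-! ### Conditional probabilities with values in `[0, 1]` -/

/-- the conditional probability of the set `B` -/
theorem digit_exists_condProb {X : Type*} {m m0 : MeasurableSpace X} (hm : m ≤ m0)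
    (ν : Measure X) [IsFiniteMeasure ν] (B : Set X) :
    ∃ P : X → ℝ≥0∞, Measurable[m] P ∧ (∀ y, P y ≤ 1) ∧
      ∀ h : X → ℝ≥0∞, Measurable[m] h → ∫⁻ y in B, h y ∂ν = ∫⁻ y, h y * P y ∂ν := by
  have h1 : IsFiniteMeasure (ν.trim hm) := isFiniteMeasure_trim hm
  have h2 : IsFiniteMeasure ((ν.restrict B).trim hm) := isFiniteMeasure_trim hm
  have hle : (ν.restrict B).trim hm ≤ ν.trim hm := by
    refine Measure.le_iff.2 fun s hs => ?_
    rw [trim_measurableSet_eq hm hs, trim_measurableSet_eq hm hs]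
    exact Measure.restrict_apply_le _ _
  have hac : (ν.restrict B).trim hm ≪ ν.trim hm := Measure.absolutelyContinuous_of_le hle
  have hone : ((ν.restrict B).trim hm).rnDeriv (ν.trim hm) ≤ᵐ[ν.trim hm] 1 :=
    Measure.rnDeriv_le_one_of_le hle
  have hPm : Measurable[m]
      fun y => min 1 (((ν.restrict B).trim hm).rnDeriv (ν.trim hm) y) :=
    measurable_const.min (Measure.measurable_rnDeriv _ _)
  refine ⟨fun y => min 1 (((ν.restrict B).trim hm).rnDeriv (ν.trim hm) y), hPm,
    fun y => min_le_left _ _, fun h hh => ?_⟩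
  calc ∫⁻ y in B, h y ∂ν = ∫⁻ y, h y ∂((ν.restrict B).trim hm) := (lintegral_trim hm hh).symm
    _ = ∫⁻ y, h y ∂((ν.trim hm).withDensity
          (((ν.restrict B).trim hm).rnDeriv (ν.trim hm))) := by
        rw [Measure.withDensity_rnDeriv_eq _ _ hac]
    _ = ∫⁻ y, ((((ν.restrict B).trim hm).rnDeriv (ν.trim hm)) * h) y ∂(ν.trim hm) :=
        lintegral_withDensity_eq_lintegral_mul _ (Measure.measurable_rnDeriv _ _) hh
    _ = ∫⁻ y, h y * min 1 (((ν.restrict B).trim hm).rnDeriv (ν.trim hm) y) ∂(ν.trim hm) := by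
        refine lintegral_congr_ae ?_
        filter_upwards [hone] with y hy
        have hy' : ((ν.restrict B).trim hm).rnDeriv (ν.trim hm) y ≤ 1 := hy
        rw [Pi.mul_apply, mul_comm, min_eq_right hy']
    _ = ∫⁻ y, h y * min 1 (((ν.restrict B).trim hm).rnDeriv (ν.trim hm) y) ∂ν :=
        lintegral_trim hm (hh.mul hPm)

/-! ### `σ`-algebras -/

theorem digit_FS_le (S : Set KG) : FS S ≤ (MeasurableSpace.pi : MeasurableSpace (KG → Circle)) :=
  iSup₂_le fun w _ => (measurable_pi_apply w).comap_le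

theorem digit_FS_mono {S T : Set KG} (h : S ⊆ T) : FS S ≤ FS T :=
  iSup₂_le fun w hw =>
    le_iSup₂_of_le (f := fun (w : KG) (_ : w ∈ T) =>
      MeasurableSpace.comap (fun y : KG → Circle => y w) inferInstance) w (h hw) le_rfl

theorem digit_measurable_apply {S : Set KG} {w : KG} (hw : w ∈ S) :
    Measurable[FS S] (fun y : KG → Circle => y w) :=
  measurable_iff_comap_le.2
    (le_iSup₂_of_le (f := fun (w : KG) (_ : w ∈ S) =>
      MeasurableSpace.comap (fun y : KG → Circle => y w) inferInstance) w hw le_rfl)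

/-! ### Fifth roots -/

/-- the principal fifth root -/
def digitRt (z : Circle) : Circle := Circle.exp (Complex.arg z / 5)

theorem digit_exp_pow (t : ℝ) : Circle.exp (t / 5) ^ 5 = Circle.exp t := by
  have h : t = t / 5 + (t / 5 + (t / 5 + (t / 5 + t / 5))) := by ring
  have h1 : Circle.exp t = Circle.exp (t / 5 + (t / 5 + (t / 5 + (t / 5 + t / 5)))) := by
    rw [← h]
  rw [h1, Circle.exp_add, Circle.exp_add, Circle.exp_add, Circle.exp_add]
  simp only [pow_succ, pow_zero, one_mul, mul_assoc]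

theorem digitRt_pow (z : Circle) : digitRt z ^ 5 = z := by
  unfold digitRt
  rw [digit_exp_pow]
  exact Circle.exp_arg z

theorem measurable_digitRt : Measurable digitRt := by
  unfold digitRt
  have h0 : Continuous (fun z : Circle => (z : ℂ)) := continuous_subtype_val
  have h1 : Measurable (fun z : Circle => (z : ℂ)) := h0.measurable
  exact Circle.exp.continuous.measurable.comp ((Complex.measurable_arg.comp h1).div_const 5)

/-- the fifth root of unity -/
def digitZ : Circle := Circle.exp (2 * Real.pi / 5)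

theorem digitZ_pow : digitZ ^ 5 = 1 := by
  unfold digitZ
  rw [digit_exp_pow]
  exact Circle.exp_two_pi

theorem digitZ_ne_one : digitZ ≠ 1 := by
  intro h
  unfold digitZ at h
  rw [Circle.exp_eq_one] at h
  obtain ⟨n, hn⟩ := h
  have h3 : (0 : ℝ) < 2 * Real.pi := by positivity
  have h4 : (1 : ℝ) = 5 * n := by
    have h5 : 2 * Real.pi * (1 - 5 * n) = 0 := by linear_combination 5 * hn
    rcases mul_eq_zero.1 h5 with h6 | h6
    · exact absurd h6 h3.ne'
    · linarith
  have h5 : (1 : ℤ) = 5 * n := by exact_mod_cast h4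
  omega

theorem digit_orderOf {u : ℂ} (h : u ^ 5 = 1) (h1 : u ≠ 1) : orderOf u = 5 := by
  have : Fact (Nat.Prime 5) := ⟨by norm_num⟩
  exact orderOf_eq_prime h h1

theorem digit_coe_pow {v : Circle} (hv : v ^ 5 = 1) : (v : ℂ) ^ 5 = 1 := by
  rw [← Circle.coe_pow, hv, Circle.coe_one]

theorem digit_coe_ne {v : Circle} (hv : v ≠ 1) : (v : ℂ) ≠ 1 := by
  intro h
  exact hv (Circle.ext (by rw [h, Circle.coe_one]))

/-- every fifth root of unity is a power of a primitive one -/
theorem digit_exists_pow {v u : Circle} (hv : v ^ 5 = 1) (hv1 : v ≠ 1) (hu : u ^ 5 = 1) :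
    ∃ i : ℕ, i < 5 ∧ v ^ i = u := by
  have h1 : IsPrimitiveRoot (v : ℂ) (orderOf (v : ℂ)) := IsPrimitiveRoot.orderOf _
  rw [digit_orderOf (digit_coe_pow hv) (digit_coe_ne hv1)] at h1
  obtain ⟨i, hi, h2⟩ := h1.eq_pow_of_pow_eq_one (digit_coe_pow hu)
  refine ⟨i, hi, Circle.ext ?_⟩
  rw [Circle.coe_pow, h2]

theorem digitZ_inj {i j : Fin 5} (h : digitZ ^ (i : ℕ) = digitZ ^ (j : ℕ)) : i = j := by
  have : Fact (Nat.Prime 5) := ⟨by norm_num⟩
  have h5 : orderOf digitZ = 5 := orderOf_eq_prime digitZ_pow digitZ_ne_one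
  have h2 := pow_inj_mod.1 h
  rw [h5, Nat.mod_eq_of_lt i.2, Nat.mod_eq_of_lt j.2] at h2
  exact Fin.ext h2

theorem digitZ_sum {n : ℕ} (h0 : 0 < n) (h5 : n < 5) :
    ∑ j : Fin 5, ((digitZ : ℂ) ^ (j : ℕ)) ^ n = 0 := by
  have ho := digit_orderOf (digit_coe_pow digitZ_pow) (digit_coe_ne digitZ_ne_one)
  have h1 : (digitZ : ℂ) ^ n ≠ 1 := by
    intro h
    have h2 := orderOf_dvd_of_pow_eq_one h
    rw [ho] at h2
    have := Nat.le_of_dvd h0 h2
    omega
  rw [Fin.sum_univ_eq_sum_range (fun j => ((digitZ : ℂ) ^ j) ^ n) 5]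
  have h2 : ∀ j ∈ Finset.range 5, ((digitZ : ℂ) ^ j) ^ n = ((digitZ : ℂ) ^ n) ^ j := by
    intro j _
    rw [← pow_mul, ← pow_mul, mul_comm]
  rw [Finset.sum_congr rfl h2, geom_sum_eq h1, ← pow_mul, mul_comm n 5, pow_mul,
    digit_coe_pow digitZ_pow, one_pow, sub_self, zero_div]

/-! ### The digit -/

/-- the digit of an element of `K0` -/
def digitN (z : KG) : ℕ := by
  classical exact if h : z ∈ K0 then (exists_digit h).choose else 0

theorem digitN_lt {z : KG} (h : z ∈ K0) : digitN z < 5 := by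
  unfold digitN
  rw [dif_pos h]
  exact (exists_digit h).choose_spec.1

theorem sub_digitN_mem {z : KG} (h : z ∈ K0) : z - digitN z ∈ Kn 1 := by
  unfold digitN
  rw [dif_pos h]
  exact (exists_digit h).choose_spec.2

theorem digitN_eq_zero_iff {z : KG} (h : z ∈ K0) : digitN z = 0 ↔ z ∈ Kn 1 := by
  constructor
  · intro h0
    have h1 := sub_digitN_mem h
    rw [h0, Nat.cast_zero, sub_zero] at h1
    exact h1
  · intro h0
    have h1 := sub_digitN_mem h
    have h2 : ((digitN z : ℤ) : KG) ∈ Kn (1 : ℕ) := by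
      have h3 : ((digitN z : ℤ) : KG) = z + -(z - digitN z) := by
        push_cast
        ring
      rw [h3]
      exact Kn_add h0 (Kn_neg h1)
    rw [intCast_mem_Kn, pow_one] at h2
    have h3 := digitN_lt h
    omega

theorem digit_five_mem : (5 : KG) ∈ Kn 1 := by
  have h : ((5 : ℤ) : KG) ∈ Kn (1 : ℕ) := by
    rw [intCast_mem_Kn, pow_one]
  have h1 : ((5 : ℤ) : KG) = 5 := by norm_num
  rw [h1] at h
  exact h

theorem digit_Kn_one_subset : Kn 1 ⊆ K0 := by
  rw [← Kn_zero]
  exact Kn_anti (by norm_num)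

theorem digit_one_mem : (1 : KG) ∈ K0 := K0_of_Zi (one_mem Zi)

theorem digit_pow_five {y : KG → Circle} (hy : IsChar y) : y 1 ^ 5 = y 5 := by
  have h := hy.map_natMul 5 1
  rw [← h]
  congr 1
  norm_num

/-- the event that `y 1` is the fifth root number `j` of `y 5` -/
def digitB (j : Fin 5) : Set (KG → Circle) :=
  {y | y 1 = digitRt (y 5) * digitZ ^ (j : ℕ)}

theorem exists_digitB {y : KG → Circle} (hy : IsChar y) : ∃ j, y ∈ digitB j := by
  have h1 : (y 1 / digitRt (y 5)) ^ 5 = 1 := by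
    rw [div_pow, digitRt_pow, digit_pow_five hy, div_self']
  obtain ⟨i, hi, h2⟩ := digit_exists_pow digitZ_pow digitZ_ne_one h1
  refine ⟨⟨i, hi⟩, ?_⟩
  change y 1 = digitRt (y 5) * digitZ ^ i
  rw [h2, mul_div_cancel]

theorem digitB_unique {y : KG → Circle} {i j : Fin 5} (hi : y ∈ digitB i) (hj : y ∈ digitB j) :
    i = j := by
  have h1 : digitRt (y 5) * digitZ ^ (i : ℕ) = digitRt (y 5) * digitZ ^ (j : ℕ) :=
    Eq.trans (Eq.symm hi) hj
  exact digitZ_inj (mul_left_cancel h1)

theorem measurableSet_digitB (j : Fin 5) : MeasurableSet[FS K0] (digitB j) := by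
  have h1 : Measurable[FS K0] (fun y : KG → Circle => y 1) := digit_measurable_apply digit_one_mem
  have h2 : Measurable[FS K0] (fun y : KG → Circle => y 5) :=
    digit_measurable_apply (digit_Kn_one_subset digit_five_mem)
  have h3 : Measurable[FS K0] (fun y : KG → Circle => digitRt (y 5) * digitZ ^ (j : ℕ)) :=
    (measurable_digitRt.comp h2).mul_const _
  exact measurableSet_eq_fun h1 h3

/-! ### The function on the five events -/

/-- the trigonometric polynomial, with `y 1` replaced by the fifth root number `j` of `y 5` -/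
def digitF (β : KG →₀ ℂ) (j : Fin 5) (y : KG → Circle) : ℂ :=
  β.sum fun z b => b * (((digitRt (y 5) * digitZ ^ (j : ℕ)) ^ digitN z *
    y (z - digitN z) : Circle) : ℂ)

theorem digitF_def (β : KG →₀ ℂ) (j : Fin 5) (y : KG → Circle) : digitF β j y =
    ∑ z ∈ β.support, β z * (((digitRt (y 5) * digitZ ^ (j : ℕ)) ^ digitN z *
      y (z - digitN z) : Circle) : ℂ) := rfl

theorem digit_trig_def (β : KG →₀ ℂ) (y : KG → Circle) :
    trig β y = ∑ z ∈ β.support, β z * (y z : ℂ) := rfl

theorem digitF_eq_trig (β : KG →₀ ℂ) {y : KG → Circle} (hy : IsChar y) {j : Fin 5} (hj : y ∈ digitB j) : digitF β j y = trig β y := by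
  rw [digitF_def, digit_trig_def]
  refine Finset.sum_congr rfl fun z _ => ?_
  have h1 : y 1 = digitRt (y 5) * digitZ ^ (j : ℕ) := hj
  rw [← h1, ← hy.map_natMul, ← hy]
  congr 3
  ring

theorem digitF_congr {β : KG →₀ ℂ} (hβ : ∀ z ∈ β.support, z ∈ K0) {y y' : KG → Circle}
    (h : ∀ w ∈ Kn 1, y w = y' w) (j : Fin 5) : digitF β j y = digitF β j y' := by
  rw [digitF_def, digitF_def]
  refine Finset.sum_congr rfl fun z hz => ?_
  rw [h 5 digit_five_mem, h _ (sub_digitN_mem (hβ z hz))]

theorem digit_exists_char {y : KG → Circle} (hy : IsChar y) (j : Fin 5) :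
    ∃ y' : KG → Circle, IsChar y' ∧ (∀ w ∈ Kn 1, y' w = y w) ∧ y' ∈ digitB j := by
  obtain ⟨ψ, h1, h2, h3⟩ := exists_psi
  have h5 : ψ 1 ^ 5 = 1 := by
    rw [digit_pow_five h1, h2 5 digit_five_mem]
  have h6 : (digitRt (y 5) * digitZ ^ (j : ℕ) / y 1) ^ 5 = 1 := by
    rw [div_pow, mul_pow, digitRt_pow, ← pow_mul, mul_comm (j : ℕ) 5, pow_mul, digitZ_pow, one_pow,
      mul_one, digit_pow_five hy, div_self']
  obtain ⟨i, hi, h7⟩ := digit_exists_pow h5 h3 h6
  have hpow : ∀ w, ψ w ^ i = ψ (i * w) := fun w => (h1.map_natMul i w).symm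
  have hw : ∀ w ∈ Kn 1, y w * ψ w ^ i = y w := by
    intro w hw
    rw [h2 w hw, one_pow, mul_one]
  refine ⟨fun w => y w * ψ w ^ i, ?_, hw, ?_⟩
  · intro a b
    simp only
    rw [hy a b, h1 a b, mul_pow]
    exact mul_mul_mul_comm _ _ _ _
  · change y 1 * ψ 1 ^ i = digitRt (y 5 * ψ 5 ^ i) * digitZ ^ (j : ℕ)
    rw [h7, hw 5 digit_five_mem, mul_div_cancel]

theorem digitF_nonneg {β : KG →₀ ℂ} (hβ : ∀ z ∈ β.support, z ∈ K0)
    (hβ' : ∀ y, IsChar y → ∃ r : ℝ, 0 ≤ r ∧ trig β y = r) {y : KG → Circle} (hy : IsChar y)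
    (j : Fin 5) : 0 ≤ (digitF β j y).re := by
  obtain ⟨y', h1, h2, h3⟩ := digit_exists_char hy j
  rw [← digitF_congr hβ h2 j, digitF_eq_trig β h1 h3]
  obtain ⟨r, hr, h4⟩ := hβ' y' h1
  rw [h4, ofReal_re]
  exact hr

theorem sum_digitF {β : KG →₀ ℂ} (hβ : ∀ z ∈ β.support, z ∈ K0) (y : KG → Circle) :
    ∑ j, digitF β j y = 5 * trig (cut (Kn 1) β) y := by
  classical
  have hcut : trig (cut (Kn 1) β) y = ∑ z ∈ β.support, if z ∈ Kn 1 then β z * (y z : ℂ) else 0 := by
    rw [digit_trig_def, ← Finset.sum_filter]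
    unfold cut
    rw [Finsupp.support_filter]
    refine Finset.sum_congr (by congr) fun z hz => ?_
    rw [Finsupp.filter_apply_pos _ _ (Finset.mem_filter.1 hz).2]
  simp only [digitF_def]
  rw [hcut, Finset.sum_comm, Finset.mul_sum]
  refine Finset.sum_congr rfl fun z hz => ?_
  have hz0 := hβ z hz
  by_cases h : z ∈ Kn 1
  · rw [if_pos h, (digitN_eq_zero_iff hz0).2 h]
    simp
  · rw [if_neg h, mul_zero]
    have h1 : 0 < digitN z := by
      rcases Nat.eq_zero_or_pos (digitN z) with h2 | h2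
      · exact absurd ((digitN_eq_zero_iff hz0).1 h2) h
      · exact h2
    have h2 := digitZ_sum h1 (digitN_lt hz0)
    have h3 : ∀ j : Fin 5, β z * (((digitRt (y 5) * digitZ ^ (j : ℕ)) ^ digitN z *
        y (z - digitN z) : Circle) : ℂ) = (β z * (digitRt (y 5) : ℂ) ^ digitN z *
          (y (z - digitN z) : ℂ)) * ((digitZ : ℂ) ^ (j : ℕ)) ^ digitN z := by
      intro j
      rw [Circle.coe_mul, Circle.coe_pow, Circle.coe_mul, Circle.coe_pow, mul_pow]
      ring
    rw [Finset.sum_congr rfl fun j _ => h3 j, ← Finset.mul_sum, h2, mul_zero]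

theorem measurable_digitF {β : KG →₀ ℂ} (hβ : ∀ z ∈ β.support, z ∈ K0) (j : Fin 5) :
    Measurable[FS (Kn 1)] (digitF β j) := by
  have h2 : Measurable[FS (Kn 1)] (fun y : KG → Circle => y 5) :=
    digit_measurable_apply digit_five_mem
  have h3 : Measurable[FS (Kn 1)] (fun y : KG → Circle => digitRt (y 5) * digitZ ^ (j : ℕ)) :=
    (measurable_digitRt.comp h2).mul_const _
  have hcoe : Measurable (fun z : Circle => (z : ℂ)) := by
    have h0 : Continuous (fun z : Circle => (z : ℂ)) := continuous_subtype_val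
    exact h0.measurable
  have hd : digitF β j = fun y => ∑ z ∈ β.support, β z * (((digitRt (y 5) *
      digitZ ^ (j : ℕ)) ^ digitN z * y (z - digitN z) : Circle) : ℂ) := rfl
  rw [hd]
  refine Finset.measurable_fun_sum _ fun z hz => ?_
  have h4 : Measurable[FS (Kn 1)] (fun y : KG → Circle => y (z - digitN z)) :=
    digit_measurable_apply (sub_digitN_mem (hβ z hz))
  exact (hcoe.comp ((h3.pow_const _).mul h4)).const_mul _

/-! ### The digit probabilities -/

/-- the inequality on one of the five events -/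
theorem digit_step_one {ν : Measure (KG → Circle)} (hc : ∀ᵐ y ∂ν, IsChar y)
    {P : Fin 5 → (KG → Circle) → ℝ≥0∞} (hPm : ∀ j, Measurable[FS (Kn 1)] (P j))
    (hP : ∀ j, ∀ h : (KG → Circle) → ℝ≥0∞, Measurable[FS (Kn 1)] h →
      ∫⁻ y in digitB j, h y ∂ν = ∫⁻ y, h y * P j y ∂ν)
    {D : (KG → Circle) → ℝ≥0∞} (hD : ∀ j, ∀ y ∈ digitB j, D y = P j y)
    {β : KG →₀ ℂ} (hβ : ∀ z ∈ β.support, z ∈ K0) {G : (KG → Circle) → ℝ≥0∞}
    (hG : Measurable[FS (Kn 1)] G) (j : Fin 5) :
    ∫⁻ y in digitB j, ENNReal.ofReal (trig β y).re * (D y)⁻¹ * G y ∂ν ≤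
      ∫⁻ y, ENNReal.ofReal (digitF β j y).re * G y ∂ν := by
  have hB : MeasurableSet (digitB j) := digit_FS_le K0 _ (measurableSet_digitB j)
  have hF : Measurable[FS (Kn 1)] fun y => ENNReal.ofReal (digitF β j y).re :=
    (Complex.measurable_re.comp (measurable_digitF hβ j)).ennreal_ofReal
  have hm : Measurable[FS (Kn 1)] fun y =>
      ENNReal.ofReal (digitF β j y).re * (P j y)⁻¹ * G y := (hF.mul (hPm j).inv).mul hG
  calc ∫⁻ y in digitB j, ENNReal.ofReal (trig β y).re * (D y)⁻¹ * G y ∂ν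
      = ∫⁻ y in digitB j, ENNReal.ofReal (digitF β j y).re * (P j y)⁻¹ * G y ∂ν := by
        refine lintegral_congr_ae ?_
        filter_upwards [ae_restrict_mem hB, ae_restrict_of_ae hc] with y h1 h2
        rw [hD j y h1, digitF_eq_trig β h2 h1]
    _ = ∫⁻ y, ENNReal.ofReal (digitF β j y).re * (P j y)⁻¹ * G y * P j y ∂ν := hP j _ hm
    _ ≤ ∫⁻ y, ENNReal.ofReal (digitF β j y).re * G y ∂ν := by
        refine lintegral_mono fun y => ?_
        calc ENNReal.ofReal (digitF β j y).re * (P j y)⁻¹ * G y * P j y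
            = ENNReal.ofReal (digitF β j y).re * G y * ((P j y)⁻¹ * P j y) := by ring
          _ ≤ ENNReal.ofReal (digitF β j y).re * G y * 1 := by
              gcongr
              exact ENNReal.inv_mul_le_one _
          _ = _ := mul_one _

theorem exists_digitFn (ν : Measure (KG → Circle)) [IsFiniteMeasure ν] (hc : ∀ᵐ y ∂ν, IsChar y) :
    ∃ D, Digit ν D := by
  classical
  choose P hPm hP1 hP using fun j : Fin 5 =>
    digit_exists_condProb (digit_FS_le (Kn 1)) ν (digitB j)
  have hFS : FS (Kn 1) ≤ FS K0 := digit_FS_mono digit_Kn_one_subset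
  have hpi := digit_FS_le (Kn 1)
  have hcov : ∀ᵐ y ∂ν, y ∈ ⋃ j, digitB j := by
    filter_upwards [hc] with y hy
    exact mem_iUnion.2 (exists_digitB hy)
  set D : (KG → Circle) → ℝ≥0∞ := fun y => min 1 (∑ j, (digitB j).indicator (P j) y) with hDdef
  have hD : ∀ j, ∀ y ∈ digitB j, D y = P j y := by
    intro j y hy
    have h1 : ∑ i, (digitB i).indicator (P i) y = P j y := by
      rw [Finset.sum_eq_single j, indicator_of_mem hy]
      · intro i _ hij
        exact indicator_of_notMem (fun h => hij (digitB_unique h hy)) _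
      · intro h
        exact absurd (Finset.mem_univ j) h
    rw [hDdef]
    simp only [h1]
    exact min_eq_right (hP1 j y)
  refine ⟨D, ?_, fun y => min_le_left _ _, ?_, ?_⟩
  · refine Measurable.min measurable_const ?_
    refine Finset.measurable_fun_sum _ fun j _ => ?_
    exact Measurable.indicator (Measurable.mono (hPm j) hFS le_rfl) (measurableSet_digitB j)
  · intro β G hβ hβ' hG
    have hF : ∀ j, Measurable fun y => ENNReal.ofReal (digitF β j y).re * G y := by
      intro j
      have h1 : Measurable[FS (Kn 1)] fun y => ENNReal.ofReal (digitF β j y).re :=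
        (Complex.measurable_re.comp (measurable_digitF hβ j)).ennreal_ofReal
      exact Measurable.mono (h1.mul hG) hpi le_rfl
    calc ∫⁻ y, ENNReal.ofReal (trig β y).re * (D y)⁻¹ * G y ∂ν
        = ∫⁻ y in ⋃ j, digitB j, ENNReal.ofReal (trig β y).re * (D y)⁻¹ * G y ∂ν := by
          rw [Measure.restrict_eq_self_of_ae_mem hcov]
      _ ≤ ∑' j, ∫⁻ y in digitB j, ENNReal.ofReal (trig β y).re * (D y)⁻¹ * G y ∂ν :=
          lintegral_iUnion_le _ _
      _ = ∑ j, ∫⁻ y in digitB j, ENNReal.ofReal (trig β y).re * (D y)⁻¹ * G y ∂ν :=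
          tsum_fintype _
      _ ≤ ∑ j, ∫⁻ y, ENNReal.ofReal (digitF β j y).re * G y ∂ν :=
          Finset.sum_le_sum fun j _ => digit_step_one hc hPm hP hD hβ hG j
      _ = ∫⁻ y, ∑ j, ENNReal.ofReal (digitF β j y).re * G y ∂ν :=
          (lintegral_finsetSum _ fun j _ => hF j).symm
      _ = ∫⁻ y, ENNReal.ofReal (5 * (trig (cut (Kn 1) β) y).re) * G y ∂ν := by
          refine lintegral_congr_ae ?_
          filter_upwards [hc] with y hy
          rw [← Finset.sum_mul, ← ENNReal.ofReal_sum_of_nonneg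
            (fun j _ => digitF_nonneg hβ hβ' hy j), ← Complex.re_sum, sum_digitF hβ]
          congr 2
          simp
  · have hS : ∀ j, MeasurableSet[FS (Kn 1)] {y | P j y = 1} := fun j =>
      (hPm j) (measurableSet_singleton 1)
    have hae : ∀ j, ∀ᵐ y ∂ν, P j y = 1 → y ∈ digitB j := by
      intro j
      have hS' : MeasurableSet {y | P j y = 1} := hpi _ (hS j)
      have hB : MeasurableSet (digitB j) := digit_FS_le K0 _ (measurableSet_digitB j)
      have h0 : Measurable[FS (Kn 1)] (1 : (KG → Circle) → ℝ≥0∞) := @measurable_const _ _ _ _ 1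
      have h1 := hP j ({y | P j y = 1}.indicator 1) (h0.indicator (hS j))
      rw [lintegral_indicator_one hS', Measure.restrict_apply hS'] at h1
      have h2 : ∫⁻ y, {y | P j y = 1}.indicator 1 y * P j y ∂ν = ν {y | P j y = 1} := by
        rw [← lintegral_indicator_one hS']
        refine lintegral_congr fun y => ?_
        by_cases hy : y ∈ {y | P j y = 1}
        · rw [indicator_of_mem hy, Pi.one_apply, one_mul]
          exact hy
        · rw [indicator_of_notMem hy, zero_mul]
      rw [h2] at h1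
      have h3 : ν ({y | P j y = 1} \ digitB j) = 0 := by
        have h4 := measure_inter_add_sdiff {y | P j y = 1} hB (μ := ν)
        rw [h1] at h4
        have h5 : ν {y | P j y = 1} ≠ ∞ := measure_ne_top _ _
        have h6 : ν {y | P j y = 1} + ν ({y | P j y = 1} \ digitB j) =
            ν {y | P j y = 1} + 0 := by rw [h4, add_zero]
        exact (ENNReal.add_right_inj h5).1 h6
      rw [ae_iff]
      refine measure_mono_null ?_ h3
      intro y hy
      exact Classical.not_imp.1 hy
    set R : Fin 5 → (KG → Circle) → Circle := fun j y => digitRt (y 5) * digitZ ^ (j : ℕ) with hRdef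
    have hR : ∀ j, Measurable[FS (Kn 1)] (R j) := by
      intro j
      have h2 : Measurable[FS (Kn 1)] (fun y : KG → Circle => y 5) :=
        digit_measurable_apply digit_five_mem
      exact (measurable_digitRt.comp h2).mul_const _
    refine ⟨fun y => if P 0 y = 1 then R 0 y else if P 1 y = 1 then R 1 y else
      if P 2 y = 1 then R 2 y else if P 3 y = 1 then R 3 y else R 4 y, ?_, ?_⟩
    · exact Measurable.ite (hS 0) (hR 0) (Measurable.ite (hS 1) (hR 1)
        (Measurable.ite (hS 2) (hR 2) (Measurable.ite (hS 3) (hR 3) (hR 4))))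
    · filter_upwards [hc, ae_all_iff.2 hae] with y hy h1 h2
      obtain ⟨j, hj⟩ := exists_digitB hy
      rw [hD j y hj] at h2
      split_ifs with a0 a1 a2 a3
      · exact h1 0 a0
      · exact h1 1 a1
      · exact h1 2 a2
      · exact h1 3 a3
      · have h4 : j = 4 := by
          fin_cases j
          · exact absurd h2 a0
          · exact absurd h2 a1
          · exact absurd h2 a2
          · exact absurd h2 a3
          · rfl
        rw [h4] at hj
        exact hj

end Pool.Agent.MP_8b8716_co_HN
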