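import Mathlib
import Pool.Agent.Lib.MP_8b8716_co_HN.Defs
import Pool.Agent.Lib.MP_8b8716_co_HN.Basic
import Pool.Agent.Lib.MP_8b8716_co_HN.NumA
import Pool.Agent.Lib.MP_8b8716_co_HN.Psi

set_option autoImplicit false

/-!
# MP_8b8716_co, project HN: Host inequality
-/

noncomputable section

namespace Pool.Agent.MP_8b8716_co_HN

open Complex MeasureTheory Filter Topology Set
open scoped ENNReal

/-! ### Trigonometric polynomials -/

open scoped Classical in
private theorem cut_apply (S : Set KG) (β : KG →₀ ℂ) (z : KG) :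
    cut S β z = if z ∈ S then β z else 0 := by
  unfold cut
  rw [Finsupp.filter_apply]

private theorem mem_of_cut {S : Set KG} {β : KG →₀ ℂ} {z : KG} (hz : z ∈ (cut S β).support) :
    z ∈ S ∧ z ∈ β.support := by
  classical
  rw [Finsupp.mem_support_iff, cut_apply] at hz
  by_cases h : z ∈ S
  · rw [if_pos h] at hz
    exact ⟨h, Finsupp.mem_support_iff.2 hz⟩
  · rw [if_neg h] at hz
    exact absurd rfl hz

private theorem cut_cut (S T : Set KG) (h : T ⊆ S) (β : KG →₀ ℂ) : cut T (cut S β) = cut T β := by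
  classical
  ext z
  rw [cut_apply, cut_apply, cut_apply]
  by_cases h1 : z ∈ T
  · rw [if_pos h1, if_pos h1, if_pos (h h1)]
  · rw [if_neg h1, if_neg h1]

private theorem cut_eq_self {S : Set KG} {β : KG →₀ ℂ} (h : ∀ z ∈ β.support, z ∈ S) :
    cut S β = β := by
  classical
  ext z
  rw [cut_apply]
  by_cases h1 : z ∈ S
  · rw [if_pos h1]
  · rw [if_neg h1]
    by_contra h2
    exact h1 (h z (Finsupp.mem_support_iff.2 (Ne.symm h2)))

private theorem cut_add (S : Set KG) (β γ : KG →₀ ℂ) : cut S (β + γ) = cut S β + cut S γ := by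
  classical
  ext z
  rw [Finsupp.add_apply, cut_apply, cut_apply, cut_apply, Finsupp.add_apply]
  split_ifs <;> simp

private theorem cut_mapDomain (S : Set KG) (f : KG → KG) (β : KG →₀ ℂ) :
    cut S (β.mapDomain f) = (cut (f ⁻¹' S) β).mapDomain f := by
  classical
  induction β using Finsupp.induction_linear with
  | zero =>
    ext z
    rw [cut_apply]
    have h : cut (f ⁻¹' S) (0 : KG →₀ ℂ) = 0 := by
      ext w
      rw [cut_apply]
      simp
    rw [h]
    simp
  | add β γ h1 h2 =>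
    rw [Finsupp.mapDomain_add, cut_add, cut_add, Finsupp.mapDomain_add, h1, h2]
  | single a b =>
    rw [Finsupp.mapDomain_single]
    unfold cut
    by_cases h : f a ∈ S
    · rw [Finsupp.filter_single_of_pos _ h, Finsupp.filter_single_of_pos _ (by exact h),
        Finsupp.mapDomain_single]
    · rw [Finsupp.filter_single_of_neg _ h, Finsupp.filter_single_of_neg _ (by exact h),
        Finsupp.mapDomain_zero]

private theorem trig_mulAct (β : KG →₀ ℂ) (c : KG) (y : KG → Circle) :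
    trig β (mulAct c y) = trig (β.mapDomain (fun z => c * z)) y := by
  unfold trig
  rw [Finsupp.sum_mapDomain_index (by simp) (by intro a b1 b2; ring)]
  rfl

private theorem trig_eq_sum {β : KG →₀ ℂ} {s : Finset KG} (hs : β.support ⊆ s)
    (y : KG → Circle) : trig β y = ∑ z ∈ s, β z * (y z : ℂ) := by
  unfold trig Finsupp.sum
  refine Finset.sum_subset hs ?_
  intro z _ hz
  simp only [Finsupp.notMem_support_iff.1 hz, zero_mul]

private theorem measurable_trig (β : KG →₀ ℂ) : Measurable (trig β) := by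
  have h : trig β = fun y => ∑ z ∈ β.support, β z * (y z : ℂ) := by
    funext y
    exact trig_eq_sum (Finset.Subset.refl _) y
  rw [h]
  refine Finset.measurable_sum _ fun z _ => ?_
  refine Measurable.const_mul ?_ _
  have h2 : Measurable fun u : Circle => (u : ℂ) := (by fun_prop : Continuous fun u : Circle => (u : ℂ)).measurable
  exact h2.comp (measurable_pi_apply z)

/-! ### Positivity -/

private theorem psi_sum {ψ : KG → Circle} (hψ : IsChar ψ) (h1 : ∀ w ∈ Kn 1, ψ w = 1)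
    (h2 : ψ 1 ≠ 1) {w : KG} (hw : w ∈ K0) (hw1 : w ∉ Kn 1) :
    ∑ i ∈ Finset.range 5, (ψ w : ℂ) ^ i = 0 := by
  obtain ⟨d, hd, hd1⟩ := exists_digit hw
  have h5 : ψ 1 ^ 5 = 1 := by
    have h := hψ.map_natMul 5 1
    rw [mul_one] at h
    rw [← h]
    apply h1
    have := (intCast_mem_Kn 1 5).2 (by norm_num)
    simpa using this
  have hw2 : ψ w = ψ 1 ^ d := by
    have h : w = (d : KG) * 1 + (w - d) := by ring
    rw [h, hψ, hψ.map_natMul, h1 _ hd1, mul_one]
    
  have hd0 : d ≠ 0 := by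
    rintro rfl
    apply hw1
    simpa using hd1
  have hord : orderOf (ψ 1) = 5 := by
    have : Fact (Nat.Prime 5) := ⟨by norm_num⟩
    exact orderOf_eq_prime h5 h2
  have hne : ψ w ≠ 1 := by
    rw [hw2]
    intro h
    have := orderOf_dvd_of_pow_eq_one h
    rw [hord] at this
    have := Nat.le_of_dvd (Nat.pos_of_ne_zero hd0) this
    omega
  have hne' : (ψ w : ℂ) - 1 ≠ 0 := by
    intro h
    apply hne
    apply Circle.ext
    rw [Circle.coe_one]
    exact sub_eq_zero.1 h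
  have h6 : (ψ w : ℂ) ^ 5 = 1 := by
    rw [← Circle.coe_pow, hw2, ← pow_mul, mul_comm d 5, pow_mul, h5, one_pow, Circle.coe_one]
  have h7 := mul_geom_sum (ψ w : ℂ) 5
  rw [h6, sub_self] at h7
  rcases mul_eq_zero.1 h7 with h | h
  · exact absurd h hne'
  · exact h

private theorem cut_succ (j : ℕ) (β : KG →₀ ℂ) {ψ : KG → Circle} (hψ : IsChar ψ)
    (h1 : ∀ w ∈ Kn 1, ψ w = 1) (h2 : ψ 1 ≠ 1) (y : KG → Circle) :
    trig (cut (Kn (j + 1 : ℕ)) β) y =
      (1 / 5) * ∑ i ∈ Finset.range 5, trig (cut (Kn j) β) (y * (mulAct (th ^ j) ψ) ^ i) := by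
  classical
  have hs : ∀ n : ℤ, (cut (Kn n) β).support ⊆ β.support := fun n z hz => (mem_of_cut hz).2
  rw [trig_eq_sum (hs _)]
  have h3 : ∀ i ∈ Finset.range 5, trig (cut (Kn j) β) (y * (mulAct (th ^ j) ψ) ^ i) =
      ∑ z ∈ β.support, cut (Kn j) β z * (y z : ℂ) * (ψ (th ^ j * z) : ℂ) ^ i := by
    intro i _
    rw [trig_eq_sum (hs _)]
    refine Finset.sum_congr rfl fun z _ => ?_
    rw [Pi.mul_apply, Pi.pow_apply, Circle.coe_mul, Circle.coe_pow, mul_assoc]
    rfl
  rw [Finset.sum_congr rfl h3, Finset.sum_comm, Finset.mul_sum]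
  refine Finset.sum_congr rfl fun z _ => ?_
  rw [← Finset.mul_sum, cut_apply, cut_apply]
  have hmem : th ^ j * z ∈ Kn 1 ↔ z ∈ Kn (j + 1 : ℕ) := by
    have := th_zpow_mul_mem 1 j z
    rw [zpow_natCast] at this
    rw [this, add_comm]
    norm_cast
  have hmem0 : th ^ j * z ∈ K0 ↔ z ∈ Kn j := by
    have := th_zpow_mul_mem 0 j z
    rw [zpow_natCast, zero_add, Kn_zero] at this
    exact this
  by_cases hz : z ∈ Kn (j + 1 : ℕ)
  · have hz' : z ∈ Kn j := Kn_anti (by push_cast; linarith) hz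
    rw [if_pos hz, if_pos hz', h1 _ (hmem.2 hz)]
    simp
    ring
  · rw [if_neg hz]
    by_cases hz' : z ∈ Kn j
    · rw [psi_sum hψ h1 h2 (hmem0.2 hz') (fun h => hz (hmem.1 h))]
      simp
    · rw [if_neg hz']
      simp

private theorem isChar_pow {S : Type*} [Add S] {x : S → Circle} (h : IsChar x) (i : ℕ) :
    IsChar (x ^ i) := by
  intro a b
  simp only [Pi.pow_apply, h a b, mul_pow]

private theorem cut_pos (β : KG →₀ ℂ) (hβ : ∀ z ∈ β.support, z ∈ K0)
    (hβ' : ∀ y, IsChar y → ∃ r : ℝ, 0 ≤ r ∧ trig β y = r) (j : ℕ) :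
    ∀ y, IsChar y → ∃ r : ℝ, 0 ≤ r ∧ trig (cut (Kn j) β) y = r := by
  obtain ⟨ψ, hψ, h1, h2⟩ := exists_psi
  induction j with
  | zero =>
    intro y hy
    have h : cut (Kn ((0 : ℕ) : ℤ)) β = β := by
      rw [Nat.cast_zero, Kn_zero]
      exact cut_eq_self hβ
    rw [h]
    exact hβ' y hy
  | succ j ih =>
    intro y hy
    rw [cut_succ j β hψ h1 h2]
    have h3 : ∀ i : ℕ, ∃ r : ℝ, 0 ≤ r ∧
        trig (cut (Kn j) β) (y * (mulAct (th ^ j) ψ) ^ i) = r := fun i =>
      ih _ (hy.mul (isChar_pow (hψ.mulAct _) i))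
    choose r hr hr' using h3
    refine ⟨(1 / 5) * ∑ i ∈ Finset.range 5, r i,
      mul_nonneg (by norm_num) (Finset.sum_nonneg fun i _ => hr i), ?_⟩
    rw [Finset.sum_congr rfl fun i _ => hr' i]
    push_cast
    ring

/-! ### Measurability -/

private theorem measurable_mulAct_FS {S T : Set KG} {c : KG} (h : ∀ w ∈ S, c * w ∈ T) :
    @Measurable (KG → Circle) (KG → Circle) (FS T) (FS S) (mulAct c) := by
  rw [measurable_iff_comap_le]
  unfold FS
  rw [MeasurableSpace.comap_iSup]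
  refine iSup_le fun w => ?_
  rw [MeasurableSpace.comap_iSup]
  refine iSup_le fun hw => ?_
  rw [MeasurableSpace.comap_comp]
  exact le_iSup₂_of_le (c * w) (h w hw) le_rfl

private theorem FS_le (S : Set KG) : FS S ≤ MeasurableSpace.pi := by
  unfold FS
  refine iSup₂_le fun w _ => ?_
  exact le_iSup (fun w : KG => MeasurableSpace.comap (fun y : KG → Circle => y w) inferInstance) w

/-! ### The step -/

private theorem host_step (ν : Measure (KG → Circle)) [IsFiniteMeasure ν]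
    (hI : Inv KG ν) {D : (KG → Circle) → ℝ≥0∞} (hD : Digit ν D) (β : KG →₀ ℂ)
    (hβ : ∀ z ∈ β.support, z ∈ K0) (hβ' : ∀ y, IsChar y → ∃ r : ℝ, 0 ≤ r ∧ trig β y = r)
    (n j : ℕ) (hj : j < n) :
    ∫⁻ y, ENNReal.ofReal (5 ^ j * (trig (cut (Kn j) β) y).re) *
        ∏ k ∈ Finset.Ico j n, (D (mulAct (th ^ (-(k : ℤ))) y))⁻¹ ∂ν ≤
      ∫⁻ y, ENNReal.ofReal (5 ^ (j + 1) * (trig (cut (Kn (j + 1 : ℕ)) β) y).re) *
        ∏ k ∈ Finset.Ico (j + 1) n, (D (mulAct (th ^ (-(k : ℤ))) y))⁻¹ ∂ν := by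
  have hDm : Measurable D := hD.meas.mono (FS_le _) le_rfl
  have hT : MeasurePreserving (mulAct (th ^ (j : ℤ))) ν ν := hI _ (norm_th_zpow _)
  have hmeas : ∀ (γ : KG →₀ ℂ) (c : ℝ) (s : Finset ℕ), Measurable fun y : KG → Circle =>
      ENNReal.ofReal (c * (trig γ y).re) * ∏ k ∈ s, (D (mulAct (th ^ (-(k : ℤ))) y))⁻¹ := by
    intro γ c s
    refine Measurable.mul ?_ ?_
    · exact ENNReal.measurable_ofReal.comp
        ((Complex.measurable_re.comp (measurable_trig γ)).const_mul c)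
    · refine Finset.measurable_prod _ fun k _ => ?_
      exact (hDm.comp (measurable_mulAct _)).inv
  rw [← hT.lintegral_comp (hmeas _ _ _), ← hT.lintegral_comp (hmeas _ _ _)]
  set c : KG := th ^ (j : ℤ) with hc
  set β'' : KG →₀ ℂ := (cut (Kn j) β).mapDomain (fun z => c * z) with hβ''
  set G : (KG → Circle) → ℝ≥0∞ := fun y =>
    ENNReal.ofReal (5 ^ j) * ∏ k ∈ Finset.Ico (j + 1) n, (D (mulAct (th ^ ((j : ℤ) - k)) y))⁻¹
    with hG
  have hGm : Measurable[FS (Kn 1)] G := by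
    refine Measurable.const_mul ?_ _
    refine Finset.measurable_prod _ fun k hk => ?_
    rw [Finset.mem_Ico] at hk
    refine Measurable.inv ?_
    refine hD.meas.comp (measurable_mulAct_FS fun w hw => ?_)
    rw [th_zpow_mul_mem]
    rw [← Kn_zero] at hw
    refine Kn_anti ?_ hw
    have : ((j : ℤ) + 1) ≤ k := by exact_mod_cast hk.1
    linarith
  have hstep := hD.step β'' G ?_ ?_ hGm
  · have hmul : ∀ (k : ℕ) (y : KG → Circle),
        mulAct (th ^ (-(k : ℤ))) (mulAct c y) = mulAct (th ^ ((j : ℤ) - k)) y := by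
      intro k y
      rw [mulAct_mulAct, hc, ← zpow_add₀ th_ne_zero]
      congr 2
      ring
    have hcut : ∀ y, trig (cut (Kn 1) β'') y = trig (cut (Kn (j + 1 : ℕ)) β) (mulAct c y) := by
      intro y
      rw [trig_mulAct, hβ'', cut_mapDomain]
      congr 2
      have h : (fun z => c * z) ⁻¹' (Kn 1) = Kn (j + 1 : ℕ) := by
        ext z
        rw [Set.mem_preimage, hc, th_zpow_mul_mem, add_comm]
        norm_cast
      rw [h]
      exact cut_cut _ _ (Kn_anti (by push_cast; linarith)) β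
    have h5 : (0 : ℝ) ≤ 5 ^ j := by positivity
    have hL : ∀ y, ENNReal.ofReal (5 ^ j * (trig (cut (Kn j) β) (mulAct c y)).re) *
        ∏ k ∈ Finset.Ico j n, (D (mulAct (th ^ (-(k : ℤ))) (mulAct c y)))⁻¹ =
        ENNReal.ofReal (trig β'' y).re * (D y)⁻¹ * G y := by
      intro y
      rw [Finset.prod_eq_prod_Ico_succ_bot hj, hmul j y, sub_self, zpow_zero, mulAct_one,
        trig_mulAct, ENNReal.ofReal_mul h5, hG]
      simp only [hmul]
      ring
    have hR : ∀ y, ENNReal.ofReal (5 ^ (j + 1) * (trig (cut (Kn (j + 1 : ℕ)) β) (mulAct c y)).re) *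
        ∏ k ∈ Finset.Ico (j + 1) n, (D (mulAct (th ^ (-(k : ℤ))) (mulAct c y)))⁻¹ =
        ENNReal.ofReal (5 * (trig (cut (Kn 1) β'') y).re) * G y := by
      intro y
      rw [hcut, hG]
      have h6 : (5 : ℝ) ^ (j + 1) * (trig (cut (Kn (j + 1 : ℕ)) β) (mulAct c y)).re =
          5 ^ j * (5 * (trig (cut (Kn (j + 1 : ℕ)) β) (mulAct c y)).re) := by ring
      rw [h6, ENNReal.ofReal_mul h5]
      simp only [hmul]
      ring
    rw [lintegral_congr hL, lintegral_congr hR]
    exact hstep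
  · intro z hz
    have h1 := Finsupp.mapDomain_support hz
    rw [Finset.mem_image] at h1
    obtain ⟨w, hw, rfl⟩ := h1
    rw [← Kn_zero, hc, th_zpow_mul_mem, zero_add]
    exact (mem_of_cut hw).1
  · intro y hy
    rw [hβ'', ← trig_mulAct]
    exact cut_pos β hβ hβ' j _ (hy.mulAct c)

theorem host_ineq (ν : Measure (KG → Circle)) [IsFiniteMeasure ν]
    (hI : Inv KG ν) {D : (KG → Circle) → ℝ≥0∞} (hD : Digit ν D) (β : KG →₀ ℂ)
    (hβ : ∀ z ∈ β.support, z ∈ K0) (hβ' : ∀ y, IsChar y → ∃ r : ℝ, 0 ≤ r ∧ trig β y = r) (n : ℕ) :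
    ∫⁻ y, ENNReal.ofReal (trig β y).re * ∏ k ∈ Finset.range n, (D (mulAct (th ^ (-(k : ℤ))) y))⁻¹ ∂ν
      ≤ ∫⁻ y, ENNReal.ofReal (5 ^ n * (trig (cut (Kn n) β) y).re) ∂ν := by
  have key : ∀ j : ℕ, j ≤ n →
      ∫⁻ y, ENNReal.ofReal (trig β y).re *
        ∏ k ∈ Finset.range n, (D (mulAct (th ^ (-(k : ℤ))) y))⁻¹ ∂ν ≤
      ∫⁻ y, ENNReal.ofReal (5 ^ j * (trig (cut (Kn j) β) y).re) *
        ∏ k ∈ Finset.Ico j n, (D (mulAct (th ^ (-(k : ℤ))) y))⁻¹ ∂ν := by
    intro j
    induction j with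
    | zero =>
      intro _
      have h : cut (Kn ((0 : ℕ) : ℤ)) β = β := by
        rw [Nat.cast_zero, Kn_zero]
        exact cut_eq_self hβ
      rw [h, pow_zero, Finset.range_eq_Ico]
      simp only [one_mul]
      exact le_rfl
    | succ j ih =>
      intro hj
      exact (ih (by omega)).trans (host_step ν hI hD β hβ hβ' n j (by omega))
  refine (key n le_rfl).trans (le_of_eq ?_)
  simp

end Pool.Agent.MP_8b8716_co_HN
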