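import Mathlib
import Pool.Agent.Lib.MP_8b8716_co_HN.NumA
import Pool.Agent.Lib.MP_8b8716_co_HN.HostA

set_option autoImplicit false

/-!
# MP_8b8716_co, project HN: module HostB (helper81)

Host's theorem.
-/

noncomputable section

namespace Pool.Agent.MP_8b8716_co_HN

open Complex MeasureTheory Filter Topology Set
open scoped ENNReal

/-! ### trigonometric polynomials -/

private theorem hostB_trig_eq (β : KG →₀ ℂ) (y : KG → Circle) :
    trig β y = Finsupp.linearCombination ℂ (fun z => (y z : ℂ)) β := by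
  rw [Finsupp.linearCombination_apply]
  rfl

private theorem hostB_trig_sum {ι : Type*} (s : Finset ι) (f : ι → KG →₀ ℂ) (y : KG → Circle) :
    trig (∑ i ∈ s, f i) y = ∑ i ∈ s, trig (f i) y := by
  simp only [hostB_trig_eq, map_sum]

private theorem hostB_trig_single (z : KG) (b : ℂ) (y : KG → Circle) :
    trig (Finsupp.single z b) y = b * (y z : ℂ) := by
  rw [hostB_trig_eq, Finsupp.linearCombination_single, smul_eq_mul]

private theorem hostB_cut_sum {ι : Type*} (S : Set KG) (s : Finset ι) (f : ι → KG →₀ ℂ) :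
    cut S (∑ i ∈ s, f i) = ∑ i ∈ s, cut S (f i) := by
  classical
  ext z
  simp only [cut, Finsupp.filter_apply, Finsupp.finsetSum_apply]
  split_ifs
  · rfl
  · simp

private theorem hostB_cut_single_mem {S : Set KG} {z : KG} (hz : z ∈ S) (b : ℂ) :
    cut S (Finsupp.single z b) = Finsupp.single z b := by
  classical
  unfold cut
  exact Finsupp.filter_single_of_pos _ hz

private theorem hostB_cut_single_notMem {S : Set KG} {z : KG} (hz : z ∉ S) (b : ℂ) :
    cut S (Finsupp.single z b) = 0 := by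
  classical
  unfold cut
  exact Finsupp.filter_single_of_neg _ hz

private theorem hostB_trig_zero (y : KG → Circle) : trig 0 y = 0 := by
  rw [hostB_trig_eq, map_zero]

/-! ### the pointwise inequality -/

private theorem hostB_point {t δ : ℝ} (_ht0 : 0 ≤ t) (ht1 : t ≤ 1) (hδ : 0 < δ) (a : ℝ≥0∞) :
    ENNReal.ofReal t ≤ ENNReal.ofReal δ + ENNReal.ofReal δ * (ENNReal.ofReal (t ^ 2) * a⁻¹) +
      (ENNReal.ofReal (δ ^ 2))⁻¹ * a := by
  have hδ2 : 0 < δ ^ 2 := by positivity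
  rcases le_total a (ENNReal.ofReal (δ ^ 2)) with h | h
  · have h1 : (ENNReal.ofReal (δ ^ 2))⁻¹ ≤ a⁻¹ := ENNReal.inv_le_inv.2 h
    have h2 : (ENNReal.ofReal (δ ^ 2))⁻¹ = ENNReal.ofReal ((δ ^ 2)⁻¹) :=
      (ENNReal.ofReal_inv_of_pos hδ2).symm
    have h3 : t ≤ δ + δ * (t ^ 2 * (δ ^ 2)⁻¹) := by
      have h4 : δ * (t ^ 2 * (δ ^ 2)⁻¹) = t ^ 2 / δ := by
        field_simp
      rw [h4]
      have h5 : t ^ 2 / δ * δ = t ^ 2 := by field_simp
      have h6 : 0 ≤ t ^ 2 / δ := by positivity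
      by_contra hcon
      push Not at hcon
      have h7 : (δ + t ^ 2 / δ) * δ < t * δ := mul_lt_mul_of_pos_right hcon hδ
      nlinarith [sq_nonneg (t - δ), sq_nonneg (t + δ)]
    calc ENNReal.ofReal t ≤ ENNReal.ofReal (δ + δ * (t ^ 2 * (δ ^ 2)⁻¹)) :=
          ENNReal.ofReal_le_ofReal h3
      _ = ENNReal.ofReal δ +
            ENNReal.ofReal δ * (ENNReal.ofReal (t ^ 2) * ENNReal.ofReal ((δ ^ 2)⁻¹)) := by
          rw [ENNReal.ofReal_add hδ.le (by positivity), ENNReal.ofReal_mul hδ.le,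
            ENNReal.ofReal_mul (by positivity)]
      _ ≤ ENNReal.ofReal δ + ENNReal.ofReal δ * (ENNReal.ofReal (t ^ 2) * a⁻¹) := by
          rw [← h2]
          gcongr
      _ ≤ _ := le_self_add
  · have h1 : (1 : ℝ≥0∞) ≤ (ENNReal.ofReal (δ ^ 2))⁻¹ * a := by
      calc (1 : ℝ≥0∞) = (ENNReal.ofReal (δ ^ 2))⁻¹ * ENNReal.ofReal (δ ^ 2) := by
            rw [ENNReal.inv_mul_cancel]
            · exact (ENNReal.ofReal_pos.2 hδ2).ne'
            · exact ENNReal.ofReal_ne_top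
        _ ≤ _ := by gcongr
    calc ENNReal.ofReal t ≤ 1 := by
          rw [← ENNReal.ofReal_one]
          exact ENNReal.ofReal_le_ofReal ht1
      _ ≤ (ENNReal.ofReal (δ ^ 2))⁻¹ * a := h1
      _ ≤ _ := le_add_self

private theorem hostB_prod_inv {D : ℕ → ℝ≥0∞} (hD : ∀ k, D k ≤ 1) (n : ℕ) :
    ∏ k ∈ Finset.range n, (D k)⁻¹ = (∏ k ∈ Finset.range n, D k)⁻¹ := by
  have hle : ∀ n, ∏ k ∈ Finset.range n, D k ≤ 1 := fun n =>
    Finset.prod_le_one' fun k _ => hD k
  induction n with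
  | zero => simp
  | succ n ih =>
    rw [Finset.prod_range_succ, Finset.prod_range_succ, ih]
    rw [ENNReal.mul_inv]
    · right
      exact ne_top_of_le_ne_top ENNReal.one_ne_top (hD n)
    · left
      exact ne_top_of_le_ne_top ENNReal.one_ne_top (hle n)

/-! ### the averages -/

private theorem hostB_measurable_coe (z : KG) : Measurable fun y : KG → Circle => (y z : ℂ) := by
  have h : Continuous fun z : Circle => (z : ℂ) := continuous_subtype_val
  exact h.measurable.comp (measurable_pi_apply z)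

private theorem hostB_average (ν : Measure (KG → Circle)) [IsFiniteMeasure ν]
    (hc : ∀ᵐ y ∂ν, IsChar y) (hI : Inv KG ν) {D : (KG → Circle) → ℝ≥0∞} (hD : Digit ν D) (n : ℕ)
    (hn : 1 ≤ n) :
    ∃ M : (KG → Circle) → ℂ, Measurable M ∧ (∀ y, ‖M y‖ ≤ 1) ∧
      ∫ y, M y ∂ν = ∫ y, (y 1 : ℂ) ∂ν ∧
      ∫⁻ y, ENNReal.ofReal (‖M y‖ ^ 2) *
        ∏ k ∈ Finset.range n, (D (mulAct (th ^ (-(k : ℤ))) y))⁻¹ ∂ν ≤
          ENNReal.ofReal (5 / 4) * ν univ := by
  classical
  -- the unit elements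
  have hex : ∀ s : ℕ, ∃ c : KG, ‖(c : ℂ)‖ = 1 ∧ (Nat.Coprime s 5 → c - s ∈ Kn n) := by
    intro s
    by_cases hs : Nat.Coprime s 5
    · obtain ⟨c, h1, h2⟩ := exists_unit n s hs
      exact ⟨c, h1, fun _ => h2⟩
    · exact ⟨1, by simp, fun h => absurd h hs⟩
  choose c hc1 hc2 using hex
  set S : Finset ℕ := (Finset.range (5 ^ n)).filter (Nat.Coprime (5 ^ n)) with hS
  have hScard : S.card = 4 * 5 ^ (n - 1) := by
    have h1 : S.card = Nat.totient (5 ^ n) := rfl
    rw [h1, Nat.totient_prime_pow (by norm_num) (by omega)]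
    ring
  have hScop : ∀ s ∈ S, Nat.Coprime s 5 := by
    intro s hs
    rw [hS, Finset.mem_filter] at hs
    exact (hs.2.coprime_dvd_left (dvd_pow_self 5 (by omega))).symm
  have hSlt : ∀ s ∈ S, s < 5 ^ n := by
    intro s hs
    rw [hS, Finset.mem_filter, Finset.mem_range] at hs
    exact hs.1
  set N : ℝ := (S.card : ℝ) with hN
  have hN0 : 0 < N := by
    rw [hN, hScard]
    positivity
  have hN0' : (N : ℂ) ≠ 0 := by exact_mod_cast hN0.ne'
  -- membership facts
  have hcK : ∀ s ∈ S, c s ∈ Kn 0 := by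
    intro s hs
    have h1 : c s - s ∈ Kn 0 := Kn_anti (by positivity : (0 : ℤ) ≤ (n : ℤ)) (hc2 s (hScop s hs))
    have h2 : ((s : ℤ) : KG) ∈ Kn 0 := by
      have := (intCast_mem_Kn 0 (s : ℤ)).2 (by simp)
      simpa using this
    have h3 := Kn_add h1 h2
    simpa using h3
  have hdiff : ∀ s ∈ S, ∀ s' ∈ S, c s - c s' ∈ Kn 0 := by
    intro s hs s' hs'
    rw [sub_eq_add_neg]
    exact Kn_add (hcK s hs) (Kn_neg (hcK s' hs'))
  have heq : ∀ s ∈ S, ∀ s' ∈ S, c s - c s' ∈ Kn n → s = s' := by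
    intro s hs s' hs' h
    have h1 := hc2 s (hScop s hs)
    have h2 := hc2 s' (hScop s' hs')
    have h3 : (((s : ℤ) - (s' : ℤ) : ℤ) : KG) ∈ Kn n := by
      have h4 := Kn_add (Kn_add h (Kn_neg h1)) h2
      have h5 : c s - c s' + -(c s - (s : KG)) + (c s' - (s' : KG)) =
          (((s : ℤ) - (s' : ℤ) : ℤ) : KG) := by
        push_cast
        ring
      rwa [h5] at h4
    rw [intCast_mem_Kn] at h3
    have h6 : ((s : ℤ) - (s' : ℤ)).natAbs < 5 ^ n := by
      have := hSlt s hs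
      have := hSlt s' hs'
      omega
    have h7 : ((s : ℤ) - (s' : ℤ)) = 0 := by
      apply Int.eq_zero_of_abs_lt_dvd h3
      rw [Int.abs_eq_natAbs]
      exact_mod_cast h6
    omega
  -- the average
  refine ⟨fun y => (1 / (N : ℂ)) * ∑ s ∈ S, (y (c s) : ℂ), ?_, ?_, ?_, ?_⟩
  · refine Measurable.const_mul ?_ _
    refine Finset.measurable_sum _ fun s _ => ?_
    exact hostB_measurable_coe (c s)
  · intro y
    rw [norm_mul, norm_div, norm_one]
    have h1 : ‖∑ s ∈ S, (y (c s) : ℂ)‖ ≤ N := by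
      refine (norm_sum_le _ _).trans ?_
      rw [Finset.sum_congr rfl fun s _ => Circle.norm_coe (y (c s)), Finset.sum_const,
        nsmul_eq_mul, mul_one]
    have h2 : ‖(N : ℂ)‖ = N := by
      rw [Complex.norm_real, Real.norm_of_nonneg hN0.le]
    rw [h2]
    calc 1 / N * ‖∑ s ∈ S, (y (c s) : ℂ)‖ ≤ 1 / N * N := by gcongr
      _ = 1 := by field_simp
  · have hcoe : ∀ z : KG, Measurable fun y : KG → Circle => (y z : ℂ) := hostB_measurable_coe
    have hint : ∀ z : KG, Integrable (fun y : KG → Circle => (y z : ℂ)) ν := by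
      intro z
      refine Integrable.of_bound (hcoe z).aestronglyMeasurable 1 ?_
      exact Filter.Eventually.of_forall fun y => (Circle.norm_coe (y z)).le
    have hcs : ∀ s, ∫ y, (y (c s) : ℂ) ∂ν = ∫ y, (y 1 : ℂ) ∂ν := by
      intro s
      have h1 := (hI (c s) (hc1 s)).map_eq
      have h2 : ∫ y, (y 1 : ℂ) ∂(ν.map (mulAct (c s))) = ∫ y, ((mulAct (c s) y) 1 : ℂ) ∂ν :=
        integral_map (measurable_mulAct (c s)).aemeasurable (hcoe 1).aestronglyMeasurable
      rw [h1] at h2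
      rw [h2]
      simp only [mulAct, mul_one]
    rw [integral_const_mul, integral_finsetSum _ (fun s _ => hint (c s))]
    simp only [hcs]
    rw [Finset.sum_const, nsmul_eq_mul]
    have h3 : ((S.card : ℕ) : ℂ) = (N : ℂ) := by
      rw [hN]
      push_cast
      rfl
    rw [h3, ← mul_assoc, one_div, inv_mul_cancel₀ hN0', one_mul]
  · -- the inequality
    set β : KG →₀ ℂ := ∑ s ∈ S, ∑ s' ∈ S, Finsupp.single (c s - c s') (1 / (N : ℂ) ^ 2) with hβ
    have htrig : ∀ y, IsChar y →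
        trig β y = ((‖(1 / (N : ℂ)) * ∑ s ∈ S, (y (c s) : ℂ)‖ ^ 2 : ℝ) : ℂ) := by
      intro y hy
      rw [hβ, hostB_trig_sum]
      simp only [hostB_trig_sum, hostB_trig_single]
      have h1 : ∀ s s', (y (c s - c s') : ℂ) = (y (c s) : ℂ) * (starRingEnd ℂ) (y (c s') : ℂ) := by
        intro s s'
        rw [hy.map_sub, div_eq_mul_inv, Circle.coe_mul, Circle.coe_inv_eq_conj]
      simp only [h1]
      have h2 : ((‖(1 / (N : ℂ)) * ∑ s ∈ S, (y (c s) : ℂ)‖ ^ 2 : ℝ) : ℂ) =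
          ((1 / (N : ℂ)) * ∑ s ∈ S, (y (c s) : ℂ)) *
            (starRingEnd ℂ) ((1 / (N : ℂ)) * ∑ s ∈ S, (y (c s) : ℂ)) := by
        rw [Complex.mul_conj']
        push_cast
        rfl
      rw [h2, map_mul, map_div₀, map_one, Complex.conj_ofReal, map_sum]
      rw [show (1 / (N : ℂ) * ∑ s ∈ S, (y (c s) : ℂ)) *
          (1 / (N : ℂ) * ∑ x ∈ S, (starRingEnd ℂ) (y (c x) : ℂ)) =
          1 / (N : ℂ) ^ 2 * ((∑ s ∈ S, (y (c s) : ℂ)) *
            ∑ x ∈ S, (starRingEnd ℂ) (y (c x) : ℂ)) by ring]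
      rw [Finset.sum_mul_sum, Finset.mul_sum]
      refine Finset.sum_congr rfl fun s _ => ?_
      rw [Finset.mul_sum]
    have hcut : ∀ y, IsChar y → trig (cut (Kn n) β) y = ((1 / N : ℝ) : ℂ) := by
      intro y hy
      rw [hβ, hostB_cut_sum, hostB_trig_sum]
      have h1 : ∀ s ∈ S, trig (cut (Kn n) (∑ s' ∈ S,
          Finsupp.single (c s - c s') (1 / (N : ℂ) ^ 2))) y = 1 / (N : ℂ) ^ 2 := by
        intro s hs
        rw [hostB_cut_sum, hostB_trig_sum]
        rw [Finset.sum_eq_single_of_mem s hs]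
        · have h2 : c s - c s = 0 := sub_self _
          rw [h2, hostB_cut_single_mem (zero_mem_Kn n), hostB_trig_single, hy.map_zero,
            Circle.coe_one, mul_one]
        · intro s' hs' hne
          rw [hostB_cut_single_notMem (fun h => hne (heq s hs s' hs' h).symm), hostB_trig_zero]
      rw [Finset.sum_congr rfl h1, Finset.sum_const, nsmul_eq_mul]
      have h3 : ((S.card : ℕ) : ℂ) = (N : ℂ) := by
        rw [hN]
        push_cast
        rfl
      rw [h3]
      push_cast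
      field_simp
    have hsupp : ∀ z ∈ β.support, z ∈ K0 := by
      intro z hz
      rw [Finsupp.mem_support_iff] at hz
      by_contra hcon
      apply hz
      rw [hβ, Finsupp.finsetSum_apply]
      refine Finset.sum_eq_zero fun s hs => ?_
      rw [Finsupp.finsetSum_apply]
      refine Finset.sum_eq_zero fun s' hs' => ?_
      rw [Finsupp.single_apply, if_neg]
      intro h
      apply hcon
      rw [← h, ← Kn_zero]
      exact hdiff s hs s' hs'
    have h1 := host_ineq ν hI hD β hsupp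
      (fun y hy => ⟨_, by positivity, htrig y hy⟩) n
    have h2 : ∫⁻ y, ENNReal.ofReal (trig β y).re *
        ∏ k ∈ Finset.range n, (D (mulAct (th ^ (-(k : ℤ))) y))⁻¹ ∂ν =
        ∫⁻ y, ENNReal.ofReal (‖(1 / (N : ℂ)) * ∑ s ∈ S, (y (c s) : ℂ)‖ ^ 2) *
        ∏ k ∈ Finset.range n, (D (mulAct (th ^ (-(k : ℤ))) y))⁻¹ ∂ν := by
      apply lintegral_congr_ae
      filter_upwards [hc] with y hy
      rw [htrig y hy, Complex.ofReal_re]
    have h3 : ∫⁻ y, ENNReal.ofReal (5 ^ n * (trig (cut (Kn n) β) y).re) ∂ν =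
        ENNReal.ofReal (5 / 4) * ν univ := by
      have h4 : ∫⁻ y, ENNReal.ofReal (5 ^ n * (trig (cut (Kn n) β) y).re) ∂ν =
          ∫⁻ _, ENNReal.ofReal (5 / 4) ∂ν := by
        apply lintegral_congr_ae
        filter_upwards [hc] with y hy
        rw [hcut y hy, Complex.ofReal_re]
        congr 1
        rw [hN, hScard]
        obtain ⟨m, rfl⟩ : ∃ m, n = m + 1 := ⟨n - 1, by omega⟩
        rw [Nat.add_sub_cancel]
        push_cast
        rw [pow_succ]
        field_simp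
      rw [h4, lintegral_const]
    rw [h2, h3] at h1
    exact h1

/-! ### Host's theorem -/

theorem host (ν : Measure (KG → Circle)) [IsFiniteMeasure ν] (hc : ∀ᵐ y ∂ν, IsChar y)
    (hI : Inv KG ν) {D : (KG → Circle) → ℝ≥0∞} (hD : Digit ν D)
    (h0 : ∀ᵐ y ∂ν, Tendsto (fun n : ℕ => ∏ k ∈ Finset.range n, D (mulAct (th ^ (-(k : ℤ))) y))
      atTop (𝓝 0)) :
    ∫ y, (y 1 : ℂ) ∂ν = 0 := by
  -- measurability
  have hDm : Measurable D := by
    refine hD.meas.mono ?_ le_rfl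
    refine iSup₂_le fun w _ => ?_
    exact (measurable_pi_apply w).comap_le
  set A : ℕ → (KG → Circle) → ℝ≥0∞ :=
    fun n y => ∏ k ∈ Finset.range n, D (mulAct (th ^ (-(k : ℤ))) y) with hA
  have hAm : ∀ n, Measurable (A n) := by
    intro n
    refine Finset.measurable_prod _ fun k _ => ?_
    exact hDm.comp (measurable_mulAct _)
  have hAle : ∀ n y, A n y ≤ 1 := fun n y => Finset.prod_le_one' fun k _ => hD.le_one _
  have hAt : Tendsto (fun n => ∫⁻ y, A n y ∂ν) atTop (𝓝 0) := by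
    have h1 := tendsto_lintegral_of_dominated_convergence (μ := ν) (F := A) (f := fun _ => 0)
      (fun _ => 1) hAm (fun n => Filter.Eventually.of_forall fun y => hAle n y)
      (by simp) h0
    simpa using h1
  -- the main estimate
  have hmain : ∀ δ : ℝ, 0 < δ → ∀ n : ℕ, 1 ≤ n → ENNReal.ofReal ‖∫ y, (y 1 : ℂ) ∂ν‖ ≤
      ENNReal.ofReal δ * ν univ + ENNReal.ofReal δ * (ENNReal.ofReal (5 / 4) * ν univ) +
        (ENNReal.ofReal (δ ^ 2))⁻¹ * ∫⁻ y, A n y ∂ν := by
    intro δ hδ n hn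
    obtain ⟨M, hM, hM1, hMi, hMl⟩ := hostB_average ν hc hI hD n hn
    rw [← hMi]
    have hprod : ∀ y, ∏ k ∈ Finset.range n, (D (mulAct (th ^ (-(k : ℤ))) y))⁻¹ = (A n y)⁻¹ := by
      intro y
      exact hostB_prod_inv (D := fun k : ℕ => D (mulAct (th ^ (-(k : ℤ))) y))
        (fun k => hD.le_one _) n
    simp only [hprod] at hMl
    calc ENNReal.ofReal ‖∫ y, M y ∂ν‖ ≤ ∫⁻ y, ‖M y‖ₑ ∂ν := by
          rw [ofReal_norm]
          exact enorm_integral_le_lintegral_enorm _
      _ = ∫⁻ y, ENNReal.ofReal ‖M y‖ ∂ν := by simp only [ofReal_norm]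
      _ ≤ ∫⁻ y, (ENNReal.ofReal δ + ENNReal.ofReal δ * (ENNReal.ofReal (‖M y‖ ^ 2) * (A n y)⁻¹) +
            (ENNReal.ofReal (δ ^ 2))⁻¹ * A n y) ∂ν :=
          lintegral_mono fun y => hostB_point (norm_nonneg _) (hM1 y) hδ _
      _ = ENNReal.ofReal δ * ν univ +
            ENNReal.ofReal δ * ∫⁻ y, ENNReal.ofReal (‖M y‖ ^ 2) * (A n y)⁻¹ ∂ν +
            (ENNReal.ofReal (δ ^ 2))⁻¹ * ∫⁻ y, A n y ∂ν := by
          have hm1 : Measurable fun y => ENNReal.ofReal (‖M y‖ ^ 2) * (A n y)⁻¹ :=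
            (ENNReal.measurable_ofReal.comp ((hM.norm).pow_const 2)).mul (hAm n).inv
          rw [lintegral_add_left (by fun_prop), lintegral_add_left measurable_const,
            lintegral_const, lintegral_const_mul _ hm1, lintegral_const_mul _ (hAm n)]
      _ ≤ _ := by gcongr
  -- the limit in n
  have hlim : ∀ δ : ℝ, 0 < δ → ENNReal.ofReal ‖∫ y, (y 1 : ℂ) ∂ν‖ ≤
      ENNReal.ofReal δ * ν univ + ENNReal.ofReal δ * (ENNReal.ofReal (5 / 4) * ν univ) := by
    intro δ hδ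
    have h1 : Tendsto (fun n => ENNReal.ofReal δ * ν univ +
        ENNReal.ofReal δ * (ENNReal.ofReal (5 / 4) * ν univ) +
        (ENNReal.ofReal (δ ^ 2))⁻¹ * ∫⁻ y, A n y ∂ν) atTop
        (𝓝 (ENNReal.ofReal δ * ν univ + ENNReal.ofReal δ * (ENNReal.ofReal (5 / 4) * ν univ) +
          (ENNReal.ofReal (δ ^ 2))⁻¹ * 0)) := by
      refine Tendsto.const_add _ ?_
      refine ENNReal.Tendsto.const_mul hAt ?_
      right
      rw [ENNReal.inv_ne_top]
      exact (ENNReal.ofReal_pos.2 (by positivity : 0 < δ ^ 2)).ne'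
    rw [mul_zero, add_zero] at h1
    refine ge_of_tendsto h1 ?_
    filter_upwards [eventually_ge_atTop 1] with n hn
    exact hmain δ hδ n hn
  -- the limit in δ
  have hV : ν univ = ENNReal.ofReal (ν univ).toReal := (ENNReal.ofReal_toReal (measure_ne_top ν _)).symm
  set V : ℝ := (ν univ).toReal with hVd
  have hV0 : 0 ≤ V := ENNReal.toReal_nonneg
  have hreal : ∀ δ : ℝ, 0 < δ → ‖∫ y, (y 1 : ℂ) ∂ν‖ ≤ δ * (9 / 4 * V) := by
    intro δ hδ
    have h1 := hlim δ hδ
    rw [hV, ← ENNReal.ofReal_mul hδ.le, ← ENNReal.ofReal_mul (by norm_num : (0 : ℝ) ≤ 5 / 4),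
      ← ENNReal.ofReal_mul hδ.le, ← ENNReal.ofReal_add (by positivity) (by positivity),
      ENNReal.ofReal_le_ofReal_iff (by positivity)] at h1
    linarith
  have h2 : ‖∫ y, (y 1 : ℂ) ∂ν‖ ≤ 0 := by
    refine le_of_forall_pos_le_add fun ε hε => ?_
    rw [zero_add]
    have h3 : 0 < 9 / 4 * V + 1 := by positivity
    have h4 := hreal (ε / (9 / 4 * V + 1)) (by positivity)
    refine h4.trans ?_
    rw [div_mul_eq_mul_div, div_le_iff₀ h3]
    nlinarith
  exact norm_le_zero_iff.1 h2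

end Pool.Agent.MP_8b8716_co_HN
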