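import Mathlib
import Pool.Agent.Lib.MP_8b8716_co_HN.Defs
import Pool.Agent.Lib.MP_8b8716_co_HN.Basic

set_option autoImplicit false

/-!
# MP_8b8716_co, project HN: recurrence
-/

noncomputable section

namespace Pool.Agent.MP_8b8716_co_HN

open Complex MeasureTheory Filter Topology Set
open scoped ENNReal

private theorem prod_antitone_rec {a : ℕ → ℝ≥0∞} (h1 : ∀ j, a j ≤ 1) :
    Antitone fun n => ∏ k ∈ Finset.range n, a k := by
  refine antitone_nat_of_succ_le fun n => ?_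
  rw [Finset.prod_range_succ]
  exact mul_le_of_le_one_right' (h1 n)

private theorem prod_tendsto_zero_rec {a : ℕ → ℝ≥0∞} (h1 : ∀ j, a j ≤ 1) {q : ℝ≥0∞} (hq : q < 1)
    (hf : ∃ᶠ j in atTop, a j ≤ q) :
    Tendsto (fun n => ∏ k ∈ Finset.range n, a k) atTop (𝓝 0) := by
  have key : ∀ M : ℕ, ∃ N : ℕ, ∀ n ≥ N, ∏ k ∈ Finset.range n, a k ≤ q ^ M := by
    intro M
    induction M with
    | zero =>
      refine ⟨0, fun n _ => ?_⟩
      rw [pow_zero]
      exact Finset.prod_le_one' fun k _ => h1 k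
    | succ M ih =>
      obtain ⟨N, hN⟩ := ih
      obtain ⟨j, hj, hj'⟩ := Filter.frequently_atTop.1 hf N
      refine ⟨j + 1, fun n hn => ?_⟩
      refine (prod_antitone_rec h1 hn).trans ?_
      simp only [Finset.prod_range_succ, pow_succ]
      exact mul_le_mul' (hN j hj) hj'
  rw [ENNReal.tendsto_atTop_zero]
  intro ε hε
  obtain ⟨M, hM⟩ := (ENNReal.tendsto_atTop_zero.1
    (ENNReal.tendsto_pow_atTop_nhds_zero_of_lt_one hq)) ε hε
  obtain ⟨N, hN⟩ := key M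
  exact ⟨N, fun n hn => (hN n hn).trans (hM M le_rfl)⟩

private theorem iterate_rec (n : ℕ) (y : KG → Circle) :
    (mulAct (th ^ (-1 : ℤ)))^[n] y = mulAct (th ^ (-(n : ℤ))) y := by
  induction n with
  | zero => simp [mulAct_one]
  | succ n ih =>
    rw [Function.iterate_succ_apply', ih, mulAct_mulAct, ← zpow_add₀ th_ne_zero]
    congr 2
    push_cast
    ring

theorem recur (ν : Measure (KG → Circle)) [IsFiniteMeasure ν] (hI : Inv KG ν)
    {D : (KG → Circle) → ℝ≥0∞} (hm : Measurable D) (hle : ∀ y, D y ≤ 1) :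
    ∀ᵐ y ∂ν, (∀ k : ℤ, D (mulAct (th ^ k) y) = 1) ∨
      Tendsto (fun n : ℕ => ∏ k ∈ Finset.range n, D (mulAct (th ^ (-(k : ℤ))) y)) atTop (𝓝 0) := by
  have hW : ∀ m : ℕ, MeasurableSet {y | D y ≤ 1 - (m : ℝ≥0∞)⁻¹} := fun m =>
    measurableSet_le hm measurable_const
  have hT : MeasurePreserving (mulAct (th ^ (-1 : ℤ))) ν ν := hI _ (norm_th_zpow _)
  have h1 : ∀ m : ℕ, ∀ᵐ y ∂ν, y ∈ {y | D y ≤ 1 - (m : ℝ≥0∞)⁻¹} →
      ∃ᶠ n in atTop, (mulAct (th ^ (-1 : ℤ)))^[n] y ∈ {y | D y ≤ 1 - (m : ℝ≥0∞)⁻¹} := fun m =>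
    hT.conservative.ae_mem_imp_frequently_image_mem (hW m).nullMeasurableSet
  have h2 : ∀ᵐ y ∂ν, ∀ (m : ℕ) (k : ℤ), mulAct (th ^ k) y ∈ {y | D y ≤ 1 - (m : ℝ≥0∞)⁻¹} →
      ∃ᶠ n in atTop, (mulAct (th ^ (-1 : ℤ)))^[n] (mulAct (th ^ k) y) ∈
        {y | D y ≤ 1 - (m : ℝ≥0∞)⁻¹} := by
    rw [ae_all_iff]
    intro m
    rw [ae_all_iff]
    intro k
    exact (hI _ (norm_th_zpow k)).quasiMeasurePreserving.ae (h1 m)
  filter_upwards [h2] with y hy
  by_cases hall : ∀ k : ℤ, D (mulAct (th ^ k) y) = 1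
  · exact Or.inl hall
  · right
    push Not at hall
    obtain ⟨k, hk⟩ := hall
    have hlt : D (mulAct (th ^ k) y) < 1 := lt_of_le_of_ne (hle _) hk
    obtain ⟨m, hmm⟩ := ENNReal.exists_inv_nat_lt (tsub_pos_of_lt hlt).ne'
    have hmem : mulAct (th ^ k) y ∈ {y | D y ≤ 1 - (m : ℝ≥0∞)⁻¹} := by
      show D (mulAct (th ^ k) y) ≤ 1 - (m : ℝ≥0∞)⁻¹
      have h3 : D (mulAct (th ^ k) y) + (m : ℝ≥0∞)⁻¹ ≤ 1 := by
        have h4 : D (mulAct (th ^ k) y) + (1 - D (mulAct (th ^ k) y)) = 1 :=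
          add_tsub_cancel_of_le (hle _)
        calc D (mulAct (th ^ k) y) + (m : ℝ≥0∞)⁻¹
            ≤ D (mulAct (th ^ k) y) + (1 - D (mulAct (th ^ k) y)) := by gcongr
          _ = 1 := h4
      exact ENNReal.le_sub_of_add_le_right (hmm.trans_le tsub_le_self |>.ne_top) h3
    have hq : 1 - (m : ℝ≥0∞)⁻¹ < 1 := by
      refine ENNReal.sub_lt_self ENNReal.one_ne_top one_ne_zero ?_
      exact ENNReal.inv_ne_zero.2 (ENNReal.natCast_ne_top m)
    refine prod_tendsto_zero_rec (fun j => hle _) hq ?_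
    rw [Filter.frequently_atTop]
    intro N
    obtain ⟨n, hn, hn'⟩ := Filter.frequently_atTop.1 (hy m k hmem) (N + k.natAbs)
    rw [iterate_rec, mulAct_mulAct, ← zpow_add₀ th_ne_zero] at hn'
    refine ⟨((n : ℤ) - k).toNat, ?_, ?_⟩
    · omega
    · have h5 : -((((n : ℤ) - k).toNat : ℕ) : ℤ) = -(n : ℤ) + k := by omega
      rw [h5]
      exact hn'

end Pool.Agent.MP_8b8716_co_HN
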