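import Mathlib
import Pool.Agent.Lib.MP_8b8716_co_HN.Basic
import Pool.Agent.Lib.MP_8b8716_co_HN.NumB
import Pool.Agent.Lib.MP_8b8716_co_HN.NumC

set_option autoImplicit false

/-!
# MP_8b8716_co, project HN: heavy balls (the pigeonhole argument of Einsiedler and Fish)
-/

noncomputable section

namespace Pool.Agent.MP_8b8716_co_HN

open Complex MeasureTheory Filter Topology Set
open scoped ENNReal

namespace Ef1

/-- the number `i` in `KG` -/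
def ig : KG := ⟨I, 0, 1, by simp⟩

/-- `a + i` -/
def wp (a : ℕ) : KG := (a : KG) + ig

/-- `a - i` -/
def wm (a : ℕ) : KG := (a : KG) - ig

theorem ig_mem : ig ∈ Zi := ⟨0, 1, by simp [ig]⟩

theorem neg_ig_mem : -ig ∈ Zi := Zi.neg_mem ig_mem

theorem wp_mem (a : ℕ) : wp a ∈ Zi := ⟨a, 1, by simp [wp, ig]⟩

theorem wm_mem (a : ℕ) : wm a ∈ Zi := ⟨a, -1, by simp [wm, ig, sub_eq_add_neg]⟩

theorem ig_sq : ig * ig = -1 := by
  apply Subtype.ext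
  simp [ig]

theorem coe_wp (a : ℕ) : ((wp a : KG) : ℂ) = (a : ℂ) + I := by simp [wp, ig]

theorem coe_wm (a : ℕ) : ((wm a : KG) : ℂ) = (a : ℂ) - I := by simp [wm, ig]

theorem norm_wp_sq (a : ℕ) : ‖(wp a : ℂ)‖ ^ 2 = (a : ℝ) ^ 2 + 1 := by
  rw [coe_wp, ← Complex.normSq_eq_norm_sq, Complex.normSq_apply]
  simp
  ring

theorem norm_wm_sq (a : ℕ) : ‖(wm a : ℂ)‖ ^ 2 = (a : ℝ) ^ 2 + 1 := by
  rw [coe_wm, ← Complex.normSq_eq_norm_sq, Complex.normSq_apply]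
  simp
  ring

theorem norm_wp_eq (a : ℕ) : ‖(wp a : ℂ)‖ = ‖(wm a : ℂ)‖ := by
  have h : ‖(wp a : ℂ)‖ ^ 2 = ‖(wm a : ℂ)‖ ^ 2 := by rw [norm_wp_sq, norm_wm_sq]
  exact (pow_left_inj₀ (norm_nonneg _) (norm_nonneg _) two_ne_zero).1 h

theorem wp_ne_zero (a : ℕ) : wp a ≠ 0 := by
  intro h
  have h1 := norm_wp_sq a
  rw [h] at h1
  simp at h1
  nlinarith [sq_nonneg (a : ℝ)]

theorem wm_ne_zero (a : ℕ) : wm a ≠ 0 := by
  intro h
  have h1 := norm_wm_sq a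
  rw [h] at h1
  simp at h1
  nlinarith [sq_nonneg (a : ℝ)]

/-- the number `(a + i) / (a - i)`, of modulus one -/
def cc (a : ℕ) : KG := wp a / wm a

theorem norm_cc (a : ℕ) : ‖(cc a : ℂ)‖ = 1 := by
  have h : ((cc a : KG) : ℂ) = (wp a : ℂ) / (wm a : ℂ) := rfl
  rw [h, norm_div, norm_wp_eq]
  apply div_self
  rw [norm_ne_zero_iff]
  intro h1
  exact wm_ne_zero a (Subtype.ext h1)

theorem cc_ne_zero (a : ℕ) : cc a ≠ 0 := div_ne_zero (wp_ne_zero a) (wm_ne_zero a)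

theorem norm_cc_inv (a : ℕ) : ‖(((cc a)⁻¹ : KG) : ℂ)‖ = 1 := by
  have h : (((cc a)⁻¹ : KG) : ℂ) = (cc a : ℂ)⁻¹ := rfl
  rw [h, norm_inv, norm_cc, inv_one]

theorem cross (a b : ℕ) : wp a * wm b - wp b * wm a = 2 * ((b : KG) - a) * ig := by
  unfold wp wm
  ring

theorem norm_le {a b A : ℕ} (ha : a < A) (hb : b < A) :
    ‖(wp a : ℂ)‖ * ‖(wm b : ℂ)‖ ≤ (A : ℝ) ^ 2 + 1 := by
  have h1 := norm_wp_sq a
  have h2 := norm_wm_sq b
  have h3 : (a : ℝ) ≤ A := by exact_mod_cast ha.le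
  have h4 : (b : ℝ) ≤ A := by exact_mod_cast hb.le
  have h5 : (a : ℝ) ^ 2 ≤ (A : ℝ) ^ 2 := by gcongr
  have h6 : (b : ℝ) ^ 2 ≤ (A : ℝ) ^ 2 := by gcongr
  nlinarith [sq_nonneg (‖(wp a : ℂ)‖ - ‖(wm b : ℂ)‖)]

/-- two characters in the ball which are turned into the same function -/
theorem core {D : KG} {n : ℕ} {ρ : ℝ} {y : KG → Circle} (hy : IsChar y) {A a b : ℕ} (ha : a < A)
    (hb : b < A) (hab : a < b) {v : KG → Circle} (h1 : mulAct (cc a)⁻¹ v ∈ Ball D n ρ y)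
    (h2 : mulAct (cc b)⁻¹ v ∈ Ball D n ρ y) :
    ∃ m : ℕ, 0 < m ∧ m ≤ 2 * A ∧ ∃ ξ : ℂ, ‖ξ‖ ≤ 2 * ρ * (A ^ 2 + 1) ∧
      ∀ w ∈ Lt D n, y (m * w) = el ξ w := by
  obtain ⟨-, ξ1, hξ1, h1⟩ := h1
  obtain ⟨-, ξ2, hξ2, h2⟩ := h2
  have hρ : 0 ≤ ρ := (norm_nonneg _).trans hξ1
  refine ⟨2 * (b - a), by omega, by omega,
    (ξ2 * ((wp b : ℂ) * (wm a : ℂ)) - ξ1 * ((wp a : ℂ) * (wm b : ℂ))) * (-I), ?_, ?_⟩
  · rw [norm_mul, norm_neg, Complex.norm_I, mul_one]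
    have h3 : ‖ξ2 * ((wp b : ℂ) * (wm a : ℂ))‖ ≤ ρ * ((A : ℝ) ^ 2 + 1) := by
      rw [norm_mul, norm_mul]
      exact mul_le_mul hξ2 (norm_le hb ha) (by positivity) hρ
    have h4 : ‖ξ1 * ((wp a : ℂ) * (wm b : ℂ))‖ ≤ ρ * ((A : ℝ) ^ 2 + 1) := by
      rw [norm_mul, norm_mul]
      exact mul_le_mul hξ1 (norm_le ha hb) (by positivity) hρ
    calc _ ≤ ‖ξ2 * ((wp b : ℂ) * (wm a : ℂ))‖ + ‖ξ1 * ((wp a : ℂ) * (wm b : ℂ))‖ :=
          norm_sub_le _ _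
      _ ≤ _ := by linarith
  · intro w hw
    -- the common value
    have hv : ∀ t : KG, mulAct (cc a)⁻¹ v (wp a * wm b * t) = mulAct (cc b)⁻¹ v (wp b * wm a * t) := by
      intro t
      simp only [mulAct]
      congr 1
      unfold cc
      field_simp [wp_ne_zero a, wm_ne_zero a, wp_ne_zero b, wm_ne_zero b]
    have hy1 : ∀ t ∈ Lt D n, mulAct (cc a)⁻¹ v t = el ξ1 t * y t := by
      intro t ht
      rw [← h1 t ht, Pi.div_apply, div_mul_cancel]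
    have hy2 : ∀ t ∈ Lt D n, mulAct (cc b)⁻¹ v t = el ξ2 t * y t := by
      intro t ht
      rw [← h2 t ht, Pi.div_apply, div_mul_cancel]
    set t : KG := -ig * w with ht
    have htL : t ∈ Lt D n := Lt_smul neg_ig_mem hw
    have hA : wp a * wm b * t ∈ Lt D n := Lt_smul (Zi.mul_mem (wp_mem a) (wm_mem b)) htL
    have hB : wp b * wm a * t ∈ Lt D n := Lt_smul (Zi.mul_mem (wp_mem b) (wm_mem a)) htL
    have h5 := hv t
    rw [hy1 _ hA, hy2 _ hB] at h5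
    have h6 : ((2 * (b - a) : ℕ) : KG) * w = wp a * wm b * t - wp b * wm a * t := by
      rw [← sub_mul, cross, ht]
      push_cast [hab.le]
      linear_combination (2 * ((b : KG) - a) * w) * ig_sq
    rw [h6, hy.map_sub]
    have h7 : y (wp a * wm b * t) / y (wp b * wm a * t) =
        el ξ2 ((wp b * wm a * t : KG) : ℂ) / el ξ1 ((wp a * wm b * t : KG) : ℂ) := by
      rw [div_eq_div_iff_mul_eq_mul, mul_comm, h5]
    rw [h7]
    have h8 : (t : ℂ) = -I * w := by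
      rw [ht]
      simp [ig]
    have h9 : ((wp b * wm a * t : KG) : ℂ) = ((wp b : ℂ) * (wm a : ℂ) * (-I)) * w := by
      rw [mul_assoc _ (-I), ← h8]
      rfl
    have h10 : ((wp a * wm b * t : KG) : ℂ) = ((wp a : ℂ) * (wm b : ℂ) * (-I)) * w := by
      rw [mul_assoc _ (-I), ← h8]
      rfl
    rw [h9, h10, el_mul, el_mul, ← el_sub_left]
    congr 1
    ring

end Ef1

open Ef1 in
theorem ef1 (ν : Measure (KG → Circle)) [IsFiniteMeasure ν] (hI : Inv KG ν) {D : KG} (hD : Ndiv D)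
    {n : ℕ} {ρ : ℝ} (hρ : 0 ≤ ρ) {y : KG → Circle} (hy : IsChar y) {A : ℕ}
    (hA : ν univ < A * ν (Ball D n ρ y)) :
    ∃ m : ℕ, 0 < m ∧ m ≤ 2 * A ∧ ∃ ξ : ℂ, ‖ξ‖ ≤ 2 * ρ * (A ^ 2 + 1) ∧
      ∀ w ∈ Lt D n, y (m * w) = el ξ w := by
  have hm : MeasurableSet (Ball D n ρ y) := (isClosed_Ball D n ρ y).measurableSet
  have hpre : ∀ a : ℕ, ν (mulAct (cc a)⁻¹ ⁻¹' Ball D n ρ y) = ν (Ball D n ρ y) := fun a =>
    (hI _ (norm_cc_inv a)).measure_preimage hm.nullMeasurableSet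
  have hsum : ν univ < ∑ a ∈ Finset.range A, ν (mulAct (cc a)⁻¹ ⁻¹' Ball D n ρ y) := by
    rw [Finset.sum_congr rfl fun a _ => hpre a, Finset.sum_const, Finset.card_range, nsmul_eq_mul]
    exact hA
  obtain ⟨a, ha, b, hb, hab, v, hva, hvb⟩ :=
    exists_nonempty_inter_of_measure_univ_lt_sum_measure ν
      (fun a _ => (measurable_mulAct _ hm).nullMeasurableSet) hsum
  have ha' := Finset.mem_range.1 ha
  have hb' := Finset.mem_range.1 hb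
  rcases lt_or_gt_of_ne hab with h | h
  · exact core hy ha' hb' h hva hvb
  · exact core hy hb' ha' h hvb hva

end Pool.Agent.MP_8b8716_co_HN
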