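import Mathlib
import Pool.Agent.Lib.MP_8b8716_co_HN.Defs
import Pool.Agent.Lib.MP_8b8716_co_HN.Basic
import Pool.Agent.Lib.MP_8b8716_co_HN.NumB
import Pool.Agent.Lib.MP_8b8716_co_HN.NumC

set_option autoImplicit false

/-!
# MP_8b8716_co, project HN, module Ef2: deterministic conclusion

A character of the plane over the Gaussian rationals which is, on the lattices `Lt D n`, a
continuous character up to torsion of small order, is a continuous character up to torsion on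
their union.
-/

noncomputable section

namespace Pool.Agent.MP_8b8716_co_HN

open Complex MeasureTheory Filter Topology Set
open scoped ENNReal

/-- the least positive exponent divides all exponents -/
private theorem ef2_period {S : Set KG} {v : KG → Circle}
    (h : ∃ o : ℕ, 0 < o ∧ ∀ w ∈ S, v w ^ o = 1) :
    ∃ o : ℕ, 0 < o ∧ (∀ w ∈ S, v w ^ o = 1) ∧ ∀ o' : ℕ, (∀ w ∈ S, v w ^ o' = 1) → o ∣ o' := by
  classical
  refine ⟨Nat.find h, (Nat.find_spec h).1, (Nat.find_spec h).2, fun o' ho' => ?_⟩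
  have hpos := (Nat.find_spec h).1
  have hper := (Nat.find_spec h).2
  by_contra hnd
  have h1 : 0 < o' % Nat.find h := Nat.pos_of_ne_zero fun h0 => hnd (Nat.dvd_of_mod_eq_zero h0)
  have h2 : ∀ w ∈ S, v w ^ (o' % Nat.find h) = 1 := by
    intro w hw
    have h3 := ho' w hw
    rw [← Nat.mod_add_div o' (Nat.find h), pow_add, pow_mul, hper w hw, one_pow, mul_one] at h3
    exact h3
  have h4 := Nat.find_min' h ⟨h1, h2⟩
  exact absurd (Nat.mod_lt o' hpos) (not_lt.2 h4)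

private theorem ef2_exp_lt : Real.exp (2 / 5) < Real.sqrt 5 := by
  have h1 : Real.exp (2 / 5) ≤ Real.exp 1 ^ (1 / 2 : ℝ) := by
    rw [← Real.exp_mul]
    exact Real.exp_le_exp.2 (by norm_num)
  have h2 : Real.exp 1 ^ (1 / 2 : ℝ) < (5 : ℝ) ^ (1 / 2 : ℝ) :=
    Real.rpow_lt_rpow (Real.exp_pos 1).le (by linarith [Real.exp_one_lt_d9]) (by norm_num)
  rw [Real.sqrt_eq_rpow]
  exact h1.trans_lt h2

private theorem ef2_growth (A : ℝ) : ∀ᶠ n : ℕ in atTop,
    A * Real.exp (2 / 5) ^ n < Real.sqrt 5 ^ n := by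
  have h5 : (0:ℝ) < Real.sqrt 5 := Real.sqrt_pos.2 (by norm_num)
  have h1 : Tendsto (fun n : ℕ => A * (Real.exp (2 / 5) / Real.sqrt 5) ^ n) atTop (𝓝 (A * 0)) :=
    (tendsto_pow_atTop_nhds_zero_of_lt_one (by positivity)
      ((div_lt_one h5).2 ef2_exp_lt)).const_mul A
  rw [mul_zero] at h1
  filter_upwards [h1.eventually (gt_mem_nhds (show (0:ℝ) < 1 by norm_num))] with n hn
  rw [div_pow, mul_div_assoc', div_lt_one (by positivity)] at hn
  exact hn

private theorem ef2_growth2 (A : ℝ) : ∃ k : ℕ, A * Real.exp (1 / 5) ^ k < 5 ^ k := by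
  have h0 : Real.exp (1 / 5) < 5 := by
    have h1 : Real.exp (1 / 5) ≤ Real.exp 1 := Real.exp_le_exp.2 (by norm_num)
    linarith [Real.exp_one_lt_d9]
  have h1 : Tendsto (fun n : ℕ => A * (Real.exp (1 / 5) / 5) ^ n) atTop (𝓝 (A * 0)) :=
    (tendsto_pow_atTop_nhds_zero_of_lt_one (by positivity)
      ((div_lt_one (by norm_num)).2 h0)).const_mul A
  rw [mul_zero] at h1
  obtain ⟨n, hn⟩ := (h1.eventually (gt_mem_nhds (show (0:ℝ) < 1 by norm_num))).exists
  refine ⟨n, ?_⟩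
  rw [div_pow, mul_div_assoc', div_lt_one (by positivity)] at hn
  exact hn

theorem ef2 {D : KG} (hD : Ndiv D) {y : KG → Circle} (hy : IsChar y) {C κ : ℝ} (hκ : κ ≤ 1 / 5)
    (h : ∀ᶠ n : ℕ in atTop, ∃ m : ℕ, 0 < m ∧ (m : ℝ) ≤ C * Real.exp (κ * n) ∧
      ∃ ξ : ℂ, ‖ξ‖ ≤ C * Real.exp (κ * n) ∧ ∀ w ∈ Lt D n, y (m * w) = el ξ w) :
    ∃ m : ℕ, 0 < m ∧ ∃ ξ : ℂ, ∀ k : ℕ, ∀ w ∈ Lt D k, y (m * w) = el (m * ξ) w := by
  -- normalise the bounds
  have hC : 0 < C := by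
    obtain ⟨n, m, hm, hmC, -⟩ := h.exists
    have h1 : (0:ℝ) < m := by exact_mod_cast hm
    by_contra h2
    have h3 : C * Real.exp (κ * n) ≤ 0 := mul_nonpos_of_nonpos_of_nonneg (not_lt.1 h2)
      (Real.exp_pos _).le
    linarith
  have hexp : ∀ n : ℕ, C * Real.exp (κ * n) ≤ C * Real.exp (1 / 5) ^ n := by
    intro n
    rw [← Real.exp_nat_mul]
    refine mul_le_mul_of_nonneg_left (Real.exp_le_exp.2 ?_) hC.le
    rw [mul_comm]
    exact mul_le_mul_of_nonneg_left hκ (Nat.cast_nonneg n)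
  obtain ⟨n0, hn0⟩ := eventually_atTop.1 h
  have h' : ∀ n : ℕ, ∃ m : ℕ, ∃ ξ : ℂ, n0 ≤ n → 0 < m ∧ (m : ℝ) ≤ C * Real.exp (1 / 5) ^ n ∧
      ‖ξ‖ ≤ C * Real.exp (1 / 5) ^ n ∧ ∀ w ∈ Lt D n, y w ^ m = el ξ w := by
    intro n
    by_cases hn : n0 ≤ n
    · obtain ⟨m, hm, hmC, ξ, hξ, hw⟩ := hn0 n hn
      refine ⟨m, ξ, fun _ => ⟨hm, hmC.trans (hexp n), hξ.trans (hexp n), fun w hwL => ?_⟩⟩
      rw [← hw w hwL, hy.map_natMul]
    · exact ⟨0, 0, fun h1 => absurd h1 hn⟩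
  choose m ξ hmξ using h'
  -- the frequencies
  obtain ⟨n1, hn1⟩ := eventually_atTop.1 (ef2_growth (2 * C ^ 2 * Real.exp (1 / 5)))
  have hfreq : ∀ n : ℕ, max n0 n1 ≤ n → (m (n + 1) : ℂ) * ξ n = m n * ξ (n + 1) := by
    intro n hn
    obtain ⟨hm, hmC, hξC, hy1⟩ := hmξ n (le_trans (le_max_left _ _) hn)
    obtain ⟨hm', hmC', hξC', hy2⟩ := hmξ (n + 1)
      ((le_trans (le_max_left _ _) hn).trans (Nat.le_succ n))
    have hE : (0:ℝ) ≤ C * Real.exp (1 / 5) ^ n := by positivity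
    have hE' : (0:ℝ) ≤ C * Real.exp (1 / 5) ^ (n + 1) := by positivity
    have h1 : ∀ w ∈ Lt D n, el ((m (n + 1) : ℂ) * ξ n - m n * ξ (n + 1)) w = 1 := by
      intro w hw
      have hw' : w ∈ Lt D ((n + 1 : ℕ) : ℤ) := Lt_mono (by push_cast; omega) hw
      rw [el_sub_left, el_natMul, el_natMul, ← hy1 w hw, ← hy2 w hw', ← pow_mul, ← pow_mul,
        mul_comm (m n), div_self']
    have h2 : ‖(m (n + 1) : ℂ) * ξ n - m n * ξ (n + 1)‖ ≤
        2 * C ^ 2 * Real.exp (1 / 5) * Real.exp (2 / 5) ^ n := by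
      have h3 : ‖(m (n + 1) : ℂ) * ξ n‖ ≤
          C * Real.exp (1 / 5) ^ (n + 1) * (C * Real.exp (1 / 5) ^ n) := by
        rw [norm_mul, Complex.norm_natCast]
        exact mul_le_mul hmC' hξC (norm_nonneg _) hE'
      have h4 : ‖(m n : ℂ) * ξ (n + 1)‖ ≤
          C * Real.exp (1 / 5) ^ n * (C * Real.exp (1 / 5) ^ (n + 1)) := by
        rw [norm_mul, Complex.norm_natCast]
        exact mul_le_mul hmC hξC' (norm_nonneg _) hE
      have h5 : Real.exp (2 / 5) = Real.exp (1 / 5) * Real.exp (1 / 5) := by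
        rw [← Real.exp_add]
        norm_num
      refine (norm_sub_le _ _).trans ((add_le_add h3 h4).trans (le_of_eq ?_))
      rw [h5, mul_pow]
      ring
    have h3 : ‖(m (n + 1) : ℂ) * ξ n - m n * ξ (n + 1)‖ < ‖(D : ℂ)‖ * Real.sqrt 5 ^ (n : ℤ) := by
      refine h2.trans_lt ((hn1 n (le_trans (le_max_right _ _) hn)).trans_le ?_)
      rw [zpow_natCast]
      exact le_mul_of_one_le_left (by positivity) (Ndiv_norm hD)
    exact sub_eq_zero.1 (Lt_unique hD h1 h3)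
  obtain ⟨N, hN⟩ : ∃ N, N = max n0 n1 := ⟨_, rfl⟩
  rw [← hN] at hfreq
  have hN0 : n0 ≤ N := hN ▸ le_max_left _ _
  have hmne : ∀ n, N ≤ n → (m n : ℂ) ≠ 0 := by
    intro n hn
    have := (hmξ n (hN0.trans hn)).1
    exact_mod_cast this.ne'
  have hζ : ∀ n, N ≤ n → ξ n = m n * (ξ N / m N) := by
    intro n hn
    induction n, hn using Nat.le_induction with
    | base => rw [mul_div_cancel₀ _ (hmne N le_rfl)]
    | succ n hn ih =>
      have h1 := hfreq n hn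
      rw [ih] at h1
      have h2 : (m n : ℂ) * ξ (n + 1) = m n * (m (n + 1) * (ξ N / m N)) := by
        rw [← h1]
        ring
      exact mul_left_cancel₀ (hmne n hn) h2
  set ζ : ℂ := ξ N / m N with hζdef
  -- the torsion part
  let v : KG → Circle := fun w => y w * (el ζ w)⁻¹
  have hv : IsChar v := by
    intro a b
    show y (a + b) * (el ζ ((a + b : KG) : ℂ))⁻¹ = y a * (el ζ a)⁻¹ * (y b * (el ζ b)⁻¹)
    rw [hy a b, Subfield.coe_add, el_add_right, mul_inv]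
    exact mul_mul_mul_comm _ _ _ _
  have hvm : ∀ n, N ≤ n → ∀ w ∈ Lt D (n : ℤ), v w ^ m n = 1 := by
    intro n hn w hw
    show (y w * (el ζ w)⁻¹) ^ m n = 1
    rw [mul_pow, (hmξ n (hN0.trans hn)).2.2.2 w hw, hζ n hn, el_natMul, inv_pow, mul_inv_cancel]
  have hper : ∀ n : ℕ, ∃ o : ℕ, N ≤ n → 0 < o ∧ (∀ w ∈ Lt D (n : ℤ), v w ^ o = 1) ∧
      ∀ o' : ℕ, (∀ w ∈ Lt D (n : ℤ), v w ^ o' = 1) → o ∣ o' := by
    intro n
    by_cases hn : N ≤ n
    · obtain ⟨o, ho⟩ := ef2_period (S := Lt D (n : ℤ)) (v := v)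
        ⟨m n, (hmξ n (hN0.trans hn)).1, hvm n hn⟩
      exact ⟨o, fun _ => ho⟩
    · exact ⟨0, fun h1 => absurd h1 hn⟩
  choose o ho using hper
  have hdvd : ∀ n, N ≤ n → o n ∣ o (n + 1) := by
    intro n hn
    refine (ho n hn).2.2 _ fun w hw => (ho (n + 1) (by omega)).2.1 w ?_
    exact Lt_mono (by push_cast; omega) hw
  have hdvd5 : ∀ n, N ≤ n → o (n + 1) ∣ 5 * o n := by
    intro n hn
    refine (ho (n + 1) (by omega)).2.2 _ fun w hw => ?_
    have h1 := five_mul_mem_Lt hD _ hw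
    have h2 : (((n + 1 : ℕ) : ℤ) - 1) = n := by push_cast; ring
    rw [h2] at h1
    have h3 := (ho n hn).2.1 _ h1
    have h4 : (5 : KG) * w = ((5 : ℕ) : KG) * w := by norm_num
    rw [h4, hv.map_natMul, ← pow_mul] at h3
    exact h3
  have hdvdk : ∀ n, N ≤ n → ∀ k : ℕ, o n ∣ o (n + k) := by
    intro n hn k
    induction k with
    | zero => exact dvd_rfl
    | succ k ih => exact ih.trans (hdvd (n + k) (by omega))
  have hdvd5k : ∀ n, N ≤ n → ∀ k : ℕ, o (n + k) ∣ 5 ^ k * o n := by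
    intro n hn k
    induction k with
    | zero => simp
    | succ k ih =>
      have h1 := hdvd5 (n + k) (by omega)
      have h2 : 5 * o (n + k) ∣ 5 ^ (k + 1) * o n := by
        rw [pow_succ']
        rw [mul_assoc]
        exact mul_dvd_mul_left 5 ih
      exact h1.trans h2
  have hconst : ∀ n, N ≤ n → ∀ w ∈ Lt D ((n + 1 : ℕ) : ℤ), v w ^ o n = 1 := by
    intro n hn
    by_contra hcon
    have hnot : ∀ k : ℕ, ¬ ∀ w ∈ Lt D ((n + 1 + k : ℕ) : ℤ), v w ^ (5 ^ k * o n) = 1 := by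
      intro k hk
      apply hcon
      intro w hw
      have hw' : w ∈ Lt D ((n : ℤ) + 1) := by
        have : ((n + 1 : ℕ) : ℤ) = (n : ℤ) + 1 := by push_cast; ring
        rwa [this] at hw
      obtain ⟨w1, hw1, w2, hw2, rfl⟩ := Lt_pow_decomp hD (n : ℤ) k hw'
      have hw1' : w1 ∈ Lt D ((n + 1 + k : ℕ) : ℤ) := by
        have : ((n + 1 + k : ℕ) : ℤ) = (n : ℤ) + 1 + k := by push_cast; ring
        rwa [this]
      have h1 := hk w1 hw1'
      have h2 := (ho n hn).2.1 w2 hw2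
      have h4 : (5 : KG) ^ k * w1 = ((5 ^ k : ℕ) : KG) * w1 := by push_cast; ring
      rw [hv, h4, hv.map_natMul, mul_pow, ← pow_mul, h1, h2, mul_one]
    have hbig : ∀ k : ℕ, 5 ^ (k + 1) ≤ o (n + 1 + k) := by
      intro k
      obtain ⟨t, ht⟩ := hdvdk n hn (1 + k)
      rw [← add_assoc] at ht
      have h1 : o (n + 1 + k) ∣ 5 ^ (k + 1) * o n := by
        have := hdvd5k n hn (1 + k)
        rwa [← add_assoc, add_comm 1 k] at this
      have hpos : 0 < o n := (ho n hn).1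
      have h2 : t ∣ 5 ^ (k + 1) := by
        rw [ht, mul_comm (o n) t] at h1
        exact Nat.dvd_of_mul_dvd_mul_right hpos h1
      obtain ⟨j, hj, rfl⟩ := (Nat.dvd_prime_pow (by norm_num : Nat.Prime 5)).1 h2
      rcases Nat.lt_or_ge j (k + 1) with hjk | hjk
      · exfalso
        apply hnot k
        intro w hw
        have h3 := (ho (n + 1 + k) (by omega)).2.1 w hw
        have h4 : 5 ^ k * o n = o (n + 1 + k) * 5 ^ (k - j) := by
          rw [ht, mul_assoc, ← pow_add, Nat.add_sub_cancel' (Nat.lt_succ_iff.1 hjk), mul_comm]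
        rw [h4, pow_mul, h3, one_pow]
      · have h5 : j = k + 1 := le_antisymm hj hjk
        rw [ht, h5]
        exact Nat.le_mul_of_pos_left _ hpos
    obtain ⟨k, hk⟩ := ef2_growth2 (C * Real.exp (1 / 5) ^ (n + 1))
    have h1 : o (n + 1 + k) ≤ m (n + 1 + k) :=
      Nat.le_of_dvd (hmξ (n + 1 + k) (by omega)).1
        ((ho (n + 1 + k) (by omega)).2.2 _ (hvm (n + 1 + k) (by omega)))
    have h2 : (m (n + 1 + k) : ℝ) ≤ C * Real.exp (1 / 5) ^ (n + 1 + k) :=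
      (hmξ (n + 1 + k) (by omega)).2.1
    have h3 : (5 : ℝ) ^ (k + 1) ≤ m (n + 1 + k) := by
      exact_mod_cast (hbig k).trans h1
    have h4 : (5 : ℝ) ^ k ≤ 5 ^ (k + 1) := pow_le_pow_right₀ (by norm_num) (by omega)
    rw [pow_add, ← mul_assoc] at h2
    linarith
  -- conclusion
  have hall : ∀ n, N ≤ n → ∀ w ∈ Lt D (n : ℤ), v w ^ o N = 1 := by
    have h1 : ∀ n, N ≤ n → o n = o N := by
      intro n hn
      induction n, hn using Nat.le_induction with
      | base => rfl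
      | succ n hn ih =>
        rw [← ih]
        exact Nat.dvd_antisymm ((ho (n + 1) (by omega)).2.2 _ (hconst n hn)) (hdvd n hn)
    intro n hn w hw
    rw [← h1 n hn]
    exact (ho n hn).2.1 w hw
  refine ⟨o N, (ho N le_rfl).1, ζ, fun k w hw => ?_⟩
  have hw' : w ∈ Lt D ((max k N : ℕ) : ℤ) := Lt_mono (by exact_mod_cast le_max_left k N) hw
  have h1 := hall (max k N) (le_max_right _ _) w hw'
  have h2 : (y w * (el ζ w)⁻¹) ^ o N = 1 := h1
  rw [hy.map_natMul, el_natMul]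
  rw [mul_pow, inv_pow, mul_inv_eq_one] at h2
  exact h2

end Pool.Agent.MP_8b8716_co_HN
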