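import Mathlib
import Pool.Agent.Lib.MP_8b8716_co_HN.NumB

set_option autoImplicit false

/-!
# MP_8b8716_co, project HN: good sets by compactness
-/

noncomputable section

namespace Pool.Agent.MP_8b8716_co_HN

open Complex MeasureTheory Filter Topology Set
open scoped ENNReal

/-- a set which is measurable with respect to the coordinates in `S` does not separate points
with the same coordinates in `S` -/
private theorem goodEx_mem_iff {S : Set KG} {y y' : KG → Circle} (h : ∀ w ∈ S, y w = y' w)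
    {A : Set (KG → Circle)} (hA : MeasurableSet[FS S] A) : y ∈ A ↔ y' ∈ A := by
  let m' : MeasurableSpace (KG → Circle) :=
    { MeasurableSet' := fun B => (y ∈ B ↔ y' ∈ B)
      measurableSet_empty := by simp
      measurableSet_compl := fun B hB => by
        simp only [mem_compl_iff, hB]
      measurableSet_iUnion := fun f hf => by
        simp only [mem_iUnion]
        exact exists_congr hf }
  have hle : FS S ≤ m' := by
    refine iSup₂_le fun w hw => ?_
    rintro B ⟨C, _, rfl⟩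
    change (y w ∈ C ↔ y' w ∈ C)
    rw [h w hw]
  exact hle A hA

private theorem goodEx_FS_le (S : Set KG) :
    FS S ≤ (MeasurableSpace.pi : MeasurableSpace (KG → Circle)) := by
  refine iSup₂_le fun w _ => ?_
  exact (measurable_pi_apply w).comap_le

/-- a sequence of numbers absorbing all the denominators -/
private theorem goodEx_seq (D0 : KG) (hD0 : Ndiv D0) : ∃ e : ℕ → KG, (∀ j, e j ∈ Zi) ∧
    (∀ j, Ndiv (D0 * e j)) ∧ ∀ D, Ndiv D → ∀ᶠ j in atTop, Lt D (-1) ⊆ Lt (D0 * e j) (-1) := by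
  obtain ⟨s, hs⟩ := ({D : KG | Ndiv D}.to_countable).exists_eq_range ⟨1, Ndiv_one⟩
  have hs1 : ∀ n, Ndiv (s n) := fun n => by
    have : s n ∈ {D : KG | Ndiv D} := hs ▸ mem_range_self n
    exact this
  have hprod : ∀ T : Finset ℕ, Ndiv (∏ i ∈ T, s i) := by
    intro T
    classical
    induction T using Finset.induction_on with
    | empty => simpa using Ndiv_one
    | insert a T ha ih =>
      rw [Finset.prod_insert ha]
      exact Ndiv_mul (hs1 a) ih
  refine ⟨fun j => ∏ i ∈ Finset.range j, s i, fun j => (hprod _).1,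
    fun j => Ndiv_mul hD0 (hprod _), fun D hD => ?_⟩
  have hD' : D ∈ {D : KG | Ndiv D} := hD
  rw [hs] at hD'
  obtain ⟨i, rfl⟩ := hD'
  filter_upwards [eventually_gt_atTop i] with j hj
  have hi : i ∈ Finset.range j := Finset.mem_range.2 hj
  have h1 : D0 * ∏ i ∈ Finset.range j, s i =
      s i * (D0 * ∏ x ∈ (Finset.range j).erase i, s x) := by
    rw [← Finset.mul_prod_erase _ _ hi]
    ring
  have h2 : Ndiv (D0 * ∏ x ∈ (Finset.range j).erase i, s x) := Ndiv_mul hD0 (hprod _)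
  rw [h1]
  exact Lt_dvd (Ndiv_mul (hs1 i) h2) h2.1 (-1)

theorem exists_good (ν : Measure (KG → Circle)) [IsFiniteMeasure ν] (hc : ∀ᵐ y ∂ν, IsChar y)
    {D : (KG → Circle) → ℝ≥0∞} (hD : Digit ν D) {Z : Set (KG → Circle)} (hZ : ∀ y ∈ Z, D y = 1)
    (D0 : KG) (hD0 : Ndiv D0) {ε : ℝ≥0∞} (hε : 0 < ε) :
    ∃ e, e ∈ Zi ∧ Ndiv (D0 * e) ∧ ∃ ρ : ℝ, 0 < ρ ∧ ρ ≤ 1 / 10 ∧
      ∃ G, MeasurableSet G ∧ ν (Z \ G) ≤ ε ∧ Good (D0 * e) ρ G := by
  obtain ⟨Θ, hΘm, hΘ⟩ := hD.det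
  have hΘeq : ∀ y y' : KG → Circle, (∀ w ∈ Kn 1, y w = y' w) → Θ y = Θ y' := by
    intro y y' h
    have h1 : MeasurableSet[FS (Kn 1)] (Θ ⁻¹' {Θ y'}) := hΘm (measurableSet_singleton _)
    have h2 := (goodEx_mem_iff h h1).2 (by simp)
    simpa using h2
  have hΘm' : Measurable Θ := hΘm.mono (goodEx_FS_le _) le_rfl
  set S : Set (KG → Circle) := {y | IsChar y ∧ y 1 = Θ y} with hS
  have hSm : MeasurableSet S :=
    measurableSet_isChar.inter (measurableSet_eq_fun (measurable_pi_apply _) hΘm')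
  have hZS : ν (Z \ S) = 0 := by
    have h1 : ∀ᵐ y ∂ν, ¬ (y ∈ Z \ S) := by
      filter_upwards [hc, hΘ] with y h1 h2 h3
      exact h3.2 ⟨h1, h2 (hZ y h3.1)⟩
    simpa using measure_eq_zero_iff_ae_notMem.2 h1
  obtain ⟨G, hGS, hGc, hGε⟩ : ∃ G ⊆ S, IsClosed G ∧ ν (S \ G) < ε :=
    hSm.exists_isClosed_sdiff_lt (measure_ne_top ν S) hε.ne'
  obtain ⟨e, he1, he2, he3⟩ := goodEx_seq D0 hD0
  by_contra hcon
  have hbad : ∀ j : ℕ, ¬ Good (D0 * e j) (1 / (10 * ((j : ℝ) + 1))) G := by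
    intro j hj
    refine hcon ⟨e j, he1 j, he2 j, 1 / (10 * ((j : ℝ) + 1)), by positivity, ?_, G,
      hGc.measurableSet, ?_, hj⟩
    · apply one_div_le_one_div_of_le (by norm_num)
      have : (0 : ℝ) ≤ j := Nat.cast_nonneg j
      linarith
    · calc ν (Z \ G) ≤ ν ((Z \ S) ∪ (S \ G)) := by
            apply measure_mono
            intro y hy
            by_cases hyS : y ∈ S
            · exact Or.inr ⟨hyS, hy.2⟩
            · exact Or.inl ⟨hy.1, hyS⟩
        _ ≤ ν (Z \ S) + ν (S \ G) := measure_union_le _ _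
        _ ≤ ε := by
            rw [hZS, zero_add]
            exact hGε.le
  have hbad' : ∀ j : ℕ, ∃ y ∈ G, ∃ y' ∈ G, IsChar y ∧ IsChar y' ∧
      (∃ ξ : ℂ, ‖ξ‖ ≤ 1 / (10 * ((j : ℝ) + 1)) ∧ ∀ w ∈ Lt (D0 * e j) (-1), (y / y') w = el ξ w) ∧
      ¬ Near (1 / (10 * ((j : ℝ) + 1))) (Lt (D0 * e j) 0) (y / y') := by
    intro j
    have h := hbad j
    unfold Good at h
    push Not at h
    obtain ⟨y, hy, y', hy', h1, h2, h3, h4⟩ := h
    exact ⟨y, hy, y', hy', h1, h2, h3, h4⟩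
  choose y hy y' hy' hch hch' hnear hnot using hbad'
  choose ξ hξ1 hξ2 using hnear
  have hGK : IsCompact G := hGc.isCompact
  obtain ⟨⟨z, z'⟩, ⟨hz, hz'⟩, φ, hφ, hlim⟩ :=
    (hGK.prod hGK).tendsto_subseq (x := fun j => (y j, y' j)) fun j => ⟨hy j, hy' j⟩
  have hφt : Tendsto φ atTop atTop := hφ.tendsto_atTop
  have hlim1 : ∀ w : KG, Tendsto (fun j => y (φ j) w) atTop (𝓝 (z w)) := fun w =>
    (((continuous_apply w).comp continuous_fst).tendsto (z, z')).comp hlim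
  have hlim2 : ∀ w : KG, Tendsto (fun j => y' (φ j) w) atTop (𝓝 (z' w)) := fun w =>
    (((continuous_apply w).comp continuous_snd).tendsto (z, z')).comp hlim
  have hξ0 : Tendsto ξ atTop (𝓝 0) := by
    have h1 : Tendsto (fun j : ℕ => 1 / (10 * ((j : ℝ) + 1))) atTop (𝓝 0) := by
      have h2 := (tendsto_one_div_add_atTop_nhds_zero_nat (𝕜 := ℝ)).const_mul (1 / 10)
      rw [mul_zero] at h2
      refine h2.congr fun j => ?_
      rw [div_mul_div_comm, one_mul]
    exact squeeze_zero_norm hξ1 h1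
  have hel : ∀ w : KG, Tendsto (fun j => el (ξ (φ j)) w) atTop (𝓝 1) := by
    intro w
    have h1 := ((continuous_el_left (w : ℂ)).tendsto 0).comp (hξ0.comp hφt)
    rw [el_zero_left] at h1
    exact h1
  have hzz : ∀ w ∈ Kn 1, z w = z' w := by
    intro w hw
    obtain ⟨D', hD', hwD⟩ := (mem_Kn_one_iff w).1 hw
    have h1 : ∀ᶠ j in atTop, (y (φ j) / y' (φ j)) w = el (ξ (φ j)) w := by
      filter_upwards [hφt.eventually (he3 D' hD')] with j hj
      exact hξ2 _ w (hj hwD)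
    have h2 : Tendsto (fun j => (y (φ j) / y' (φ j)) w) atTop (𝓝 (z w / z' w)) :=
      (hlim1 w).div' (hlim2 w)
    have h3 : z w / z' w = 1 := tendsto_nhds_unique (h2.congr' h1) (hel w)
    exact div_eq_one.1 h3
  have h11 : z 1 = z' 1 :=
    (hGS hz).2.trans ((hΘeq z z' hzz).trans (hGS hz').2.symm)
  -- the characters `u j`
  set u : ℕ → KG → Circle := fun j w => (y j / y' j) w * (el (ξ j) w)⁻¹ with hu
  have huchar : ∀ j, IsChar (u j) := by
    intro j a b
    simp only [hu]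
    rw [(hch j).div (hch' j) a b, Subfield.coe_add, el_add_right, mul_inv]
    exact mul_mul_mul_comm _ _ _ _
  have hu1 : ∀ j, ∀ w ∈ Lt (D0 * e j) (-1), u j w = 1 := by
    intro j w hw
    simp only [hu]
    rw [hξ2 j w hw, mul_inv_cancel]
  have hune : ∀ j, u j 1 ≠ 1 := by
    intro j h1
    apply hnot j
    refine ⟨ξ j, hξ1 j, fun w hw => ?_⟩
    obtain ⟨n, -, hn⟩ := Lt_zero_digit (he2 j) hw
    have h2 : u j w = 1 := by
      have h3 : w = (w - n) + n * 1 := by ring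
      rw [h3, huchar j, hu1 j _ hn, (huchar j).map_natMul, h1]
      simp
    simp only [hu] at h2
    exact (mul_inv_eq_one.1 h2)
  have hu5 : ∀ j, (u j 1) ^ 5 = 1 := by
    intro j
    have h1 : (1 : KG) ∈ Lt (D0 * e j) 0 := by
      refine ⟨D0 * e j, (he2 j).1, ?_⟩
      rw [zpow_zero, mul_one, div_self (Ndiv_ne_zero (he2 j))]
    have h2 := five_mul_mem_Lt (he2 j) 0 h1
    rw [zero_sub] at h2
    have h3 := (huchar j).map_natMul 5 1
    rw [← h3]
    exact hu1 j _ (by simpa using h2)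
  have hgeom : ∀ j, (1 : ℂ) + u j 1 + (u j 1 : ℂ) ^ 2 + (u j 1 : ℂ) ^ 3 + (u j 1 : ℂ) ^ 4 = 0 := by
    intro j
    have h1 : ((u j 1 : Circle) : ℂ) ^ 5 = 1 := by
      rw [← Circle.coe_pow, hu5 j, Circle.coe_one]
    have h2 : ((u j 1 : Circle) : ℂ) - 1 ≠ 0 := by
      intro h3
      apply hune j
      apply Circle.ext
      rw [Circle.coe_one]
      exact sub_eq_zero.1 h3
    have h3 : (((u j 1 : Circle) : ℂ) - 1) * ((1 : ℂ) + u j 1 + (u j 1 : ℂ) ^ 2 +
        (u j 1 : ℂ) ^ 3 + (u j 1 : ℂ) ^ 4) = 0 := by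
      linear_combination h1
    exact (mul_eq_zero.1 h3).resolve_left h2
  have hulim : Tendsto (fun j => u (φ j) 1) atTop (𝓝 1) := by
    have h1 := ((hlim1 1).div' (hlim2 1)).mul (hel 1).inv
    rw [h11, div_self', inv_one, mul_one] at h1
    exact h1
  have hulim' : Tendsto (fun j => ((u (φ j) 1 : Circle) : ℂ)) atTop (𝓝 1) := by
    have h1 := (continuous_subtype_val.tendsto (1 : Circle)).comp hulim
    exact h1
  have h5 : Tendsto (fun j => (1 : ℂ) + u (φ j) 1 + (u (φ j) 1 : ℂ) ^ 2 + (u (φ j) 1 : ℂ) ^ 3 +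
      (u (φ j) 1 : ℂ) ^ 4) atTop (𝓝 (1 + 1 + 1 ^ 2 + 1 ^ 3 + 1 ^ 4)) :=
    (((tendsto_const_nhds.add hulim').add (hulim'.pow 2)).add (hulim'.pow 3)).add (hulim'.pow 4)
  have h6 : Tendsto (fun _ : ℕ => (0 : ℂ)) atTop (𝓝 (1 + 1 + 1 ^ 2 + 1 ^ 3 + 1 ^ 4)) :=
    h5.congr fun j => hgeom (φ j)
  have h7 := tendsto_nhds_unique h6 tendsto_const_nhds
  norm_num at h7

end Pool.Agent.MP_8b8716_co_HN
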