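import Pool.Agent.Lib.MP_8b8716_co_HN.MaxErg
import Pool.Agent.Lib.MP_8b8716_co_HN.NumB
import Pool.Agent.Lib.MP_8b8716_co_HN.GoodEx
import Pool.Agent.Lib.MP_8b8716_co_HN.BallLow
import Pool.Agent.Lib.MP_8b8716_co_HN.Ef1
import Pool.Agent.Lib.MP_8b8716_co_HN.Ef2

set_option autoImplicit false

/-!
# MP_8b8716_co, project HN, module Stage2: the part of zero entropy is in `AA`
-/

noncomputable section

namespace Pool.Agent.MP_8b8716_co_HN

open Complex MeasureTheory Filter Topology Set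
open scoped ENNReal

private theorem s2_FS_le (S : Set KG) :
    FS S ≤ (MeasurableSpace.pi : MeasurableSpace (KG → Circle)) := by
  refine iSup₂_le fun w _ => ?_
  exact (measurable_pi_apply w).comap_le

private theorem s2_iter (k : ℕ) (y : KG → Circle) : (mulAct th)^[k] y = mulAct (th ^ k) y := by
  induction k with
  | zero => simp [mulAct_one]
  | succ k ih =>
    rw [Function.iterate_succ_apply', ih, mulAct_mulAct]
    congr 1
    rw [pow_succ]
    ring

/-- heavy balls give the conclusion -/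
private theorem s2_point (ν : Measure (KG → Circle)) [IsFiniteMeasure ν] (hI : Inv KG ν) {D : KG}
    (hD : Ndiv D) {ρ : ℝ} (hρ : 0 < ρ) (hρ1 : ρ ≤ 1 / 10) {y : KG → Circle} (hy : IsChar y)
    (h : ∀ᶠ n : ℕ in atTop, ENNReal.ofReal (Real.exp (-(1 / 20 * n))) ≤ ν (Ball D n ρ y)) :
    ∃ m : ℕ, 0 < m ∧ ∃ ξ : ℂ, ∀ k : ℕ, ∀ w ∈ Lt D k, y (m * w) = el (m * ξ) w := by
  set V : ℝ := (ν univ).toReal with hV
  have hV0 : 0 ≤ V := ENNReal.toReal_nonneg
  refine ef2 hD hy (C := 2 * (V + 2) ^ 2) (κ := 1 / 10) (by norm_num) ?_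
  filter_upwards [h] with n hn
  set t : ℝ := Real.exp (1 / 20 * n) with ht
  have ht1 : 1 ≤ t := by
    rw [ht]
    exact Real.one_le_exp (by positivity)
  have htt : Real.exp (1 / 10 * n) = t ^ 2 := by
    rw [ht, ← Real.exp_nat_mul]
    congr 1
    push_cast
    ring
  have hti : Real.exp (-(1 / 20 * n)) = t⁻¹ := by
    rw [ht, Real.exp_neg]
  set A : ℕ := ⌈V * t⌉₊ + 1 with hA
  have hA1 : V * t < A := by
    rw [hA]
    push_cast
    have := Nat.le_ceil (V * t)
    linarith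
  have hA2 : (A : ℝ) ≤ (V + 2) * t := by
    rw [hA]
    push_cast
    have := (Nat.ceil_lt_add_one (mul_nonneg hV0 (by linarith : (0:ℝ) ≤ t))).le
    nlinarith
  have hball : ν univ < A * ν (Ball D n ρ y) := by
    have h1 : ν univ = ENNReal.ofReal V := (ENNReal.ofReal_toReal (measure_ne_top ν _)).symm
    have h2 : V < A * t⁻¹ := by
      rw [← div_eq_mul_inv, lt_div_iff₀ (by linarith)]
      exact hA1
    have h3 : ENNReal.ofReal V < ENNReal.ofReal (A * t⁻¹) :=
      (ENNReal.ofReal_lt_ofReal_iff (lt_of_le_of_lt hV0 h2)).2 h2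
    rw [h1]
    refine h3.trans_le ?_
    rw [ENNReal.ofReal_mul (by positivity), ENNReal.ofReal_natCast]
    rw [← hti]
    gcongr
  obtain ⟨m, hm0, hm, ξ, hξ, hw⟩ := ef1 ν hI hD hρ.le hy hball
  refine ⟨m, hm0, ?_, ξ, ?_, hw⟩
  · rw [htt]
    have h1 : (m : ℝ) ≤ 2 * A := by exact_mod_cast hm
    have h2 : (V + 2) * t ≤ (V + 2) ^ 2 * t ^ 2 := by
      have h3 : 1 ≤ (V + 2) * t := by nlinarith
      nlinarith
    nlinarith
  · rw [htt]
    refine hξ.trans ?_
    have hA0 : (0:ℝ) ≤ A := by positivity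
    have h1 : (A : ℝ) ^ 2 ≤ ((V + 2) * t) ^ 2 := by gcongr
    have h3 : 1 ≤ ((V + 2) * t) ^ 2 := by
      have h4 : 1 ≤ (V + 2) * t := by nlinarith
      nlinarith
    have h5 : 2 * ρ * ((A : ℝ) ^ 2 + 1) ≤ 1 * ((A : ℝ) ^ 2 + 1) := by
      gcongr
      linarith
    calc 2 * ρ * ((A : ℝ) ^ 2 + 1) ≤ 1 * ((A : ℝ) ^ 2 + 1) := h5
      _ ≤ 2 * ((V + 2) * t) ^ 2 := by linarith
      _ = 2 * (V + 2) ^ 2 * t ^ 2 := by ring

theorem stage2 (ν : Measure (KG → Circle)) [IsFiniteMeasure ν] (hc : ∀ᵐ y ∂ν, IsChar y)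
    (hI : Inv KG ν) {D : (KG → Circle) → ℝ≥0∞} (hD : Digit ν D) :
    ∀ᵐ y ∂ν, (∀ k : ℤ, D (mulAct (th ^ k) y) = 1) → y ∈ AA := by
  classical
  have hDm : Measurable D := hD.meas.mono (s2_FS_le K0) le_rfl
  set Z : Set (KG → Circle) := {y | ∀ k : ℤ, D (mulAct (th ^ k) y) = 1} with hZdef
  have hZm : MeasurableSet Z := by
    have h : Z = ⋂ k : ℤ, {y | D (mulAct (th ^ k) y) = 1} := by
      ext y
      simp [hZdef]
    rw [h]
    exact MeasurableSet.iInter fun k =>
      (hDm.comp (measurable_mulAct (th ^ k))) (measurableSet_singleton 1)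
  have hZ1 : ∀ y ∈ Z, D y = 1 := by
    intro y hy
    have := hy 0
    rwa [zpow_zero, mulAct_one] at this
  have hZinv : ∀ y ∈ Z, ∀ k : ℕ, mulAct (th ^ k) y ∈ Z := by
    intro y hy k j
    rw [mulAct_mulAct, ← zpow_natCast, ← zpow_add₀ th_ne_zero]
    exact hy _
  -- it is enough to treat one `D0`
  have key : ∀ D0 : KG, ∀ᵐ y ∂ν, y ∈ Z → Ndiv D0 → ∃ m : ℕ, 0 < m ∧ ∃ ξ : ℂ, ∀ k : ℕ,
      ∀ w ∈ Lt D0 k, y (m * w) = el (m * ξ) w := by
    intro D0
    by_cases hD0 : Ndiv D0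
    swap
    · exact Eventually.of_forall fun y _ h => absurd h hD0
    obtain ⟨α, hα, hball⟩ := ball_low (η := 1 / 20) (by norm_num)
    rw [ae_iff]
    refine le_antisymm ?_ bot_le
    refine ENNReal.le_of_forall_pos_le_add fun ε hε _ => ?_
    rw [zero_add]
    have hα0 : ENNReal.ofReal α ≠ 0 := by
      rw [Ne, ENNReal.ofReal_eq_zero, not_le]
      exact hα
    have hε' : (0 : ℝ≥0∞) < ε * ENNReal.ofReal α :=
      ENNReal.mul_pos (by exact_mod_cast hε.ne') hα0
    obtain ⟨e, he, hN, ρ, hρ, hρ1, G, hGm, hGν, hG⟩ := exists_good ν hc hD hZ1 D0 hD0 hε'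
    have hT : MeasurePreserving (mulAct th : (KG → Circle) → KG → Circle) ν ν := hI th norm_th
    have hmax := max_erg ν hT (hZm.diff hGm) hα
    have hle : ν (Z \ G) / ENNReal.ofReal α ≤ ε := by
      refine ENNReal.div_le_of_le_mul ?_
      exact hGν
    refine le_trans ?_ (hmax.trans hle)
    have hb := hball ν inferInstance hc (D0 * e) hN ρ hρ hρ1 G hG
    refine measure_mono_ae ?_
    filter_upwards [hc, hb] with y hy hyb
    intro hyn
    by_contra hcon
    refine hyn ?_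
    intro hyZ _
    have hbad : ∀ n : ℕ, 0 < n → (bad G n y : ℝ) ≤ α * n := by
      intro n hn
      have h1 : ¬ (α * n < (((Finset.range n).filter fun k => (mulAct th)^[k] y ∈ Z \ G).card : ℝ)) :=
        fun h => hcon ⟨n, hn, by convert h⟩
      rw [not_lt] at h1
      refine le_trans ?_ h1
      have h2 : bad G n y = ((Finset.range n).filter fun k => (mulAct th)^[k] y ∈ Z \ G).card := by
        unfold bad
        refine congrArg Finset.card (Finset.filter_congr fun k _ => ?_)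
        rw [s2_iter]
        exact ⟨fun h => ⟨hZinv y hyZ k, h⟩, fun h => h.2⟩
      rw [h2]
    obtain ⟨m, hm, ξ, hξ⟩ := s2_point ν hI hN hρ hρ1 hy (hyb hbad)
    exact ⟨m, hm, ξ, fun k w hw => hξ k w (Lt_dvd hN he k hw)⟩
  have key2 := ae_all_iff.2 key
  filter_upwards [key2] with y hy hyZ
  intro D0 hD0
  exact hy D0 hyZ hD0

end Pool.Agent.MP_8b8716_co_HN
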