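import Mathlib
import Pool.Agent.Lib.MP_8b8716_co_HN.DigitEx
import Pool.Agent.Lib.MP_8b8716_co_HN.HostB
import Pool.Agent.Lib.MP_8b8716_co_HN.Rec
import Pool.Agent.Lib.MP_8b8716_co_HN.Stage2

set_option autoImplicit false

/-!
# MP_8b8716_co, project HN: the seed theorem
-/

noncomputable section

namespace Pool.Agent.MP_8b8716_co_HN

open Complex MeasureTheory Filter Topology Set
open scoped ENNReal

theorem FS_le_pi (S : Set KG) : FS S ≤ MeasurableSpace.pi :=
  iSup₂_le fun w _ => (measurable_pi_apply w).comap_le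

theorem seed (ν : Measure (KG → Circle)) [IsFiniteMeasure ν] (hc : ∀ᵐ y ∂ν, IsChar y)
    (hI : Inv KG ν) (hA : ν AA = 0) : ∫ y, (y 1 : ℂ) ∂ν = 0 := by
  obtain ⟨D, hD⟩ := exists_digitFn ν hc
  have hm : Measurable D := hD.meas.mono (FS_le_pi K0) le_rfl
  refine host ν hc hI hD ?_
  filter_upwards [recur ν hI hm hD.le_one, stage2 ν hc hI hD,
    measure_eq_zero_iff_ae_notMem.1 hA] with y h1 h2 h3
  rcases h1 with h1 | h1
  · exact absurd (h2 h1) h3
  · exact h1

end Pool.Agent.MP_8b8716_co_HN
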