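import Mathlib
import Pool.Agent.Lib.MP_8b8716_co_HN.Basic
import Pool.Agent.Lib.MP_8b8716_co_HN.NumC

set_option autoImplicit false

/-!
# MP_8b8716_co, project HN: no torsion part
-/

noncomputable section

namespace Pool.Agent.MP_8b8716_co_HN

open Complex MeasureTheory Filter Topology Set
open scoped ENNReal

namespace Tor

variable {E : Subfield ℂ}

/-- on the ring `Z[i][1 / (2 - i)]` the restriction of `x` to the line of `z` is continuous -/
def NN (hK : KG ≤ E) (x : E → Circle) (z : E) : Prop :=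
  ∃ ξ : ℂ, ∀ k : ℕ, ∀ w ∈ Lt 1 k, line hK z x w = el ξ w

/-- the same, up to torsion prime to `l` -/
def NL (l : ℕ) (hK : KG ≤ E) (x : E → Circle) (z : E) : Prop :=
  ∃ m : ℕ, ¬ l ∣ m ∧ NN hK x (m * z)

theorem line_natMul (hK : KG ≤ E) (x : E → Circle) (m : ℕ) (z : E) (w : KG) :
    line hK (m * z) x w = line hK z x (m * w) := by
  simp only [line]
  congr 1
  apply Subtype.ext
  simp only [Subfield.coe_mul, SubringClass.coe_natCast]
  ring

theorem NN.add {hK : KG ≤ E} {x : E → Circle} (hx : IsChar x) {z z' : E} (h : NN hK x z)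
    (h' : NN hK x z') : NN hK x (z + z') := by
  obtain ⟨ξ, h1⟩ := h
  obtain ⟨ξ', h1'⟩ := h'
  refine ⟨ξ + ξ', fun k w hw => ?_⟩
  rw [line_add hK z z' hx, Pi.mul_apply, h1 k w hw, h1' k w hw, el_add_left]

theorem NN.zero {hK : KG ≤ E} {x : E → Circle} (hx : IsChar x) : NN hK x 0 := by
  refine ⟨0, fun k w _ => ?_⟩
  rw [el_zero_left]
  simp only [line, zero_mul]
  exact hx.map_zero

theorem NN.neg {hK : KG ≤ E} {x : E → Circle} (hx : IsChar x) {z : E} (h : NN hK x z) :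
    NN hK x (-z) := by
  obtain ⟨ξ, h1⟩ := h
  refine ⟨-ξ, fun k w hw => ?_⟩
  rw [el_neg_left, ← h1 k w hw]
  simp only [line, neg_mul]
  exact hx.map_neg _

theorem NN.nat {hK : KG ≤ E} {x : E → Circle} (hx : IsChar x) {z : E} (h : NN hK x z) (m : ℕ) :
    NN hK x (m * z) := by
  induction m with
  | zero => simpa using NN.zero hx
  | succ m ih =>
    have h1 : ((m + 1 : ℕ) : E) * z = m * z + z := by push_cast; ring
    rw [h1]
    exact ih.add hx h

theorem NN.int {hK : KG ≤ E} {x : E → Circle} (hx : IsChar x) {z : E} (h : NN hK x z) (m : ℤ) :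
    NN hK x (m * z) := by
  obtain ⟨n, rfl | rfl⟩ := m.eq_nat_or_neg
  · rw [Int.cast_natCast]
    exact h.nat hx n
  · have h1 : ((-(n : ℤ) : ℤ) : E) * z = -(n * z) := by push_cast; ring
    rw [h1]
    exact (h.nat hx n).neg hx

section
variable {l : ℕ} (hl : l.Prime) {hK : KG ≤ E} {x : E → Circle} (hx : IsChar x)

include hl hx

theorem NL.add {z z' : E} (h : NL l hK x z) (h' : NL l hK x z') : NL l hK x (z + z') := by
  obtain ⟨m, hm, h1⟩ := h
  obtain ⟨m', hm', h1'⟩ := h'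
  refine ⟨m * m', ?_, ?_⟩
  · rw [hl.dvd_mul]
    exact not_or.2 ⟨hm, hm'⟩
  · have h2 : ((m * m' : ℕ) : E) * (z + z') = m' * (m * z) + m * (m' * z') := by
      push_cast; ring
    rw [h2]
    exact (h1.nat hx m').add hx (h1'.nat hx m)

theorem NL.frac {z z' : E} {a : ℤ} {b : ℕ} (hb : ¬ l ∣ b) (h : (b : E) * z' = a * z)
    (h1 : NL l hK x z) : NL l hK x z' := by
  obtain ⟨m, hm, h2⟩ := h1
  refine ⟨m * b, ?_, ?_⟩
  · rw [hl.dvd_mul]
    exact not_or.2 ⟨hm, hb⟩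
  · have h3 : ((m * b : ℕ) : E) * z' = a * (m * z) := by
      push_cast
      rw [mul_assoc, h]
      ring
    rw [h3]
    exact h2.int hx a

theorem NL.neg {z : E} (h : NL l hK x z) : NL l hK x (-z) := by
  refine NL.frac hl hx (a := -1) (b := 1) ?_ ?_ h
  · intro h1
    exact hl.one_lt.ne' (Nat.dvd_one.1 h1)
  · push_cast; ring

/-- monotonicity in the exponent -/
theorem NL.mono {z : E} {i j : ℤ} (hij : i ≤ j) (h : NL l hK x ((l : E) ^ i * z)) :
    NL l hK x ((l : E) ^ j * z) := by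
  obtain ⟨n, rfl⟩ := Int.le.dest hij
  refine NL.frac hl hx (a := ((l ^ n : ℕ) : ℤ)) (b := 1) ?_ ?_ h
  · intro h1
    exact hl.one_lt.ne' (Nat.dvd_one.1 h1)
  · have hl0 : (l : E) ≠ 0 := Nat.cast_ne_zero.2 hl.ne_zero
    rw [zpow_add₀ hl0, zpow_natCast]
    push_cast
    ring

end

/-- combinatorics of the exponents along the orbit -/
theorem seq_step (Q : ℤ → ℕ → Prop) (v : ℤ) (hv : 1 ≤ v)
    (hm : ∀ n i j, i ≤ j → Q i n → Q j n)
    (ha : ∀ i n, Q i n → Q i (n + 2) → Q (i - v) (n + 1))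
    (hex : ∀ n, ∃ i, Q i n) (h0 : ∀ i, Q i 1 → Q i 0) (j : ℤ) (hj : ¬ Q j 1) :
    ∀ n : ℕ, ¬ Q (j + n) (n + 1) := by
  have key : ∀ n : ℕ, (∀ i, Q i (n + 1) → Q i n) ∧ ¬ Q (j + n) (n + 1) := by
    intro n
    induction n with
    | zero => exact ⟨by simpa using h0, by simpa using hj⟩
    | succ n ih =>
      obtain ⟨ih1, ih2⟩ := ih
      -- the least exponent
      obtain ⟨i0, hi0, hi0'⟩ : ∃ i0 : ℤ, Q i0 (n + 1) ∧ ∀ i, Q i (n + 1) → i0 ≤ i := by
        obtain ⟨i1, hi1⟩ := hex (n + 1)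
        obtain ⟨i0, h1, h2⟩ := Int.exists_least_of_bdd (P := fun i => Q i (n + 1))
          ⟨j + n, fun i hi => by
            by_contra hc
            exact ih2 (hm _ _ _ (not_le.1 hc).le hi)⟩ ⟨i1, hi1⟩
        exact ⟨i0, h1, h2⟩
      have hlt : j + n < i0 := by
        by_contra hc
        exact ih2 (hm _ _ _ (not_lt.1 hc) hi0)
      have hstep : ∀ i, Q i (n + 2) → i0 + v ≤ i := by
        intro i hi
        by_cases hc : i0 ≤ i
        · have h1 : Q i n := hm _ _ _ hc (ih1 i0 hi0)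
          have h2 := hi0' _ (ha i n h1 hi)
          linarith
        · exfalso
          have h1 : Q i0 n := ih1 i0 hi0
          have h2 := hi0' _ (ha i0 n h1 (hm _ _ _ (not_le.1 hc).le hi))
          linarith
      refine ⟨fun i hi => ?_, fun hc => ?_⟩
      · have := hstep i hi
        exact hm _ _ _ (by linarith) hi0
      · have h1 := hstep _ hc
        push_cast at h1
        linarith
  exact fun n => (key n).2

theorem measurable_NN (hK : KG ≤ E) (hct : Countable E) (z : E) :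
    MeasurableSet {x : E → Circle | NN hK x z} := by
  have h1 : {x : E → Circle | NN hK x z} =
      ⋃ R : ℕ, {x | ∃ ξ : ℂ, ‖ξ‖ ≤ R ∧ ∀ k : ℕ, ∀ w ∈ Lt 1 k, line hK z x w = el ξ w} := by
    ext x
    simp only [mem_setOf_eq, mem_iUnion]
    constructor
    · rintro ⟨ξ, h⟩
      obtain ⟨R, hR⟩ := exists_nat_ge ‖ξ‖
      exact ⟨R, ξ, hR, h⟩
    · rintro ⟨R, ξ, _, h⟩
      exact ⟨ξ, h⟩
  rw [h1]
  refine MeasurableSet.iUnion fun R => IsClosed.measurableSet (NumC.isClosed_proj _ _ ?_)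
  have h2 : {p : (E → Circle) × ℂ | ∀ k : ℕ, ∀ w ∈ Lt 1 k, line hK z p.1 w = el p.2 w} =
      ⋂ k : ℕ, ⋂ w ∈ Lt 1 k, {p : (E → Circle) × ℂ | p.1 (z * ⟨w, hK w.2⟩) = el p.2 w} := by
    ext p
    simp [line]
  rw [h2]
  refine isClosed_iInter fun k => isClosed_biInter fun w _ => isClosed_eq ?_ ?_
  · exact (continuous_apply _).comp continuous_fst
  · exact (continuous_el_left w).comp continuous_snd

theorem measurable_NL (l : ℕ) (hK : KG ≤ E) (hct : Countable E) (z : E) :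
    MeasurableSet {x : E → Circle | NL l hK x z} := by
  have h1 : {x : E → Circle | NL l hK x z} =
      ⋃ m : ℕ, ⋃ _ : ¬ l ∣ m, {x | NN hK x (m * z)} := by
    ext x
    simp [NL]
  rw [h1]
  exact MeasurableSet.iUnion fun m => MeasurableSet.iUnion fun _ => measurable_NN hK hct _

/-- the exceptional sets -/
def BB (l : ℕ) (hK : KG ≤ E) (j : ℤ) (z : E) : Set (E → Circle) :=
  {x | IsChar x ∧ ¬ NL l hK x ((l : E) ^ j * z)}

theorem measurable_BB (l : ℕ) (hK : KG ≤ E) (hct : Countable E) (j : ℤ) (z : E) :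
    MeasurableSet (BB l hK j z) :=
  measurableSet_isChar.inter (measurable_NL l hK hct _).compl

theorem measure_BB_le (l : ℕ) (hK : KG ≤ E) (hct : Countable E) {σ : Measure (E → Circle)}
    (hI : Inv E σ) (j : ℤ) (z : E) {c : E} (hc : ‖(c : ℂ)‖ = 1) :
    σ (BB l hK j (c * z)) ≤ σ (BB l hK j z) := by
  rw [← (hI c hc).measure_preimage (measurable_BB l hK hct j z).nullMeasurableSet]
  refine measure_mono ?_
  rintro x ⟨h1, h2⟩
  refine ⟨h1.mulAct c, fun h3 => h2 ?_⟩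
  obtain ⟨m, hm, ξ, h4⟩ := h3
  refine ⟨m, hm, ξ, fun k w hw => ?_⟩
  have h5 := h4 k w hw
  rw [line_mulAct] at h5
  rw [← h5]
  congr 1
  ring

/-- numerator and denominator of a rational number of negative valuation -/
theorem exists_num {l : ℕ} (hl : l.Prime) {τ : ℚ} (h : padicValRat l τ < 0) :
    ∃ v : ℤ, 1 ≤ v ∧ ∃ (a : ℤ) (b : ℕ), ¬ l ∣ b ∧ (b : ℚ) = a * τ * (l : ℚ) ^ v := by
  have : Fact l.Prime := ⟨hl⟩
  have hl0 : (l : ℚ) ≠ 0 := Nat.cast_ne_zero.2 hl.ne_zero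
  have hτ : τ ≠ 0 := by
    rintro rfl
    simp at h
  set v : ℤ := -padicValRat l τ with hv
  set r : ℚ := τ * (l : ℚ) ^ v with hr
  have hr0 : r ≠ 0 := mul_ne_zero hτ (zpow_ne_zero _ hl0)
  have hr1 : padicValRat l r = 0 := by
    rw [hr, padicValRat.mul hτ (zpow_ne_zero _ hl0), padicValRat.zpow,
      padicValRat.self hl.one_lt, hv]
    ring
  have hnum : ¬ (l : ℤ) ∣ r.num := by
    intro h1
    have h2 : ¬ l ∣ r.den := by
      intro h3
      have h4 : l ∣ r.num.natAbs := Int.natCast_dvd.1 h1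
      have h5 := Nat.dvd_gcd h4 h3
      rw [r.reduced] at h5
      exact hl.one_lt.ne' (Nat.dvd_one.1 h5)
    have h6 : padicValNat l r.den = 0 := padicValNat.eq_zero_of_not_dvd h2
    have h7 : 1 ≤ padicValInt l r.num := by
      have h8 : l ∣ r.num.natAbs := Int.natCast_dvd.1 h1
      exact one_le_padicValNat_of_dvd (Int.natAbs_ne_zero.2 (Rat.num_ne_zero.2 hr0)) h8
    have h9 : padicValRat l r = padicValInt l r.num - padicValNat l r.den := rfl
    rw [h9, h6] at hr1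
    omega
  refine ⟨v, by omega, r.num.sign * r.den, r.num.natAbs, fun h1 => hnum (Int.natCast_dvd.2 h1), ?_⟩
  have h10 : (r.num.natAbs : ℚ) = r.num.sign * r.num := by
    rw [← Int.cast_natCast, ← Int.cast_mul, Int.sign_mul_self]
  have h11 : (r.den : ℚ) * r = r.num := by
    rw [mul_comm]
    exact Rat.mul_den_eq_num r
  rw [h10, ← h11, hr]
  push_cast
  ring

/-- one prime number -/
theorem tor_prime' (hK : KG ≤ E) (hct : Countable E) (σ : Measure (E → Circle))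
    [IsFiniteMeasure σ] (hc : ∀ᵐ x ∂σ, IsChar x) (hI : Inv E σ) {l : ℕ} (hl : l.Prime)
    (ht : ∃ (q : ℚ) (y : ℝ), (y : ℂ) ∈ E ∧ (q : ℝ) ^ 2 + y ^ 2 = 1 ∧ padicValRat l (2 * q) < 0)
    (hA : ∀ᵐ x ∂σ, ∀ z : E, ∃ m : ℕ, 0 < m ∧ ∃ ξ : ℂ, ∀ k : ℕ, ∀ w ∈ Lt 1 k,
      line hK z x (m * w) = el (m * ξ) w) :
    ∀ᵐ x ∂σ, ∀ z : E, NL l hK x z := by
  obtain ⟨q, y, hy, hqy, hq⟩ := ht
  have hIE : I ∈ E := hK ⟨0, 1, by simp⟩
  have hl0 : (l : E) ≠ 0 := Nat.cast_ne_zero.2 hl.ne_zero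
  -- the rotation
  set c : E := (q : E) + ⟨I, hIE⟩ * ⟨y, hy⟩ with hcdef
  set c' : E := (q : E) - ⟨I, hIE⟩ * ⟨y, hy⟩ with hcdef'
  have hcc : (c : ℂ) = ((q : ℝ) : ℂ) + (y : ℂ) * I := by
    rw [hcdef]
    push_cast
    ring
  have hnorm : ‖(c : ℂ)‖ = 1 := by
    rw [hcc, Complex.norm_add_mul_I, hqy, Real.sqrt_one]
  have hc1 : c * c' = 1 := by
    apply Subtype.ext
    rw [hcdef, hcdef']
    push_cast
    have h1 : ((q : ℂ)) ^ 2 + (y : ℂ) ^ 2 = 1 := by exact_mod_cast hqy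
    linear_combination h1 - (y : ℂ) ^ 2 * I_mul_I
  have hc0 : c ≠ 0 := left_ne_zero_of_mul_eq_one hc1
  have hcinv : c⁻¹ = c' := inv_eq_of_mul_eq_one_right hc1
  have hτ : c⁻¹ + c = ((2 * q : ℚ) : E) := by
    rw [hcinv, hcdef, hcdef']
    push_cast
    ring
  obtain ⟨v, hv, a, b, hb, hab⟩ := exists_num hl hq
  have hab' : (b : E) = a * ((2 * q : ℚ) : E) * (l : E) ^ v := by
    have h1 : ((b : ℚ) : E) = ((a * (2 * q) * (l : ℚ) ^ v : ℚ) : E) := by rw [hab]
    push_cast at h1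
    rw [h1]
    push_cast
    ring
  -- the recursion
  have hrec : ∀ x : E → Circle, IsChar x → ∀ (i n : ℤ) (z : E),
      NL l hK x ((l : E) ^ i * (c ^ (n - 1) * z)) → NL l hK x ((l : E) ^ i * (c ^ (n + 1) * z)) →
      NL l hK x ((l : E) ^ (i - v) * (c ^ n * z)) := by
    intro x hx i n z h1 h2
    have h3 := NL.add hl hx h1 h2
    refine NL.frac hl hx (a := a) (b := b) hb ?_ h3
    have h4 : (l : E) ^ i * (c ^ (n - 1) * z) + (l : E) ^ i * (c ^ (n + 1) * z) =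
        ((2 * q : ℚ) : E) * ((l : E) ^ i * (c ^ n * z)) := by
      rw [← hτ, zpow_sub_one₀ hc0, zpow_add_one₀ hc0]
      ring
    rw [h4, hab', zpow_sub₀ hl0]
    have h5 : (l : E) ^ v ≠ 0 := zpow_ne_zero _ hl0
    field_simp
  -- finiteness of the exponents
  have hfin : ∀ x : E → Circle, (∀ z : E, ∃ m : ℕ, 0 < m ∧ ∃ ξ : ℂ, ∀ k : ℕ, ∀ w ∈ Lt 1 k,
      line hK z x (m * w) = el (m * ξ) w) → ∀ z : E, ∃ s : ℕ, NL l hK x ((l : E) ^ (s : ℤ) * z) := by
    intro x hx z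
    obtain ⟨m, hm, ξ, h1⟩ := hx z
    obtain ⟨s, m', hm', h2⟩ := Nat.exists_eq_pow_mul_and_not_dvd hm.ne' l hl.ne_one
    refine ⟨s, m', hm', m * ξ, fun k w hw => ?_⟩
    rw [← h1 k w hw]
    have h3 : (m' : E) * ((l : E) ^ (s : ℤ) * z) = m * z := by
      rw [h2, zpow_natCast]
      push_cast
      ring
    rw [h3, line_natMul]
  -- the dichotomy
  have hdich : ∀ x : E → Circle, IsChar x → (∀ z : E, ∃ m : ℕ, 0 < m ∧ ∃ ξ : ℂ, ∀ k : ℕ,
      ∀ w ∈ Lt 1 k, line hK z x (m * w) = el (m * ξ) w) → ∀ (j : ℤ) (z : E),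
      ¬ NL l hK x ((l : E) ^ j * z) → ∀ n : ℕ,
      ¬ NL l hK x ((l : E) ^ (j + n) * (c ^ (n : ℤ) * z)) ∨
      ¬ NL l hK x ((l : E) ^ (j + n) * (c ^ (-((n : ℤ) + 1)) * z)) := by
    intro x hx hxA j z hj n
    by_cases hcase : ∀ i : ℤ, NL l hK x ((l : E) ^ i * z) → NL l hK x ((l : E) ^ i * (c⁻¹ * z))
    · left
      have h1 := seq_step (fun i n => NL l hK x ((l : E) ^ i * (c ^ ((n : ℤ) - 1) * z))) v hv
        (fun n i j hij h => NL.mono hl hx hij h)
        (fun i n h1 h2 => by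
          have h3 := hrec x hx i n z h1 (by
            have h4 : ((n + 2 : ℕ) : ℤ) - 1 = n + 1 := by push_cast; ring
            rw [h4] at h2
            exact h2)
          have h4 : ((n + 1 : ℕ) : ℤ) - 1 = n := by push_cast; ring
          show NL l hK x ((l : E) ^ (i - v) * (c ^ (((n + 1 : ℕ) : ℤ) - 1) * z))
          rw [h4]
          exact h3)
        (fun n => by
          obtain ⟨s, hs⟩ := hfin x hxA (c ^ ((n : ℤ) - 1) * z)
          exact ⟨s, hs⟩)
        (fun i h => by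
          have h2 := hcase i (by simpa using h)
          simpa [zpow_neg] using h2)
        j (by simpa using hj) n
      have h4 : ((n + 1 : ℕ) : ℤ) - 1 = n := by push_cast; ring
      rw [h4] at h1
      exact h1
    · right
      push Not at hcase
      obtain ⟨i0, hi0, hi0'⟩ := hcase
      have hcase' : ∀ i : ℤ, NL l hK x ((l : E) ^ i * (c⁻¹ * z)) → NL l hK x ((l : E) ^ i * z) := by
        intro i hi
        have h1 : i0 ≤ i := by
          by_contra h2
          exact hi0' (NL.mono hl hx (not_le.1 h2).le hi)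
        exact NL.mono hl hx h1 hi0
      have h1 := seq_step (fun i n => NL l hK x ((l : E) ^ i * (c ^ (-(n : ℤ)) * z))) v hv
        (fun n i j hij h => NL.mono hl hx hij h)
        (fun i n h1 h2 => by
          have h3 := hrec x hx i (-((n : ℤ) + 1)) z (by
            have h4 : -((n + 2 : ℕ) : ℤ) = -((n : ℤ) + 1) - 1 := by push_cast; ring
            rw [h4] at h2
            exact h2) (by
            have h4 : -(n : ℤ) = -((n : ℤ) + 1) + 1 := by ring
            rw [h4] at h1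
            exact h1)
          have h4 : -((n + 1 : ℕ) : ℤ) = -((n : ℤ) + 1) := by push_cast; ring
          show NL l hK x ((l : E) ^ (i - v) * (c ^ (-((n + 1 : ℕ) : ℤ)) * z))
          rw [h4]
          exact h3)
        (fun n => by
          obtain ⟨s, hs⟩ := hfin x hxA (c ^ (-(n : ℤ)) * z)
          exact ⟨s, hs⟩)
        (fun i h => by
          have h2 := hcase' i (by simpa [zpow_neg] using h)
          simpa using h2)
        j (fun h => hj (hcase' j (by simpa [zpow_neg] using h))) n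
      have h4 : -((n + 1 : ℕ) : ℤ) = -((n : ℤ) + 1) := by push_cast; ring
      rw [h4] at h1
      exact h1
  -- the measures
  have hnormz : ∀ n : ℤ, ‖((c ^ n : E) : ℂ)‖ = 1 := by
    intro n
    have h1 : ((c ^ n : E) : ℂ) = (c : ℂ) ^ n := map_zpow₀ E.subtype c n
    rw [h1, norm_zpow, hnorm, one_zpow]
  have hle : ∀ (j : ℤ) (z : E) (n : ℕ), σ (BB l hK j z) ≤ 2 * σ (BB l hK (j + n) z) := by
    intro j z n
    calc σ (BB l hK j z) ≤ σ (BB l hK (j + n) (c ^ (n : ℤ) * z) ∪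
          BB l hK (j + n) (c ^ (-((n : ℤ) + 1)) * z)) := by
          refine measure_mono_ae ?_
          filter_upwards [hc, hA] with x hx hxA hxB
          rcases hdich x hx hxA j z hxB.2 n with h1 | h1
          · exact Or.inl ⟨hx, h1⟩
          · exact Or.inr ⟨hx, h1⟩
      _ ≤ σ (BB l hK (j + n) (c ^ (n : ℤ) * z)) +
          σ (BB l hK (j + n) (c ^ (-((n : ℤ) + 1)) * z)) := measure_union_le _ _
      _ ≤ σ (BB l hK (j + n) z) + σ (BB l hK (j + n) z) :=
          add_le_add (measure_BB_le l hK hct hI _ _ (hnormz _))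
            (measure_BB_le l hK hct hI _ _ (hnormz _))
      _ = _ := (two_mul _).symm
  have hlim : ∀ (j : ℤ) (z : E), Tendsto (fun n : ℕ => σ (BB l hK (j + n) z)) atTop (𝓝 0) := by
    intro j z
    have h1 := tendsto_measure_iInter_atTop (μ := σ) (s := fun n : ℕ => BB l hK (j + n) z)
      (fun n => (measurable_BB l hK hct _ z).nullMeasurableSet)
      (fun m n hmn x hx => ⟨hx.1, fun h => hx.2 (NL.mono hl hx.1 (by
        have : (m : ℤ) ≤ n := by exact_mod_cast hmn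
        linarith) h)⟩) ⟨0, measure_ne_top _ _⟩
    have h2 : σ (⋂ n : ℕ, BB l hK (j + n) z) = 0 := by
      rw [← nonpos_iff_eq_zero, ← measure_empty (μ := σ)]
      refine measure_mono_ae ?_
      filter_upwards [hc, hA] with x hx hxA hxB
      obtain ⟨s, hs⟩ := hfin x hxA z
      have h3 := mem_iInter.1 hxB (s - j).toNat
      exfalso
      refine h3.2 (NL.mono hl hx ?_ hs)
      have := Int.self_le_toNat (s - j)
      linarith
    rw [h2] at h1
    exact h1
  have hzero : ∀ (z : E), σ (BB l hK 0 z) = 0 := by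
    intro z
    have h1 : Tendsto (fun n : ℕ => 2 * σ (BB l hK (0 + n) z)) atTop (𝓝 (2 * 0)) :=
      ENNReal.Tendsto.const_mul (hlim 0 z) (Or.inr (by simp))
    rw [mul_zero] at h1
    exact nonpos_iff_eq_zero.1 (ge_of_tendsto' h1 fun n => hle 0 z n)
  have hall : ∀ᵐ x ∂σ, ∀ z : E, x ∉ BB l hK 0 z :=
    ae_all_iff.2 fun z => measure_eq_zero_iff_ae_notMem.1 (hzero z)
  filter_upwards [hc, hall] with x hx hxB z
  by_contra h1
  exact hxB z ⟨hx, by simpa using h1⟩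

/-- all prime numbers -/
theorem NN_of_NL {hK : KG ≤ E} {x : E → Circle} (hx : IsChar x) {z : E}
    (h : ∀ l : ℕ, l.Prime → NL l hK x z) : NN hK x z := by
  let H : AddSubgroup ℤ :=
    { carrier := {m | NN hK x (m * z)}
      add_mem' := by
        intro a b ha hb
        have h1 : ((a + b : ℤ) : E) * z = a * z + b * z := by push_cast; ring
        show NN hK x (((a + b : ℤ) : E) * z)
        rw [h1]
        exact NN.add hx ha hb
      zero_mem' := by
        show NN hK x (((0 : ℤ) : E) * z)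
        simpa using NN.zero hx
      neg_mem' := by
        intro a ha
        have h1 : ((-a : ℤ) : E) * z = -(a * z) := by push_cast; ring
        show NN hK x (((-a : ℤ) : E) * z)
        rw [h1]
        exact NN.neg hx ha }
  have hH : ∀ m : ℤ, m ∈ H ↔ NN hK x (m * z) := fun m => Iff.rfl
  obtain ⟨g, hg⟩ := Int.subgroup_cyclic H
  rw [← AddSubgroup.zmultiples_eq_closure] at hg
  have h1 : g.natAbs = 1 := by
    by_contra hne
    obtain ⟨l, hl, hlg⟩ := Nat.exists_prime_and_dvd hne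
    obtain ⟨m, hm, h2⟩ := h l hl
    have h3 : (m : ℤ) ∈ H := by
      rw [hH]
      simpa using h2
    rw [hg, Int.mem_zmultiples_iff] at h3
    exact hm (hlg.trans (by simpa using Int.natAbs_dvd_natAbs.2 h3))
  have h2 : (1 : ℤ) ∈ H := by
    rw [hg, Int.mem_zmultiples_iff]
    exact Int.natAbs_dvd_natAbs.1 (by rw [h1]; simp)
  rw [hH] at h2
  simpa using h2

end Tor

theorem tor_prime {E : Subfield ℂ} (hE : Euc E) (σ : Measure (E → Circle)) [IsFiniteMeasure σ]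
    (hc : ∀ᵐ x ∂σ, IsChar x) (hI : Inv E σ) (l : ℕ) (hl : l.Prime) (ht : PtAt E l)
    (hA : ∀ᵐ x ∂σ, ∀ z : E, ∃ m : ℕ, 0 < m ∧ ∃ ξ : ℂ, ∀ k : ℕ, ∀ w ∈ Lt 1 k,
      line hE.KG_le z x (m * w) = el (m * ξ) w) :
    ∀ᵐ x ∂σ, ∀ z : E, ∃ m : ℕ, ¬ l ∣ m ∧ ∃ ξ : ℂ, ∀ k : ℕ, ∀ w ∈ Lt 1 k,
      line hE.KG_le z x (m * w) = el ξ w := by
  filter_upwards [Tor.tor_prime' hE.KG_le hE.ctb σ hc hI hl ht hA] with x hx z
  obtain ⟨m, hm, ξ, h⟩ := hx z
  refine ⟨m, hm, ξ, fun k w hw => ?_⟩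
  rw [← h k w hw, Tor.line_natMul]

theorem tor {E : Subfield ℂ} (hE : Euc E) (σ : Measure (E → Circle)) [IsFiniteMeasure σ]
    (hc : ∀ᵐ x ∂σ, IsChar x) (hI : Inv E σ) (ht : ∀ l : ℕ, l.Prime → PtAt E l)
    (hA : ∀ᵐ x ∂σ, ∀ z : E, ∃ m : ℕ, 0 < m ∧ ∃ ξ : ℂ, ∀ k : ℕ, ∀ w ∈ Lt 1 k,
      line hE.KG_le z x (m * w) = el (m * ξ) w) :
    ∀ᵐ x ∂σ, ∀ z : E, ∃ ξ : ℂ, ∀ k : ℕ, ∀ w ∈ Lt 1 k, line hE.KG_le z x w = el ξ w := by
  have h1 : ∀ᵐ x ∂σ, ∀ l : Nat.Primes, ∀ z : E, Tor.NL l.1 hE.KG_le x z :=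
    ae_all_iff.2 fun l => Tor.tor_prime' hE.KG_le hE.ctb σ hc hI l.2 (ht l.1 l.2) hA
  filter_upwards [hc, h1] with x hx h2 z
  exact Tor.NN_of_NL hx fun l hl => h2 ⟨l, hl⟩ z

end Pool.Agent.MP_8b8716_co_HN
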