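import Pool.Agent.Lib.MP_8b8716_co_HN.Basic

set_option autoImplicit false

/-!
# MP_8b8716_co, project HN, module VXa: the span of the numbers `(a + N + i) / (a + N - i)`
-/

noncomputable section

namespace Pool.Agent.MP_8b8716_co_HN

open Complex MeasureTheory Filter Topology Set
open scoped ENNReal

/-- the imaginary unit as an element of `KG` -/
private def vxaI : KG := ⟨I, 0, 1, by simp⟩

private theorem vxaI_coe : ((vxaI : KG) : ℂ) = I := rfl

private theorem vxa_lag (t : ℂ) (hint : IsIntegral KG t) (ht : ∀ N : ℕ, t + N ≠ 0)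
    (G : Polynomial KG) (T : Finset ℕ) (hT : (minpoly KG t).natDegree < T.card) :
    ∃ c : ℕ → KG, ∑ N ∈ T, c N = 0 ∧
      Polynomial.aeval t G = ∑ N ∈ T, (c N : ℂ) / (t + N) := by
  classical
  have hp : (minpoly KG t).Monic := minpoly.monic hint
  have hp1 : 1 ≤ (minpoly KG t).natDegree := minpoly.natDegree_pos hint
  let v : ℕ → KG := fun N => -(N : KG)
  have hv : Set.InjOn v T := fun x _ y _ h => by
    have h1 : (x : KG) = (y : KG) := neg_injective h
    exact_mod_cast h1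
  let P : Polynomial KG := ∏ N ∈ T, (Polynomial.X - Polynomial.C (v N))
  let Q : Polynomial KG := (G * P) %ₘ minpoly KG t
  have hQt : Polynomial.aeval t Q = Polynomial.aeval t G * Polynomial.aeval t P := by
    rw [← map_mul]
    exact Polynomial.aeval_modByMonic_eq_self_of_root (minpoly.aeval KG t)
  have hQd : Q.degree < (minpoly KG t).degree := Polynomial.degree_modByMonic_lt _ hp
  have hpd : (minpoly KG t).degree = ((minpoly KG t).natDegree : WithBot ℕ) :=
    Polynomial.degree_eq_natDegree hp.ne_zero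
  rw [hpd] at hQd
  have hQ1 : Q.degree < (T.card : WithBot ℕ) :=
    hQd.trans (by exact_mod_cast hT)
  have hQ2 : Q.coeff (T.card - 1) = 0 := by
    apply Polynomial.coeff_eq_zero_of_degree_lt
    refine hQd.trans_le ?_
    exact_mod_cast (by omega : (minpoly KG t).natDegree ≤ T.card - 1)
  let c : ℕ → KG := fun N => Q.eval (v N) / ∏ j ∈ T.erase N, (v N - v j)
  refine ⟨c, ?_, ?_⟩
  · rw [← hQ2, Lagrange.coeff_eq_sum hv hQ1]
  · have hPt : Polynomial.aeval t P = ∏ N ∈ T, (t + N) := by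
      rw [map_prod]
      refine Finset.prod_congr rfl fun N _ => ?_
      rw [map_sub, Polynomial.aeval_X, Polynomial.aeval_C]
      change t - ((v N : KG) : ℂ) = t + N
      simp [v]
    have hP0 : Polynomial.aeval t P ≠ 0 := by
      rw [hPt]
      exact Finset.prod_ne_zero_iff.2 fun N _ => ht N
    have hL := congrArg (Polynomial.aeval t) (Lagrange.eq_interpolate hv hQ1)
    rw [Lagrange.interpolate_apply, map_sum] at hL
    have hL2 : Polynomial.aeval t Q = ∑ N ∈ T, (c N : ℂ) * ∏ j ∈ T.erase N, (t + j) := by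
      rw [hL]
      refine Finset.sum_congr rfl fun N _ => ?_
      rw [map_mul, Polynomial.aeval_C, Lagrange.basis, map_prod]
      have h1 : ∀ j ∈ T.erase N, Polynomial.aeval t (Lagrange.basisDivisor (v N) (v j)) =
          (((v N - v j : KG) : ℂ))⁻¹ * (t + j) := by
        intro j _
        rw [Lagrange.basisDivisor, map_mul, map_sub, Polynomial.aeval_C, Polynomial.aeval_X,
          Polynomial.aeval_C]
        change ((((v N - v j)⁻¹ : KG) : ℂ)) * (t - ((v j : KG) : ℂ)) = _
        congr 1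
        simp [v]
      rw [Finset.prod_congr rfl h1, Finset.prod_mul_distrib, ← mul_assoc]
      congr 1
      change ((Q.eval (v N) : KG) : ℂ) * _ = ((Q.eval (v N) / ∏ j ∈ T.erase N, (v N - v j) : KG) : ℂ)
      have h2 : ((Q.eval (v N) / ∏ j ∈ T.erase N, (v N - v j) : KG) : ℂ) =
          ((Q.eval (v N) : KG) : ℂ) / ∏ j ∈ T.erase N, ((v N - v j : KG) : ℂ) := by
        rw [Subfield.coe_div]
        congr 1
        exact map_prod KG.subtype _ _
      rw [h2, Finset.prod_inv_distrib, div_eq_mul_inv]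
    rw [hQt] at hL2
    have h3 : Polynomial.aeval t G = (∑ N ∈ T, (c N : ℂ) * ∏ j ∈ T.erase N, (t + j)) /
        Polynomial.aeval t P := by
      rw [← hL2, mul_div_cancel_right₀ _ hP0]
    rw [h3, Finset.sum_div]
    refine Finset.sum_congr rfl fun N hN => ?_
    rw [hPt, ← Finset.mul_prod_erase T _ hN]
    have h4 : ∏ j ∈ T.erase N, (t + (j : ℂ)) ≠ 0 := Finset.prod_ne_zero_iff.2 fun N _ => ht N
    have h5 := ht N
    field_simp

theorem vx_alg {E : Subfield ℂ} (hE : Euc E) (a : ℝ) (ha : (a : ℂ) ∈ E) :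
    ∃ d : ℕ, ∀ V : Set E, (0 : E) ∈ V → (∀ u ∈ V, ∀ v ∈ V, u + v ∈ V) →
      (∀ c : KG, ∀ v ∈ V, (⟨c, hE.KG_le c.2⟩ : E) * v ∈ V) →
      ∀ T : Finset ℕ, d < T.card →
        (∀ N ∈ T, ∀ u : E, (u : ℂ) = ((a : ℂ) + N + I) / ((a : ℂ) + N - I) → u ∈ V) →
        (1 : E) ∈ V ∧ (⟨a, ha⟩ : E) ∈ V := by
  classical
  have htE : (a : ℂ) - I ∈ E := E.sub_mem ha hE.i_mem
  have hint : IsIntegral KG ((a : ℂ) - I) :=
    (hE.alg _ htE).isIntegral.tower_top
  have ht : ∀ N : ℕ, (a : ℂ) - I + N ≠ 0 := by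
    intro N h
    have := congrArg Complex.im h
    simp at this
  refine ⟨(minpoly KG ((a : ℂ) - I)).natDegree, fun V h0 hadd hmul T hT hu => ?_⟩
  have hsum : ∀ (s : Finset ℕ) (f : ℕ → E), (∀ N ∈ s, f N ∈ V) → ∑ N ∈ s, f N ∈ V := by
    intro s f
    induction s using Finset.induction_on with
    | empty => intro _; simpa using h0
    | insert x s hx ih =>
      intro h
      rw [Finset.sum_insert hx]
      exact hadd _ (h _ (Finset.mem_insert_self _ _)) _
        (ih fun N hN => h N (Finset.mem_insert_of_mem hN))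
  have key : ∀ G : Polynomial KG, ∀ g : E, (g : ℂ) = Polynomial.aeval ((a : ℂ) - I) G →
      g ∈ V := by
    intro G g hg
    obtain ⟨c, hc0, hc⟩ := vxa_lag _ hint ht G T hT
    have hmem : ∀ N : ℕ, ((a : ℂ) + N + I) / ((a : ℂ) + N - I) ∈ E := fun N =>
      E.div_mem (E.add_mem (E.add_mem ha (natCast_mem E N)) hE.i_mem)
        (E.sub_mem (E.add_mem ha (natCast_mem E N)) hE.i_mem)
    let u : ℕ → E := fun N => ⟨_, hmem N⟩
    let c' : ℕ → KG := fun N => c N * (2 * vxaI)⁻¹
    have h1 : g = ∑ N ∈ T, (⟨c' N, hE.KG_le (c' N).2⟩ : E) * u N := by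
      apply Subtype.ext
      rw [hg, hc]
      have h2 : ((∑ N ∈ T, (⟨c' N, hE.KG_le (c' N).2⟩ : E) * u N : E) : ℂ) =
          ∑ N ∈ T, (c' N : ℂ) * (((a : ℂ) + N + I) / ((a : ℂ) + N - I)) := by
        exact map_sum E.subtype _ _
      rw [h2]
      have h3 : ∑ N ∈ T, (c N : ℂ) * (2 * I)⁻¹ = 0 := by
        rw [← Finset.sum_mul]
        have h4 : ∑ N ∈ T, (c N : ℂ) = ((∑ N ∈ T, c N : KG) : ℂ) := (map_sum KG.subtype _ _).symm
        rw [h4, hc0]
        simp
      rw [← add_zero (∑ N ∈ T, (c N : ℂ) / ((a : ℂ) - I + N)), ← h3, ← Finset.sum_add_distrib]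
      refine Finset.sum_congr rfl fun N _ => ?_
      have h5 := ht N
      have h6 : (a : ℂ) + N - I ≠ 0 := by
        intro h
        apply h5
        rw [← h]
        ring
      have h7 : ((c' N : KG) : ℂ) = (c N : ℂ) * (2 * I)⁻¹ := by
        have e2 : ((2 : KG) : ℂ) = 2 := map_ofNat KG.subtype 2
        change ((c N * (2 * vxaI)⁻¹ : KG) : ℂ) = _
        rw [Subfield.coe_mul, Subfield.coe_inv, Subfield.coe_mul, vxaI_coe, e2]
      rw [h7, show (a : ℂ) - I + N = (a : ℂ) + N - I by ring]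
      have h8 : (2 * I : ℂ) ≠ 0 := mul_ne_zero two_ne_zero I_ne_zero
      field_simp
      ring
    rw [h1]
    exact hsum _ _ fun N hN => hmul _ _ (hu N hN (u N) rfl)
  refine ⟨key 1 1 (by simp), key (Polynomial.X + Polynomial.C vxaI) _ ?_⟩
  rw [map_add, Polynomial.aeval_X, Polynomial.aeval_C]
  change (a : ℂ) = (a : ℂ) - I + ((vxaI : KG) : ℂ)
  rw [vxaI_coe]
  ring

end Pool.Agent.MP_8b8716_co_HN
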