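import Mathlib
import Pool.Agent.Lib.MP_8b8716_co_HN.Basic
import Pool.Agent.Lib.MP_8b8716_co_HN.VXa
import Pool.Agent.Lib.MP_8b8716_co_HN.AAf

/-!
# MP_8b8716_co, project HN: if one line is in `AA` then all lines are
-/

set_option autoImplicit false

noncomputable section

namespace Pool.Agent.MP_8b8716_co_HN

open Complex MeasureTheory Filter Topology Set
open scoped ENNReal

namespace VXaux

variable {E : Subfield ℂ}

/-- the directions in which `x` is in `AA` -/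
def Vx (hE : KG ≤ E) (x : E → Circle) : Set E := {z | line hE z x ∈ AA}

theorem zero_mem_Vx (hE : KG ≤ E) {x : E → Circle} (hx : IsChar x) : (0 : E) ∈ Vx hE x := by
  have h : line hE 0 x = 1 := by
    funext w
    simp only [line, zero_mul, hx.map_zero, Pi.one_apply]
  show line hE 0 x ∈ AA
  rw [h]
  exact one_mem_AA

theorem add_mem_Vx (hE : KG ≤ E) {x : E → Circle} (hx : IsChar x) {u v : E}
    (hu : u ∈ Vx hE x) (hv : v ∈ Vx hE x) : u + v ∈ Vx hE x := by
  show line hE (u + v) x ∈ AA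
  rw [line_add hE u v hx]
  exact AA_mul hu hv

theorem KG_mem_Vx (hE : KG ≤ E) {x : E → Circle} (c : KG) {v : E} (hv : v ∈ Vx hE x) :
    (⟨c, hE c.2⟩ : E) * v ∈ Vx hE x := by
  show line hE ((⟨c, hE c.2⟩ : E) * v) x ∈ AA
  rw [mul_comm, line_KG_mul]
  exact AA_mulAct hv c

/-- the functions which are in `AA` in the direction `z` -/
def ZZ (hE : KG ≤ E) (z : E) : Set (E → Circle) := {x | line hE z x ∈ AA}

theorem measurableSet_ZZ (hE : KG ≤ E) (z : E) : MeasurableSet (ZZ hE z) :=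
  measurable_line hE z measurableSet_AA

theorem measure_ZZ (hE : KG ≤ E) (σ : Measure (E → Circle)) (hI : Inv E σ) {u : E}
    (hu : ‖(u : ℂ)‖ = 1) : σ (ZZ hE u) = σ (ZZ hE 1) := by
  have h1 : ZZ hE u = mulAct u ⁻¹' ZZ hE 1 := by
    ext x
    simp only [ZZ, mem_ofPred_eq, mem_preimage, line_mulAct, mul_one]
  rw [h1, (hI u hu).measure_preimage (measurableSet_ZZ hE 1).nullMeasurableSet]

theorem norm_quot (a : ℝ) (N : ℕ) : ‖((a : ℂ) + N + I) / ((a : ℂ) + N - I)‖ = 1 := by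
  have h1 : ‖((a : ℂ) + N + I)‖ = ‖((a : ℂ) + N - I)‖ := by
    rw [← Complex.norm_conj ((a : ℂ) + N + I)]
    congr 1
    apply Complex.ext <;> simp
  have h2 : ‖((a : ℂ) + N - I)‖ ≠ 0 := by
    rw [norm_ne_zero_iff]
    intro h3
    have := congrArg Complex.im h3
    simp at this
  rw [norm_div, h1, div_self h2]

theorem le_of_forall_mul {s t M : ℝ≥0∞} (hs : s ≠ ⊤) (ht : t ≠ ⊤) (hM : M ≠ ⊤)
    (h : ∀ J : ℕ, (J : ℝ≥0∞) * s ≤ J * t + M) : s ≤ t := by
  by_contra hlt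
  push Not at hlt
  have hlt' : t.toReal < s.toReal := (ENNReal.toReal_lt_toReal ht hs).2 hlt
  obtain ⟨J, hJ⟩ := exists_nat_gt (M.toReal / (s.toReal - t.toReal))
  have hpos : 0 < s.toReal - t.toReal := by linarith
  rw [div_lt_iff₀ hpos] at hJ
  have h1 := ENNReal.toReal_mono (by finiteness) (h J)
  rw [ENNReal.toReal_add (by finiteness) hM, ENNReal.toReal_mul, ENNReal.toReal_mul,
    ENNReal.toReal_natCast] at h1
  nlinarith

theorem real_step (hE : Euc E) (σ : Measure (E → Circle)) [IsFiniteMeasure σ]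
    (hc : ∀ᵐ x ∂σ, IsChar x) (hI : Inv E σ) (a : ℝ) (ha : (a : ℂ) ∈ E) :
    ∀ᵐ x ∂σ, x ∈ ZZ hE.KG_le 1 → x ∈ ZZ hE.KG_le ⟨a, ha⟩ := by
  classical
  obtain ⟨d, hd⟩ := vx_alg hE a ha
  have hmem : ∀ N : ℕ, ((a : ℂ) + N + I) / ((a : ℂ) + N - I) ∈ E := fun N =>
    E.div_mem (E.add_mem (E.add_mem ha (natCast_mem E N)) hE.i_mem)
      (E.sub_mem (E.add_mem ha (natCast_mem E N)) hE.i_mem)
  set u : ℕ → E := fun N => ⟨_, hmem N⟩ with hu
  set A : Set (E → Circle) := ZZ hE.KG_le 1 ∩ ZZ hE.KG_le ⟨a, ha⟩ with hA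
  have hAm : MeasurableSet A := (measurableSet_ZZ _ _).inter (measurableSet_ZZ _ _)
  have key : ∀ J : ℕ, (J : ℝ≥0∞) * σ (ZZ hE.KG_le 1) ≤ J * σ A + d * σ univ := by
    intro J
    have h1 : (J : ℝ≥0∞) * σ (ZZ hE.KG_le 1) =
        ∫⁻ x, ∑ N ∈ Finset.range J, (ZZ hE.KG_le (u N)).indicator 1 x ∂σ := by
      rw [lintegral_finsetSum]
      · have h2 : ∀ N ∈ Finset.range J, ∫⁻ x, (ZZ hE.KG_le (u N)).indicator 1 x ∂σ =
            σ (ZZ hE.KG_le 1) := by
          intro N _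
          rw [lintegral_indicator_one (measurableSet_ZZ _ _)]
          exact measure_ZZ _ σ hI (norm_quot a N)
        rw [Finset.sum_congr rfl h2, Finset.sum_const, Finset.card_range, nsmul_eq_mul]
      · intro N _
        exact measurable_one.indicator (measurableSet_ZZ _ _)
    have h3 : (J : ℝ≥0∞) * σ A + d * σ univ =
        ∫⁻ x, ((J : ℝ≥0∞) * A.indicator 1 x + d) ∂σ := by
      rw [lintegral_add_right _ measurable_const, lintegral_const,
        lintegral_const_mul _ (measurable_one.indicator hAm), lintegral_indicator_one hAm]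
    rw [h1, h3]
    refine lintegral_mono_ae ?_
    filter_upwards [hc] with x hx
    have h4 : ∑ N ∈ Finset.range J, (ZZ hE.KG_le (u N)).indicator (1 : (E → Circle) → ℝ≥0∞) x =
        (((Finset.range J).filter fun N => x ∈ ZZ hE.KG_le (u N)).card : ℝ≥0∞) := by
      rw [Finset.card_filter]
      push_cast
      refine Finset.sum_congr rfl fun N _ => ?_
      by_cases h5 : x ∈ ZZ hE.KG_le (u N) <;> simp [h5]
    rw [h4]
    by_cases h5 : ((Finset.range J).filter fun N => x ∈ ZZ hE.KG_le (u N)).card ≤ d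
    · exact (Nat.cast_le.2 h5).trans le_add_self
    · push Not at h5
      have h6 := hd (Vx hE.KG_le x) (zero_mem_Vx _ hx)
        (fun v hv w hw => add_mem_Vx _ hx hv hw) (fun c v hv => KG_mem_Vx _ c hv) _ h5 (by
          intro N hN v hv
          have h7 := (Finset.mem_filter.1 hN).2
          have h8 : v = u N := Subtype.ext hv
          rw [h8]
          exact h7)
      have h7 : x ∈ A := ⟨h6.1, h6.2⟩
      rw [indicator_of_mem h7, Pi.one_apply, mul_one]
      refine le_trans ?_ le_self_add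
      refine Nat.cast_le.2 ?_
      exact (Finset.card_filter_le _ _).trans (by simp)
  have hle : σ (ZZ hE.KG_le 1) ≤ σ A :=
    le_of_forall_mul (measure_ne_top _ _) (measure_ne_top _ _) (by finiteness) key
  have h0 : σ (ZZ hE.KG_le 1 \ A) = 0 := by
    rw [measure_sdiff inter_subset_left hAm.nullMeasurableSet (measure_ne_top σ A)]
    exact tsub_eq_zero_of_le hle
  rw [ae_iff]
  refine measure_mono_null ?_ h0
  intro x hx
  simp only [mem_ofPred_eq, Classical.not_imp] at hx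
  exact ⟨hx.1, fun h => hx.2 h.2⟩

end VXaux

open VXaux in
theorem vx {E : Subfield ℂ} (hE : Euc E) (σ : Measure (E → Circle)) [IsFiniteMeasure σ]
    (hc : ∀ᵐ x ∂σ, IsChar x) (hI : Inv E σ) :
    ∀ᵐ x ∂σ, line hE.KG_le 1 x ∈ AA → ∀ z : E, line hE.KG_le z x ∈ AA := by
  have := hE.ctb
  have hall : ∀ᵐ x ∂σ, ∀ e : E, x ∈ ZZ hE.KG_le 1 →
      x ∈ ZZ hE.KG_le ⟨(((e : ℂ).re : ℝ) : ℂ), hE.re_mem e e.2⟩ :=
    ae_all_iff.2 fun e => real_step hE σ hc hI _ _
  filter_upwards [hall, hc] with x h hx h1 z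
  have hIE : I ∈ E := hE.i_mem
  have hIK : I ∈ KG := ⟨0, 1, by simp⟩
  have hr : (⟨(((z : ℂ).re : ℝ) : ℂ), hE.re_mem z z.2⟩ : E) ∈ Vx hE.KG_le x := h z h1
  have hi := h (-(⟨I, hIE⟩ : E) * z) h1
  have hi' := KG_mem_Vx hE.KG_le (⟨I, hIK⟩ : KG) hi
  have hz := add_mem_Vx hE.KG_le hx hr hi'
  have heq : z = ⟨(((z : ℂ).re : ℝ) : ℂ), hE.re_mem z z.2⟩ +
      (⟨((⟨I, hIK⟩ : KG) : ℂ), hE.KG_le hIK⟩ : E) *
        ⟨((((-(⟨I, hIE⟩ : E) * z : E) : ℂ).re : ℝ) : ℂ), hE.re_mem _ (-(⟨I, hIE⟩ : E) * z).2⟩ := by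
    apply Subtype.ext
    apply Complex.ext <;> simp
  rw [heq]
  exact hz

end Pool.Agent.MP_8b8716_co_HN
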