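import Mathlib
import Pool.Agent.Lib.MP_8b8716_co_HN.Seed
import Pool.Agent.Lib.MP_8b8716_co_HN.AAf
import Pool.Agent.Lib.MP_8b8716_co_HN.VX
import Pool.Agent.Lib.MP_8b8716_co_HN.Tor
import Pool.Agent.Lib.MP_8b8716_co_HN.LeafF
import Pool.Agent.Lib.MP_8b8716_co_HN.NumB
import Pool.Agent.Lib.MP_8b8716_co_HN.NumC

set_option autoImplicit false

/-!
# MP_8b8716_co, project HN: rigidity
-/

noncomputable section

namespace Pool.Agent.MP_8b8716_co_HN

open Complex MeasureTheory Filter Topology Set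
open scoped ENNReal

section
variable {E : Subfield ℂ} (hE : Euc E)
include hE

theorem line_one_mulAct (c : KG) (x : E → Circle) :
    line hE.KG_le 1 (mulAct ⟨c, hE.KG_le c.2⟩ x) = mulAct c (line hE.KG_le 1 x) := by
  rw [line_mulAct, ← line_KG_mul, mul_comm]

/-- a.e. `x` with `line 1 x ∈ AA` is a continuous character on `KG` -/
theorem rigid_S (σ : Measure (E → Circle)) [IsFiniteMeasure σ]
    (hc : ∀ᵐ x ∂σ, IsChar x) (hI : Inv E σ) (ht : ∀ l : ℕ, l.Prime → PtAt E l) :
    ∀ᵐ x ∂σ, line hE.KG_le 1 x ∈ AA → line hE.KG_le 1 x ∈ Leaf KG := by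
  have hv := vx hE σ hc hI
  set S : Set (E → Circle) := {x | line hE.KG_le 1 x ∈ AA} with hSdef
  have hS : MeasurableSet S := measurableSet_AA.preimage (measurable_line _ _)
  have hIS : Inv E (σ.restrict S) := by
    intro c hc1
    have hp := hI c hc1
    have h1 : (mulAct c) ⁻¹' S =ᵐ[σ] S := by
      have h2 := hp.quasiMeasurePreserving.ae hv
      filter_upwards [hv, h2] with x h3 h4
      apply propext
      change line hE.KG_le 1 (mulAct c x) ∈ AA ↔ line hE.KG_le 1 x ∈ AA
      constructor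
      · intro h5
        have h6 := h4 h5 c⁻¹
        rw [line_mulAct] at h6
        have hc0 : c ≠ 0 := by
          rintro rfl
          simp at hc1
        rwa [mul_inv_cancel₀ hc0] at h6
      · intro h5
        have h6 := h3 h5 c
        rw [line_mulAct, mul_one]
        exact h6
    have h2 := hp.restrict_preimage hS
    rwa [Measure.restrict_congr_set h1] at h2
  have hcS : ∀ᵐ x ∂(σ.restrict S), IsChar x := ae_restrict_of_ae hc
  have hAS : ∀ᵐ x ∂(σ.restrict S), ∀ z : E, ∃ m : ℕ, 0 < m ∧ ∃ ξ : ℂ, ∀ k : ℕ, ∀ w ∈ Lt 1 k,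
      line hE.KG_le z x (m * w) = el (m * ξ) w := by
    rw [ae_restrict_iff' hS]
    filter_upwards [hv] with x h1 h2 z
    exact h1 h2 z 1 Ndiv_one
  have hto := tor hE (σ.restrict S) hcS hIS ht hAS
  rw [ae_restrict_iff' hS] at hto
  filter_upwards [hto] with x h1 h2
  have h3 := h1 h2
  obtain ⟨ξ0, hξ0⟩ := (AA_iff _).1 h2
  have h4 : line hE.KG_le 1 x = fun z : KG => el ξ0 z := by
    funext z
    obtain ⟨D, hD, j, hj⟩ := exists_mem_Lt z
    obtain ⟨m, hm, hm1⟩ := hξ0 D hD
    obtain ⟨ξ, hξ⟩ := h3 ⟨z, hE.KG_le z.2⟩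
    have h5 : ∀ k : ℕ, ∀ w ∈ Lt 1 k, el (m * (ξ - ξ0 * z)) w = 1 := by
      intro k w hw
      have hzw : z * w ∈ Lt D ((j + k : ℕ) : ℤ) := by
        have := Lt_mul hj hw
        rw [mul_one] at this
        push_cast
        exact this
      have h6 := hm1 _ _ hzw
      have h7 := hξ k w hw
      have hmw : (m : KG) * w ∈ Lt 1 k :=
        Lt_smul (⟨m, 0, by push_cast; ring⟩ : (m : KG) ∈ Zi) hw
      have h8 := hξ k _ hmw
      have h9 : line hE.KG_le ⟨z, hE.KG_le z.2⟩ x (m * w) = line hE.KG_le 1 x (m * (z * w)) := by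
        simp only [line]
        congr 1
        apply Subtype.ext
        simp only [Subfield.coe_mul, Subfield.coe_one]
        ring
      rw [h9, h6] at h8
      have h10 : el (m * ξ) w = el ξ ((m : KG) * w : KG) := by
        have : (((m : KG) * w : KG) : ℂ) = (m : ℂ) * w := by
          simp
        rw [this, el_mul]
        congr 1
        ring
      have h11 : el (m * ξ0) (z * w : KG) = el (m * (ξ0 * z)) w := by
        rw [Subfield.coe_mul, el_mul]
        congr 1
        ring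
      rw [mul_sub, el_sub_left, h10, ← h8, h11, div_self']
    have h6 := eq_zero_of_el h5
    have hm0 : (m : ℂ) ≠ 0 := by exact_mod_cast hm.ne'
    have h7 : ξ = ξ0 * z := by
      rcases mul_eq_zero.1 h6 with h | h
      · exact absurd h hm0
      · exact sub_eq_zero.1 h
    have h1mem : (1 : KG) ∈ Lt 1 ((0 : ℕ) : ℤ) := ⟨1, Zi.one_mem, by simp⟩
    have h8 := hξ 0 1 h1mem
    have h9 : line hE.KG_le ⟨z, hE.KG_le z.2⟩ x 1 = line hE.KG_le 1 x z := by
      simp only [line]
      congr 1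
      apply Subtype.ext
      simp
    rw [← h9, h8, h7, ← el_mul]
    simp
  rw [h4]
  exact el_mem_Leaf ξ0

theorem rigid_all (σ : Measure (E → Circle)) [IsFiniteMeasure σ]
    (hc : ∀ᵐ x ∂σ, IsChar x) (hI : Inv E σ) (ht : ∀ l : ℕ, l.Prime → PtAt E l)
    {u : KG} (hu : u ≠ 0) :
    ∫ x in {x | line hE.KG_le 1 x ∈ Leaf KG}ᶜ, (line hE.KG_le 1 x u : ℂ) ∂σ = 0 := by
  set T : Set (E → Circle) := {x | line hE.KG_le 1 x ∈ Leaf KG} with hTdef
  set S : Set (E → Circle) := {x | line hE.KG_le 1 x ∈ AA} with hSdef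
  have hS : MeasurableSet S := measurableSet_AA.preimage (measurable_line _ _)
  have hT : MeasurableSet T :=
    (measurableSet_Leaf (E := KG) instCountableKG).preimage (measurable_line _ _)
  have hST := rigid_S hE σ hc hI ht
  set W : Set (E → Circle) := Tᶜ ∩ Sᶜ with hWdef
  have hW : MeasurableSet W := hT.compl.inter hS.compl
  have h1 : ∫ x in Tᶜ, (line hE.KG_le 1 x u : ℂ) ∂σ = ∫ x in W, (line hE.KG_le 1 x u : ℂ) ∂σ := by
    have h2 : (Tᶜ : Set (E → Circle)) =ᵐ[σ] W := by
      filter_upwards [hST] with x h3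
      apply propext
      change x ∈ Tᶜ ↔ x ∈ Tᶜ ∩ Sᶜ
      constructor
      · intro h4
        exact ⟨h4, fun h5 => h4 (h3 h5)⟩
      · exact fun h4 => h4.1
    rw [Measure.restrict_congr_set h2]
  rw [h1]
  set ν1 : Measure (KG → Circle) := (σ.restrict W).map (line hE.KG_le 1) with hν1
  have hml := measurable_line hE.KG_le (1 : E)
  set ν2 : Measure (KG → Circle) := ν1.map (mulAct u) with hν2
  have hmu : Measurable (mulAct u : (KG → Circle) → KG → Circle) := measurable_mulAct u
  have : IsFiniteMeasure ν1 := by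
    rw [hν1]
    infer_instance
  have : IsFiniteMeasure ν2 := by
    rw [hν2]
    infer_instance
  have hmem : ∀ c : KG, c ≠ 0 → ∀ x : E → Circle,
      mulAct (⟨c, hE.KG_le c.2⟩ : E) x ∈ W ↔ x ∈ W := by
    intro c hc0 x
    have h3 : line hE.KG_le 1 (mulAct ⟨c, hE.KG_le c.2⟩ x) = mulAct c (line hE.KG_le 1 x) :=
      line_one_mulAct hE c x
    have h4 : mulAct (⟨c, hE.KG_le c.2⟩ : E) x ∈ T ↔ x ∈ T := by
      change line hE.KG_le 1 (mulAct ⟨c, hE.KG_le c.2⟩ x) ∈ Leaf KG ↔ _
      rw [h3]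
      exact mulAct_mem_Leaf hc0 _
    have h5 : mulAct (⟨c, hE.KG_le c.2⟩ : E) x ∈ S ↔ x ∈ S := by
      change line hE.KG_le 1 (mulAct ⟨c, hE.KG_le c.2⟩ x) ∈ AA ↔ _
      rw [h3]
      constructor
      · intro h6
        have h7 := AA_mulAct h6 c⁻¹
        rwa [mulAct_mulAct, inv_mul_cancel₀ hc0, mulAct_one] at h7
      · intro h6
        exact AA_mulAct h6 c
    change (_ ∉ T ∧ _ ∉ S) ↔ (_ ∉ T ∧ _ ∉ S)
    rw [h4, h5]
  have hI1 : Inv KG ν1 := by
    intro c hc1
    have hc0 : c ≠ 0 := by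
      rintro rfl
      simp at hc1
    have hp := hI ⟨c, hE.KG_le c.2⟩ hc1
    have h3 : (mulAct (⟨c, hE.KG_le c.2⟩ : E)) ⁻¹' W = W := by
      ext x
      exact hmem c hc0 x
    have h4 := hp.restrict_preimage hW
    rw [h3] at h4
    refine ⟨measurable_mulAct c, ?_⟩
    rw [hν1, Measure.map_map (measurable_mulAct c) hml]
    have h5 : (mulAct c ∘ line hE.KG_le 1 : (E → Circle) → KG → Circle) =
        line hE.KG_le 1 ∘ mulAct ⟨c, hE.KG_le c.2⟩ := by
      funext x
      exact (line_one_mulAct hE c x).symm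
    rw [h5, ← Measure.map_map hml (measurable_mulAct _), h4.map_eq]
  have hc1 : ∀ᵐ y ∂ν1, IsChar y := by
    rw [hν1, ae_map_iff hml.aemeasurable measurableSet_isChar]
    filter_upwards [ae_restrict_of_ae hc] with x hx
    exact isChar_line _ _ hx
  have hA1 : ν1 AA = 0 := by
    rw [hν1, Measure.map_apply hml measurableSet_AA, Measure.restrict_apply' hW]
    have : line hE.KG_le 1 ⁻¹' AA ∩ W = ∅ := by
      ext x
      simp only [mem_inter_iff, mem_preimage, mem_empty_iff_false, iff_false, not_and]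
      intro h3 h4
      exact h4.2 h3
    rw [this, measure_empty]
  have hI2 : Inv KG ν2 := by
    intro c hc1'
    refine ⟨measurable_mulAct c, ?_⟩
    rw [hν2, Measure.map_map (measurable_mulAct c) hmu]
    have h5 : (mulAct c ∘ mulAct u : (KG → Circle) → KG → Circle) = mulAct u ∘ mulAct c := by
      funext x
      simp only [Function.comp_apply, mulAct_mulAct, mul_comm]
    rw [h5, ← Measure.map_map hmu (measurable_mulAct c), (hI1 c hc1').map_eq]
  have hc2 : ∀ᵐ y ∂ν2, IsChar y := by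
    rw [hν2, ae_map_iff hmu.aemeasurable measurableSet_isChar]
    filter_upwards [hc1] with y hy
    exact hy.mulAct u
  have hA2 : ν2 AA = 0 := by
    rw [hν2, Measure.map_apply hmu measurableSet_AA]
    refine measure_mono_null ?_ hA1
    intro y hy
    have h7 := AA_mulAct (show mulAct u y ∈ AA from hy) u⁻¹
    rwa [mulAct_mulAct, inv_mul_cancel₀ hu, mulAct_one] at h7
  have h3 := seed ν2 hc2 hI2 hA2
  have hmv : ∀ w : KG, Measurable fun y : KG → Circle => (y w : ℂ) := fun w =>
    (continuous_subtype_val.comp (continuous_apply w)).measurable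
  rw [hν2, integral_map hmu.aemeasurable (hmv 1).aestronglyMeasurable, hν1,
    integral_map hml.aemeasurable ?_] at h3
  · rw [← h3]
    simp only [mulAct, mul_one]
  · exact ((hmv 1).comp hmu).aestronglyMeasurable

end

end Pool.Agent.MP_8b8716_co_HN
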