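import Mathlib
import Pool.Agent.Lib.MP_8b8716_co_HN.Defs
import Pool.Agent.Lib.MP_8b8716_co_HN.Basic

set_option autoImplicit false

/-!
# MP_8b8716_co, project HN: Bochner's theorem for countable abelian groups
-/

noncomputable section

namespace Pool.Agent.MP_8b8716_co_HN

open Complex MeasureTheory Filter Topology Set WeakDual
open scoped ENNReal CompactlySupported

/-- a real continuous function as a complex one -/
private def specA_cr {X : Type*} [TopologicalSpace X] (f : C(X, ℝ)) : C(X, ℂ) :=
  ⟨fun x => (f x : ℂ), Complex.continuous_ofReal.comp f.continuous⟩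

private theorem specA_abs {A : Type*} [CommCStarAlgebra A] {E : Type*} [AddCommGroup E]
    [Countable E] (φ : A →ₗ[ℂ] ℂ) (hφ : ∀ a : A, 0 ≤ (φ (star a * a)).re)
    (hφ' : ∀ a, star a = a → (φ a).im = 0)
    (u : E → A) (hu : ∀ z w, u (z + w) = u z * u w) (hu1 : ∀ z, star (u z) * u z = 1) :
    ∃ σ : Measure (E → Circle), IsFiniteMeasure σ ∧ (∀ᵐ x ∂σ, IsChar x) ∧
      ∀ z, φ (u z) = ∫ x, (x z : ℂ) ∂σ := by
  let : MeasurableSpace (characterSpace ℂ A) := borel _
  have : BorelSpace (characterSpace ℂ A) := ⟨rfl⟩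
  set G := gelfandStarTransform A with hG
  have hGa : ∀ a : A, ∀ χ : characterSpace ℂ A, G a χ = χ a := fun a χ => rfl
  have hcr_add : ∀ f g : C(characterSpace ℂ A, ℝ), specA_cr (f + g) = specA_cr f + specA_cr g := by
    intro f g
    ext x
    simp [specA_cr]
  have hcr_smul : ∀ (c : ℝ) (f : C(characterSpace ℂ A, ℝ)),
      specA_cr (c • f) = (c : ℂ) • specA_cr f := by
    intro c f
    ext x
    simp [specA_cr]
  have hpos : ∀ f : C(characterSpace ℂ A, ℝ), (∀ x, 0 ≤ f x) →
      0 ≤ (φ (G.symm (specA_cr f))).re := by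
    intro f hf
    set g : C(characterSpace ℂ A, ℂ) := specA_cr ⟨fun x => Real.sqrt (f x),
      Real.continuous_sqrt.comp f.continuous⟩ with hg
    have h1 : star g * g = specA_cr f := by
      ext x
      have h2 : ((Real.sqrt (f x) : ℝ) : ℂ) * ((Real.sqrt (f x) : ℝ) : ℂ) = (f x : ℂ) := by
        rw [← Complex.ofReal_mul, Real.mul_self_sqrt (hf x)]
      simpa [hg, specA_cr] using h2
    have h3 : G.symm (specA_cr f) = star (G.symm g) * G.symm g := by
      rw [← h1, map_mul, map_star]
    rw [h3]
    exact hφ _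
  have hreal : ∀ f : C(characterSpace ℂ A, ℝ), (φ (G.symm (specA_cr f))).im = 0 := by
    intro f
    apply hφ'
    rw [← map_star]
    congr 1
    ext x
    simp [specA_cr]
  let Λ : C_c(characterSpace ℂ A, ℝ) →ₚ[ℝ] ℝ :=
    { toFun := fun f => (φ (G.symm (specA_cr f.toContinuousMap))).re
      map_add' := by
        intro f g
        have h := hcr_add f.toContinuousMap g.toContinuousMap
        have h2 : (f + g).toContinuousMap = f.toContinuousMap + g.toContinuousMap := rfl
        rw [h2, h, map_add, map_add, add_re]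
      map_smul' := by
        intro c f
        have h := hcr_smul c f.toContinuousMap
        have h2 : (c • f).toContinuousMap = c • f.toContinuousMap := rfl
        rw [h2, h, map_smul, map_smul]
        simp
      monotone' := by
        intro f g hfg
        have h1 := hpos (g.toContinuousMap - f.toContinuousMap) (fun x => by
          have := hfg x
          simpa using this)
        have h2 : specA_cr g.toContinuousMap = specA_cr (g.toContinuousMap - f.toContinuousMap) +
            specA_cr f.toContinuousMap := by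
          rw [← hcr_add, sub_add_cancel]
        show (φ (G.symm (specA_cr f.toContinuousMap))).re ≤
          (φ (G.symm (specA_cr g.toContinuousMap))).re
        rw [h2, map_add, map_add, add_re]
        linarith }
  set ρ := RealRMK.rieszMeasure Λ with hρ
  have hint : ∀ f : C(characterSpace ℂ A, ℝ), ((∫ x, f x ∂ρ : ℝ) : ℂ) =
      φ (G.symm (specA_cr f)) := by
    intro f
    let f' : C_c(characterSpace ℂ A, ℝ) :=
      { toFun := f
        hasCompactSupport' := HasCompactSupport.of_compactSpace _ }
    have h1 : ∫ x, f x ∂ρ = (φ (G.symm (specA_cr f))).re := RealRMK.integral_rieszMeasure Λ f'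
    rw [h1]
    apply Complex.ext
    · simp
    · simp [hreal f]
  have hintC : ∀ F : C(characterSpace ℂ A, ℂ), φ (G.symm F) = ∫ x, F x ∂ρ := by
    intro F
    have hi : Integrable (fun x => F x) ρ :=
      F.continuous.integrable_of_hasCompactSupport (HasCompactSupport.of_compactSpace _)
    have h1 := integral_re_add_im hi
    rw [← h1]
    have h2 := hint ⟨fun x => (F x).re, Complex.continuous_re.comp F.continuous⟩
    have h3 := hint ⟨fun x => (F x).im, Complex.continuous_im.comp F.continuous⟩
    have h4 : F = specA_cr ⟨fun x => (F x).re, Complex.continuous_re.comp F.continuous⟩ +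
        I • specA_cr ⟨fun x => (F x).im, Complex.continuous_im.comp F.continuous⟩ := by
      ext x
      simp only [specA_cr, ContinuousMap.add_apply, ContinuousMap.smul_apply,
        ContinuousMap.coe_mk, smul_eq_mul]
      rw [mul_comm]
      exact (Complex.re_add_im (F x)).symm
    conv_lhs => rw [h4]
    rw [map_add, map_add, map_smul, map_smul, ← h2, ← h3, smul_eq_mul, mul_comm]
    rfl
  have hnorm : ∀ (χ : characterSpace ℂ A) (z : E), ‖χ (u z)‖ = 1 := by
    intro χ z
    have h1 : χ (star (u z) * u z) = 1 := by rw [hu1, map_one]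
    rw [map_mul, map_star] at h1
    have h2 : ‖χ (u z)‖ * ‖χ (u z)‖ = 1 := by
      have h3 := congrArg norm h1
      rwa [norm_mul, norm_star, norm_one] at h3
    nlinarith [norm_nonneg (χ (u z))]
  let Φ : characterSpace ℂ A → E → Circle := fun χ z =>
    ⟨χ (u z), mem_sphere_zero_iff_norm.2 (hnorm χ z)⟩
  have hΦc : ∀ z, Continuous fun χ => Φ χ z := by
    intro z
    exact Continuous.subtype_mk (G (u z)).continuous _
  have hΦ : Measurable Φ := measurable_pi_lambda _ fun z => (hΦc z).measurable
  have : IsFiniteMeasure ρ := by rw [hρ]; infer_instance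
  refine ⟨ρ.map Φ, inferInstance, ?_, ?_⟩
  · refine (ae_map_iff hΦ.aemeasurable measurableSet_isChar).2 (ae_of_all _ fun χ => ?_)
    intro a b
    apply Subtype.ext
    show χ (u (a + b)) = χ (u a) * χ (u b)
    rw [hu, map_mul]
  · intro z
    have hc : Continuous fun w : Circle => (w : ℂ) := continuous_subtype_val
    have hm : Measurable fun x : E → Circle => (x z : ℂ) :=
      hc.measurable.comp (measurable_pi_apply z)
    rw [integral_map hΦ.aemeasurable hm.aestronglyMeasurable]
    have h1 := hintC (G (u z))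
    rw [StarAlgEquiv.symm_apply_apply] at h1
    rw [h1]
    rfl

theorem bochner {E : Type*} [AddCommGroup E] [Countable E] {H : Type*} [NormedAddCommGroup H]
    [InnerProductSpace ℂ H] [CompleteSpace H] (U : E → H ≃ₗᵢ[ℂ] H)
    (hU : ∀ z w f, U (z + w) f = U z (U w f)) (b : H) :
    ∃ σ : Measure (E → Circle), IsFiniteMeasure σ ∧ (∀ᵐ x ∂σ, IsChar x) ∧
      ∀ z, inner ℂ b (U z b) = ∫ x, (x z : ℂ) ∂σ := by
  set V : E → (H →L[ℂ] H) := fun z => ((U z).toContinuousLinearEquiv : H →L[ℂ] H) with hV
  have hVa : ∀ z f, V z f = U z f := fun z f => rfl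
  have hU0 : ∀ f, U 0 f = f := by
    intro f
    have h1 := hU 0 0 f
    rw [add_zero] at h1
    exact ((U 0).injective h1).symm
  have hVadd : ∀ z w, V (z + w) = V z * V w := by
    intro z w
    ext f
    exact hU z w f
  have hVstar : ∀ z, star (V z) = V (-z) := by
    intro z
    rw [ContinuousLinearMap.star_eq_adjoint]
    symm
    rw [ContinuousLinearMap.eq_adjoint_iff]
    intro x y
    rw [hVa, hVa, ← (U z).inner_map_map, ← hU, add_neg_cancel, hU0]
  have hVcomm : ∀ z w, V z * V w = V w * V z := by
    intro z w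
    rw [← hVadd, ← hVadd, add_comm]
  set S0 : StarSubalgebra ℂ (H →L[ℂ] H) := StarAlgebra.adjoin ℂ (Set.range V) with hS0
  have hcomm0 : ∀ x y : S0, x * y = y * x := by
    have h := StarAlgebra.isMulCommutative_adjoin ℂ (s := Set.range V)
      (by
        rintro _ ⟨z, rfl⟩ _ ⟨w, rfl⟩
        exact hVcomm z w)
      (by
        rintro _ ⟨z, rfl⟩ _ ⟨w, rfl⟩
        rw [hVstar]
        exact hVcomm z (-w))
    intro x y
    exact h.is_comm.comm x y
  set S := S0.topologicalClosure with hS
  have hcl : IsClosed (S : Set (H →L[ℂ] H)) := S0.isClosed_topologicalClosure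
  let i1 : CStarAlgebra S := StarSubalgebra.cstarAlgebra S (h_closed := hcl)
  have hcomm : ∀ x y : S, x * y = y * x :=
    (StarSubalgebra.commRingTopologicalClosure S0 hcomm0).mul_comm
  let i2 : CommCStarAlgebra S := { i1 with mul_comm := hcomm }
  have hmem : ∀ z, V z ∈ S := fun z =>
    S0.le_topologicalClosure (StarAlgebra.subset_adjoin ℂ _ ⟨z, rfl⟩)
  let φ : S →ₗ[ℂ] ℂ :=
    { toFun := fun a => inner ℂ b ((a : H →L[ℂ] H) b)
      map_add' := by
        intro a c
        show inner ℂ b (((a : H →L[ℂ] H) + (c : H →L[ℂ] H)) b) = _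
        rw [add_apply, inner_add_right]
      map_smul' := by
        intro r a
        show inner ℂ b ((r • (a : H →L[ℂ] H)) b) = _
        rw [smul_apply, inner_smul_right]
        rfl }
  obtain ⟨σ, h1, h2, h3⟩ := specA_abs (A := S) φ
    (by
      intro a
      have h : φ (star a * a) = inner ℂ ((a : H →L[ℂ] H) b) ((a : H →L[ℂ] H) b) := by
        show inner ℂ b ((star (a : H →L[ℂ] H) * (a : H →L[ℂ] H)) b) = _
        rw [mul_apply_eq_comp, ContinuousLinearMap.star_eq_adjoint,
          ContinuousLinearMap.adjoint_inner_right]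
      rw [h, inner_self_eq_norm_sq_to_K]
      have h4 : (((‖(a : H →L[ℂ] H) b‖ : ℝ) : ℂ) ^ 2).re = ‖(a : H →L[ℂ] H) b‖ ^ 2 := by
        rw [← Complex.ofReal_pow, Complex.ofReal_re]
      show 0 ≤ (((‖(a : H →L[ℂ] H) b‖ : ℝ) : ℂ) ^ 2).re
      rw [h4]
      positivity)
    (by
      intro a ha
      have h4 : star (a : H →L[ℂ] H) = (a : H →L[ℂ] H) := congrArg Subtype.val ha
      have h5 : inner ℂ b ((a : H →L[ℂ] H) b) = inner ℂ ((a : H →L[ℂ] H) b) b := by
        conv_lhs => rw [← h4]
        rw [ContinuousLinearMap.star_eq_adjoint, ContinuousLinearMap.adjoint_inner_right]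
      have h6 : (starRingEnd ℂ) (inner ℂ b ((a : H →L[ℂ] H) b)) =
          inner ℂ b ((a : H →L[ℂ] H) b) := by
        rw [inner_conj_symm, h5]
      exact Complex.conj_eq_iff_im.1 h6)
    (fun z => ⟨V z, hmem z⟩)
    (fun z w => Subtype.ext (hVadd z w))
    (fun z => Subtype.ext (by
      show star (V z) * V z = 1
      rw [hVstar, ← hVadd, neg_add_cancel]
      ext f
      exact hU0 f))
  exact ⟨σ, h1, h2, h3⟩

end Pool.Agent.MP_8b8716_co_HN
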