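import Mathlib
import Pool.Agent.Lib.MP_8b8716_co_HN.Defs
import Pool.Agent.Lib.MP_8b8716_co_HN.Basic
import Pool.Agent.Lib.MP_8b8716_co_HN.LeafF
import Pool.Agent.Lib.MP_8b8716_co_HN.SpecA
import Pool.Agent.Lib.MP_8b8716_co_HN.FourU
import Pool.Agent.Lib.MP_8b8716_co_HN.Rigid

set_option autoImplicit false

/-!
# MP_8b8716_co, project HN: the correlations of an invariant random colouring are continuous
-/

noncomputable section

namespace Pool.Agent.MP_8b8716_co_HN

open Complex MeasureTheory Filter Topology Set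
open scoped ENNReal

section CorrAux

variable {E : Subfield ℂ} {k : ℕ}

private theorem corr_coe_meas : Measurable fun w : Circle => (w : ℂ) := by
  have hc : Continuous fun w : Circle => (w : ℂ) := continuous_subtype_val
  exact hc.measurable

private theorem corr_shift_mp {μ : Measure (E → Fin k)} (hμ : RandCol E k μ) (u : E) :
    MeasurePreserving (shift u) μ μ := by
  have h := hμ.inv 1 u (by simp)
  have e : (fun (ω : E → Fin k) (z : E) => ω (1 * z + u)) = shift u := by
    funext ω z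
    simp [shift]
  rwa [e] at h

private theorem corr_ind_meas (i : Fin k) : Measurable (ind i : (E → Fin k) → ℝ) := by
  unfold ind
  refine Measurable.ite ?_ measurable_const measurable_const
  have h : Measurable fun ω : E → Fin k => ω 0 := measurable_pi_apply (0 : E)
  exact h (measurableSet_singleton i)

private theorem corr_ind_abs (i : Fin k) (ω : E → Fin k) : |ind i ω| ≤ 1 := by
  unfold ind
  split_ifs <;> simp

/-- the Koopman operator of a shift -/
private def corrT {μ : Measure (E → Fin k)} (hμ : RandCol E k μ) (u : E) :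
    Lp ℂ 2 μ →ₗᵢ[ℂ] Lp ℂ 2 μ :=
  Lp.compMeasurePreservingₗᵢ ℂ (shift u) (corr_shift_mp hμ u)

private theorem corrT_mul {μ : Measure (E → Fin k)} (hμ : RandCol E k μ) (z w : E)
    (f : Lp ℂ 2 μ) : corrT hμ (z + w) f = corrT hμ z (corrT hμ w f) := by
  have h := Lp.compMeasurePreserving_comp_apply (E := ℂ) (p := 2) f (corr_shift_mp hμ w)
    (corr_shift_mp hμ z)
  have e : (shift w ∘ shift z : (E → Fin k) → E → Fin k) = shift (z + w) := by
    funext ω t
    simp only [Function.comp_apply, shift]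
    congr 1
    ring
  have h2 : corrT hμ z (corrT hμ w f) =
      Lp.compMeasurePreserving (shift w ∘ shift z)
        ((corr_shift_mp hμ w).comp (corr_shift_mp hμ z)) f := h.symm
  rw [h2]
  simp only [e]
  rfl

private theorem corrT_zero {μ : Measure (E → Fin k)} (hμ : RandCol E k μ)
    (f : Lp ℂ 2 μ) : corrT hμ 0 f = f := by
  have e : (shift 0 : (E → Fin k) → E → Fin k) = id := by
    funext ω t
    simp [shift]
  have h2 : corrT hμ 0 f = Lp.compMeasurePreserving (shift 0) (corr_shift_mp hμ 0) f := rfl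
  rw [h2]
  simp only [e]
  exact Lp.compMeasurePreserving_id_apply f

private def corrU {μ : Measure (E → Fin k)} (hμ : RandCol E k μ) (u : E) :
    Lp ℂ 2 μ ≃ₗᵢ[ℂ] Lp ℂ 2 μ :=
  LinearIsometryEquiv.ofSurjective (corrT hμ u) fun f => ⟨corrT hμ (-u) f, by
    rw [← corrT_mul, add_neg_cancel, corrT_zero]⟩

private theorem corrU_apply {μ : Measure (E → Fin k)} (hμ : RandCol E k μ) (u : E)
    (f : Lp ℂ 2 μ) : corrU hμ u f = corrT hμ u f := rfl

/-- the correlations as Fourier coefficients -/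
private theorem corr_spec {μ : Measure (E → Fin k)} (hE : Countable E) (hμ : RandCol E k μ)
    (i : Fin k) :
    ∃ σ : Measure (E → Circle), IsFiniteMeasure σ ∧ (∀ᵐ x ∂σ, IsChar x) ∧
      ∀ z, ((∫ ω, ind i (shift z ω) * ind i ω ∂μ : ℝ) : ℂ) = ∫ x, (x z : ℂ) ∂σ := by
  have := hμ.prob
  have hb : MemLp (fun ω : E → Fin k => (ind i ω : ℂ)) 2 μ := by
    refine MemLp.of_bound (C := 1) ?_ ?_
    · exact (Complex.measurable_ofReal.comp (corr_ind_meas i)).aestronglyMeasurable
    · refine Eventually.of_forall fun ω => ?_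
      rw [Complex.norm_real]
      exact corr_ind_abs i ω
  obtain ⟨σ, h1, h2, h3⟩ := bochner (E := E) (corrU hμ)
    (fun z w f => by simp only [corrU_apply]; exact corrT_mul hμ z w f) (hb.toLp _)
  refine ⟨σ, h1, h2, fun z => ?_⟩
  rw [← h3 z, corrU_apply]
  have e : corrT hμ z (hb.toLp _) =
      (hb.comp_measurePreserving (corr_shift_mp hμ z)).toLp _ := rfl
  rw [e, L2.inner_def]
  refine (integral_ofReal (𝕜 := ℂ)).symm.trans (integral_congr_ae ?_)
  filter_upwards [hb.coeFn_toLp,
    (hb.comp_measurePreserving (corr_shift_mp hμ z)).coeFn_toLp] with ω ha hb'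
  rw [ha, hb']
  simp only [Function.comp_apply]
  rw [RCLike.inner_apply, Complex.conj_ofReal]
  push_cast
  rfl

private theorem corr_rot {μ : Measure (E → Fin k)} (hμ : RandCol E k μ) (i : Fin k) (c : E)
    (hc : ‖(c : ℂ)‖ = 1) (z : E) :
    ∫ ω, ind i (shift (c * z) ω) * ind i ω ∂μ = ∫ ω, ind i (shift z ω) * ind i ω ∂μ := by
  have h := hμ.inv c 0 hc
  have hm : Measurable fun ω : E → Fin k => ind i (shift z ω) * ind i ω := by
    refine Measurable.mul ?_ (corr_ind_meas i)
    exact (corr_ind_meas i).comp (corr_shift_mp hμ z).measurable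
  have h2 := integral_map (μ := μ) h.measurable.aemeasurable
    (f := fun ω : E → Fin k => ind i (shift z ω) * ind i ω) hm.aestronglyMeasurable
  rw [h.map_eq] at h2
  rw [h2]
  refine integral_congr_ae (Eventually.of_forall fun ω => ?_)
  simp [ind, shift]

end CorrAux

theorem corr {E : Subfield ℂ} (hE : Euc E) (ht : ∀ l : ℕ, l.Prime → PtAt E l) {k : ℕ}
    {μ : Measure (E → Fin k)} (hμ : RandCol E k μ) (i : Fin k) : ∃ ψ : KG → ℝ, UC ψ ∧
      ∀ u : KG, u ≠ 0 → ∫ ω, ind i (shift ⟨u, hE.KG_le u.2⟩ ω) * ind i ω ∂μ = ψ u := by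
  have hct : Countable E := hE.ctb
  obtain ⟨σ, hfin, hchar, hcoef⟩ := corr_spec hct hμ i
  -- invariance
  have hInv : Inv E σ := by
    intro c hc
    refine ⟨measurable_mulAct c, ?_⟩
    have hfin' : IsFiniteMeasure (σ.map (mulAct c)) := Measure.isFiniteMeasure_map σ (mulAct c)
    have hchar' : ∀ᵐ x ∂(σ.map (mulAct c)), IsChar x := by
      rw [ae_map_iff (measurable_mulAct c).aemeasurable measurableSet_isChar]
      filter_upwards [hchar] with x hx
      exact hx.mulAct c
    refine four_unique _ _ hchar' hchar fun z => ?_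
    have hmz : Measurable fun x : E → Circle => ((x z : Circle) : ℂ) :=
      corr_coe_meas.comp (measurable_pi_apply z)
    rw [integral_map (measurable_mulAct c).aemeasurable hmz.aestronglyMeasurable]
    have h1 : ∫ x : E → Circle, ((mulAct c x z : Circle) : ℂ) ∂σ =
        ∫ x : E → Circle, ((x (c * z) : Circle) : ℂ) ∂σ := rfl
    rw [h1, ← hcoef, ← hcoef, corr_rot hμ i c hc z]
  -- the push-forward to the Gaussian numbers
  set ℓ := line hE.KG_le (1 : E) with hℓ
  have hℓm : Measurable ℓ := measurable_line hE.KG_le 1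
  have hνfin : IsFiniteMeasure (σ.map ℓ) := Measure.isFiniteMeasure_map σ ℓ
  have hνchar : ∀ᵐ y ∂(σ.map ℓ), IsChar y := by
    rw [ae_map_iff hℓm.aemeasurable measurableSet_isChar]
    filter_upwards [hchar] with x hx
    exact isChar_line hE.KG_le 1 hx
  refine ⟨fun u : KG => (∫ y in Leaf KG, (y u : ℂ) ∂(σ.map ℓ)).re,
    leaf_cont instCountableKG (σ.map ℓ) hνchar, fun u hu => ?_⟩
  have hLeaf : MeasurableSet (Leaf KG) := measurableSet_Leaf instCountableKG
  have hmu : Measurable fun y : KG → Circle => ((y u : Circle) : ℂ) :=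
    corr_coe_meas.comp (measurable_pi_apply u)
  have e1 : ∫ y in Leaf KG, ((y u : Circle) : ℂ) ∂(σ.map ℓ) =
      ∫ x in ℓ ⁻¹' Leaf KG, ((ℓ x u : Circle) : ℂ) ∂σ :=
    setIntegral_map hLeaf hmu.aestronglyMeasurable hℓm.aemeasurable
  have e2 : ∫ x in (ℓ ⁻¹' Leaf KG)ᶜ, ((ℓ x u : Circle) : ℂ) ∂σ = 0 :=
    rigid_all hE σ hchar hInv ht hu
  have hint : Integrable (fun x : E → Circle => ((ℓ x u : Circle) : ℂ)) σ := by
    refine Integrable.of_bound (hmu.comp hℓm).aestronglyMeasurable 1 ?_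
    refine Eventually.of_forall fun x => ?_
    exact (Circle.norm_coe _).le
  have e3 : ∫ x : E → Circle, ((ℓ x u : Circle) : ℂ) ∂σ =
      ∫ x in ℓ ⁻¹' Leaf KG, ((ℓ x u : Circle) : ℂ) ∂σ := by
    rw [← integral_add_compl (hℓm hLeaf) hint, e2, add_zero]
  have e4 : ((∫ ω, ind i (shift ⟨u, hE.KG_le u.2⟩ ω) * ind i ω ∂μ : ℝ) : ℂ) =
      ∫ x : E → Circle, ((ℓ x u : Circle) : ℂ) ∂σ := by
    rw [hcoef]
    refine integral_congr_ae (Eventually.of_forall fun x => ?_)
    simp [hℓ, line]
  have e5 : ((∫ ω, ind i (shift ⟨u, hE.KG_le u.2⟩ ω) * ind i ω ∂μ : ℝ) : ℂ) =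
      ∫ y in Leaf KG, ((y u : Circle) : ℂ) ∂(σ.map ℓ) := by
    rw [e4, e3, e1]
  have e6 := congrArg Complex.re e5
  rwa [Complex.ofReal_re] at e6

end Pool.Agent.MP_8b8716_co_HN
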