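import Pool.Agent.Lib.MP_8b8716_co_HN.Defs

set_option autoImplicit false

/-!
# MP_8b8716_co, project HN, module Fld: admissible fields, constructible numbers
-/

noncomputable section

namespace Pool.Agent.MP_8b8716_co_HN

open Complex

/-- the complex numbers with coordinates in `F` -/
def fldPlane (F : Subfield ℝ) : Subfield ℂ where
  carrier := {z | z.re ∈ F ∧ z.im ∈ F}
  mul_mem' := by
    rintro a b ⟨ha, ha'⟩ ⟨hb, hb'⟩
    refine ⟨?_, ?_⟩
    · rw [mul_re]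
      exact F.sub_mem (F.mul_mem ha hb) (F.mul_mem ha' hb')
    · rw [mul_im]
      exact F.add_mem (F.mul_mem ha hb') (F.mul_mem ha' hb)
  one_mem' := ⟨by simp [F.one_mem], by simp [F.zero_mem]⟩
  add_mem' := by
    rintro a b ⟨ha, ha'⟩ ⟨hb, hb'⟩
    exact ⟨by rw [add_re]; exact F.add_mem ha hb, by rw [add_im]; exact F.add_mem ha' hb'⟩
  zero_mem' := ⟨by simp [F.zero_mem], by simp [F.zero_mem]⟩
  neg_mem' := by
    rintro a ⟨ha, ha'⟩
    exact ⟨by rw [neg_re]; exact F.neg_mem ha, by rw [neg_im]; exact F.neg_mem ha'⟩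
  inv_mem' := by
    rintro a ⟨ha, ha'⟩
    have hn : normSq a ∈ F := by
      rw [normSq_apply]
      exact F.add_mem (F.mul_mem ha ha) (F.mul_mem ha' ha')
    exact ⟨by rw [inv_re]; exact F.div_mem ha hn, by rw [inv_im]; exact F.div_mem (F.neg_mem ha') hn⟩

theorem mem_fldPlane {F : Subfield ℝ} {z : ℂ} : z ∈ fldPlane F ↔ z.re ∈ F ∧ z.im ∈ F := Iff.rfl

theorem ofReal_mem_fldPlane {F : Subfield ℝ} {x : ℝ} : (x : ℂ) ∈ fldPlane F ↔ x ∈ F := by
  rw [mem_fldPlane, ofReal_re, ofReal_im]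
  exact ⟨fun h => h.1, fun h => ⟨h, F.zero_mem⟩⟩

theorem isAlgebraic_I_fld : IsAlgebraic ℚ (I : ℂ) := by
  apply IsAlgebraic.of_pow (n := 2) (by norm_num)
  rw [I_sq]
  exact isAlgebraic_one.neg

theorem mem_fldAlg {x : ℝ} : x ∈ (algebraicClosure ℚ ℝ).toSubfield ↔ IsAlgebraic ℚ x := by
  rw [IntermediateField.mem_toSubfield, mem_algebraicClosure_iff]

/-- the points of the unit circle for the primes `1` modulo `4` -/
theorem fld_tors_one {l : ℕ} (hl : l.Prime) (h4 : l % 4 = 1) :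
    ∃ q y : ℚ, q ^ 2 + y ^ 2 = 1 ∧ padicValRat l (2 * q) < 0 := by
  have := Fact.mk hl
  obtain ⟨a, b, hab⟩ := Nat.Prime.sq_add_sq (p := l) (by omega)
  have hl0 : (l : ℚ) ≠ 0 := by exact_mod_cast hl.ne_zero
  have habq : (a : ℚ) ^ 2 + (b : ℚ) ^ 2 = l := by exact_mod_cast hab
  refine ⟨((a : ℚ) ^ 2 - (b : ℚ) ^ 2) / l, 2 * a * b / l, ?_, ?_⟩
  · rw [div_pow, div_pow, ← add_div, ← habq]
    rw [div_eq_one_iff_eq (by rw [habq]; positivity)]
    ring
  · have hnd : ¬ ((l : ℤ) ∣ 2 * ((a : ℤ) ^ 2 - (b : ℤ) ^ 2)) := by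
      intro h
      have hp : Prime (l : ℤ) := Nat.prime_iff_prime_int.1 hl
      have habz : (a : ℤ) ^ 2 + (b : ℤ) ^ 2 = l := by exact_mod_cast hab
      have h2 : ¬ ((l : ℤ) ∣ 2) := by
        intro h2
        have h3 : l ∣ 2 := by exact_mod_cast h2
        have h4' : l ≤ 2 := Nat.le_of_dvd (by norm_num) h3
        have h5' := hl.one_lt
        omega
      have h3 : (l : ℤ) ∣ (a : ℤ) ^ 2 - (b : ℤ) ^ 2 := (hp.dvd_or_dvd h).resolve_left h2
      have h5 : (l : ℤ) ∣ 2 * (a : ℤ) ^ 2 := by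
        have : 2 * (a : ℤ) ^ 2 = ((a : ℤ) ^ 2 - (b : ℤ) ^ 2) + l := by rw [← habz]; ring
        rw [this]
        exact dvd_add h3 (dvd_refl _)
      have h6 : (l : ℤ) ∣ a := hp.dvd_of_dvd_pow ((hp.dvd_or_dvd h5).resolve_left h2)
      have h6' : l ∣ a := by exact_mod_cast h6
      have h7 : l ∣ b ^ 2 := by
        have h8 : l ∣ a ^ 2 + b ^ 2 := by rw [hab]
        exact (Nat.dvd_add_right (dvd_pow h6' two_ne_zero)).1 h8
      have h8 : l ∣ b := hl.dvd_of_dvd_pow h7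
      have h9 : l ^ 2 ∣ l := by
        conv_rhs => rw [← hab]
        exact dvd_add (pow_dvd_pow_of_dvd h6' 2) (pow_dvd_pow_of_dvd h8 2)
      have h10 := Nat.le_of_dvd hl.pos h9
      have h11 := hl.one_lt
      nlinarith
    have hne : (2 * ((a : ℤ) ^ 2 - (b : ℤ) ^ 2)) ≠ 0 := fun h => hnd (by rw [h]; exact dvd_zero _)
    have e : 2 * (((a : ℚ) ^ 2 - (b : ℚ) ^ 2) / l) =
        ((2 * ((a : ℤ) ^ 2 - (b : ℤ) ^ 2) : ℤ) : ℚ) / (l : ℚ) := by
      push_cast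
      ring
    rw [e, padicValRat.div (by exact_mod_cast hne) hl0, padicValRat.of_int,
      padicValInt.eq_zero_of_not_dvd hnd, padicValRat.self hl.one_lt]
    norm_num

theorem Adm.exists_euc {F : Subfield ℝ} (hF : Adm F) :
    ∃ E : Subfield ℂ, Euc E ∧ (∀ l : ℕ, l.Prime → PtAt E l) ∧ ∀ z ∈ E, z.re ∈ F ∧ z.im ∈ F := by
  set A : Subfield ℝ := F ⊓ (algebraicClosure ℚ ℝ).toSubfield with hA
  have hmem : ∀ x : ℝ, x ∈ A ↔ x ∈ F ∧ IsAlgebraic ℚ x := fun x => by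
    rw [hA, Subfield.mem_inf, mem_fldAlg]
  have halg : ∀ z ∈ fldPlane A, IsAlgebraic ℚ z := by
    intro z hz
    rw [mem_fldPlane, hmem, hmem] at hz
    have h1 : IsAlgebraic ℚ ((z.re : ℝ) : ℂ) := hz.1.2.algebraMap (A := ℂ)
    have h2 : IsAlgebraic ℚ ((z.im : ℝ) : ℂ) := hz.2.2.algebraMap (A := ℂ)
    rw [← re_add_im z]
    exact h1.add (h2.mul isAlgebraic_I_fld)
  refine ⟨fldPlane A, ⟨?_, ?_, halg, ?_⟩, ?_, fun z hz => ?_⟩
  · rw [mem_fldPlane, I_re, I_im]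
    exact ⟨A.zero_mem, A.one_mem⟩
  · intro z hz
    exact ofReal_mem_fldPlane.2 hz.1
  · have hc : ({z : ℂ | IsAlgebraic ℚ z}).Countable := Algebraic.countable ℚ ℂ
    exact (hc.mono (s₁ := (fldPlane A : Set ℂ)) halg).to_subtype
  · intro l hl
    by_cases h4 : l % 4 = 1
    · obtain ⟨q, y, h1, h2⟩ := fld_tors_one hl h4
      exact ⟨q, y, ofReal_mem_fldPlane.2 (SubfieldClass.ratCast_mem A y), by exact_mod_cast h1, h2⟩
    · obtain ⟨q, y, hy, h1, h2⟩ := hF l hl h4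
      refine ⟨q, y, ofReal_mem_fldPlane.2 ((hmem y).2 ⟨hy, ?_⟩), h1, h2⟩
      apply IsAlgebraic.of_pow (n := 2) (by norm_num)
      have e : y ^ 2 = algebraMap ℚ ℝ (1 - q ^ 2) := by
        rw [eq_ratCast]
        push_cast
        linarith
      rw [e]
      exact isAlgebraic_algebraMap _
  · rw [mem_fldPlane, hmem, hmem] at hz
    exact ⟨hz.1.1, hz.2.1⟩

theorem sqrt_mem_Constr {x : ℝ} (hx : x ∈ Constr) (h0 : 0 ≤ x) : Real.sqrt x ∈ Constr := by
  rw [Constr, Subfield.mem_sInf] at hx ⊢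
  intro F hF
  exact hF x (hx F hF) h0

theorem adm_Constr : Adm Constr := by
  intro l hl _
  have := Fact.mk hl
  have hl0 : (0 : ℝ) < l := by exact_mod_cast hl.pos
  have hl1 : (1 : ℝ) ≤ l := by exact_mod_cast hl.one_lt.le
  set q : ℚ := 1 / (2 * l) with hq
  have hqr : (q : ℝ) = 1 / (2 * l) := by rw [hq]; push_cast; ring
  have hq1 : (q : ℝ) ≤ 1 := by
    rw [hqr, div_le_one (by positivity)]
    linarith
  have hq0 : 0 ≤ (q : ℝ) := by rw [hqr]; positivity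
  have h1 : 0 ≤ 1 - (q : ℝ) ^ 2 := by nlinarith
  refine ⟨q, Real.sqrt (1 - (q : ℝ) ^ 2), ?_, ?_, ?_⟩
  · apply sqrt_mem_Constr _ h1
    have hqm : (q : ℝ) ∈ Constr := SubfieldClass.ratCast_mem Constr q
    exact Constr.sub_mem Constr.one_mem (Constr.pow_mem hqm 2)
  · rw [Real.sq_sqrt h1]
    ring
  · have h2 : 2 * q = (l : ℚ)⁻¹ := by
      rw [hq]
      have : (l : ℚ) ≠ 0 := by exact_mod_cast hl.ne_zero
      field_simp
    rw [h2, padicValRat.inv, padicValRat.self hl.one_lt]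
    norm_num

theorem pt_of_sqrt {F : Subfield ℝ} {l : ℕ} (hl : l.Prime) (h : Real.sqrt (8 * l - 1) ∈ F) :
    ∃ q : ℚ, ∃ y ∈ F, (q : ℝ) ^ 2 + y ^ 2 = 1 ∧ padicValRat l (2 * q) < 0 := by
  have := Fact.mk hl
  have hl0 : (l : ℝ) ≠ 0 := by exact_mod_cast hl.ne_zero
  have hl1 : (1 : ℝ) ≤ l := by exact_mod_cast hl.one_lt.le
  have hlq : (l : ℚ) ≠ 0 := by exact_mod_cast hl.ne_zero
  refine ⟨(1 - 4 * l) / (4 * l), Real.sqrt (8 * l - 1) / (4 * l), ?_, ?_, ?_⟩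
  · have hlF : (l : ℝ) ∈ F := natCast_mem F l
    have h4F : (4 : ℝ) ∈ F := by exact_mod_cast natCast_mem F 4
    exact F.div_mem h (F.mul_mem h4F hlF)
  · rw [div_pow, Real.sq_sqrt (by linarith)]
    push_cast
    field_simp
    ring
  · have hnd : ¬ ((l : ℤ) ∣ 1 - 4 * (l : ℤ)) := by
      intro h'
      have h1 : (l : ℤ) ∣ 1 := by
        have : (1 : ℤ) = (1 - 4 * (l : ℤ)) + l * 4 := by ring
        rw [this]
        exact dvd_add h' (dvd_mul_right _ _)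
      have h2 : l ∣ 1 := by exact_mod_cast h1
      exact hl.one_lt.ne' (Nat.dvd_one.1 h2)
    have hne : (1 - 4 * (l : ℤ)) ≠ 0 := fun h' => hnd (by rw [h']; exact dvd_zero _)
    have e : 2 * ((1 - 4 * (l : ℚ)) / (4 * l)) = ((1 - 4 * (l : ℤ) : ℤ) : ℚ) / (((2 : ℤ) : ℚ) * l) := by
      push_cast
      field_simp
      norm_num
    have h2 : 0 ≤ padicValRat l ((2 : ℤ) : ℚ) := by
      rw [padicValRat.of_int]
      positivity
    rw [e, padicValRat.div (by exact_mod_cast hne) (mul_ne_zero (by norm_num) hlq),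
      padicValRat.mul (by norm_num) hlq, padicValRat.of_int,
      padicValInt.eq_zero_of_not_dvd hnd, padicValRat.self hl.one_lt]
    push_cast at h2 ⊢
    linarith

theorem adm_of_sqrt {F : Subfield ℝ} (h : ∀ l : ℕ, l.Prime → l % 4 ≠ 1 → Real.sqrt (8 * l - 1) ∈ F) :
    Adm F := fun l hl h4 => pt_of_sqrt hl (h l hl h4)

end Pool.Agent.MP_8b8716_co_HN
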