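import Mathlib
import Pool.Agent.Lib.MP_8b8716_co_HN.Defs
import Pool.Agent.Lib.MP_8b8716_co.Mean

set_option autoImplicit false

/-!
# MP_8b8716_co, project HN: the invariant random colouring (module InvCol)
-/

noncomputable section

namespace Pool.Agent.MP_8b8716_co_HN

open Complex MeasureTheory Filter Topology Set
open scoped ENNReal CompactlySupported

/-- the group of the elements of `E` of modulus one -/
private def invColUnits (E : Subfield ℂ) : Subgroup Eˣ where
  carrier := {u | ‖((u : E) : ℂ)‖ = 1}
  mul_mem' := by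
    intro a b ha hb
    simp only [Set.mem_ofPred_eq] at ha hb ⊢
    rw [Units.val_mul, Subfield.coe_mul, norm_mul, ha, hb, mul_one]
  one_mem' := by simp
  inv_mem' := by
    intro a ha
    simp only [Set.mem_ofPred_eq] at ha ⊢
    rw [Units.val_inv_eq_inv_val]
    have : (((a : E)⁻¹ : E) : ℂ) = ((a : E) : ℂ)⁻¹ := map_inv₀ E.subtype _
    rw [this, norm_inv, ha, inv_one]

/-- the coloring `κ` moved by an affine map -/
private def invColMove {E : Subfield ℂ} {k : ℕ} (κ : E → Fin k) (c b : E) : E → Fin k :=
  fun z => κ (c * z + b)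

/-- a positive functional on the continuous functions on a compact space, given as an additive
functional of norm at most one with value one at the constant one, comes from a probability
measure -/
private theorem invCol_riesz {X : Type*} [TopologicalSpace X] [T2Space X] [CompactSpace X]
    [MeasurableSpace X] [BorelSpace X] (Φ : C(X, ℝ) → ℝ)
    (hadd : ∀ f g, Φ (f + g) = Φ f + Φ g) (hb : ∀ f C, (∀ x, |f x| ≤ C) → |Φ f| ≤ C)
    (h1 : ∀ f : C(X, ℝ), ∀ c : ℝ, (∀ x, f x = c) → Φ f = c) :
    ∃ μ : Measure X, IsProbabilityMeasure μ ∧ ∀ f : C(X, ℝ), ∫ x, f x ∂μ = Φ f := by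
  let A : C(X, ℝ) →+ ℝ := AddMonoidHom.mk' Φ hadd
  have hA : Continuous A := by
    refine AddMonoidHomClass.continuous_of_bound A 1 fun f => ?_
    rw [one_mul]
    exact hb f ‖f‖ fun x => by
      rw [← Real.norm_eq_abs]
      exact f.norm_coe_le_norm x
  let L : C(X, ℝ) →L[ℝ] ℝ := A.toRealLinearMap hA
  have hL : ∀ f, L f = Φ f := fun f => rfl
  have hpos : ∀ f : C(X, ℝ), (∀ x, 0 ≤ f x) → 0 ≤ Φ f := by
    intro f hf
    have h2 : f = (f - ContinuousMap.const X (‖f‖ / 2)) + ContinuousMap.const X (‖f‖ / 2) := by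
      simp
    have h3 : Φ (ContinuousMap.const X (‖f‖ / 2)) = ‖f‖ / 2 := h1 _ _ fun x => rfl
    have h4 : |Φ (f - ContinuousMap.const X (‖f‖ / 2))| ≤ ‖f‖ / 2 := by
      refine hb _ _ fun x => ?_
      have h5 := hf x
      have h6 : f x ≤ ‖f‖ := (le_abs_self _).trans (by
        rw [← Real.norm_eq_abs]
        exact f.norm_coe_le_norm x)
      simp only [ContinuousMap.sub_apply, ContinuousMap.const_apply]
      rw [abs_le]
      constructor <;> linarith
    rw [h2, hadd, h3]
    have := (abs_le.1 h4).1
    linarith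
  let Λ0 : C_c(X, ℝ) →ₗ[ℝ] ℝ :=
    { toFun := fun f => L f.toContinuousMap
      map_add' := fun f g => by
        rw [← map_add]
        rfl
      map_smul' := fun c f => by
        rw [RingHom.id_apply, ← map_smul]
        rfl }
  let Λ : C_c(X, ℝ) →ₚ[ℝ] ℝ := PositiveLinearMap.mk₀ Λ0 (by
    intro f hf
    exact hpos _ fun x => hf x)
  have hΛ : ∀ f : C_c(X, ℝ), Λ f = Φ f.toContinuousMap := fun f => rfl
  have hint : ∀ f : C(X, ℝ), ∫ x, f x ∂(RealRMK.rieszMeasure Λ) = Φ f := by
    intro f
    have h2 := RealRMK.integral_rieszMeasure Λ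
      (CompactlySupportedContinuousMap.mk f (HasCompactSupport.of_compactSpace f))
    rw [hΛ] at h2
    exact h2
  have hfin : IsFiniteMeasure (RealRMK.rieszMeasure Λ) := inferInstance
  refine ⟨RealRMK.rieszMeasure Λ, ⟨?_⟩, hint⟩
  have h2 := hint (ContinuousMap.const X 1)
  rw [h1 _ 1 fun x => rfl] at h2
  simp only [ContinuousMap.const_apply, integral_const, smul_eq_mul, mul_one] at h2
  rw [Measure.real, ENNReal.toReal_eq_one_iff] at h2
  exact h2

theorem exists_randCol {E : Subfield ℂ} (hE : Countable E) {k : ℕ} (κ : E → Fin k)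
    (hκ : ∀ z w : E, ‖(z : ℂ) - w‖ = 1 → κ z ≠ κ w) : ∃ μ, RandCol E k μ := by
  classical
  obtain ⟨mE, hEadd, hEb, hE1, hEinv⟩ := Pool.Agent.MP8b8716.ME.exists_mean E
  obtain ⟨mC, hCadd, hCb, hC1, hCinv⟩ :=
    Pool.Agent.MP8b8716.ME.exists_mean (Additive (invColUnits E))
  let val : Additive (invColUnits E) → E := fun c => (((Additive.toMul c : invColUnits E) : Eˣ) : E)
  have hval : ∀ c, ‖(val c : ℂ)‖ = 1 := fun c => (Additive.toMul c).2
  let In : C(E → Fin k, ℝ) → Additive (invColUnits E) → ℝ :=
    fun f c => mE fun b => f (invColMove κ (val c) b)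
  have hbd : ∀ f : C(E → Fin k, ℝ), ∀ x, |f x| ≤ ‖f‖ := fun f x => by
    rw [← Real.norm_eq_abs]
    exact f.norm_coe_le_norm x
  obtain ⟨μ, hμ1, hμ⟩ := invCol_riesz (X := E → Fin k) (fun f => mC (In f)) (by
      intro f g
      have h2 : In (f + g) = fun c => In f c + In g c := by
        funext c
        exact hEadd _ _ ⟨‖f‖, fun b => hbd f _⟩ ⟨‖g‖, fun b => hbd g _⟩
      show mC (In (f + g)) = mC (In f) + mC (In g)
      rw [h2]
      exact hCadd _ _ ⟨‖f‖, fun c => hEb _ _ fun b => hbd f _⟩
        ⟨‖g‖, fun c => hEb _ _ fun b => hbd g _⟩) (by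
      intro f C hC
      exact hCb _ _ fun c => hEb _ _ fun b => hC _) (by
      intro f c hc
      have h2 : In f = fun _ => c := by
        funext d
        have h3 : (fun b => f (invColMove κ (val d) b)) = fun _ => c := by
          funext b
          exact hc _
        show mE (fun b => f (invColMove κ (val d) b)) = c
        rw [h3]
        exact hE1 c
      show mC (In f) = c
      rw [h2]
      exact hC1 c)
  refine ⟨μ, hμ1, ?_, ?_⟩
  · intro z w hzw
    have hcont : Continuous fun ω : E → Fin k => if ω z = ω w then (1 : ℝ) else 0 := by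
      have h2 : Continuous fun p : Fin k × Fin k => if p.1 = p.2 then (1 : ℝ) else 0 :=
        continuous_of_discreteTopology
      have h3 : Continuous fun ω : E → Fin k => (ω z, ω w) := by fun_prop
      exact h2.comp h3
    let f : C(E → Fin k, ℝ) := ⟨_, hcont⟩
    have h2 : In f = fun _ => 0 := by
      funext c
      have h3 : (fun b => f (invColMove κ (val c) b)) = fun _ => 0 := by
        funext b
        show (if κ (val c * z + b) = κ (val c * w + b) then (1 : ℝ) else 0) = 0
        rw [if_neg]
        apply hκ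
        have h4 : (((val c * z + b : E) : ℂ) - ((val c * w + b : E) : ℂ)) =
            (val c : ℂ) * ((z : ℂ) - w) := by
          simp only [Subfield.coe_add, Subfield.coe_mul]
          ring
        rw [h4, norm_mul, hval, hzw, one_mul]
      show mE (fun b => f (invColMove κ (val c) b)) = 0
      rw [h3]
      exact hE1 0
    have h3 : ∫ ω, f ω ∂μ = 0 := by
      rw [hμ]
      show mC (In f) = 0
      rw [h2]
      exact hC1 0
    have hms : MeasurableSet {ω : E → Fin k | ω z = ω w} :=
      measurableSet_eq_fun (measurable_pi_apply z) (measurable_pi_apply w)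
    have h4 : ∫ ω, f ω ∂μ = μ.real {ω : E → Fin k | ω z = ω w} := by
      rw [← integral_indicator_one hms]
      refine integral_congr_ae (Eventually.of_forall fun ω => ?_)
      show (if ω z = ω w then (1 : ℝ) else 0) = _
      simp only [Set.indicator_apply, Set.mem_ofPred_eq, Pi.one_apply]
    rw [h4, Measure.real, ENNReal.toReal_eq_zero_iff] at h3
    rcases h3 with h3 | h3
    · exact h3
    · exact absurd h3 (measure_ne_top μ _)
  · intro c0 b0 hc0
    have hc00 : c0 ≠ 0 := by
      rintro rfl
      simp at hc0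
    let u0 : Additive (invColUnits E) := Additive.ofMul ⟨Units.mk0 c0 hc00, hc0⟩
    have hu0 : ∀ c, val (c + u0) = val c * c0 := fun c => rfl
    let T : (E → Fin k) → E → Fin k := fun ω z => ω (c0 * z + b0)
    have hT : Continuous T := continuous_pi fun z => continuous_apply _
    have hTm : Measurable T := measurable_pi_lambda _ fun z => measurable_pi_apply _
    refine ⟨hTm, ?_⟩
    have : IsProbabilityMeasure (μ.map T) := Measure.isProbabilityMeasure_map hTm.aemeasurable
    refine ext_of_forall_integral_eq_of_IsFiniteMeasure fun f => ?_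
    rw [integral_map hTm.aemeasurable f.continuous.aestronglyMeasurable]
    let f1 : C(E → Fin k, ℝ) := f.toContinuousMap
    let f2 : C(E → Fin k, ℝ) := ⟨fun ω => f (T ω), f.continuous.comp hT⟩
    have h2 : ∫ ω, f (T ω) ∂μ = mC (In f2) := hμ f2
    have h3 : ∫ ω, f ω ∂μ = mC (In f1) := hμ f1
    show ∫ ω, f (T ω) ∂μ = ∫ ω, f ω ∂μ
    rw [h2, h3]
    have h4 : In f2 = fun c => In f1 (c + u0) := by
      funext c
      show mE (fun b => f (T (invColMove κ (val c) b))) =
        mE (fun b => f (invColMove κ (val (c + u0)) b))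
      have h5 : (fun b => f (T (invColMove κ (val c) b))) =
          fun b => (fun b' => f (invColMove κ (val (c + u0)) b')) (b + val c * b0) := by
        funext b
        show f (T (invColMove κ (val c) b)) = f (invColMove κ (val (c + u0)) (b + val c * b0))
        congr 1
        funext z
        show κ (val c * (c0 * z + b0) + b) = κ (val (c + u0) * z + (b + val c * b0))
        congr 1
        rw [hu0]
        ring
      rw [h5]
      exact hEinv _ _ ⟨‖f1‖, fun b => hbd f1 _⟩
    rw [h4]
    exact hCinv _ _ ⟨‖f1‖, fun c => hEb _ _ fun b => hbd f1 _⟩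

end Pool.Agent.MP_8b8716_co_HN
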