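import Mathlib
import Pool.Agent.Lib.MP_8b8716_co_HN.Defs

set_option autoImplicit false

/-!
# MP_8b8716_co, project HN: from almost everywhere proper to everywhere proper
-/

noncomputable section

namespace Pool.Agent.MP_8b8716_co_HN

open Complex MeasureTheory Filter Topology Set
open scoped ENNReal

/-- the boxes -/
private def MeasB_box (r : ℝ) : Set (ℂ × ℝ) :=
  Metric.closedBall (0 : ℂ) r ×ˢ Metric.closedBall (0 : ℝ) r

private theorem MeasB_vol (r : ℝ) : volume (MeasB_box r) =
    volume (Metric.closedBall (0 : ℂ) r) * volume (Metric.closedBall (0 : ℝ) r) := by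
  unfold MeasB_box
  rw [Measure.volume_eq_prod, Measure.prod_prod]

private theorem MeasB_pos {r : ℝ} (hr : 0 < r) : volume (MeasB_box r) ≠ 0 := by
  rw [MeasB_vol]
  exact mul_ne_zero (Metric.measure_closedBall_pos volume _ hr).ne'
    (Metric.measure_closedBall_pos volume _ hr).ne'

private theorem MeasB_fin (r : ℝ) : volume (MeasB_box r) ≠ ∞ := by
  rw [MeasB_vol]
  exact ENNReal.mul_ne_top measure_closedBall_lt_top.ne measure_closedBall_lt_top.ne

/-- the sets of density one at the origin -/
private def MeasB_filter : Filter (ℂ × ℝ) where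
  sets := {A | ∀ ε : ℝ≥0∞, 0 < ε → ∀ᶠ r : ℝ in 𝓝[>] 0,
    volume (Aᶜ ∩ MeasB_box r) ≤ ε * volume (MeasB_box r)}
  univ_sets := by
    intro ε _
    simp
  sets_of_superset := by
    intro A B hA hAB ε hε
    filter_upwards [hA ε hε] with r hr
    exact (measure_mono (inter_subset_inter_left _ (compl_subset_compl.2 hAB))).trans hr
  inter_sets := by
    intro A B hA hB ε hε
    filter_upwards [hA (ε / 2) (ENNReal.half_pos hε.ne'), hB (ε / 2) (ENNReal.half_pos hε.ne')]
      with r h1 h2
    calc volume ((A ∩ B)ᶜ ∩ MeasB_box r)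
        ≤ volume (Aᶜ ∩ MeasB_box r ∪ Bᶜ ∩ MeasB_box r) := by
          apply measure_mono
          rw [compl_inter, union_inter_distrib_right]
      _ ≤ volume (Aᶜ ∩ MeasB_box r) + volume (Bᶜ ∩ MeasB_box r) := measure_union_le _ _
      _ ≤ ε / 2 * volume (MeasB_box r) + ε / 2 * volume (MeasB_box r) := add_le_add h1 h2
      _ = ε * volume (MeasB_box r) := by rw [← add_mul, ENNReal.add_halves]

private theorem MeasB_mem {A : Set (ℂ × ℝ)} : A ∈ MeasB_filter ↔ ∀ ε : ℝ≥0∞, 0 < ε →
    ∀ᶠ r : ℝ in 𝓝[>] 0, volume (Aᶜ ∩ MeasB_box r) ≤ ε * volume (MeasB_box r) := Iff.rfl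

private instance MeasB_neBot : NeBot MeasB_filter := by
  constructor
  intro h
  have h0 : (∅ : Set (ℂ × ℝ)) ∈ MeasB_filter := by
    rw [h]
    exact mem_bot
  rw [MeasB_mem] at h0
  have h1 := h0 (1 / 2) (by simp)
  obtain ⟨r, hr, hr0⟩ := (h1.and self_mem_nhdsWithin).exists
  rw [compl_empty, univ_inter] at hr
  have h2 := MeasB_pos hr0
  have h3 := MeasB_fin r
  have h4 : (1 / 2 : ℝ≥0∞) * volume (MeasB_box r) < volume (MeasB_box r) := by
    calc (1 / 2 : ℝ≥0∞) * volume (MeasB_box r) = volume (MeasB_box r) / 2 := by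
          rw [one_div, mul_comm, div_eq_mul_inv]
      _ < volume (MeasB_box r) := ENNReal.half_lt_self h2 h3
  exact absurd hr (not_le.2 h4)

private theorem MeasB_null {A : Set (ℂ × ℝ)} (h : volume Aᶜ = 0) : A ∈ MeasB_filter := by
  rw [MeasB_mem]
  intro ε _
  refine Eventually.of_forall fun r => ?_
  rw [measure_mono_null inter_subset_left h]
  exact bot_le

private theorem MeasB_dens {A : Set ℂ} (hA : MeasurableSet A) {p : ℂ}
    (h : Tendsto (fun r => volume (Aᶜ ∩ Metric.closedBall p r) / volume (Metric.closedBall p r))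
      (𝓝[>] 0) (𝓝 0)) :
    {x : ℂ × ℝ | Complex.exp (x.2 * I) * p + x.1 ∈ A} ∈ MeasB_filter := by
  rw [MeasB_mem]
  intro ε hε
  set C : ℝ := ‖p‖ + 1 with hC
  have hC0 : 0 < C := by positivity
  set C2 : ℝ≥0∞ := ENNReal.ofReal (C ^ 2) with hC2
  have hC20 : C2 ≠ 0 := by
    rw [hC2]
    simp only [ne_eq, ENNReal.ofReal_eq_zero, not_le]
    positivity
  have hC2t : C2 ≠ ∞ := ENNReal.ofReal_ne_top
  have hε' : 0 < ε / C2 := ENNReal.div_pos hε.ne' hC2t
  have hlim : Tendsto (fun r : ℝ => C * r) (𝓝[>] 0) (𝓝[>] 0) := by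
    apply tendsto_nhdsWithin_of_tendsto_nhds_of_eventually_within
    · have : Tendsto (fun r : ℝ => C * r) (𝓝 0) (𝓝 (C * 0)) :=
        (continuous_const.mul continuous_id).tendsto 0
      rw [mul_zero] at this
      exact this.mono_left nhdsWithin_le_nhds
    · filter_upwards [self_mem_nhdsWithin] with r hr
      exact mul_pos hC0 hr
  have h1 := (h.comp hlim).eventually (gt_mem_nhds hε')
  filter_upwards [h1, self_mem_nhdsWithin] with r hr hr0
  have hr0' : (0 : ℝ) < r := hr0
  simp only [Function.comp_apply] at hr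
  have hv0 : volume (Metric.closedBall p (C * r)) ≠ 0 :=
    (Metric.measure_closedBall_pos volume _ (mul_pos hC0 hr0)).ne'
  have hvt : volume (Metric.closedBall p (C * r)) ≠ ∞ := measure_closedBall_lt_top.ne
  have h2 : volume (Aᶜ ∩ Metric.closedBall p (C * r)) ≤
      ε * volume (Metric.closedBall (0 : ℂ) r) := by
    have h3 : volume (Aᶜ ∩ Metric.closedBall p (C * r)) ≤
        ε / C2 * volume (Metric.closedBall p (C * r)) := by
      rw [ENNReal.div_lt_iff (Or.inl hv0) (Or.inl hvt)] at hr
      exact hr.le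
    rw [Measure.addHaar_closedBall_mul volume p hC0.le hr0'.le, Complex.finrank_real_complex,
      ← hC2, ← mul_assoc, ENNReal.div_mul_cancel hC20 hC2t] at h3
    exact h3
  have hmeas : MeasurableSet ({x : ℂ × ℝ | Complex.exp (x.2 * I) * p + x.1 ∈ A}ᶜ ∩
      MeasB_box r) := by
    apply MeasurableSet.inter
    · apply MeasurableSet.compl
      have : Measurable fun x : ℂ × ℝ => Complex.exp (x.2 * I) * p + x.1 := by
        apply Continuous.measurable
        fun_prop
      exact this hA
    · exact Metric.isClosed_closedBall.measurableSet.prod Metric.isClosed_closedBall.measurableSet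
  rw [MeasB_vol, Measure.volume_eq_prod, Measure.prod_apply_symm hmeas]
  calc ∫⁻ y : ℝ, volume ((fun x => (x, y)) ⁻¹'
        ({x : ℂ × ℝ | Complex.exp (x.2 * I) * p + x.1 ∈ A}ᶜ ∩ MeasB_box r))
      ≤ ∫⁻ y : ℝ, (Metric.closedBall (0 : ℝ) r).indicator
          (fun _ => volume (Aᶜ ∩ Metric.closedBall p (C * r))) y := by
        apply lintegral_mono
        intro y
        by_cases hy : y ∈ Metric.closedBall (0 : ℝ) r
        · rw [indicator_of_mem hy]
          calc volume ((fun x => (x, y)) ⁻¹'
                ({x : ℂ × ℝ | Complex.exp (x.2 * I) * p + x.1 ∈ A}ᶜ ∩ MeasB_box r))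
              ≤ volume ((fun b : ℂ => Complex.exp (y * I) * p + b) ⁻¹'
                (Aᶜ ∩ Metric.closedBall p (C * r))) := by
                apply measure_mono
                rintro b ⟨hb1, hb2, _⟩
                refine ⟨hb1, ?_⟩
                simp only [mem_closedBall_iff_norm, sub_zero] at hb2 hy ⊢
                have h5 : Complex.exp (y * I) * p + b - p =
                    (Complex.exp (I * y) - 1) * p + b := by
                  rw [mul_comm I]
                  ring
                rw [h5]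
                have h6 : ‖Complex.exp (I * y) - 1‖ ≤ ‖y‖ :=
                  Real.norm_exp_I_mul_ofReal_sub_one_le
                calc ‖(Complex.exp (I * y) - 1) * p + b‖
                    ≤ ‖Complex.exp (I * y) - 1‖ * ‖p‖ + ‖b‖ := by
                      rw [← norm_mul]
                      exact norm_add_le _ _
                  _ ≤ r * ‖p‖ + r := by
                      gcongr
                      exact h6.trans hy
                  _ = C * r := by
                      rw [hC]
                      ring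
            _ = volume (Aᶜ ∩ Metric.closedBall p (C * r)) := measure_preimage_add volume _ _
        · rw [indicator_of_notMem hy]
          have : (fun x => (x, y)) ⁻¹'
              ({x : ℂ × ℝ | Complex.exp (x.2 * I) * p + x.1 ∈ A}ᶜ ∩ MeasB_box r) = ∅ := by
            ext x
            simp only [mem_preimage, mem_inter_iff, mem_empty_iff_false, iff_false, not_and]
            intro _ hx
            exact hy hx.2
          change volume ((fun x => (x, y)) ⁻¹'
              ({x : ℂ × ℝ | Complex.exp (x.2 * I) * p + x.1 ∈ A}ᶜ ∩ MeasB_box r)) ≤ 0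
          rw [this, measure_empty]
    _ = volume (Aᶜ ∩ Metric.closedBall p (C * r)) * volume (Metric.closedBall (0 : ℝ) r) := by
        rw [lintegral_indicator Metric.isClosed_closedBall.measurableSet, lintegral_const,
          Measure.restrict_apply_univ]
    _ ≤ ε * volume (Metric.closedBall (0 : ℂ) r) * volume (Metric.closedBall (0 : ℝ) r) := by
        gcongr
    _ = ε * (volume (Metric.closedBall (0 : ℂ) r) * volume (Metric.closedBall (0 : ℝ) r)) := by
        rw [mul_assoc]

private theorem MeasB_skew {N : Set (ℂ × ℝ)} (hN : MeasurableSet N) (h0 : volume N = 0)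
    (p : ℂ) (ψ : ℝ) :
    volume ((fun x : ℂ × ℝ => (Complex.exp (x.2 * I) * p + x.1, x.2 + ψ)) ⁻¹' N) = 0 := by
  have hc : Measurable fun x : ℂ × ℝ => (Complex.exp (x.2 * I) * p + x.1, x.2 + ψ) := by
    apply Continuous.measurable
    fun_prop
  rw [Measure.volume_eq_prod, Measure.prod_apply_symm (hc hN)]
  rw [Measure.volume_eq_prod, Measure.prod_apply_symm hN] at h0
  have h1 : ∀ y : ℝ, volume ((fun x : ℂ => (x, y)) ⁻¹'
      ((fun x : ℂ × ℝ => (Complex.exp (x.2 * I) * p + x.1, x.2 + ψ)) ⁻¹' N)) =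
      volume ((fun x : ℂ => (x, y + ψ)) ⁻¹' N) := by
    intro y
    have : (fun x : ℂ => (x, y)) ⁻¹'
      ((fun x : ℂ × ℝ => (Complex.exp (x.2 * I) * p + x.1, x.2 + ψ)) ⁻¹' N) =
      (fun b : ℂ => Complex.exp (y * I) * p + b) ⁻¹' ((fun x : ℂ => (x, y + ψ)) ⁻¹' N) := rfl
    rw [this, measure_preimage_add]
  simp_rw [h1]
  rw [lintegral_add_right_eq_self (fun y : ℝ => volume ((fun x : ℂ => (x, y)) ⁻¹' N)) ψ]
  exact h0

theorem upgrade {k : ℕ} (κ : ℂ → Fin k) (hm : Measurable κ)
    (h : ∀ᵐ p : ℂ × ℝ, κ p.1 ≠ κ (p.1 + Complex.exp (p.2 * I))) :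
    ∃ κ' : ℂ → Fin k, (∀ i, NullMeasurableSet (κ' ⁻¹' {i})) ∧
      ∀ z w : ℂ, ‖z - w‖ = 1 → κ' z ≠ κ' w := by
  let U : Ultrafilter (ℂ × ℝ) := Ultrafilter.of MeasB_filter
  have hU : ∀ A ∈ MeasB_filter, A ∈ U := fun A hA => Ultrafilter.of_le MeasB_filter hA
  have hex : ∀ p : ℂ, ∃ i : Fin k, {x : ℂ × ℝ | κ (Complex.exp (x.2 * I) * p + x.1) = i} ∈ U := by
    intro p
    have h1 : (⋃ i ∈ (univ : Set (Fin k)),
        {x : ℂ × ℝ | κ (Complex.exp (x.2 * I) * p + x.1) = i}) ∈ U := by
      have : (⋃ i ∈ (univ : Set (Fin k)),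
        {x : ℂ × ℝ | κ (Complex.exp (x.2 * I) * p + x.1) = i}) = univ := by
        ext x
        simp
      rw [this]
      exact Filter.univ_mem
    obtain ⟨i, _, hi⟩ := (Ultrafilter.finite_biUnion_mem_iff finite_univ).1 h1
    exact ⟨i, hi⟩
  choose κ' hκ' using hex
  refine ⟨κ', ?_, ?_⟩
  · have hae : ∀ᵐ p : ℂ, κ' p = κ p := by
      have h1 : ∀ᵐ p : ℂ, ∀ i : Fin k, Tendsto (fun r => volume ((κ ⁻¹' {i})ᶜ ∩
          Metric.closedBall p r) / volume (Metric.closedBall p r)) (𝓝[>] 0)
          (𝓝 ((κ ⁻¹' {i})ᶜ.indicator 1 p)) := by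
        rw [ae_all_iff]
        intro i
        exact Besicovitch.ae_tendsto_measure_inter_div_of_measurableSet volume
          (hm (measurableSet_singleton i)).compl
      filter_upwards [h1] with p hp
      have h2 := hp (κ p)
      rw [indicator_of_notMem (by simp)] at h2
      have h3 := hU _ (MeasB_dens (hm (measurableSet_singleton (κ p))) h2)
      have h4 := Filter.inter_mem (hκ' p) h3
      obtain ⟨x, hx1, hx2⟩ := U.nonempty_of_mem h4
      exact hx1.symm.trans hx2
    intro i
    refine (hm (measurableSet_singleton i)).nullMeasurableSet.congr ?_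
    filter_upwards [hae] with p hp
    simp only [eq_iff_iff]
    change κ p ∈ ({i} : Set (Fin k)) ↔ κ' p ∈ ({i} : Set (Fin k))
    rw [hp]
  · intro p q hpq heq
    set N : Set (ℂ × ℝ) := {x | κ x.1 = κ (x.1 + Complex.exp (x.2 * I))} with hN
    have hNm : MeasurableSet N := by
      apply measurableSet_eq_fun (hm.comp measurable_fst)
      refine hm.comp ?_
      apply Continuous.measurable
      fun_prop
    have hN0 : volume N = 0 := by
      have := h
      rw [ae_iff] at this
      simpa [hN] using this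
    set ψ : ℝ := (q - p).arg with hψ
    have hq : q = p + Complex.exp (ψ * I) := by
      have h5 : ‖q - p‖ = 1 := by rw [norm_sub_rev]; exact hpq
      have h6 := Complex.norm_mul_exp_arg_mul_I (q - p)
      rw [h5] at h6
      rw [hψ]
      simp only [ofReal_one, one_mul] at h6
      rw [h6]
      ring
    have h1 := MeasB_skew hNm hN0 p ψ
    have h2 : ((fun x : ℂ × ℝ => (Complex.exp (x.2 * I) * p + x.1, x.2 + ψ)) ⁻¹' N)ᶜ ∈
        MeasB_filter := by
      apply MeasB_null
      rw [compl_compl]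
      exact h1
    have h3 := hκ' p
    have h4 := hκ' q
    rw [← heq] at h4
    obtain ⟨x, ⟨hx1, hx2⟩, hx3⟩ := U.nonempty_of_mem
      (Filter.inter_mem (Filter.inter_mem h3 h4) (hU _ h2))
    apply hx3
    change κ (Complex.exp (x.2 * I) * p + x.1) =
      κ (Complex.exp (x.2 * I) * p + x.1 + Complex.exp ((x.2 + ψ : ℝ) * I))
    change κ (Complex.exp (x.2 * I) * p + x.1) = κ' p at hx1
    change κ (Complex.exp (x.2 * I) * q + x.1) = κ' p at hx2
    rw [hx1, ← hx2, hq]
    congr 1
    push_cast
    rw [add_mul, Complex.exp_add]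
    ring

end Pool.Agent.MP_8b8716_co_HN
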