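import Mathlib
import Pool.Agent.Lib.MP_8b8716_co_HN.InvCol
import Pool.Agent.Lib.MP_8b8716_co_HN.Corr
import Pool.Agent.Lib.MP_8b8716_co_HN.Avg
import Pool.Agent.Lib.MP_8b8716_co_HN.MeasA
import Pool.Agent.Lib.MP_8b8716_co_HN.MeasB
import Pool.Agent.Lib.MP_8b8716_co_HN.Fld
import Pool.Agent.Lib.MP_8b8716_co.Defs

set_option autoImplicit false

/-!
# MP_8b8716_co, project HN: the main theorem
-/

noncomputable section

namespace Pool.Agent.MP_8b8716_co_HN

open Complex MeasureTheory Filter Topology Set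
open scoped ENNReal

open Pool.Agent.MP8b8716 (unitDistanceGraph)

/-- the restriction of colourings to `KG` -/
def restr {E : Subfield ℂ} (hE : KG ≤ E) {k : ℕ} (ω : E → Fin k) : KG → Fin k :=
  fun w => ω ⟨w, hE w.2⟩

theorem measurable_restr {E : Subfield ℂ} (hE : KG ≤ E) {k : ℕ} :
    Measurable (restr hE : (E → Fin k) → KG → Fin k) :=
  measurable_pi_lambda _ fun _ => measurable_pi_apply _

theorem RandCol.restr {E : Subfield ℂ} (hE : KG ≤ E) {k : ℕ} {μ : Measure (E → Fin k)}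
    (hμ : RandCol E k μ) : RandCol KG k (μ.map (restr hE)) := by
  have hm := measurable_restr hE (k := k)
  have := hμ.prob
  refine ⟨Measure.isProbabilityMeasure_map hm.aemeasurable, ?_, ?_⟩
  · intro z w hzw
    have hs : MeasurableSet {ω : KG → Fin k | ω z = ω w} :=
      measurableSet_eq_fun (measurable_pi_apply z) (measurable_pi_apply w)
    rw [Measure.map_apply hm hs]
    exact hμ.proper ⟨z, hE z.2⟩ ⟨w, hE w.2⟩ hzw
  · intro c b hc
    have h1 := hμ.inv ⟨c, hE c.2⟩ ⟨b, hE b.2⟩ hc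
    have h2 : Measurable fun (ω : KG → Fin k) (z : KG) => ω (c * z + b) :=
      measurable_pi_lambda _ fun _ => measurable_pi_apply _
    refine ⟨h2, ?_⟩
    rw [Measure.map_map h2 hm]
    have h3 : ((fun (ω : KG → Fin k) (z : KG) => ω (c * z + b)) ∘
        Pool.Agent.MP_8b8716_co_HN.restr hE) =
        Pool.Agent.MP_8b8716_co_HN.restr hE ∘
          fun (ω : E → Fin k) (z : E) => ω (⟨c, hE c.2⟩ * z + ⟨b, hE b.2⟩) := by
      funext ω z
      rfl
    rw [h3, ← Measure.map_map hm h1.measurable, h1.map_eq]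

theorem main_meas {F : Subfield ℝ} (hF : Adm F) {k : ℕ} (h : (unitDistanceGraph F).Colorable k) :
    ∃ κ : ℂ → Fin k, (∀ i, NullMeasurableSet (κ ⁻¹' {i})) ∧
      ∀ z w : ℂ, ‖z - w‖ = 1 → κ z ≠ κ w := by
  obtain ⟨E, hE, ht, hEF⟩ := hF.exists_euc
  obtain ⟨C⟩ := h
  set κ : E → Fin k := fun z => C (⟨(z : ℂ).re, (hEF z z.2).1⟩, ⟨(z : ℂ).im, (hEF z z.2).2⟩) with hκ
  have hκ1 : ∀ z w : E, ‖(z : ℂ) - w‖ = 1 → κ z ≠ κ w := by
    intro z w hzw
    apply C.valid
    change (((⟨(z : ℂ).re, (hEF z z.2).1⟩ : F) - ⟨(w : ℂ).re, (hEF w w.2).1⟩) ^ 2 +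
      ((⟨(z : ℂ).im, (hEF z z.2).2⟩ : F) - ⟨(w : ℂ).im, (hEF w w.2).2⟩) ^ 2 : F) = 1
    apply Subtype.ext
    have h1 : ‖(z : ℂ) - w‖ ^ 2 = 1 := by rw [hzw, one_pow]
    rw [← Complex.normSq_eq_norm_sq, Complex.normSq_apply] at h1
    simp only [sub_re, sub_im] at h1
    simp only [pow_two, Subfield.coe_add, Subfield.coe_mul, Subfield.coe_sub, Subfield.coe_one]
    exact h1
  obtain ⟨μ, hμ⟩ := exists_randCol hE.ctb κ hκ1
  have hμK := hμ.restr hE.KG_le
  have hm := measurable_restr hE.KG_le (k := k)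
  have hind : ∀ i : Fin k, Measurable (ind i : (KG → Fin k) → ℝ) := by
    intro i
    have : MeasurableSet {ω : KG → Fin k | ω 0 = i} :=
      measurableSet_eq_fun (measurable_pi_apply 0) measurable_const
    exact Measurable.ite this measurable_const measurable_const
  have hsh : ∀ u : KG, Measurable (shift u : (KG → Fin k) → KG → Fin k) := fun u =>
    measurable_pi_lambda _ fun _ => measurable_pi_apply _
  obtain ⟨g, hg⟩ := exists_soft le_rfl hμK (fun i => by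
    obtain ⟨ψ, h1, h2⟩ := corr hE ht hμ i
    refine ⟨ψ, h1, fun u hu => ?_⟩
    have h5 : AEStronglyMeasurable (fun ω : KG → Fin k => ind i (shift u ω) * ind i ω)
        (μ.map (restr hE.KG_le)) :=
      (((hind i).comp (hsh u)).mul (hind i)).aestronglyMeasurable
    rw [← h2 u hu, integral_map hm.aemeasurable h5]
    refine integral_congr_ae (ae_of_all _ fun ω => ?_)
    have h3 : shift u (restr hE.KG_le ω) (0 : KG) = shift (⟨u, hE.KG_le u.2⟩ : E) ω 0 := by
      simp only [shift, restr]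
      congr 1
    have h4 : restr hE.KG_le ω (0 : KG) = ω 0 := rfl
    simp only [ind, h3, h4])
  obtain ⟨κ', h1, h2⟩ := exists_aecol le_rfl instCountableKG hμK hg
  exact upgrade κ' h1 h2

theorem colorable_mono {F F' : Subfield ℝ} (h : F ≤ F') {k : ℕ}
    (hc : (unitDistanceGraph F').Colorable k) : (unitDistanceGraph F).Colorable k := by
  obtain ⟨C⟩ := hc
  refine ⟨SimpleGraph.Coloring.mk (fun p => C (⟨p.1, h p.1.2⟩, ⟨p.2, h p.2.2⟩)) ?_⟩
  intro p q hpq
  apply C.valid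
  change ((⟨(p.1 : ℝ), _⟩ - ⟨(q.1 : ℝ), _⟩) ^ 2 + (⟨(p.2 : ℝ), _⟩ - ⟨(q.2 : ℝ), _⟩) ^ 2 : F') = 1
  have h1 : ((p.1 - q.1) ^ 2 + (p.2 - q.2) ^ 2 : F) = 1 := hpq
  apply Subtype.ext
  have h2 := congrArg (fun x : F => (x : ℝ)) h1
  simpa using h2

theorem colorable_of_plane {k : ℕ} (κ : EuclideanSpace ℝ (Fin 2) → Fin k)
    (h : ∀ p q, dist p q = 1 → κ p ≠ κ q) : (unitDistanceGraph ⊤).Colorable k := by
  refine ⟨SimpleGraph.Coloring.mk (fun p => κ !₂[(p.1 : ℝ), (p.2 : ℝ)]) ?_⟩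
  intro p q hpq
  apply h
  have h1 : ((p.1 - q.1) ^ 2 + (p.2 - q.2) ^ 2 : (⊤ : Subfield ℝ)) = 1 := hpq
  have h2 := congrArg (fun x : (⊤ : Subfield ℝ) => (x : ℝ)) h1
  rw [EuclideanSpace.dist_eq, Real.sqrt_eq_one]
  simp only [Fin.sum_univ_two, Real.dist_eq, sq_abs]
  simpa using h2

theorem main (F : Subfield ℝ) (hF : Adm F) (k : ℕ) :
    ((unitDistanceGraph F).Colorable k ↔ (unitDistanceGraph ⊤).Colorable k) ∧
    ((unitDistanceGraph F).Colorable k ↔ ∃ κ : EuclideanSpace ℝ (Fin 2) → Fin k,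
      (∀ i, NullMeasurableSet (κ ⁻¹' {i})) ∧ ∀ p q, dist p q = 1 → κ p ≠ κ q) := by
  have key : (unitDistanceGraph F).Colorable k → ∃ κ : EuclideanSpace ℝ (Fin 2) → Fin k,
      (∀ i, NullMeasurableSet (κ ⁻¹' {i})) ∧ ∀ p q, dist p q = 1 → κ p ≠ κ q := by
    intro h
    obtain ⟨κ, h1, h2⟩ := main_meas hF h
    set e := Complex.orthonormalBasisOneI.repr with he
    have hmp : MeasurePreserving (e.symm : EuclideanSpace ℝ (Fin 2) → ℂ) volume volume :=
      Complex.orthonormalBasisOneI.measurePreserving_repr_symm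
    refine ⟨fun p => κ (e.symm p), fun i => ?_, fun p q hpq => ?_⟩
    · exact (h1 i).preimage hmp.quasiMeasurePreserving
    · apply h2
      rw [← dist_eq_norm, e.symm.dist_map, hpq]
  have h3 : (∃ κ : EuclideanSpace ℝ (Fin 2) → Fin k,
      (∀ i, NullMeasurableSet (κ ⁻¹' {i})) ∧ ∀ p q, dist p q = 1 → κ p ≠ κ q) →
      (unitDistanceGraph ⊤).Colorable k := by
    rintro ⟨κ, -, h⟩
    exact colorable_of_plane κ h
  exact ⟨⟨fun h => h3 (key h), colorable_mono le_top⟩, ⟨key, fun h => colorable_mono le_top (h3 h)⟩⟩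

end Pool.Agent.MP_8b8716_co_HN
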