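import Mathlib

set_option autoImplicit false

/-!
# MP_8b8716_co, project HN: the maximal ergodic inequality
-/

noncomputable section

namespace Pool.Agent.MP_8b8716_co_HN

open Complex MeasureTheory Filter Topology Set
open scoped ENNReal

/-- `max (0, S_1, ..., S_n)` for the Birkhoff sums `S_k` of `f`, recursively -/
def maxErgF {X : Type*} (T : X → X) (f : X → ℝ) : ℕ → X → ℝ
  | 0 => fun _ => 0
  | n + 1 => fun x => max 0 (f x + maxErgF T f n (T x))

lemma maxErgF_nonneg {X : Type*} (T : X → X) (f : X → ℝ) (n : ℕ) (x : X) :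
    0 ≤ maxErgF T f n x := by
  cases n with
  | zero => exact le_rfl
  | succ n => exact le_max_left _ _

lemma maxErgF_mono {X : Type*} (T : X → X) (f : X → ℝ) (n : ℕ) :
    ∀ x, maxErgF T f n x ≤ maxErgF T f (n + 1) x := by
  induction n with
  | zero => exact fun x => maxErgF_nonneg T f 1 x
  | succ n ih =>
    intro x
    exact max_le_max le_rfl (by have := ih (T x); linarith)

lemma maxErgF_le {X : Type*} (T : X → X) (f : X → ℝ) (hf : ∀ x, f x ≤ 1) (n : ℕ) :
    ∀ x, maxErgF T f n x ≤ n := by
  induction n with
  | zero =>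
    intro x
    simp [maxErgF]
  | succ n ih =>
    intro x
    have h1 := ih (T x)
    have h2 := hf x
    refine max_le (by positivity) ?_
    push_cast
    linarith

lemma maxErgF_meas {X : Type*} [MeasurableSpace X] {T : X → X} (hT : Measurable T) {f : X → ℝ}
    (hf : Measurable f) (n : ℕ) : Measurable (maxErgF T f n) := by
  induction n with
  | zero => exact measurable_const
  | succ n ih => exact measurable_const.max (hf.add (ih.comp hT))

lemma birkhoffSum_le_maxErgF {X : Type*} (T : X → X) (f : X → ℝ) (n : ℕ) :
    ∀ x, birkhoffSum T f n x ≤ maxErgF T f n x := by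
  induction n with
  | zero =>
    intro x
    simp [maxErgF]
  | succ n ih =>
    intro x
    rw [birkhoffSum_succ']
    exact (by have := ih (T x); linarith : f x + birkhoffSum T f n (T x) ≤
      f x + maxErgF T f n (T x)).trans (le_max_right _ _)

open scoped Classical in
/-- **The maximal ergodic inequality.** -/
theorem max_erg {X : Type*} [MeasurableSpace X] (μ : Measure X) [IsFiniteMeasure μ] {T : X → X}
    (hT : MeasurePreserving T μ μ) {B : Set X} (hB : MeasurableSet B) {δ : ℝ} (hδ : 0 < δ) :
    μ {x | ∃ n : ℕ, 0 < n ∧ δ * n < (((Finset.range n).filter fun k => T^[k] x ∈ B).card : ℝ)} ≤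
      μ B / ENNReal.ofReal δ := by
  set f : X → ℝ := fun x => B.indicator (fun _ => (1 : ℝ)) x - δ with hf
  have hfm : Measurable f := (measurable_const.indicator hB).sub measurable_const
  have hf1 : ∀ x, f x ≤ 1 := fun x => by
    have h1 : B.indicator (fun _ => (1 : ℝ)) x ≤ 1 := by
      by_cases hx : x ∈ B
      · rw [indicator_of_mem hx]
      · rw [indicator_of_notMem hx]
        exact zero_le_one
    rw [hf]
    dsimp only
    linarith
  have hFm : ∀ n, Measurable (maxErgF T f n) := maxErgF_meas hT.measurable hfm
  have hint : ∀ n, Integrable (maxErgF T f n) μ := fun n => by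
    refine Integrable.of_bound (hFm n).aestronglyMeasurable (n : ℝ) (ae_of_all _ fun x => ?_)
    rw [Real.norm_eq_abs, abs_of_nonneg (maxErgF_nonneg T f n x)]
    exact maxErgF_le T f hf1 n x
  have hintT : ∀ n, Integrable (fun x => maxErgF T f n (T x)) μ := fun n =>
    (hT.integrable_comp (hFm n).aestronglyMeasurable).2 (hint n)
  have hcomp : ∀ n, ∫ x, maxErgF T f n (T x) ∂μ = ∫ x, maxErgF T f n x ∂μ := fun n => by
    have h1 := integral_map (μ := μ) hT.measurable.aemeasurable
      (f := maxErgF T f n) (hFm n).aestronglyMeasurable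
    rw [hT.map_eq] at h1
    exact h1.symm
  have hfi : Integrable f μ := ((integrable_const (1 : ℝ)).indicator hB).sub (integrable_const δ)
  -- the bound for the truncated maximal function
  have key : ∀ n, μ {x | 0 < maxErgF T f n x} ≤ μ B / ENNReal.ofReal δ := by
    intro n
    cases n with
    | zero =>
      have h0 : {x | 0 < maxErgF T f 0 x} = (∅ : Set X) := by
        ext x
        simp [maxErgF]
      rw [h0, measure_empty]
      exact bot_le
    | succ n =>
      set A : Set X := {x | 0 < maxErgF T f (n + 1) x} with hA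
      have hAm : MeasurableSet A := measurableSet_lt measurable_const (hFm (n + 1))
      have h1 : ∫ x in A, f x ∂μ =
          ∫ x in A, (maxErgF T f (n + 1) x - maxErgF T f n (T x)) ∂μ := by
        refine setIntegral_congr_fun hAm fun x hx => ?_
        have hx' : 0 < max 0 (f x + maxErgF T f n (T x)) := hx
        have h2 : max 0 (f x + maxErgF T f n (T x)) = f x + maxErgF T f n (T x) := by
          rcases max_choice 0 (f x + maxErgF T f n (T x)) with h | h
          · rw [h] at hx'
            exact absurd hx' (lt_irrefl _)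
          · exact h
        change f x = max 0 (f x + maxErgF T f n (T x)) - maxErgF T f n (T x)
        rw [h2]
        ring
      have h2 : ∫ x in A, (maxErgF T f (n + 1) x - maxErgF T f n (T x)) ∂μ =
          ∫ x in A, maxErgF T f (n + 1) x ∂μ - ∫ x in A, maxErgF T f n (T x) ∂μ :=
        integral_sub (hint (n + 1)).integrableOn (hintT n).integrableOn
      have h3 : ∫ x in A, maxErgF T f (n + 1) x ∂μ = ∫ x, maxErgF T f (n + 1) x ∂μ := by
        refine setIntegral_eq_integral_of_forall_compl_eq_zero fun x hx => ?_
        exact le_antisymm (not_lt.1 hx) (maxErgF_nonneg T f (n + 1) x)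
      have h4 : ∫ x in A, maxErgF T f n (T x) ∂μ ≤ ∫ x, maxErgF T f n (T x) ∂μ :=
        setIntegral_le_integral (hintT n) (ae_of_all _ fun x => maxErgF_nonneg T f n (T x))
      have h5 : ∫ x, maxErgF T f n x ∂μ ≤ ∫ x, maxErgF T f (n + 1) x ∂μ :=
        integral_mono (hint n) (hint (n + 1)) (maxErgF_mono T f n)
      have h6 : 0 ≤ ∫ x in A, f x ∂μ := by
        rw [h1, h2, h3]
        rw [hcomp n] at h4
        linarith
      have h7 : ∫ x in A, f x ∂μ = μ.real (A ∩ B) - δ * μ.real A := by
        have h8 : ∫ x in A, f x ∂μ =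
            ∫ x in A, B.indicator (fun _ => (1 : ℝ)) x ∂μ - ∫ _x in A, δ ∂μ :=
          integral_sub (((integrable_const (1 : ℝ)).indicator hB).integrableOn)
            (integrable_const δ).integrableOn
        rw [h8, setIntegral_indicator hB]
        simp only [setIntegral_const, smul_eq_mul, mul_one]
        ring
      rw [h7] at h6
      have h9 : δ * μ.real A ≤ μ.real B := by
        have h10 : μ.real (A ∩ B) ≤ μ.real B := measureReal_mono inter_subset_right
        linarith
      rw [ENNReal.le_div_iff_mul_le (Or.inl (by simpa using hδ)) (Or.inl ENNReal.ofReal_ne_top)]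
      rw [← ENNReal.ofReal_toReal (measure_ne_top μ A), ← ENNReal.ofReal_toReal (measure_ne_top μ B),
        ← ENNReal.ofReal_mul ENNReal.toReal_nonneg]
      refine ENNReal.ofReal_le_ofReal ?_
      rw [mul_comm]
      exact h9
  -- the union
  have hmono : Monotone fun n => {x | 0 < maxErgF T f n x} := by
    refine monotone_nat_of_le_succ fun n x hx => ?_
    exact lt_of_lt_of_le (show 0 < maxErgF T f n x from hx) (maxErgF_mono T f n x)
  have hsub : {x | ∃ n : ℕ, 0 < n ∧
      δ * n < (((Finset.range n).filter fun k => T^[k] x ∈ B).card : ℝ)} ⊆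
      ⋃ n, {x | 0 < maxErgF T f n x} := by
    rintro x ⟨n, -, hn⟩
    rw [mem_iUnion]
    refine ⟨n, lt_of_lt_of_le ?_ (birkhoffSum_le_maxErgF T f n x)⟩
    have h1 : birkhoffSum T f n x =
        (((Finset.range n).filter fun k => T^[k] x ∈ B).card : ℝ) - δ * n := by
      rw [birkhoffSum, Finset.card_filter]
      simp only [hf, Finset.sum_sub_distrib, Finset.sum_const, Finset.card_range, nsmul_eq_mul]
      push_cast
      rw [mul_comm (n : ℝ) δ]
      congr 1
    rw [h1]
    linarith
  refine (measure_mono hsub).trans ?_
  rw [hmono.measure_iUnion]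
  exact iSup_le key

end Pool.Agent.MP_8b8716_co_HN
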