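import Pool.Agent.Lib.MP_8b8716_co_HN.Main

set_option autoImplicit false

/-!
# The chromatic number of `F ^ 2` and the measurable chromatic number of the plane

`unitDistanceGraph F` is the graph on `F × F` in which `p` and `q` are adjacent if and only if
`(p.1 - q.1) ^ 2 + (p.2 - q.2) ^ 2 = 1`; `unitDistanceGraph ⊤` is the unit-distance graph of the
plane over all real numbers.
-/

namespace Pool.Agent.MP_8b8716_co_HN.MeasurableChromaticThm

open MeasureTheory Pool.Agent.MP8b8716

/-- Let `F` be a field of real numbers. Suppose that for every prime number `l` which is not `1`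
modulo `4`, either `√(8 l - 1) ∈ F` or the unit circle has a point `(q, y)` with `q` rational,
`y ∈ F`, such that `l` divides the denominator of `2 q`. Then the chromatic number of the
unit-distance graph of `F²`, the chromatic number of the plane, and the measurable chromatic number
of the plane are equal. -/
theorem result (F : Subfield ℝ)
    (hF : ∀ l : ℕ, l.Prime → l % 4 ≠ 1 → Real.sqrt (8 * l - 1) ∈ F ∨
      ∃ q : ℚ, ∃ y ∈ F, (q : ℝ) ^ 2 + y ^ 2 = 1 ∧ padicValRat l (2 * q) < 0) :
    (unitDistanceGraph F).chromaticNumber = (unitDistanceGraph ⊤).chromaticNumber ∧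
    ∀ k : ℕ, (unitDistanceGraph F).chromaticNumber ≤ k ↔
      ∃ κ : EuclideanSpace ℝ (Fin 2) → Fin k,
        (∀ i, NullMeasurableSet (κ ⁻¹' {i}) volume) ∧ ∀ p q, dist p q = 1 → κ p ≠ κ q := by
  have hA : Pool.Agent.MP_8b8716_co_HN.Adm F := by
    intro l hl h4
    rcases hF l hl h4 with h | h
    · exact Pool.Agent.MP_8b8716_co_HN.pt_of_sqrt hl h
    · exact h
  have hk : ∀ k : ℕ, (unitDistanceGraph F).Colorable k ↔ (unitDistanceGraph ⊤).Colorable k :=
    fun k => (Pool.Agent.MP_8b8716_co_HN.main F hA k).1
  refine ⟨?_, fun k => ?_⟩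
  · have h1 : ∀ n : ℕ∞, (unitDistanceGraph F).chromaticNumber ≤ n ↔
        (unitDistanceGraph ⊤).chromaticNumber ≤ n := by
      intro n
      induction n using ENat.recTopCoe with
      | top => simp
      | coe n =>
        rw [SimpleGraph.chromaticNumber_le_iff_colorable,
          SimpleGraph.chromaticNumber_le_iff_colorable]
        exact hk n
    exact le_antisymm ((h1 _).2 le_rfl) ((h1 _).1 le_rfl)
  · rw [SimpleGraph.chromaticNumber_le_iff_colorable]
    exact (Pool.Agent.MP_8b8716_co_HN.main F hA k).2

end Pool.Agent.MP_8b8716_co_HN.MeasurableChromaticThm
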